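import Mathlib
import Pool.Agent.H270R2.GEN.Defs
import Pool.Agent.Helper278.KLift

/-!
Lifting `k`-independent pairs of unitaries from the ultrapower of a II_1 factor (MP_64d6f1_an).
Definitions.  Owner: helper30.
-/

set_option autoImplicit false

open scoped ComplexOrder Topology BoundedContinuousFunction ComplexConjugate
open Filter

noncomputable section

namespace Pool.Agent.H30K

open Pool.Agent.H467F (TW)
open Pool.Agent.H735G (NoAbA)
open Pool.Agent.H270G (EZ EZP Lt wv cnt upd rot)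

/-! ### Block W: the walk with centered coefficients -/

section walk

variable {A : Type} [CStarAlgebra A]

/-- Lists of letters such that, whenever a letter is followed by a letter of the same colour with the
other sign, its coefficient is centered. -/
def RedC (τ : A →ₗ[ℂ] ℂ) {J : Type} (y : J → A) (L : List (Lt J)) : Prop :=
  L.IsChain (fun a b => (a.1 = b.1 ∧ a.2.1 ≠ b.2.1) → EZ τ (y a.2.2) = 0)

/-- The conclusion of the random walk argument. -/
def WalkC (τ : A →ₗ[ℂ] ℂ) (N : StarSubalgebra ℂ A) : Prop :=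
  ∀ (J : Type) [Fintype J] (y : J → A), (∀ j, ‖y j‖ ≤ 1) → ∀ (D : ℕ) (δ : ℝ), 0 < δ →
    ∃ c : Fin 4 → unitary A, (∀ i, (c i : A) ∈ N) ∧
      ∀ (j0 : J) (L : List (Lt J)), L ≠ [] → L.length ≤ D → RedC τ y L →
        Pool.Agent.H467F.n2 τ (EZ τ (y j0 * wv (fun i => (c i : A)) y L)) ≤ δ

/-- Approximately free symmetries exist: all inner coefficients centered, the two outer ones are
arbitrary. -/
def FreeSym (τ : A →ₗ[ℂ] ℂ) : Prop :=
  ∀ (J : Type) [Fintype J] (y : J → A), (∀ j, ‖y j‖ ≤ 1) → ∀ (D : ℕ) (δ : ℝ), 0 < δ →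
    ∃ s : A, star s = s ∧ s * s = 1 ∧
      ∀ (j0 : J) (L : List J), L ≠ [] → L.length ≤ D → (∀ j ∈ L.dropLast, τ (y j) = 0) →
        ‖τ (y j0 * (L.map fun j => s * y j).prod)‖ ≤ δ

end walk

/-! ### Independence and freeness for a functional on an algebra -/

section alg

variable {B : Type} [Ring B] [Algebra ℂ B]

/-- All alternating centered words of length `1, ..., N` in `S true`, `S false` vanish. -/
def KIS (φ : B →ₗ[ℂ] ℂ) (S : Bool → Subalgebra ℂ B) (N : ℕ) : Prop :=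
  ∀ L : List (Bool × B), L ≠ [] → L.length ≤ N → L.IsChain (fun x y => x.1 ≠ y.1) →
    (∀ x ∈ L, x.2 ∈ S x.1 ∧ φ x.2 = 0) → φ (L.map Prod.snd).prod = 0

/-- The symmetry `s` is free from `C`. -/
def FreeOver (φ : B →ₗ[ℂ] ℂ) (s : B) (C : Subalgebra ℂ B) : Prop :=
  ∀ (e0 : B) (L : List B), e0 ∈ C → (∀ e ∈ L, e ∈ C) → L ≠ [] →
    (∀ e ∈ L.dropLast, φ e = 0) → φ (e0 * (L.map fun e => s * e).prod) = 0

/-- Alternating words (the letters have two sides). -/
def Alt {Λ : Type} (sd : Λ → Bool) (L : List Λ) : Prop := L.IsChain (fun x y => sd x ≠ sd y)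

/-- Product of the letters. -/
def zv {Λ : Type} (z : Λ → B) (L : List Λ) : B := (L.map z).prod

/-- The letters of side `false` conjugated. -/
def zc {Λ : Type} (sd : Λ → Bool) (z : Λ → B) (w w' : B) (l : Λ) : B :=
  if sd l = true then z l else w * z l * w'

/-- The sign: `+1` if the word starts with side `false`, `-1` if it starts with side `true`. -/
def sg {Λ : Type} (sd : Λ → Bool) : List Λ → ℝ
  | [] => 0
  | l :: _ => if sd l = true then -1 else 1

/-- The element `Δ_L = ∑_r sg (rotate r L) • (word of rotate r L)`. -/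
def Dl {Λ : Type} (sd : Λ → Bool) (z : Λ → B) (L : List Λ) : B :=
  ∑ r ∈ Finset.range L.length, ((sg sd (L.rotate r) : ℝ) : ℂ) • zv z (L.rotate r)

end alg

/-- The index set of all alternating words of even length `2, ..., N`. -/
def Wd {Λ : Type} (sd : Λ → Bool) (N : ℕ) : Type :=
  {L : List Λ // Alt sd L ∧ Even L.length ∧ L ≠ [] ∧ L.length ≤ N}

instance {Λ : Type} [Fintype Λ] (sd : Λ → Bool) (N : ℕ) : Finite (Wd sd N) :=
  Set.Finite.to_subtype ((List.finite_length_le Λ N).subset fun _ h => h.2.2.2)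

instance {Λ : Type} [Fintype Λ] (sd : Λ → Bool) (N : ℕ) : Fintype (Wd sd N) := Fintype.ofFinite _

/-- The symmetric coefficient families: invariant under rotation, conjugated by reversal. -/
def EE {Λ : Type} (sd : Λ → Bool) (N : ℕ) : Submodule ℝ (Wd sd N → ℂ) where
  carrier := {t | ∀ L M : Wd sd N, (M.1 = L.1.rotate 1 → t M = t L) ∧
    (M.1 = L.1.reverse → t M = conj (t L))}
  add_mem' := by
    intro a b ha hb L M
    refine ⟨fun h => ?_, fun h => ?_⟩
    · simp only [Pi.add_apply, (ha L M).1 h, (hb L M).1 h]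
    · simp only [Pi.add_apply, (ha L M).2 h, (hb L M).2 h, map_add]
  zero_mem' := by
    intro L M
    simp
  smul_mem' := by
    intro c a ha L M
    refine ⟨fun h => ?_, fun h => ?_⟩
    · simp only [Pi.smul_apply, (ha L M).1 h]
    · simp only [Pi.smul_apply, (ha L M).2 h, Complex.real_smul, map_mul, Complex.conj_ofReal]

/-- The gradient element `P_t = ∑_L |L| sg(L) conj(t_L) • (word of L)`. -/
def PP {B : Type} [Ring B] [Algebra ℂ B] {Λ : Type} [Fintype Λ] (sd : Λ → Bool) (z : Λ → B)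
    (N : ℕ) (t : Wd sd N → ℂ) : B :=
  ∑ L : Wd sd N, (((L.1.length : ℝ) * sg sd L.1 : ℝ) * conj (t L)) • zv z L.1

/-- Two projection valued measures, indexed by the two sides. -/
structure PV2 {B : Type} [Ring B] [StarRing B] {Λ : Type} [Fintype Λ] (sd : Λ → Bool) (p : Λ → B) :
    Prop where
  star_eq : ∀ l, star (p l) = p l
  idem : ∀ l, p l * p l = p l
  orth : ∀ l m, l ≠ m → sd l = sd m → p l * p m = 0
  sum : ∀ b, ∑ l : {l : Λ // sd l = b}, p l.1 = 1

/-- The algebras generated by the two sides. -/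
def spn {B : Type} [Ring B] [Algebra ℂ B] {Λ : Type} (sd : Λ → Bool) (p : Λ → B) (b : Bool) :
    Subalgebra ℂ B := Algebra.adjoin ℂ {x | ∃ l, sd l = b ∧ x = p l}

/-- The algebra generated by a unitary and its adjoint. -/
def gen2 {B : Type} [Ring B] [StarRing B] [Algebra ℂ B] (a : Bool → B) (b : Bool) :
    Subalgebra ℂ B := Algebra.adjoin ℂ {a b, star (a b)}

/-- The finite form of the lifting property. -/
def FSk {A : Type} [CStarAlgebra A] (τ : A →ₗ[ℂ] ℂ) (k : ℕ) : Prop :=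
  ∀ ε : ℝ, 0 < ε → ∃ (K : ℕ) (η : ℝ), 0 < η ∧ ∀ a : Bool → unitary A,
    (∀ (b : Bool) (l : List ℤ), l ≠ [] → l.length ≤ k → (∀ x ∈ l, |x| ≤ K) →
      ‖τ ((l.mapIdx fun i x => (((a (if Even i then b else !b)) ^ x : unitary A) : A) -
        τ (((a (if Even i then b else !b)) ^ x : unitary A) : A) • (1 : A)).prod)‖ ≤ η) →
    ∃ a' : Bool → unitary A,
      (∀ j, 1 ≤ j → j ≤ k → Pool.Agent.Helper278.KIndep τ j (a' true : A) (a' false : A)) ∧
      ∀ b, Pool.Agent.Helper278.n2 τ ((a b : A) - (a' b : A)) ≤ ε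

/-- `φ` is the limit of `τ` along `U` on the algebra of bounded sequences (with the standard facts
that follow). -/
structure ULim {A : Type} [CStarAlgebra A] (τ : A →ₗ[ℂ] ℂ) (U : Ultrafilter ℕ)
    (φ : (ℕ →ᵇ A) →ₗ[ℂ] ℂ) : Prop where
  lim : ∀ x, Tendsto (fun n => τ (x n)) U (𝓝 (φ x))
  lim2 : ∀ x, Tendsto (fun n => Pool.Agent.H467F.n2 τ (x n)) U (𝓝 (Pool.Agent.H467F.n2 φ x))
  one : φ 1 = 1
  comm : ∀ x y, φ (x * y) = φ (y * x)
  nonneg : ∀ x, 0 ≤ φ (star x * x)
  cj : ∀ x, φ (star x) = star (φ x)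
  cauchy : ∀ x y, ‖φ (x * y)‖ ≤ Pool.Agent.H467F.n2 φ x * Pool.Agent.H467F.n2 φ y
  norm_le : ∀ x, ‖φ x‖ ≤ Pool.Agent.H467F.n2 φ x
  n2_le : ∀ x, Pool.Agent.H467F.n2 φ x ≤ ‖x‖
  n2_add : ∀ x y, Pool.Agent.H467F.n2 φ (x + y) ≤
    Pool.Agent.H467F.n2 φ x + Pool.Agent.H467F.n2 φ y
  n2_mul_left : ∀ x y, Pool.Agent.H467F.n2 φ (x * y) ≤ ‖x‖ * Pool.Agent.H467F.n2 φ y
  n2_mul_right : ∀ x y, Pool.Agent.H467F.n2 φ (x * y) ≤ Pool.Agent.H467F.n2 φ x * ‖y‖
  n2_star : ∀ x, Pool.Agent.H467F.n2 φ (star x) = Pool.Agent.H467F.n2 φ x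
  sq : ∀ x, φ (star x * x) = ((Pool.Agent.H467F.n2 φ x ^ 2 : ℝ) : ℂ)

/-- The letters which are not distinguished. -/
abbrev Lam {Λ : Type} (sd : Λ → Bool) (l0 : Bool → Λ) : Type := {l : Λ // l ≠ l0 (sd l)}

/-- The side of a letter that is not distinguished. -/
def sd' {Λ : Type} (sd : Λ → Bool) (l0 : Bool → Λ) (l : Lam sd l0) : Bool := sd l.1

/-- The centered letters. -/
def ctr {B : Type} [Ring B] [Algebra ℂ B] (φ : B →ₗ[ℂ] ℂ) {Λ : Type} (sd : Λ → Bool)
    (l0 : Bool → Λ) (p : Λ → B) (l : Lam sd l0) : B := p l.1 - φ (p l.1) • (1 : B)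

/-- The dual letters. -/
def dul {B : Type} [Ring B] [Algebra ℂ B] (φ : B →ₗ[ℂ] ℂ) {Λ : Type} (sd : Λ → Bool)
    (l0 : Bool → Λ) (p : Λ → B) (l : Lam sd l0) : B :=
  (φ (p l.1))⁻¹ • p l.1 - (φ (p (l0 (sd l.1))))⁻¹ • p (l0 (sd l.1))

/-- For every nonprincipal ultrafilter and every model of the tracial ultrapower, every two
`k`-independent unitaries have unitary lifts that are again `k`-independent term by term
(cumulative reading: all alternating centered words of length at most `k` vanish). -/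
def LiftsStrong (k : ℕ) (M : Type) [NormedRing M] [StarRing M] [CStarRing M]
    [NormedAlgebra ℂ M] [StarModule ℂ M] (τ : M → ℂ) : Prop :=
  ∀ U : Ultrafilter ℕ, (∀ n, {n} ∉ U) → ∀ (Q : Type) [Ring Q] [StarRing Q] [Algebra ℂ Q]
    [StarModule ℂ Q] (π : (ℕ →ᵇ M) →⋆ₐ[ℂ] Q) (σ : Q → ℂ),
    Pool.Agent.Helper278.IsTracialUltrapower τ U π σ →
    ∀ u ∈ unitary Q, ∀ v ∈ unitary Q, (∀ j, 1 ≤ j → j ≤ k → Pool.Agent.Helper278.KIndep σ j u v) →
      ∃ a b : ℕ →ᵇ M, (∀ n, a n ∈ unitary M) ∧ (∀ n, b n ∈ unitary M) ∧ π a = u ∧ π b = v ∧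
        ∀ n, ∀ j, 1 ≤ j → j ≤ k → Pool.Agent.Helper278.KIndep τ j (a n) (b n)

end Pool.Agent.H30K
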