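import Mathlib
import Pool.Agent.H30R4.KI.Defs
import Pool.Agent.H594R3.GEN.OneGen
import Pool.Agent.H255R2.GEN.CEN
import Pool.Agent.Helper467.FP.P_tau_bounds

/-! MP_64d6f1_an, task FSYM: approximately free symmetries in a factor. -/

set_option autoImplicit false

open scoped ComplexOrder Topology BoundedContinuousFunction ComplexConjugate
open Filter

noncomputable section

namespace Pool.Agent.H30K

open Pool.Agent.H467F (TW)
open Pool.Agent.H735G (NoAbA)
open Pool.Agent.H270G (EZ EZP Lt wv cnt upd rot D2 Mixing cl)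

variable {A : Type} [CStarAlgebra A] {τ : A →ₗ[ℂ] ℂ}

namespace FSYMn

/-- The doubled word. -/
def dbl {J : Type} (L : List J) : List (Lt (Option J)) :=
  L.flatMap fun j => [(0, false, none), (0, true, some j)]

theorem dbl_cons {J : Type} (j : J) (L : List J) :
    dbl (j :: L) = (0, false, none) :: (0, true, some j) :: dbl L := by
  simp [dbl]

theorem dbl_length {J : Type} (L : List J) : (dbl L).length = 2 * L.length := by
  induction L with
  | nil => rfl
  | cons j L ih => rw [dbl_cons, List.length_cons, List.length_cons, ih, List.length_cons]; ring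

theorem wv_dbl {J : Type} (c : Fin 4 → A) (s0 : A) (y : J → A) (L : List J) :
    wv c (fun o : Option J => o.elim s0 y) (dbl L) =
      (L.map fun j => (star (c 0) * s0 * c 0) * y j).prod := by
  induction L with
  | nil => simp [dbl, wv]
  | cons j L ih =>
    rw [dbl_cons, List.map_cons, List.prod_cons, ← ih]
    simp only [wv, cl, Bool.false_eq_true, if_false, if_true, Option.elim]
    simp only [mul_assoc]

theorem red_dbl {J : Type} (s0 : A) (h0 : EZ τ s0 = 0) (y : J → A) :
    ∀ L : List J, (∀ j ∈ L.dropLast, EZ τ (y j) = 0) →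
      RedC τ (fun o : Option J => o.elim s0 y) (dbl L) := by
  intro L
  induction L with
  | nil => intro _; simp [dbl, RedC]
  | cons j L ih =>
    intro hL
    cases L with
    | nil =>
      unfold RedC
      rw [dbl_cons]
      simp only [dbl, List.flatMap_nil]
      rw [List.isChain_cons_cons]
      exact ⟨fun _ => h0, List.isChain_singleton _⟩
    | cons k L =>
      have h1 : RedC τ (fun o : Option J => o.elim s0 y) (dbl (k :: L)) := by
        refine ih fun i hi => hL i ?_
        rw [List.dropLast_cons_cons]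
        exact List.mem_cons_of_mem _ hi
      have h2 : EZ τ (y j) = 0 := hL j (by rw [List.dropLast_cons_cons]; exact List.mem_cons_self)
      unfold RedC at h1 ⊢
      rw [dbl_cons j, dbl_cons k, List.isChain_cons_cons, List.isChain_cons_cons]
      rw [dbl_cons k] at h1
      exact ⟨fun _ => h0, fun _ => h2, h1⟩

end FSYMn

open FSYMn in
/-- FSYM -/
theorem freeSym (h : TW τ) (hA : NoAbA A)
    (hF : ∀ z : A, (∀ y, z * y = y * z) → ∃ c : ℂ, z = c • (1 : A))
    (hW : WalkC τ (⊤ : StarSubalgebra ℂ A)) : FreeSym τ := by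
  have hz : EZP τ := Pool.Agent.H270G.T_CEN.ezp h
  have hEZ : ∀ x, EZ τ x = τ x • (1 : A) := by
    intro x
    obtain ⟨c, hc⟩ := hF (EZ τ x) (fun y => hz.comm x y)
    have h1 := hz.trace x
    rw [hc, map_smul, h.one, smul_eq_mul, mul_one] at h1
    rw [hc, h1]
  obtain ⟨s0, t0, hs, ht, hs1, ht1, hst⟩ := Pool.Agent.H594R3.GEN.exists_pair h hA
  have hτ0 : τ s0 = 0 := by
    have e1 : t0 * (s0 * t0) = -s0 := by
      rw [hst, mul_neg, ← mul_assoc, ht1, one_mul]
    have e2 : (s0 * t0) * t0 = s0 := by rw [mul_assoc, ht1, mul_one]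
    have e3 : τ (t0 * (s0 * t0)) = τ ((s0 * t0) * t0) := h.comm _ _
    rw [e1, e2, map_neg] at e3
    have : (2 : ℂ) * τ s0 = 0 := by linear_combination -e3
    simpa using this
  have hn0 : ‖s0‖ ≤ 1 := by
    have h1 : ‖(1 : A)‖ ≤ 1 := by
      have : ‖(1 : A)‖ * ‖(1 : A)‖ = ‖(1 : A)‖ := by
        have := CStarRing.norm_star_mul_self (x := (1 : A))
        rw [star_one, mul_one] at this
        exact this.symm
      nlinarith [norm_nonneg (1 : A), sq_nonneg (‖(1 : A)‖ - 1)]
    have h2 := CStarRing.norm_star_mul_self (x := s0)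
    rw [hs, hs1] at h2
    nlinarith [norm_nonneg s0]
  intro J _ y hy D δ hδ
  obtain ⟨c, -, hc⟩ := hW (Option J) (fun o : Option J => o.elim s0 y)
    (by
      intro o
      cases o with
      | none => exact hn0
      | some j => exact hy j) (2 * D) δ hδ
  have hcc : (c 0 : A) * star (c 0 : A) = 1 := Unitary.coe_mul_star_self (c 0)
  refine ⟨star (c 0 : A) * s0 * (c 0 : A), ?_, ?_, ?_⟩
  · rw [star_mul, star_mul, star_star, hs, mul_assoc]
  · have : star (c 0 : A) * s0 * (c 0 : A) * (star (c 0 : A) * s0 * (c 0 : A)) =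
        star (c 0 : A) * (s0 * ((c 0 : A) * star (c 0 : A)) * s0) * (c 0 : A) := by
      simp only [mul_assoc]
    rw [this, hcc, mul_one, hs1, mul_one]
    exact Unitary.coe_star_mul_self (c 0)
  · intro j0 L hL0 hLD hLc
    have h1 := hc (some j0) (dbl L) (by
        intro he
        have := dbl_length L
        rw [he] at this
        have h3 : L.length ≠ 0 := fun h4 => hL0 (List.eq_nil_of_length_eq_zero h4)
        simp at this
        exact hL0 this) (by rw [dbl_length]; omega)
        (red_dbl s0 (by rw [hEZ, hτ0, zero_smul]) y L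
          (fun j hj => by rw [hEZ, hLc j hj, zero_smul]))
    rw [wv_dbl] at h1
    refine le_trans ?_ h1
    rw [← hz.trace]
    exact (Pool.Agent.H467F.tau_bounds h).1 _

end Pool.Agent.H30K
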