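import Mathlib
import Pool.Agent.H30R4.KI.Defs

/-!
# LIFT: from the finite form to the lifting of `k`-independent pairs
-/

set_option autoImplicit false
set_option linter.unusedSectionVars false

open scoped ComplexOrder Topology BoundedContinuousFunction ComplexConjugate
open Filter

noncomputable section

namespace Pool.Agent.H30K

open Pool.Agent.Helper278

/-- Alternating words in centered elements. -/
theorem LIFT_alt {R : Type} [Ring R] (S : Bool → Set R) (f : Bool → ℤ → R)
    (hf : ∀ c x, f c x ∈ S c) (l : List ℤ) : ∀ c : Bool,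
    (l.mapIdx fun i x => f (if Even i then c else !c) x).prod ∈
      AltProducts (S c) (S (!c)) l.length := by
  induction l with
  | nil =>
    intro c
    show _ ∈ ({1} : Set R)
    simp
  | cons x t ih =>
    intro c
    rw [List.mapIdx_cons, List.prod_cons, List.length_cons]
    refine ⟨f c x, hf c x, (t.mapIdx fun i x => f (if Even i then !c else !!c) x).prod, ?_, ?_⟩
    · have := ih (!c)
      rwa [Bool.not_not] at this ⊢
    · have h0 : (if Even 0 then c else !c) = c := by simp
      rw [h0]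
      congr 3
      funext i y
      congr 1
      rcases Nat.even_or_odd i with hi | hi
      · have hi1 : ¬ Even (i + 1) := by
          rw [Nat.not_even_iff_odd]; exact hi.add_one
        rw [if_pos hi, if_neg hi1]
      · have hi1 : Even (i + 1) := hi.add_one
        rw [if_neg (Nat.not_even_iff_odd.2 hi), if_pos hi1, Bool.not_not]

theorem LIFT_map_mapIdx {X Y Z : Type} (g : Y → Z) (l : List X) : ∀ f : ℕ → X → Y,
    (l.mapIdx f).map g = l.mapIdx fun i x => g (f i x) := by
  induction l with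
  | nil => intro f; rfl
  | cons x t ih =>
    intro f
    rw [List.mapIdx_cons, List.mapIdx_cons, List.map_cons, ih]

variable {H : Type} [NormedAddCommGroup H] [InnerProductSpace ℂ H] [CompleteSpace H]
variable {N : VonNeumannAlgebra H}

theorem LIFT_tau_le (T : TracialState N) (a : unitary (Elt N)) : ‖T.τ (a : Elt N)‖ ≤ 1 := by
  have hA := trAlg T
  refine (hA.norm_le _).trans ?_
  unfold n2
  rw [Unitary.coe_star_mul_self a, hA.one]
  simp

/-- The centered powers of a sequence of unitaries as a bounded sequence. -/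
def LIFT_cs (T : TracialState N) (a : ℕ → unitary (Elt N)) (x : ℤ) : ℕ →ᵇ Elt N :=
  BoundedContinuousFunction.ofNormedAddCommGroupDiscrete
    (fun n => (((a n) ^ x : unitary (Elt N)) : Elt N) -
      T.τ (((a n) ^ x : unitary (Elt N)) : Elt N) • (1 : Elt N)) 2
    (fun n => by
      have h1 : ‖(((a n) ^ x : unitary (Elt N)) : Elt N)‖ ≤ 1 := norm_unitary_le _
      have h2 : ‖T.τ (((a n) ^ x : unitary (Elt N)) : Elt N) • (1 : Elt N)‖ ≤ 1 := by
        refine (norm_smul_le _ _).trans ?_
        have h3 := LIFT_tau_le T ((a n) ^ x)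
        have h4 : ‖(1 : Elt N)‖ ≤ 1 := norm_unitary_le (1 : unitary (Elt N))
        calc _ ≤ (1 : ℝ) * 1 := mul_le_mul h3 h4 (norm_nonneg _) (by norm_num)
          _ = 1 := by norm_num
      refine (norm_sub_le _ _).trans ?_
      linarith)

theorem LIFT_cs_apply (T : TracialState N) (a : ℕ → unitary (Elt N)) (x : ℤ) (n : ℕ) :
    LIFT_cs T a x n = (((a n) ^ x : unitary (Elt N)) : Elt N) -
      T.τ (((a n) ^ x : unitary (Elt N)) : Elt N) • (1 : Elt N) := rfl

theorem LIFT_prod_apply (L : List (ℕ →ᵇ Elt N)) (n : ℕ) :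
    L.prod n = (L.map fun w => w n).prod := by
  induction L with
  | nil => rfl
  | cons w L ih =>
    rw [List.prod_cons, List.map_cons, List.prod_cons, BoundedContinuousFunction.mul_apply, ih]

variable {Q : Type} [Ring Q] [StarRing Q] [Algebra ℂ Q] [StarModule ℂ Q]
variable {T : TracialState N} {U : Ultrafilter ℕ} {π : (ℕ →ᵇ Elt N) →⋆ₐ[ℂ] Q} {σ : Q → ℂ}

theorem LIFT_n2_smul (T : TracialState N) (c : ℂ) : n2 T.τ (c • (1 : Elt N)) = ‖c‖ := by
  have hA := trAlg T
  unfold n2
  rw [star_smul, star_one, smul_mul_smul_comm, mul_one, map_smul, hA.one]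
  have : star c * c = ((‖c‖ ^ 2 : ℝ) : ℂ) := by
    rw [Complex.star_def, Complex.conj_mul']
    push_cast
    rfl
  rw [smul_eq_mul, mul_one, this, Complex.ofReal_re, Real.sqrt_sq (norm_nonneg _)]

theorem LIFT_pi_cs (hπ : IsTracialUltrapower T.τ U π σ) (a : ℕ → unitary (Elt N)) (x : ℤ) :
    π (LIFT_cs T a x) = zp (π (mkB a)) x - σ (zp (π (mkB a)) x) • (1 : Q) := by
  have h1 : zp (π (mkB a)) x - σ (zp (π (mkB a)) x) • (1 : Q) =
      π (zp (mkB a) x - σ (zp (π (mkB a)) x) • (1 : ℕ →ᵇ Elt N)) := by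
    rw [map_sub, map_smul, map_one, map_zp]
  rw [h1, pi_eq_iff hπ]
  have t1 := hπ.trace (zp (mkB a) x)
  rw [map_zp] at t1
  have t2 : Tendsto (fun n => ‖σ (zp (π (mkB a)) x) - T.τ ((zp (mkB a) x) n)‖) U (𝓝 0) := by
    have := (tendsto_const_nhds (x := σ (zp (π (mkB a)) x))).sub t1
    rw [sub_self] at this
    have := this.norm
    rwa [norm_zero] at this
  refine t2.congr fun n => ?_
  rw [← LIFT_n2_smul T]
  congr 1
  rw [LIFT_cs_apply, BoundedContinuousFunction.sub_apply, zp_apply, mkB_apply, ← zp_unitary]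
  show (σ (zp (π (mkB a)) x) - T.τ (((a n) ^ x : unitary (Elt N)) : Elt N)) • (1 : Elt N) =
    (((a n) ^ x : unitary (Elt N)) : Elt N) -
      T.τ (((a n) ^ x : unitary (Elt N)) : Elt N) • (1 : Elt N) -
      ((((a n) ^ x : unitary (Elt N)) : Elt N) - σ (zp (π (mkB a)) x) • (1 : Elt N))
  rw [sub_smul]
  abel

theorem LIFT_centered (hπ : IsTracialUltrapower T.τ U π σ) (a : ℕ → unitary (Elt N)) (x : ℤ) :
    π (LIFT_cs T a x) ∈ centered σ (π (mkB a)) := by
  rw [LIFT_pi_cs hπ]
  refine ⟨adjoin_sub_wstar hπ _ _ (sub_mem (zp_mem _ _)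
    (Subalgebra.smul_mem _ (one_mem _) _)), ?_⟩
  have hs := sigma_trAlg hπ
  show sigmaL hπ _ = 0
  rw [map_sub, map_smul, hs.one, smul_eq_mul, mul_one]
  exact sub_self _

theorem LIFT_word (hπ : IsTracialUltrapower T.τ U π σ) (k : ℕ) (ab : Bool → ℕ → unitary (Elt N))
    (hab : ∀ j, 1 ≤ j → j ≤ k → KIndep σ j (π (mkB (ab true))) (π (mkB (ab false))))
    (c : Bool) (l : List ℤ) (hl : l ≠ []) (hlk : l.length ≤ k) :
    Tendsto (fun n => T.τ ((l.mapIdx fun i x =>
      (((ab (if Even i then c else !c) n) ^ x : unitary (Elt N)) : Elt N) -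
        T.τ (((ab (if Even i then c else !c) n) ^ x : unitary (Elt N)) : Elt N) •
          (1 : Elt N)).prod)) U (𝓝 0) := by
  have t1 := hπ.trace (l.mapIdx fun i x => LIFT_cs T (ab (if Even i then c else !c)) x).prod
  have h1 : σ (π (l.mapIdx fun i x => LIFT_cs T (ab (if Even i then c else !c)) x).prod) = 0 := by
    rw [map_list_prod, LIFT_map_mapIdx]
    have h2 := LIFT_alt (fun c => centered σ (π (mkB (ab c))))
      (fun c x => π (LIFT_cs T (ab c) x)) (fun c x => LIFT_centered hπ (ab c) x) l c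
    refine hab l.length (List.length_pos_iff.2 hl) hlk _ ?_
    cases c with
    | true => exact Or.inl h2
    | false => exact Or.inr h2
  rw [h1] at t1
  refine t1.congr fun n => ?_
  rw [LIFT_prod_apply, LIFT_map_mapIdx]
  rfl

theorem LIFT_finite (k K : ℕ) : {l : List ℤ | l.length ≤ k ∧ ∀ x ∈ l, |x| ≤ (K : ℤ)}.Finite := by
  have hfin : Finite {x : ℤ // |x| ≤ (K : ℤ)} := by
    have : {x : ℤ | |x| ≤ (K : ℤ)}.Finite := by
      refine (Set.finite_Icc (-(K : ℤ)) K).subset fun x hx => ?_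
      exact Set.mem_Icc.2 (abs_le.1 hx)
    exact this.to_subtype
  refine ((List.finite_length_le {x : ℤ // |x| ≤ (K : ℤ)} k).image
    (fun L => L.map Subtype.val)).subset ?_
  rintro l ⟨hl, hx⟩
  refine ⟨l.attach.map fun x => ⟨x.1, hx x.1 x.2⟩, ?_, ?_⟩
  · simpa using hl
  · simp

/-- LIFT -/
theorem lift_of_fsk {H : Type} [NormedAddCommGroup H] [InnerProductSpace ℂ H] [CompleteSpace H]
    (N : VonNeumannAlgebra H) (T : Pool.Agent.Helper278.TracialState N) (k : ℕ)
    (hk : @FSk (Pool.Agent.H467F.Elt N) _ T.τ k) :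
    LiftsStrong k (Pool.Agent.Helper278.Elt N) T.τ := by
  classical
  intro U hU Q _ _ _ _ π σ hπ u hu v hv huv
  have hA := trAlg T
  obtain ⟨a, rfl⟩ := exists_unitary_lift hπ u hu
  obtain ⟨b, rfl⟩ := exists_unitary_lift hπ v hv
  let ab : Bool → ℕ → unitary (Elt N) := fun c => if c = true then a else b
  have hfs := fun j : ℕ => hk (1 / ((j : ℝ) + 1)) (by positivity)
  choose K η hη hfs using hfs
  -- the good sets
  let G : ℕ → ℕ → Prop := fun j n => ∀ (c : Bool) (l : List ℤ), l ≠ [] → l.length ≤ k →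
    (∀ x ∈ l, |x| ≤ (K j : ℤ)) →
      ‖T.τ ((l.mapIdx fun i x =>
      (((ab (if Even i then c else !c) n) ^ x : unitary (Elt N)) : Elt N) -
        T.τ (((ab (if Even i then c else !c) n) ^ x : unitary (Elt N)) : Elt N) •
          (1 : Elt N)).prod)‖ ≤ η j
  have hG : ∀ j, ∀ᶠ n in (U : Filter ℕ), G j n := by
    intro j
    have h0 : ∀ c : Bool, ∀ l ∈ {l : List ℤ | l.length ≤ k ∧ ∀ x ∈ l, |x| ≤ (K j : ℤ)},
        ∀ᶠ n in (U : Filter ℕ), l ≠ [] → ‖T.τ ((l.mapIdx fun i x =>
      (((ab (if Even i then c else !c) n) ^ x : unitary (Elt N)) : Elt N) -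
        T.τ (((ab (if Even i then c else !c) n) ^ x : unitary (Elt N)) : Elt N) •
          (1 : Elt N)).prod)‖ ≤ η j := by
      intro c l hl
      by_cases hne : l = []
      · exact Eventually.of_forall fun n h => absurd hne h
      have h2 := (LIFT_word hπ k ab huv c l hne hl.1).norm
      rw [norm_zero] at h2
      exact (h2.eventually (gt_mem_nhds (hη j))).mono fun n hn _ => hn.le
    have h1 := fun c : Bool => (Filter.eventually_all_finite (LIFT_finite k (K j))).2 (h0 c)
    rw [← Filter.eventually_all] at h1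
    refine h1.mono fun n hn c l hne hlk hx => ?_
    exact hn c l ⟨hlk, hx⟩ hne
  have hcof : ∀ J : ℕ, ∀ᶠ n in (U : Filter ℕ), J ≤ n := by
    intro J
    rcases Ultrafilter.le_cofinite_or_eq_pure U with h1 | ⟨n, hn⟩
    · rw [Nat.cofinite_eq_atTop] at h1
      exact h1 (eventually_ge_atTop J)
    · exfalso
      apply hU n
      rw [hn]
      exact Ultrafilter.mem_pure.2 rfl
  -- the fallback
  have hone : ∃ a' : Bool → unitary (Elt N),
      ∀ j, 1 ≤ j → j ≤ k → KIndep T.τ j (a' true : Elt N) (a' false : Elt N) := by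
    obtain ⟨a', h1, -⟩ := hfs 0 (fun _ => 1) (by
      intro c l hl _ _
      obtain ⟨x, t, rfl⟩ := List.exists_cons_of_ne_nil hl
      rw [List.mapIdx_cons, List.prod_cons]
      have h0 : (((1 : unitary (Elt N)) ^ x : unitary (Elt N)) : Elt N) -
        T.τ (((1 : unitary (Elt N)) ^ x : unitary (Elt N)) : Elt N) • (1 : Elt N) = 0 := by
        rw [one_zpow]
        show (1 : Elt N) - T.τ (1 : Elt N) • (1 : Elt N) = 0
        rw [hA.one, one_smul, sub_self]
      have h2 := (hη 0).le
      rw [← norm_zero (E := ℂ), ← map_zero T.τ, ← zero_mul (List.prod (α := Elt N) _), ← h0] at h2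
      exact h2)
    exact ⟨a', h1⟩
  -- the stagewise choice
  have hstage : ∀ n, ∃ a' : Bool → unitary (Elt N),
      (∀ j, 1 ≤ j → j ≤ k → KIndep T.τ j (a' true : Elt N) (a' false : Elt N)) ∧
      ∀ J, G J n → J ≤ n → ∀ c, n2 T.τ ((a' c : Elt N) - (ab c n : Elt N)) ≤
        1 / ((J : ℝ) + 1) := by
    intro n
    by_cases hex : ∃ J, J ≤ n ∧ G J n
    · obtain ⟨J0, hJ0n, hJ0⟩ := hex
      set j := Nat.findGreatest (fun J => G J n) n with hj
      have hGj : G j n := Nat.findGreatest_spec (P := fun J => G J n) hJ0n hJ0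
      obtain ⟨a', hind, herr⟩ := hfs j (fun c => ab c n) hGj
      refine ⟨a', hind, ?_⟩
      intro J hJ hJn c
      have hle : J ≤ j := Nat.le_findGreatest hJn hJ
      have hle' : 1 / ((j : ℝ) + 1) ≤ 1 / ((J : ℝ) + 1) := by
        apply one_div_le_one_div_of_le (by positivity)
        have : (J : ℝ) ≤ j := by exact_mod_cast hle
        linarith
      rw [hA.n2_sub_comm]
      exact (herr c).trans hle'
    · obtain ⟨a', hind⟩ := hone
      refine ⟨a', hind, ?_⟩
      intro J hJ hJn
      exact absurd ⟨J, hJn, hJ⟩ hex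
  choose a' hind herr using hstage
  have hlim : ∀ c c' : ℕ → unitary (Elt N),
      (∀ n J, G J n → J ≤ n → n2 T.τ ((c' n : Elt N) - (c n : Elt N)) ≤ 1 / ((J : ℝ) + 1)) →
      π (mkB c') = π (mkB c) := by
    intro c c' hcc
    rw [pi_eq_iff hπ, Metric.tendsto_nhds]
    intro ε hε
    obtain ⟨J, hJ⟩ := exists_nat_gt (1 / ε)
    refine ((hG J).and (hcof J)).mono fun n hn => ?_
    have h1 := hcc n J hn.1 hn.2
    rw [Real.dist_eq, sub_zero, abs_of_nonneg (n2_nonneg _ _)]
    refine lt_of_le_of_lt h1 ?_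
    rw [div_lt_iff₀ (by positivity)]
    rw [div_lt_iff₀ hε] at hJ
    nlinarith
  exact ⟨mkB (fun n => a' n true), mkB (fun n => a' n false), fun n => (a' n true).2,
    fun n => (a' n false).2,
    hlim a (fun n => a' n true) fun n J h1 h2 => herr n J h1 h2 true,
    hlim b (fun n => a' n false) fun n J h1 h2 => herr n J h1 h2 false,
    hind⟩

end Pool.Agent.H30K
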