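import Pool.Agent.H270R2.GEN.Pre

/-! ROOM KI (helper30), task MIXF: mixing without separability. -/

set_option autoImplicit false

open scoped ComplexOrder Topology BoundedContinuousFunction
open Filter

noncomputable section

namespace Pool.Agent.H30K

open Pool.Agent.H467F (TW n2 n2_nonneg)
open Pool.Agent.H735G (NoAbA)
open Pool.Agent.H270G (EZ EZP Mixing PauK av)

namespace MIXF

open Pool.Agent.H270G.T_MIX (sig sig_star sig_sq sig_comm sig_anti EZ_anti bessel)

variable {A : Type} [CStarAlgebra A] {τ : A →ₗ[ℂ] ℂ}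

/-- the family of Pauli strings of length `k` of a system of length `K` -/
structure PSf (s t : ℕ → A) (K k : ℕ) (G : Type) [Fintype G] (V : G → A) : Prop where
  card : Fintype.card G = 4 ^ k
  st : ∀ g, star (V g) = V g
  sq : ∀ g, V g * V g = 1
  comm : ∀ g, ∀ j, k ≤ j → j < K → s j * V g = V g * s j ∧ t j * V g = V g * t j
  avg : ∀ x, ((4 : ℂ) ^ k)⁻¹ • ∑ g, V g * x * V g = av s t k x
  anti : ∀ g h, g ≠ h → ∃ w : A, star w = w ∧ w * w = 1 ∧
    w * (V g * V h) = -((V g * V h) * w) ∧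
      ∀ j, k ≤ j → j < K → s j * w = w * s j ∧ t j * w = w * t j

lemma exists_PSf (s t : ℕ → A) (K : ℕ) (hp : PauK s t K) (k : ℕ) (hk : k ≤ K) :
    ∃ (G : Type) (_ : Fintype G) (_ : Nonempty G) (V : G → A), PSf s t K k G V := by
  induction k with
  | zero =>
    refine ⟨Unit, inferInstance, inferInstance, fun _ => 1, ⟨by simp, ?_, ?_, ?_, ?_, ?_⟩⟩
    · intro g; simp
    · intro g; simp
    · intro g j _ _; simp
    · intro x; simp [av]
    · intro g h hgh; exact absurd (Subsingleton.elim g h) hgh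
  | succ k ih =>
    obtain ⟨G, iG, nG, V, hV⟩ := ih (by omega)
    have hkK : k < K := hk
    have f1 := hp.ss k hkK
    have f2 := hp.s1 k hkK
    have f3 := hp.ts k hkK
    have f4 := hp.t1 k hkK
    have f5 := hp.anti k hkK
    have hsj : ∀ j, k + 1 ≤ j → j < K → s k * s j = s j * s k ∧ t k * s j = s j * t k ∧
        s k * t j = t j * s k ∧ t k * t j = t j * t k := by
      intro j hj hjK
      have hne : j ≠ k := by omega
      exact ⟨hp.css k hkK j hjK, (hp.cst j hjK k hkK hne).symm,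
        hp.cst k hkK j hjK hne.symm, hp.ctt k hkK j hjK⟩
    have hcV : ∀ g a, sig (s k) (t k) a * V g = V g * sig (s k) (t k) a := fun g a =>
      sig_comm (hV.comm g k le_rfl hkK).1 (hV.comm g k le_rfl hkK).2 a
    refine ⟨G × Fin 4, inferInstance, inferInstance, fun p => V p.1 * sig (s k) (t k) p.2,
      ⟨?_, ?_, ?_, ?_, ?_, ?_⟩⟩
    · rw [Fintype.card_prod, hV.card, Fintype.card_fin, pow_succ]
    · intro p
      rw [star_mul, sig_star f1 f3 f5, hV.st, hcV]
    · intro p
      calc V p.1 * sig (s k) (t k) p.2 * (V p.1 * sig (s k) (t k) p.2)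
          = V p.1 * (sig (s k) (t k) p.2 * V p.1) * sig (s k) (t k) p.2 := by noncomm_ring
        _ = V p.1 * (V p.1 * sig (s k) (t k) p.2) * sig (s k) (t k) p.2 := by rw [hcV]
        _ = (V p.1 * V p.1) * (sig (s k) (t k) p.2 * sig (s k) (t k) p.2) := by noncomm_ring
        _ = 1 := by rw [hV.sq, sig_sq f2 f4 f5, one_mul]
    · intro p j hj hjK
      obtain ⟨g1, g2, g3, g4⟩ := hsj j hj hjK
      have c1 := sig_comm (y := s j) g1 g2 p.2
      have c2 := sig_comm (y := t j) g3 g4 p.2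
      obtain ⟨d1, d2⟩ := hV.comm p.1 j (by omega) hjK
      constructor
      · rw [← mul_assoc, d1, mul_assoc, ← c1, ← mul_assoc]
      · rw [← mul_assoc, d2, mul_assoc, ← c2, ← mul_assoc]
    · intro x
      have key : ∀ a, ∑ g, V g * sig (s k) (t k) a * x * (V g * sig (s k) (t k) a)
          = sig (s k) (t k) a * (∑ g, V g * x * V g) * sig (s k) (t k) a := by
        intro a
        rw [Finset.mul_sum, Finset.sum_mul]
        refine Finset.sum_congr rfl fun g _ => ?_
        calc V g * sig (s k) (t k) a * x * (V g * sig (s k) (t k) a)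
            = (sig (s k) (t k) a * V g) * x * (V g * sig (s k) (t k) a) := by rw [hcV]
          _ = _ := by simp only [mul_assoc]
      rw [Fintype.sum_prod_type_right]
      simp only
      rw [Fin.sum_univ_four, key, key, key, key]
      have e1 : ((4 : ℂ) ^ (k + 1))⁻¹ = 4⁻¹ * ((4 : ℂ) ^ k)⁻¹ := by
        rw [pow_succ, mul_inv, mul_comm]
      rw [e1, mul_smul, av, ← hV.avg x]
      congr 1
      simp only [smul_add]
      congr 1
      · congr 1
        · congr 1
          · simp [sig]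
          · simp [sig, mul_smul_comm, smul_mul_assoc]
        · simp [sig, mul_smul_comm, smul_mul_assoc]
      · simp only [sig, Matrix.cons_val]
        have e2 : t k * s k = -(s k * t k) := by rw [f5, neg_neg]
        rw [e2]
        simp only [smul_mul_assoc, mul_smul_comm, mul_neg, smul_smul]
        rw [← smul_neg, mul_comm Complex.I Complex.I, ← mul_assoc]
        rw [mul_comm (((4 : ℂ) ^ k)⁻¹) Complex.I, mul_assoc, mul_comm (((4 : ℂ) ^ k)⁻¹) Complex.I,
          ← mul_assoc, Complex.I_mul_I]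
        simp
    · rintro ⟨g, a⟩ ⟨h, b⟩ hne
      simp only
      by_cases hgh : g = h
      · subst hgh
        have hab : a ≠ b := by
          intro e; apply hne; rw [e]
        have e1 : V g * sig (s k) (t k) a * (V g * sig (s k) (t k) b)
            = sig (s k) (t k) a * sig (s k) (t k) b := by
          calc V g * sig (s k) (t k) a * (V g * sig (s k) (t k) b)
              = V g * (sig (s k) (t k) a * V g) * sig (s k) (t k) b := by noncomm_ring
            _ = V g * (V g * sig (s k) (t k) a) * sig (s k) (t k) b := by rw [hcV]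
            _ = (V g * V g) * (sig (s k) (t k) a * sig (s k) (t k) b) := by noncomm_ring
            _ = _ := by rw [hV.sq, one_mul]
        rw [e1]
        rcases sig_anti f2 f4 f5 a b hab with h6 | h6
        · exact ⟨s k, f1, f2, h6, fun j hj hjK =>
            ⟨(hsj j hj hjK).1.symm, (hsj j hj hjK).2.2.1.symm⟩⟩
        · exact ⟨t k, f3, f4, h6, fun j hj hjK =>
            ⟨(hsj j hj hjK).2.1.symm, (hsj j hj hjK).2.2.2.symm⟩⟩
      · obtain ⟨w, w1, w2, w3, w4⟩ := hV.anti g h hgh
        refine ⟨w, w1, w2, ?_, fun j hj hjK => w4 j (by omega) hjK⟩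
        have cw : ∀ a, sig (s k) (t k) a * w = w * sig (s k) (t k) a := fun a =>
          sig_comm (w4 k le_rfl hkK).1 (w4 k le_rfl hkK).2 a
        calc w * (V g * sig (s k) (t k) a * (V h * sig (s k) (t k) b))
            = w * (V g * (sig (s k) (t k) a * V h) * sig (s k) (t k) b) := by noncomm_ring
          _ = w * (V g * (V h * sig (s k) (t k) a) * sig (s k) (t k) b) := by rw [hcV]
          _ = (w * (V g * V h)) * (sig (s k) (t k) a * sig (s k) (t k) b) := by noncomm_ring
          _ = -((V g * V h) * (w * sig (s k) (t k) a) * sig (s k) (t k) b) := by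
              rw [w3]; noncomm_ring
          _ = -((V g * V h) * (sig (s k) (t k) a * w) * sig (s k) (t k) b) := by rw [cw]
          _ = -((V g * V h) * sig (s k) (t k) a * (w * sig (s k) (t k) b)) := by noncomm_ring
          _ = -((V g * V h) * sig (s k) (t k) a * (sig (s k) (t k) b * w)) := by rw [cw]
          _ = -(V g * (V h * sig (s k) (t k) a) * sig (s k) (t k) b * w) := by noncomm_ring
          _ = -(V g * (sig (s k) (t k) a * V h) * sig (s k) (t k) b * w) := by rw [hcV]
          _ = _ := by noncomm_ring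

/-- a finite system averaging the finitely many elements of `Y` -/
lemma exists_sys (h : TW τ) (hA : NoAbA A) (Y : Finset A) (ε : ℝ) (hε : 0 < ε) :
    ∃ (K : ℕ) (s t : ℕ → A), PauK s t K ∧ ∀ x ∈ Y, n2 τ (av s t K x - EZ τ x) ≤ ε := by
  classical
  induction Y using Finset.induction_on with
  | empty =>
    refine ⟨0, fun _ => 0, fun _ => 0, ?_, fun x hx => absurd hx (Finset.notMem_empty x)⟩
    refine ⟨?_, ?_, ?_, ?_, ?_, ?_, ?_, ?_⟩ <;> intro j hj <;> exact absurd hj (Nat.not_lt_zero j)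
  | insert y Y hy ih =>
    obtain ⟨K, s, t, hp, hl⟩ := ih
    obtain ⟨K', s', t', hK, hp', he, h1⟩ := Pool.Agent.H270G.T_SEQ.ext1
      (fun A _ τ h hA s t K hp => Pool.Agent.H270G.Pre.sRel A τ h hA s t K hp)
      Pool.Agent.H270G.Pre.sAvp Pool.Agent.H270G.Pre.sAvg h hA hp y ε hε
    refine ⟨K', s', t', hp', fun x hx => ?_⟩
    rcases Finset.mem_insert.1 hx with rfl | hx
    · exact h1
    · obtain ⟨-, -, -, -, -, -, -, -, -, p10⟩ := Pool.Agent.H270G.Pre.sAvp A τ h s' t' K' hp'
      refine (p10 x K hK).trans ?_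
      rw [Pool.Agent.H270G.T_SEQ.av_congr he x]
      exact hl x hx

/-- a longer system -/
lemma exists_ext (h : TW τ) (hA : NoAbA A) {s t : ℕ → A} {K : ℕ} (hp : PauK s t K) (d : ℕ) :
    ∃ s' t' : ℕ → A, PauK s' t' (K + d) ∧ ∀ j < K, s' j = s j ∧ t' j = t j := by
  induction d with
  | zero => exact ⟨s, t, hp, fun j _ => ⟨rfl, rfl⟩⟩
  | succ d ih =>
    obtain ⟨s1, t1, hp1, e1⟩ := ih
    obtain ⟨s2, t2, hp2, e2⟩ := Pool.Agent.H270G.T_SEQ.ext0
      (fun A _ τ h hA => Pool.Agent.H270G.Pre.sHalf A τ h hA)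
      (fun A _ τ h hA s t K hp => Pool.Agent.H270G.Pre.sRel A τ h hA s t K hp) h hA hp1
    refine ⟨s2, t2, hp2, fun j hj => ?_⟩
    have h3 := e1 j hj
    have h4 := e2 j (by omega)
    exact ⟨h4.1.trans h3.1, h4.2.trans h3.2⟩

end MIXF

variable {A : Type} [CStarAlgebra A] {τ : A →ₗ[ℂ] ℂ}

open MIXF in
/-- MIXF (no separability) -/
theorem mixing_top (h : TW τ) (hA : NoAbA A) : Mixing τ (⊤ : StarSubalgebra ℂ A) := by
  intro Y ε hε
  have hE : EZP τ := Pool.Agent.H270G.T_CEN.ezp h
  obtain ⟨K, s, t, hp, hl⟩ := exists_sys h hA Y ε hε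
  have h2 : ∀ᶠ d : ℕ in atTop, ∀ x ∈ Y, ((4 : ℝ) ^ (K + d))⁻¹ * n2 τ x ^ 2 ≤ ε := by
    rw [Filter.eventually_all_finset]
    intro x _
    have : Tendsto (fun k : ℕ => ((4 : ℝ) ^ k)⁻¹ * n2 τ x ^ 2) atTop (𝓝 0) := by
      have h3 : Tendsto (fun k : ℕ => ((4 : ℝ)⁻¹) ^ k) atTop (𝓝 0) :=
        tendsto_pow_atTop_nhds_zero_of_lt_one (by norm_num) (by norm_num)
      have h4 := h3.mul_const (n2 τ x ^ 2)
      rw [zero_mul] at h4
      refine h4.congr fun k => ?_
      rw [inv_pow]
    have h5 : Tendsto (fun d : ℕ => K + d) atTop atTop := by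
      simpa [add_comm] using tendsto_add_atTop_nat K
    exact h5.eventually (this.eventually_le_const hε)
  obtain ⟨d, hd⟩ := h2.exists
  obtain ⟨s', t', hp', he⟩ := exists_ext h hA hp d
  obtain ⟨G, iG, nG, V, hV⟩ := exists_PSf s' t' (K + d) hp' (K + d) le_rfl
  refine ⟨G, iG, nG, V, fun g => ⟨StarSubalgebra.mem_top, hV.st g, hV.sq g⟩, ?_, ?_⟩
  · intro x hx
    rw [hV.card]
    push_cast
    rw [hV.avg x]
    obtain ⟨-, -, -, -, -, -, -, -, -, p10⟩ :=
      Pool.Agent.H270G.Pre.sAvp A τ h s' t' (K + d) hp'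
    refine (p10 x K (Nat.le_add_right K d)).trans ?_
    rw [Pool.Agent.H270G.T_SEQ.av_congr he x]
    exact hl x hx
  · intro x hx
    rw [hV.card]
    push_cast
    have h5 := Pool.Agent.H270G.T_MIX.bessel h hE V hV.st hV.sq (fun g g' hne => by
      obtain ⟨w, w1, w2, w3, _⟩ := hV.anti g g' hne
      exact Pool.Agent.H270G.T_MIX.EZ_anti hE w1 w2 w3) x
    calc ((4 : ℝ) ^ (K + d))⁻¹ * ∑ g, n2 τ (EZ τ (V g * x)) ^ 2
        ≤ ((4 : ℝ) ^ (K + d))⁻¹ * n2 τ x ^ 2 := by gcongr
      _ ≤ ε := hd x hx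

end Pool.Agent.H30K
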