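import Mathlib
import Pool.Agent.H30R4.KI.Defs
import Pool.Agent.Helper278.GroupMain

/-! NOAB: II_1 factors have no abelian projections and are diffuse.  Owner: helper202. -/

set_option autoImplicit false

open scoped ComplexOrder Topology BoundedContinuousFunction ComplexConjugate
open Filter

noncomputable section

namespace Pool.Agent.H30K

open Pool.Agent.H735G (NoAbA)

theorem noab_cancel {A : Type} [CStarAlgebra A] (a w : A) (ha : star a = a)
    (h : a * a * w = 0) : a * w = 0 := by
  rw [← CStarRing.star_mul_self_eq_zero_iff]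
  calc star (a * w) * (a * w) = star w * (star a * a * w) := by rw [star_mul]; noncomm_ring
    _ = 0 := by rw [ha, h, mul_zero]

/-- In a factor with a faithful positive functional, the self-adjoint elements of an abelian corner
are scalars. -/
theorem noab_sa {A : Type} [CStarAlgebra A] (τ : A →ₗ[ℂ] ℂ)
    (hnn : ∀ x, 0 ≤ τ (star x * x))
    (hf : ∀ x, τ (star x * x) = 0 → x = 0)
    (hfc : ∀ a b : A, (∀ x, a * x * b = 0) → a = 0 ∨ b = 0)
    (e : A) (hes : star e = e) (hee : e * e = e) (he0 : e ≠ 0)
    (hab : ∀ x y : A, (e * x * e) * (e * y * e) = (e * y * e) * (e * x * e))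
    (y : A) (hy : star y = y) (hye' : y * e = y) : ∃ c : ℂ, y = c • e := by
  have hτe : 0 ≤ τ e := by
    have := hnn e
    rwa [hes, hee] at this
  have hτe0 : (τ e).re ≠ 0 := by
    intro h0
    apply he0
    apply hf
    rw [hes, hee]
    exact Complex.ext h0 (Complex.nonneg_iff.1 hτe).2.symm
  obtain ⟨s, hs⟩ : ∃ s : ℝ, s = (τ y).re / (τ e).re := ⟨_, rfl⟩
  obtain ⟨h, hh⟩ : ∃ h : A, h = y - (s : ℂ) • e := ⟨_, rfl⟩
  have hhs : IsSelfAdjoint h := by
    rw [isSelfAdjoint_iff, hh, star_sub, star_smul, hy, hes, Complex.star_def,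
      Complex.conj_ofReal]
  have hhe : h * (1 - e) = 0 := by
    rw [hh, mul_sub, mul_one, sub_mul, hye', smul_mul_assoc, hee, sub_self]
  have hτh : (τ h).re = 0 := by
    rw [hh, map_sub, map_smul, smul_eq_mul, Complex.sub_re, Complex.re_ofReal_mul, hs,
      div_mul_cancel₀ _ hτe0, sub_self]
  obtain ⟨p, hp⟩ : ∃ p : A, p = cfc (fun x : ℝ => Real.sqrt (max x 0)) h := ⟨_, rfl⟩
  obtain ⟨q, hq⟩ : ∃ q : A, q = cfc (fun x : ℝ => Real.sqrt (max (-x) 0)) h := ⟨_, rfl⟩
  have hps : star p = p := by
    have : IsSelfAdjoint p := by rw [hp]; exact cfc_predicate _ _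
    exact this.star_eq
  have hqs : star q = q := by
    have : IsSelfAdjoint q := by rw [hq]; exact cfc_predicate _ _
    exact this.star_eq
  have hc1 : Continuous (fun x : ℝ => Real.sqrt (max x 0)) := by fun_prop
  have hc2 : Continuous (fun x : ℝ => Real.sqrt (max (-x) 0)) := by fun_prop
  have hpq : p * q = 0 := by
    rw [hp, hq, ← cfc_mul _ _ h hc1.continuousOn hc2.continuousOn]
    rw [show (fun x : ℝ => Real.sqrt (max x 0) * Real.sqrt (max (-x) 0)) = fun _ => 0 from ?_]
    · exact cfc_const_zero ℝ h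
    · funext x
      rcases le_total x 0 with hx | hx
      · rw [max_eq_right hx, Real.sqrt_zero, zero_mul]
      · rw [max_eq_right (neg_nonpos.2 hx), Real.sqrt_zero, mul_zero]
  have hqp : q * p = 0 := by
    have := congrArg star hpq
    rwa [star_mul, hps, hqs, star_zero] at this
  have hpph : p * p - q * q = h := by
    rw [hp, hq, ← cfc_mul _ _ h hc1.continuousOn hc1.continuousOn,
      ← cfc_mul _ _ h hc2.continuousOn hc2.continuousOn,
      ← cfc_sub (fun x : ℝ => Real.sqrt (max x 0) * Real.sqrt (max x 0))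
        (fun x : ℝ => Real.sqrt (max (-x) 0) * Real.sqrt (max (-x) 0)) h
        (hc1.mul hc1).continuousOn (hc2.mul hc2).continuousOn]
    conv_rhs => rw [← cfc_id' ℝ h hhs]
    congr 1
    funext x
    rw [Real.mul_self_sqrt (le_max_right _ _), Real.mul_self_sqrt (le_max_right _ _)]
    rcases le_total x 0 with hx | hx
    · rw [max_eq_right hx, max_eq_left (neg_nonneg.2 hx)]; ring
    · rw [max_eq_left hx, max_eq_right (neg_nonpos.2 hx)]; ring
  have hpp : star (p * p) = p * p := by rw [star_mul, hps]
  have hqq : star (q * q) = q * q := by rw [star_mul, hqs]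
  have hpe : p * (1 - e) = 0 := by
    apply noab_cancel p _ hps
    apply noab_cancel (p * p) _ hpp
    have h1 : p * p * (p * p) = p * p * h := by
      rw [← hpph]
      calc p * p * (p * p) = p * p * (p * p) - p * (p * q) * q + p * (p * q) * q := by abel
        _ = p * p * (p * p - q * q) + p * (p * q) * q := by noncomm_ring
        _ = p * p * (p * p - q * q) := by rw [hpq, mul_zero, zero_mul, add_zero]
    rw [h1, mul_assoc, hhe, mul_zero]
  have hqe : q * (1 - e) = 0 := by
    apply noab_cancel q _ hqs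
    apply noab_cancel (q * q) _ hqq
    have h1 : q * q * (q * q) = - (q * q * h) := by
      rw [← hpph]
      calc q * q * (q * q) = - (q * q * (p * p - q * q)) + q * (q * p) * p := by noncomm_ring
        _ = - (q * q * (p * p - q * q)) := by rw [hqp, mul_zero, zero_mul, add_zero]
    rw [h1, neg_mul, mul_assoc, hhe, mul_zero, neg_zero]
  have hpe1 : p * e = p := by
    rw [mul_sub, mul_one, sub_eq_zero] at hpe
    exact hpe.symm
  have hqe1 : q * e = q := by
    rw [mul_sub, mul_one, sub_eq_zero] at hqe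
    exact hqe.symm
  have hep : e * p = p := by
    have := congrArg star hpe1
    rwa [star_mul, hps, hes] at this
  have heq : e * q = q := by
    have := congrArg star hqe1
    rwa [star_mul, hqs, hes] at this
  have hpxq : ∀ x, p * x * q = 0 := by
    intro x
    have h1 := hab x p
    rw [hep, hpe1] at h1
    calc p * x * q = p * e * x * (e * q) := by rw [hpe1, heq]
      _ = (p * (e * x * e)) * q := by noncomm_ring
      _ = e * x * e * (p * q) := by rw [← h1]; noncomm_ring
      _ = 0 := by rw [hpq, mul_zero]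
  have hh0 : h = 0 := by
    rcases hfc p q hpxq with h0 | h0
    · have h1 : h = - (star q * q) := by rw [← hpph, h0, hqs]; simp
      have h2 : q = 0 := by
        apply hf
        refine Complex.ext ?_ (Complex.nonneg_iff.1 (hnn q)).2.symm
        rw [h1, map_neg, Complex.neg_re] at hτh
        rw [Complex.zero_re]
        linarith
      rw [h1, h2, mul_zero, neg_zero]
    · have h1 : h = star p * p := by rw [← hpph, h0, hps]; simp
      have h2 : p = 0 := by
        apply hf
        refine Complex.ext ?_ (Complex.nonneg_iff.1 (hnn p)).2.symm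
        rw [h1] at hτh
        rw [Complex.zero_re]
        linarith
      rw [h1, h2, mul_zero]
  exact ⟨s, by rw [hh] at hh0; exact sub_eq_zero.1 hh0⟩

/-- In a factor with a faithful positive functional an abelian projection is minimal. -/
theorem noab_minimal {A : Type} [CStarAlgebra A] (τ : A →ₗ[ℂ] ℂ)
    (hnn : ∀ x, 0 ≤ τ (star x * x))
    (hf : ∀ x, τ (star x * x) = 0 → x = 0)
    (hfc : ∀ a b : A, (∀ x, a * x * b = 0) → a = 0 ∨ b = 0)
    (e : A) (hes : star e = e) (hee : e * e = e) (he0 : e ≠ 0)
    (hab : ∀ x y : A, (e * x * e) * (e * y * e) = (e * y * e) * (e * x * e))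
    (x : A) : ∃ c : ℂ, e * x * e = c • e := by
  have key : ∀ y : A, star y = y → ∃ c : ℂ, e * y * e = c • e := by
    intro y hy
    refine noab_sa τ hnn hf hfc e hes hee he0 hab (e * y * e) ?_ ?_
    · rw [star_mul, star_mul, hes, hy, mul_assoc]
    · rw [mul_assoc, hee]
  obtain ⟨c1, hc1⟩ := key ((2 : ℂ)⁻¹ • (x + star x)) (by
    rw [star_smul, star_add, star_star, add_comm]
    congr 1
    simp)
  obtain ⟨c2, hc2⟩ := key ((2 * Complex.I : ℂ)⁻¹ • (x - star x)) (by
    rw [star_smul, star_sub, star_star, ← neg_sub, smul_neg, ← neg_smul]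
    congr 1
    simp)
  refine ⟨c1 + Complex.I * c2, ?_⟩
  have hx : x = (2 : ℂ)⁻¹ • (x + star x) + Complex.I • ((2 * Complex.I : ℂ)⁻¹ • (x - star x)) := by
    rw [smul_smul]
    have : Complex.I * (2 * Complex.I)⁻¹ = (2 : ℂ)⁻¹ := by
      field_simp
    rw [this, ← smul_add]
    rw [show x + star x + (x - star x) = (2 : ℂ) • x from by rw [two_smul]; abel, smul_smul]
    norm_num
  calc e * x * e = e * ((2 : ℂ)⁻¹ • (x + star x) +
        Complex.I • ((2 * Complex.I : ℂ)⁻¹ • (x - star x))) * e := by rw [← hx]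
    _ = e * ((2 : ℂ)⁻¹ • (x + star x)) * e +
        Complex.I • (e * ((2 * Complex.I : ℂ)⁻¹ • (x - star x)) * e) := by
        rw [mul_add, add_mul, mul_smul_comm Complex.I, smul_mul_assoc Complex.I]
    _ = (c1 + Complex.I * c2) • e := by rw [hc1, hc2, smul_smul, ← add_smul]

/-- NOAB -/
theorem iione {H : Type} [NormedAddCommGroup H] [InnerProductSpace ℂ H] [CompleteSpace H]
    (N : VonNeumannAlgebra H) (t : Pool.Agent.H467F.Elt N → ℂ)
    (hN : Pool.Agent.H467F.IsIIOneFactor N t) :
    NoAbA (Pool.Agent.H467F.Elt N) ∧ Pool.Agent.Helper278.IsDiffuse N ∧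
      ∀ z : Pool.Agent.H467F.Elt N, (∀ y, z * y = y * z) →
        ∃ c : ℂ, z = c • (1 : Pool.Agent.H467F.Elt N) := by
  have h1 : Helper278.IsNormalPositive N t := hN.normal
  have h2 : Helper278.IsFaithfulTrace t := ⟨hN.trace.one, hN.trace.tracial, hN.trace.faithful⟩
  have hd : Helper278.IsDiffuse N :=
    Helper278.diffuse_of_factor (Helper278.mkState N t h1 h2) hN.center hN.infinite
  have hA := Helper278.trAlg (Helper278.mkState N t h1 h2)
  refine ⟨?_, hd, ?_⟩
  · intro e hes hee he0
    by_contra hcon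
    push Not at hcon
    have hmin := noab_minimal (A := Pool.Agent.H467F.Elt N) (Helper278.mkState N t h1 h2).τ
      (fun x => hA.nonneg x) (fun x hx => hA.faithful x hx) (fun a b hab => by
        rcases Helper278.factor_corner N hN.center (a : H →L[ℂ] H) (b : H →L[ℂ] H) a.2 b.2
          (fun x hx => congrArg Subtype.val (hab ⟨x, hx⟩)) with h4 | h4
        · exact Or.inl (Subtype.ext h4)
        · exact Or.inr (Subtype.ext h4)) e hes hee he0 hcon
    obtain ⟨x, hx, hxc⟩ := hd (e : H →L[ℂ] H) e.2 (congrArg Subtype.val hee)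
      (congrArg Subtype.val hes) (fun h => he0 (Subtype.ext h))
    obtain ⟨c, hc⟩ := hmin ⟨x, hx⟩
    exact hxc c (congrArg Subtype.val hc)
  · intro z hz
    obtain ⟨c, hc⟩ := hN.center (z : H →L[ℂ] H) z.2
      (fun x hx => congrArg Subtype.val (hz ⟨x, hx⟩))
    exact ⟨c, Subtype.ext hc⟩

end Pool.Agent.H30K
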