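import Mathlib
import Pool.Agent.H30R4.KI.Defs
import Pool.Agent.H948R2.GEN.W2

/-! MP_64d6f1_an, task W2C: structure of the second variation of a word, centered version. -/

set_option autoImplicit false

open scoped ComplexOrder Topology BoundedContinuousFunction ComplexConjugate
open Filter

noncomputable section

namespace Pool.Agent.H30K

open Pool.Agent.H467F (TW)
open Pool.Agent.H735G (NoAbA)
open Pool.Agent.H270G (EZ EZP Lt wv cl cnt upd rot D2 Mixing)
open Pool.Agent.H270G.T_W2 (mul_le_one' cl_le wv_le wv_append I1 I2 I1_length I2_length I1_norm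
  I2_sum I1_form n2_neg EZ_neg norm_one_le)

variable {A : Type} [CStarAlgebra A] {τ : A →ₗ[ℂ] ℂ}

/-- W2C -/
theorem ins2C (hE : EZP τ) {J : Type} (c : Fin 4 → unitary A) (y : J → A)
    (hy : ∀ j, ‖y j‖ ≤ 1) (j1 : J) (hj1 : y j1 = 1) (i : Fin 4) (L : List (Lt J))
    (hL : RedC τ y L) :
    ∃ l : List (A × A × A), l.length ≤ L.length ^ 2 ∧
      (∀ p ∈ l, ‖p.1‖ ≤ 1 ∧ ‖p.2.1‖ ≤ 1 ∧ ‖p.2.2‖ ≤ 1 ∧
        (EZ τ p.2.1 = 0 ∨ ∃ (j : J) (B : List (Lt J)), B ≠ [] ∧ B.length < L.length ∧ RedC τ y B ∧
          Pool.Agent.H467F.n2 τ (EZ τ p.2.1) =
            Pool.Agent.H467F.n2 τ (EZ τ (y j * wv (fun i => (c i : A)) y B)))) ∧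
      ∀ V, D2 (fun i => (c i : A)) y i V L =
        (l.map fun p => p.1 * V * p.2.1 * V * p.2.2).sum := by
  set cc : Fin 4 → A := fun i => (c i : A) with hcc
  have hc : ∀ i, ‖cc i‖ ≤ 1 := by
    intro i
    rcases subsingleton_or_nontrivial A with h | h
    · rw [Subsingleton.elim (cc i) 0, norm_zero]
      exact zero_le_one
    · exact (CStarRing.norm_coe_unitary (c i)).le
  refine ⟨I2 cc y i L, I2_length cc y i L, ?_, fun V => I2_sum cc y i V L⟩
  induction L with
  | nil => intro p hp; simp [I2] at hp
  | cons q L ih =>
    intro p hp
    have hLr : RedC τ y L := List.IsChain.tail hL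
    rw [I2, List.mem_append] at hp
    rcases hp with hp | hp
    · rw [List.mem_map] at hp
      obtain ⟨r, hr, rfl⟩ := hp
      obtain ⟨h1, h2, h3, h8⟩ := ih hLr r hr
      refine ⟨mul_le_one' (mul_le_one' (cl_le hc _ _) (hy _)) h1, h2, h3, ?_⟩
      rcases h8 with h8 | ⟨j, B, h4, h5, h6, h7⟩
      · exact Or.inl h8
      · refine Or.inr ⟨j, B, h4, ?_, h6, h7⟩
        rw [List.length_cons]
        omega
    · by_cases hq1 : q.1 = i
      · rw [if_pos hq1, List.mem_map] at hp
        obtain ⟨r, hr, hrp⟩ := hp
        have hrn := I1_norm hc hy i L r hr
        obtain ⟨L1, L2, e', j', hdec, ht, hf⟩ := I1_form cc y i L r hr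
        obtain ⟨q1, e, j⟩ := q
        simp only at hq1 hrp
        subst hq1
        -- facts on the word
        have hR := hL
        rw [hdec] at hR
        have hR2 : RedC τ y (((q1, e, j) : Lt J) :: L1) ∧
            (∀ x ∈ (((q1, e, j) : Lt J) :: L1).getLast?,
              (x.1 = q1 ∧ x.2.1 ≠ e') → EZ τ (y x.2.2) = 0) := by
          have hR3 : List.IsChain (fun a b : Lt J => (a.1 = b.1 ∧ a.2.1 ≠ b.2.1) →
              EZ τ (y a.2.2) = 0)
              ((((q1, e, j) : Lt J) :: L1) ++ (((q1, e', j') : Lt J) :: L2)) := by
            rw [List.cons_append]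
            exact hR
          rw [List.isChain_append] at hR3
          refine ⟨hR3.1, ?_⟩
          intro x hx
          exact hR3.2.2 x hx (q1, e', j') (by simp)
        obtain ⟨hRa, hRc⟩ := hR2
        have hL1 : RedC τ y L1 := List.IsChain.tail hRa
        have hlen : L.length = L1.length + (L2.length + 1) := by
          rw [hdec, List.length_append, List.length_cons]
        -- if the signs differ and the middle part is empty then the coefficient is centered
        have hne : e ≠ e' → L1 = [] → EZ τ (y j) = 0 := by
          intro hee h0
          subst h0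
          exact hRc (q1, e, j) (by simp) ⟨rfl, hee⟩
        cases e with
        | true =>
          rw [if_pos rfl] at hrp
          subst hrp
          refine ⟨hc _, mul_le_one' (hy _) hrn.1, hrn.2, ?_⟩
          cases e' with
          | true =>
            refine Or.inr ⟨j, L1 ++ [(q1, true, j1)], by simp, ?_, ?_, ?_⟩
            · simp only [List.length_append, List.length_cons, List.length_nil]
              omega
            · have hRd : List.IsChain (fun a b : Lt J => (a.1 = b.1 ∧ a.2.1 ≠ b.2.1) →
                  EZ τ (y a.2.2) = 0) (L1 ++ [((q1, true, j1) : Lt J)]) := by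
                rw [List.isChain_append]
                refine ⟨hL1, by simp, ?_⟩
                intro x hx z hz
                have hz' : z = (q1, true, j1) := by simpa using hz.symm
                subst hz'
                refine hRc x ?_
                rcases L1 with _ | ⟨a, L1⟩
                · simp at hx
                · rw [List.getLast?_cons_cons]
                  exact hx
              exact hRd
            · show Pool.Agent.H467F.n2 τ (EZ τ (y j * r.1)) = _
              rw [ht rfl, wv_append]
              simp [wv, cl, hj1, hcc]
          | false =>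
            by_cases h0 : L1 = []
            · left
              show EZ τ (y j * r.1) = 0
              rw [hf rfl, mul_neg, EZ_neg hE, h0]
              show -EZ τ (y j * 1) = 0
              rw [mul_one, hne (by simp) h0, neg_zero]
            · refine Or.inr ⟨j, L1, h0, ?_, hL1, ?_⟩
              · rw [List.length_cons, hlen]
                omega
              · show Pool.Agent.H467F.n2 τ (EZ τ (y j * r.1)) = _
                rw [hf rfl, mul_neg, EZ_neg hE, n2_neg]
        | false =>
          rw [if_neg (by simp)] at hrp
          subst hrp
          refine ⟨?_, mul_le_one' ?_ (mul_le_one' (hy _) hrn.1), hrn.2, ?_⟩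
          · show ‖(-1 : A)‖ ≤ 1
            rw [norm_neg]; exact norm_one_le
          · rw [norm_star]; exact hc _
          cases e' with
          | true =>
            have hconj : EZ τ (star (cc q1) * (y j * r.1)) = EZ τ (y j * wv cc y L1) := by
              rw [ht rfl]
              have h1 := hE.conj (star (c q1)) (y j * wv cc y L1)
              rw [Unitary.coe_star, star_star] at h1
              rw [← h1]
              simp only [hcc, mul_assoc]
            by_cases h0 : L1 = []
            · left
              show EZ τ (star (cc q1) * (y j * r.1)) = 0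
              rw [hconj, h0]
              show EZ τ (y j * 1) = 0
              rw [mul_one, hne (by simp) h0]
            · refine Or.inr ⟨j, L1, h0, ?_, hL1, ?_⟩
              · rw [List.length_cons, hlen]
                omega
              · show Pool.Agent.H467F.n2 τ (EZ τ (star (cc q1) * (y j * r.1))) = _
                rw [hconj]
          | false =>
            refine Or.inr ⟨j1, ((q1, false, j) : Lt J) :: L1, by simp, ?_, hRa, ?_⟩
            · rw [List.length_cons, List.length_cons, hlen]
              omega
            · show Pool.Agent.H467F.n2 τ (EZ τ (star (cc q1) * (y j * r.1))) = _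
              rw [hf rfl, mul_neg, mul_neg, EZ_neg hE, n2_neg, hj1, one_mul]
              simp only [wv, cl, mul_assoc]
              simp
      · rw [if_neg hq1] at hp
        simp at hp

end Pool.Agent.H30K
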