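import Mathlib
import Pool.Agent.H30R4.KI.Defs
import Pool.Agent.H255R2.GEN.CEN
import Pool.Agent.H794R2.GEN.W1
import Pool.Agent.H948R2.GEN.W2
import Pool.Agent.H504R2.GEN.W3

/-! MP_64d6f1_an, task W3C (helper77): the average of one word over one step, centered version
(adapted from `T_W3` of helper504). -/

set_option autoImplicit false

open scoped ComplexOrder Topology BoundedContinuousFunction
open Filter

noncomputable section

namespace Pool.Agent.H30K.T_W3C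

open Pool.Agent.H467F Pool.Agent.H735G Pool.Agent.H270G Pool.Agent.H270G.T_W3

variable {A : Type} [CStarAlgebra A] {τ : A →ₗ[ℂ] ℂ}

/-- statement of `ins2C` for the trace `τ` -/
def S_ins2C (τ : A →ₗ[ℂ] ℂ) : Prop := ∀ {J : Type} (c : Fin 4 → unitary A) (y : J → A)
    (_ : ∀ j, ‖y j‖ ≤ 1) (j1 : J) (_ : y j1 = 1) (i : Fin 4) (L : List (Lt J))
    (_ : RedC τ y L),
    ∃ l : List (A × A × A), l.length ≤ L.length ^ 2 ∧
      (∀ p ∈ l, ‖p.1‖ ≤ 1 ∧ ‖p.2.1‖ ≤ 1 ∧ ‖p.2.2‖ ≤ 1 ∧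
        (EZ τ p.2.1 = 0 ∨ ∃ (j : J) (B : List (Lt J)), B ≠ [] ∧ B.length < L.length ∧ RedC τ y B ∧
          n2 τ (EZ τ p.2.1) = n2 τ (EZ τ (y j * wv (fun i => (c i : A)) y B)))) ∧
      ∀ V, D2 (fun i => (c i : A)) y i V L =
        (l.map fun p => p.1 * V * p.2.1 * V * p.2.2).sum

theorem one_stepC_aux (h : TW τ) (hE : EZP τ) (sExpand : SExpand A) (sBounds : SBounds A)
    (sIns1 : SIns1 A) (sIns2 : S_ins2C τ) {J : Type} (c : Fin 4 → unitary A) (y : J → A)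
    (hy : ∀ j, ‖y j‖ ≤ 1) (j1 : J) (hj1 : y j1 = 1) (i : Fin 4) (j0 : J) (L : List (Lt J))
    (hL : RedC τ y L) (S : ℝ) (hS0 : 0 ≤ S)
    (hS : ∀ (j : J) (B : List (Lt J)), B ≠ [] → B.length < L.length → RedC τ y B →
      n2 τ (EZ τ (y j * wv (fun i => (c i : A)) y B)) ≤ S) :
    ∃ Y : Finset A, ∀ (G : Type) [Fintype G] [Nonempty G] (V : G → A),
      (∀ g, star (V g) = V g ∧ V g * V g = 1) → ∀ η : ℝ, 0 ≤ η →
      (∀ x ∈ Y, n2 τ ((Fintype.card G : ℂ)⁻¹ • (∑ g, V g * x * V g) - EZ τ x) ≤ η) →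
      (∀ x ∈ Y, (Fintype.card G : ℝ)⁻¹ * ∑ g, n2 τ (EZ τ (V g * x)) ^ 2 ≤ η) →
      ∀ b : ℝ, 0 ≤ b → b ≤ 1 →
      (2 * (Fintype.card G : ℝ))⁻¹ * ∑ g,
          (n2 τ (EZ τ (y j0 * wv (upd (fun i => (c i : A)) i (rot (V g) b 1)) y L)) ^ 2 +
           n2 τ (EZ τ (y j0 * wv (upd (fun i => (c i : A)) i (rot (V g) b (-1))) y L)) ^ 2) ≤
        (1 - (cnt i L : ℝ) * b ^ 2) * n2 τ (EZ τ (y j0 * wv (fun i => (c i : A)) y L)) ^ 2 +
        2 * b ^ 2 * (L.length : ℝ) ^ 2 * n2 τ (EZ τ (y j0 * wv (fun i => (c i : A)) y L)) * S +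
        1000 * ((L.length : ℝ) + 1) ^ 6 * b ^ 3 + 1000 * ((L.length : ℝ) + 1) ^ 6 * η := by
  classical
  have hnt : Nontrivial A := by
    refine ⟨1, 0, fun h0 => ?_⟩
    have := h.one
    rw [h0, map_zero] at this
    exact zero_ne_one this
  set c' : Fin 4 → A := fun i => (c i : A) with hc'
  have hc : ∀ i, ‖c' i‖ ≤ 1 := fun i => (CStarRing.norm_coe_unitary (c i)).le
  obtain ⟨l1, hl1len, hl1n, hl1⟩ := sIns1 c' hc y hy i L
  obtain ⟨l2, hl2len, hl2n, hl2⟩ := sIns2 c y hy j1 hj1 i L hL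
  refine ⟨(l1.map fun p => p.2 * y j0 * p.1).toFinset ∪ (l2.map fun p => p.2.1).toFinset, ?_⟩
  intro G _ _ V hV η hη hY1 hY2 b hb0 hb1
  -- notation
  set p : ℝ := (L.length : ℝ) with hp
  set m : ℝ := (cnt i L : ℝ) with hm
  have hp0 : 0 ≤ p := Nat.cast_nonneg _
  have hm0 : 0 ≤ m := Nat.cast_nonneg _
  set FW := EZ τ (y j0 * wv c' y L) with hFW
  set a := n2 τ FW with ha
  set Z : G → A := fun g => EZ τ (y j0 * D2 c' y i (V g) L) with hZ
  set Yg : G → A := fun g => EZ τ (y j0 * D1 c' y i (V g) L) with hYg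
  set θ : ℝ := 1 - m * b ^ 2 / 2 with hθ
  set X : G → A := fun g => (θ : ℂ) • FW - ((b ^ 2 : ℝ) : ℂ) • Z g with hX
  have hVn : ∀ g, ‖V g‖ ≤ 1 := fun g =>
    norm_le_one_of_sym h (V g) (by rw [(hV g).1]; exact (hV g).2)
  have hmp : m ≤ p := by
    have := (sBounds c' hc y hy (V (Classical.arbitrary G)) (hVn _) i L).2.2.2
    rw [hm, hp]
    exact_mod_cast this
  have hmul : ∀ x : A, ‖y j0 * x‖ ≤ ‖x‖ := fun x => (norm_mul_le _ _).trans (by
    have := hy j0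
    nlinarith [norm_nonneg x, norm_nonneg (y j0)])
  have hEn : ∀ x : A, n2 τ (EZ τ x) ≤ ‖x‖ := fun x => (hE.n2_le x).trans ((tau_bounds h).2 x)
  have ha0 : 0 ≤ a := n2_nonneg _ _
  have ha1 : a ≤ 1 := (hEn _).trans ((hmul _).trans
    (sBounds c' hc y hy (V (Classical.arbitrary G)) (hVn _) i L).1)
  have hZn : ∀ g, n2 τ (Z g) ≤ p ^ 2 := fun g => (hEn _).trans ((hmul _).trans
    (sBounds c' hc y hy (V g) (hVn _) i L).2.2.1)
  have hYn : ∀ g, n2 τ (Yg g) ≤ p := fun g => (hEn _).trans ((hmul _).trans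
    (sBounds c' hc y hy (V g) (hVn _) i L).2.1)
  have hZ0 : ∀ g, 0 ≤ n2 τ (Z g) := fun g => n2_nonneg _ _
  have hY0 : ∀ g, 0 ≤ n2 τ (Yg g) := fun g => n2_nonneg _ _
  have hb2 : b ^ 2 ≤ 1 := pow_le_one₀ hb0 hb1
  have hb20 : 0 ≤ b ^ 2 := by positivity
  have hb30 : 0 ≤ b ^ 3 := by positivity
  -- one sign
  have hone : ∀ g (ε : ℝ), ε ^ 2 = 1 →
      n2 τ (EZ τ (y j0 * wv (upd c' i (rot (V g) b ε)) y L)) ^ 2 ≤
        n2 τ (X g + (Complex.I * (b * ε : ℝ)) • Yg g) ^ 2 + 35 * (p + 1) ^ 6 * b ^ 3 := by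
    intro g ε hε
    have hR := rot_norm h (V g) (hV g).1 (hV g).2 b ε hb0 hb1 hε
    have hx := sExpand c' hc y hy (V g) (hVn g) (hV g).1 b ε hb0 hb1 hε hR i L
    set wn := wv (upd c' i (rot (V g) b ε)) y L with hwn
    obtain ⟨r, hr⟩ : ∃ r, wn = r + (wv c' y L + (Complex.I * (b * ε : ℝ)) • D1 c' y i (V g) L -
      ((b ^ 2 : ℝ) : ℂ) • D2 c' y i (V g) L -
        (((cnt i L : ℝ) * b ^ 2 / 2 : ℝ) : ℂ) • wv c' y L) :=
      ⟨wn - (wv c' y L + (Complex.I * (b * ε : ℝ)) • D1 c' y i (V g) L -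
      ((b ^ 2 : ℝ) : ℂ) • D2 c' y i (V g) L -
        (((cnt i L : ℝ) * b ^ 2 / 2 : ℝ) : ℂ) • wv c' y L), by abel⟩
    have hrx : ‖r‖ ≤ 5 * p ^ 3 * b ^ 3 := by
      have e0 : r = wn - (wv c' y L + (Complex.I * (b * ε : ℝ)) • D1 c' y i (V g) L -
        ((b ^ 2 : ℝ) : ℂ) • D2 c' y i (V g) L -
          (((cnt i L : ℝ) * b ^ 2 / 2 : ℝ) : ℂ) • wv c' y L) := by
        rw [hr]; abel
      rw [e0]
      exact hx
    have e2 : EZ τ (y j0 * wn) =
        (X g + (Complex.I * (b * ε : ℝ)) • Yg g) + EZ τ (y j0 * r) := by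
      rw [hr]
      have e3 : y j0 * (r + (wv c' y L + (Complex.I * (b * ε : ℝ)) • D1 c' y i (V g) L -
        ((b ^ 2 : ℝ) : ℂ) • D2 c' y i (V g) L -
          (((cnt i L : ℝ) * b ^ 2 / 2 : ℝ) : ℂ) • wv c' y L)) =
          y j0 * r + (y j0 * wv c' y L + (Complex.I * (b * ε : ℝ)) • (y j0 * D1 c' y i (V g) L) -
        ((b ^ 2 : ℝ) : ℂ) • (y j0 * D2 c' y i (V g) L) -
          (((cnt i L : ℝ) * b ^ 2 / 2 : ℝ) : ℂ) • (y j0 * wv c' y L)) := by
        rw [mul_add, mul_sub, mul_sub, mul_add, mul_smul_comm, mul_smul_comm, mul_smul_comm]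
      rw [e3, hE.add, hE.sub, hE.sub, hE.add, hE.smul, hE.smul, hE.smul]
      change EZ τ (y j0 * r) + (FW + (Complex.I * (b * ε : ℝ)) • Yg g -
        ((b ^ 2 : ℝ) : ℂ) • Z g - ((m * b ^ 2 / 2 : ℝ) : ℂ) • FW) =
        ((θ : ℂ) • FW - ((b ^ 2 : ℝ) : ℂ) • Z g) + (Complex.I * (b * ε : ℝ)) • Yg g +
          EZ τ (y j0 * r)
      rw [hθ]
      push_cast
      module
    have hq : n2 τ (X g + (Complex.I * (b * ε : ℝ)) • Yg g) ≤ (p + 1) ^ 2 := by
      have h1 := h.n2_add_le (X g) ((Complex.I * (b * ε : ℝ)) • Yg g)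
      have h2 : n2 τ (X g) ≤ n2 τ ((θ : ℂ) • FW) + n2 τ (((b ^ 2 : ℝ) : ℂ) • Z g) := h.n2_sub_le _ _
      rw [n2_smul, n2_smul] at h2
      rw [n2_smul (τ := τ) (Complex.I * (b * ε : ℝ)) (Yg g)] at h1
      have h3 : ‖(Complex.I * (b * ε : ℝ) : ℂ)‖ ≤ 1 := by
        rw [norm_mul, Complex.norm_I, one_mul, Complex.norm_real, Real.norm_eq_abs, abs_mul]
        have : |ε| = 1 := by
          have := sq_abs ε
          rw [hε] at this
          nlinarith [abs_nonneg ε]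
        rw [this, mul_one, abs_of_nonneg hb0]
        exact hb1
      have h4 : ‖(θ : ℂ)‖ ≤ 1 + p / 2 := by
        rw [Complex.norm_real, Real.norm_eq_abs, abs_le, hθ]
        have h5 : m * b ^ 2 ≤ p * 1 := mul_le_mul hmp hb2 hb20 hp0
        have h6 : 0 ≤ m * b ^ 2 := by positivity
        constructor <;> linarith
      have h5 : ‖((b ^ 2 : ℝ) : ℂ)‖ ≤ 1 := by
        rw [Complex.norm_real, Real.norm_eq_abs, abs_of_nonneg hb20]
        exact hb2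
      have h6 : ‖(θ : ℂ)‖ * n2 τ FW ≤ (1 + p / 2) * 1 := mul_le_mul h4 ha1 ha0 (by positivity)
      have h7 : ‖((b ^ 2 : ℝ) : ℂ)‖ * n2 τ (Z g) ≤ 1 * p ^ 2 :=
        mul_le_mul h5 (hZn g) (hZ0 g) (by norm_num)
      have h8 : ‖(Complex.I * (b * ε : ℝ) : ℂ)‖ * n2 τ (Yg g) ≤ 1 * p :=
        mul_le_mul h3 (hYn g) (hY0 g) (by norm_num)
      nlinarith
    refine real_step p b _ (n2 τ (EZ τ (y j0 * r))) _ hp0 hb0 hb1 (n2_nonneg _ _) ?_
      (n2_nonneg _ _) hq (n2_nonneg _ _) ?_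
    · rw [e2]
      exact h.n2_add_le _ _
    · exact (hEn _).trans ((hmul _).trans hrx)
  -- both signs
  have htwo : ∀ g, n2 τ (EZ τ (y j0 * wv (upd c' i (rot (V g) b 1)) y L)) ^ 2 +
      n2 τ (EZ τ (y j0 * wv (upd c' i (rot (V g) b (-1))) y L)) ^ 2 ≤
      2 * (n2 τ (X g) ^ 2 + b ^ 2 * n2 τ (Yg g) ^ 2) + 70 * (p + 1) ^ 6 * b ^ 3 := by
    intro g
    have h1 := hone g 1 (by norm_num)
    have h2 := hone g (-1) (by norm_num)
    have h3 := n2_par h (X g) ((Complex.I * (b * 1 : ℝ)) • Yg g)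
    have e : X g + (Complex.I * (b * (-1) : ℝ)) • Yg g =
        X g - (Complex.I * (b * 1 : ℝ)) • Yg g := by
      push_cast
      module
    rw [e] at h2
    rw [n2_smul] at h3
    have h4 : ‖(Complex.I * (b * 1 : ℝ) : ℂ)‖ = b := by
      rw [norm_mul, Complex.norm_I, one_mul, Complex.norm_real, Real.norm_eq_abs, mul_one,
        abs_of_nonneg hb0]
    rw [h4, mul_pow] at h3
    linarith
  -- the average of the first variation
  set N : ℝ := (Fintype.card G : ℝ) with hN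
  have hNpos : 0 < N := by
    rw [hN]
    exact_mod_cast Fintype.card_pos
  have hYavg : N⁻¹ * ∑ g, n2 τ (Yg g) ^ 2 ≤ p ^ 2 * η := by
    have e1 : ∀ g, Yg g = ∑ k : Fin l1.length, EZ τ (V g * ((l1.get k).2 * y j0 * (l1.get k).1)) := by
      intro g
      simp only [hYg]
      rw [hl1]
      have e2 : (l1.map fun p => p.1 * V g * p.2).sum =
          ∑ k : Fin l1.length, (l1.get k).1 * V g * (l1.get k).2 := by
        rw [← List.sum_ofFn]
        congr 1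
        apply List.ext_get
        · simp
        · intro n h1 h2
          simp
      rw [e2, Finset.mul_sum, ← FL_apply hE, map_sum]
      refine Finset.sum_congr rfl fun k _ => ?_
      rw [FL_apply]
      have e3 : y j0 * ((l1.get k).1 * V g * (l1.get k).2) =
          (y j0 * (l1.get k).1) * (V g * (l1.get k).2) := by noncomm_ring
      rw [e3, hE.cyc]
      congr 1
      noncomm_ring
    have h1 : ∀ g, n2 τ (Yg g) ^ 2 ≤ (l1.length : ℝ) *
        ∑ k : Fin l1.length, n2 τ (EZ τ (V g * ((l1.get k).2 * y j0 * (l1.get k).1))) ^ 2 := by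
      intro g
      have h2 : n2 τ (Yg g) ≤
          ∑ k : Fin l1.length, n2 τ (EZ τ (V g * ((l1.get k).2 * y j0 * (l1.get k).1))) := by
        rw [e1 g]
        exact n2_sum_le h _ _
      have h3 := pow_le_pow_left₀ (hY0 g) h2 2
      have h4 := sq_sum_le_card_mul_sum_sq (s := (Finset.univ : Finset (Fin l1.length)))
        (f := fun k => n2 τ (EZ τ (V g * ((l1.get k).2 * y j0 * (l1.get k).1))))
      rw [Finset.card_univ, Fintype.card_fin] at h4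
      exact h3.trans h4
    have h5 : ∀ k : Fin l1.length,
        N⁻¹ * ∑ g, n2 τ (EZ τ (V g * ((l1.get k).2 * y j0 * (l1.get k).1))) ^ 2 ≤ η := by
      intro k
      apply hY2
      rw [Finset.mem_union]
      left
      rw [List.mem_toFinset, List.mem_map]
      exact ⟨l1.get k, List.get_mem _ _, rfl⟩
    have hl1r : (l1.length : ℝ) ≤ p := by rw [hp]; exact_mod_cast hl1len
    calc N⁻¹ * ∑ g, n2 τ (Yg g) ^ 2 ≤ N⁻¹ * ∑ g, ((l1.length : ℝ) *
        ∑ k : Fin l1.length, n2 τ (EZ τ (V g * ((l1.get k).2 * y j0 * (l1.get k).1))) ^ 2) := by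
          gcongr with g _
          exact h1 g
      _ = (l1.length : ℝ) * ∑ k : Fin l1.length,
          N⁻¹ * ∑ g, n2 τ (EZ τ (V g * ((l1.get k).2 * y j0 * (l1.get k).1))) ^ 2 := by
          rw [← Finset.mul_sum, ← Finset.mul_sum, Finset.sum_comm]
          ring
      _ ≤ (l1.length : ℝ) * ∑ _k : Fin l1.length, η := by
          gcongr with k _
          exact h5 k
      _ = (l1.length : ℝ) ^ 2 * η := by
          simp
          ring
      _ ≤ p ^ 2 * η := by gcongr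
  -- the average of the second variation
  set s : ℝ := min S 1 with hs
  have hs0 : 0 ≤ s := le_min hS0 zero_le_one
  have hZavg : n2 τ ((N : ℂ)⁻¹ • ∑ g, Z g) ≤ p ^ 2 * (η + s) := by
    have e1 : (N : ℂ)⁻¹ • ∑ g, Z g = ∑ k : Fin l2.length, EZ τ (y j0 * ((l2.get k).1 *
        ((N : ℂ)⁻¹ • ∑ g, V g * (l2.get k).2.1 * V g) * (l2.get k).2.2)) := by
      have e2 : ∀ g, Z g = ∑ k : Fin l2.length, EZ τ (y j0 * ((l2.get k).1 *
          (V g * (l2.get k).2.1 * V g) * (l2.get k).2.2)) := by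
        intro g
        simp only [hZ]
        rw [hl2]
        have e3 : (l2.map fun p => p.1 * V g * p.2.1 * V g * p.2.2).sum =
            ∑ k : Fin l2.length, (l2.get k).1 * (V g * (l2.get k).2.1 * V g) * (l2.get k).2.2 := by
          rw [← List.sum_ofFn]
          congr 1
          apply List.ext_get
          · simp
          · intro n h1 h2
            simp [mul_assoc]
        rw [e3, Finset.mul_sum, ← FL_apply hE, map_sum]
        rfl
      simp_rw [e2]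
      rw [Finset.sum_comm, Finset.smul_sum]
      refine Finset.sum_congr rfl fun k _ => ?_
      have e5 : (N : ℂ)⁻¹ • ∑ g, EZ τ (y j0 * ((l2.get k).1 *
          (V g * (l2.get k).2.1 * V g) * (l2.get k).2.2)) =
          FL hE ((N : ℂ)⁻¹ • ∑ g, (y j0 * ((l2.get k).1 *
          (V g * (l2.get k).2.1 * V g) * (l2.get k).2.2))) := by
        rw [map_smul, map_sum]
        rfl
      rw [e5, FL_apply]
      congr 1
      rw [← Finset.mul_sum, ← Finset.sum_mul, ← Finset.mul_sum, mul_smul_comm, smul_mul_assoc,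
        mul_smul_comm]
    rw [e1]
    refine (n2_sum_le h _ _).trans ?_
    have h1 : ∀ k : Fin l2.length, n2 τ (EZ τ (y j0 * ((l2.get k).1 *
        ((N : ℂ)⁻¹ • ∑ g, V g * (l2.get k).2.1 * V g) * (l2.get k).2.2))) ≤ η + s := by
      intro k
      obtain ⟨n1, n3, n4, hcase⟩ := hl2n (l2.get k) (List.get_mem _ _)
      refine (mid_bound h hE (y j0) (l2.get k).1 (l2.get k).2.1 (l2.get k).2.2 _ (hy j0) n1 n4).trans
        (add_le_add ?_ (le_min ?_ ?_))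
      · have := hY1 (l2.get k).2.1 (by
          rw [Finset.mem_union]
          right
          rw [List.mem_toFinset, List.mem_map]
          exact ⟨l2.get k, List.get_mem _ _, rfl⟩)
        simpa [hN] using this
      · rcases hcase with h0 | ⟨j, B, hB1, hB2, hB3, hB4⟩
        · rw [h0, n2_zero]
          exact hS0
        · rw [hB4]
          exact hS j B hB1 hB2 hB3
      · exact (hEn _).trans n3
    have hl2r : (l2.length : ℝ) ≤ p ^ 2 := by rw [hp]; exact_mod_cast hl2len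
    calc ∑ k : Fin l2.length, n2 τ (EZ τ (y j0 * ((l2.get k).1 *
        ((N : ℂ)⁻¹ • ∑ g, V g * (l2.get k).2.1 * V g) * (l2.get k).2.2)))
        ≤ ∑ _k : Fin l2.length, (η + s) := Finset.sum_le_sum fun k _ => h1 k
      _ = (l2.length : ℝ) * (η + s) := by
        rw [Finset.sum_const, Finset.card_univ, Fintype.card_fin, nsmul_eq_mul]
      _ ≤ p ^ 2 * (η + s) := by gcongr
  -- the average of the squares
  have hXavg : N⁻¹ * ∑ g, n2 τ (X g) ^ 2 ≤ θ ^ 2 * a ^ 2 +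
      2 * |θ| * b ^ 2 * (a * (p ^ 2 * (η + s))) + (b ^ 2) ^ 2 * (p ^ 2) ^ 2 := by
    have e1 : ∀ g, n2 τ (X g) ^ 2 = θ ^ 2 * a ^ 2 - 2 * θ * b ^ 2 * (τ (star FW * Z g)).re +
        (b ^ 2) ^ 2 * n2 τ (Z g) ^ 2 := fun g => n2_lin h θ (b ^ 2) FW (Z g)
    have e2 : N⁻¹ * ∑ g, (τ (star FW * Z g)).re = (τ (star FW * ((N : ℂ)⁻¹ • ∑ g, Z g))).re := by
      have e6 : τ (star FW * ((N : ℂ)⁻¹ • ∑ g, Z g)) =
          ((N⁻¹ : ℝ) : ℂ) * ∑ g, τ (star FW * Z g) := by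
        rw [mul_smul_comm, map_smul, smul_eq_mul, Finset.mul_sum, map_sum, Complex.ofReal_inv]
      rw [e6, Complex.re_ofReal_mul, Complex.re_sum]
    have h3 : |(τ (star FW * ((N : ℂ)⁻¹ • ∑ g, Z g))).re| ≤ a * (p ^ 2 * (η + s)) :=
      (Complex.abs_re_le_norm _).trans ((h.cauchy _ _).trans (mul_le_mul_of_nonneg_left hZavg ha0))
    have h4 : N⁻¹ * ∑ g, n2 τ (Z g) ^ 2 ≤ (p ^ 2) ^ 2 := by
      have : ∑ g, n2 τ (Z g) ^ 2 ≤ ∑ _g : G, (p ^ 2) ^ 2 :=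
        Finset.sum_le_sum fun g _ => pow_le_pow_left₀ (hZ0 g) (hZn g) 2
      rw [Finset.sum_const, Finset.card_univ, nsmul_eq_mul] at this
      rw [inv_mul_le_iff₀ hNpos]
      exact this
    have e3 : N⁻¹ * ∑ g, n2 τ (X g) ^ 2 = θ ^ 2 * a ^ 2 -
        2 * θ * b ^ 2 * (N⁻¹ * ∑ g, (τ (star FW * Z g)).re) +
        (b ^ 2) ^ 2 * (N⁻¹ * ∑ g, n2 τ (Z g) ^ 2) := by
      simp_rw [e1]
      rw [Finset.sum_add_distrib, Finset.sum_sub_distrib, Finset.sum_const, ← Finset.mul_sum,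
        ← Finset.mul_sum, Finset.card_univ, nsmul_eq_mul, ← hN]
      field_simp
    rw [e3, e2]
    have h5 : -(2 * θ * b ^ 2 * (τ (star FW * ((N : ℂ)⁻¹ • ∑ g, Z g))).re) ≤
        2 * |θ| * b ^ 2 * (a * (p ^ 2 * (η + s))) := by
      have h6 := neg_abs_le (2 * θ * b ^ 2 * (τ (star FW * ((N : ℂ)⁻¹ • ∑ g, Z g))).re)
      have h7 : |2 * θ * b ^ 2 * (τ (star FW * ((N : ℂ)⁻¹ • ∑ g, Z g))).re| =
          2 * |θ| * b ^ 2 * |(τ (star FW * ((N : ℂ)⁻¹ • ∑ g, Z g))).re| := by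
        rw [abs_mul, abs_mul, abs_mul, abs_of_nonneg hb20]
        norm_num
      have h8 : 2 * |θ| * b ^ 2 * |(τ (star FW * ((N : ℂ)⁻¹ • ∑ g, Z g))).re| ≤
          2 * |θ| * b ^ 2 * (a * (p ^ 2 * (η + s))) := mul_le_mul_of_nonneg_left h3 (by positivity)
      linarith
    have h9 : (b ^ 2) ^ 2 * (N⁻¹ * ∑ g, n2 τ (Z g) ^ 2) ≤ (b ^ 2) ^ 2 * (p ^ 2) ^ 2 :=
      mul_le_mul_of_nonneg_left h4 (by positivity)
    linarith
  -- end
  have hfin := real_final a b m p s S η ha0 ha1 hb0 hb1 hm0 hmp hs0 (min_le_right _ _)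
    (min_le_left _ _) hη
  rw [← hθ] at hfin
  have hsum : (2 * N)⁻¹ * ∑ g, (n2 τ (EZ τ (y j0 * wv (upd c' i (rot (V g) b 1)) y L)) ^ 2 +
      n2 τ (EZ τ (y j0 * wv (upd c' i (rot (V g) b (-1))) y L)) ^ 2) ≤
      N⁻¹ * ∑ g, n2 τ (X g) ^ 2 + b ^ 2 * (N⁻¹ * ∑ g, n2 τ (Yg g) ^ 2) +
        35 * (p + 1) ^ 6 * b ^ 3 := by
    have h1 : ∑ g, (n2 τ (EZ τ (y j0 * wv (upd c' i (rot (V g) b 1)) y L)) ^ 2 +
      n2 τ (EZ τ (y j0 * wv (upd c' i (rot (V g) b (-1))) y L)) ^ 2) ≤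
      ∑ g, (2 * (n2 τ (X g) ^ 2 + b ^ 2 * n2 τ (Yg g) ^ 2) + 70 * (p + 1) ^ 6 * b ^ 3) :=
      Finset.sum_le_sum fun g _ => htwo g
    have h2 := mul_le_mul_of_nonneg_left h1 (by positivity : 0 ≤ (2 * N)⁻¹)
    refine h2.trans (le_of_eq ?_)
    rw [Finset.sum_add_distrib, ← Finset.mul_sum, Finset.sum_add_distrib, ← Finset.mul_sum,
      Finset.sum_const, Finset.card_univ, nsmul_eq_mul, ← hN]
    field_simp
    ring
  have hY' : b ^ 2 * (N⁻¹ * ∑ g, n2 τ (Yg g) ^ 2) ≤ b ^ 2 * (p ^ 2 * η) :=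
    mul_le_mul_of_nonneg_left hYavg hb20
  linarith


end Pool.Agent.H30K.T_W3C

namespace Pool.Agent.H30K

open Pool.Agent.H467F (TW n2)
open Pool.Agent.H270G (EZ EZP Lt wv cnt upd rot D2)

variable {A : Type} [CStarAlgebra A] {τ : A →ₗ[ℂ] ℂ}

/-- W3C -/
theorem one_stepC (hins2C : T_W3C.S_ins2C τ) (h : TW τ) {J : Type} (c : Fin 4 → unitary A)
    (y : J → A)
    (hy : ∀ j, ‖y j‖ ≤ 1) (j1 : J) (hj1 : y j1 = 1) (i : Fin 4) (j0 : J) (L : List (Lt J))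
    (hL : RedC τ y L) (S : ℝ) (hS0 : 0 ≤ S)
    (hS : ∀ (j : J) (B : List (Lt J)), B ≠ [] → B.length < L.length → RedC τ y B →
      n2 τ (EZ τ (y j * wv (fun i => (c i : A)) y B)) ≤ S) :
    ∃ Y : Finset A, ∀ (G : Type) [Fintype G] [Nonempty G] (V : G → A),
      (∀ g, star (V g) = V g ∧ V g * V g = 1) → ∀ η : ℝ, 0 ≤ η →
      (∀ x ∈ Y, n2 τ ((Fintype.card G : ℂ)⁻¹ • (∑ g, V g * x * V g) - EZ τ x) ≤ η) →
      (∀ x ∈ Y, (Fintype.card G : ℝ)⁻¹ * ∑ g, n2 τ (EZ τ (V g * x)) ^ 2 ≤ η) →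
      ∀ b : ℝ, 0 ≤ b → b ≤ 1 →
      (2 * (Fintype.card G : ℝ))⁻¹ * ∑ g,
          (n2 τ (EZ τ (y j0 * wv (upd (fun i => (c i : A)) i (rot (V g) b 1)) y L)) ^ 2 +
           n2 τ (EZ τ (y j0 * wv (upd (fun i => (c i : A)) i (rot (V g) b (-1))) y L)) ^ 2) ≤
        (1 - (cnt i L : ℝ) * b ^ 2) * n2 τ (EZ τ (y j0 * wv (fun i => (c i : A)) y L)) ^ 2 +
        2 * b ^ 2 * (L.length : ℝ) ^ 2 * n2 τ (EZ τ (y j0 * wv (fun i => (c i : A)) y L)) * S +
        1000 * ((L.length : ℝ) + 1) ^ 6 * b ^ 3 + 1000 * ((L.length : ℝ) + 1) ^ 6 * η :=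
  T_W3C.one_stepC_aux h (Pool.Agent.H270G.T_CEN.ezp h)
    (fun c hc y hy V hV hVs b ε h0 h1 hε hR i L =>
      Pool.Agent.H270G.expand c hc y hy V hV hVs b ε h0 h1 hε hR i L)
    (fun c hc y hy V hV i L => Pool.Agent.H270G.wv_bounds c hc y hy V hV i L)
    (fun c hc y hy i L => Pool.Agent.H270G.T_W2.ins1 c hc y hy i L)
    hins2C c y hy j1 hj1 i j0 L hL S hS0 hS

end Pool.Agent.H30K
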