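import Mathlib
import Pool.Agent.H30R4.KI.Defs
import Pool.Agent.H270R2.GEN.W5

/-! MP_64d6f1_an, task W5C: the random walk with centered coefficients. -/

set_option autoImplicit false

open scoped ComplexOrder Topology BoundedContinuousFunction ComplexConjugate
open Filter

noncomputable section

namespace Pool.Agent.H30K

open Pool.Agent.H467F (TW n2 n2_nonneg)
open Pool.Agent.H735G (NoAbA)
open Pool.Agent.H270G (EZ EZP Lt wv cnt upd rot D2 Mixing)
open Pool.Agent.H270G.T_W5 (rot_mem sum_cnt)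

variable {A : Type} [CStarAlgebra A] {τ : A →ₗ[ℂ] ℂ}

namespace W5Cn

/-- The statement of task W3C (`one_stepC`), used as a hypothesis. -/
def OneStepC (τ : A →ₗ[ℂ] ℂ) : Prop :=
  ∀ {J : Type} (c : Fin 4 → unitary A) (y : J → A)
    (_ : ∀ j, ‖y j‖ ≤ 1) (j1 : J) (_ : y j1 = 1) (i : Fin 4) (j0 : J) (L : List (Lt J))
    (_ : RedC τ y L) (S : ℝ) (_ : 0 ≤ S)
    (_ : ∀ (j : J) (B : List (Lt J)), B ≠ [] → B.length < L.length → RedC τ y B →
      n2 τ (EZ τ (y j * wv (fun i => (c i : A)) y B)) ≤ S),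
    ∃ Y : Finset A, ∀ (G : Type) [Fintype G] [Nonempty G] (V : G → A),
      (∀ g, star (V g) = V g ∧ V g * V g = 1) → ∀ η : ℝ, 0 ≤ η →
      (∀ x ∈ Y, n2 τ ((Fintype.card G : ℂ)⁻¹ • (∑ g, V g * x * V g) - EZ τ x) ≤ η) →
      (∀ x ∈ Y, (Fintype.card G : ℝ)⁻¹ * ∑ g, n2 τ (EZ τ (V g * x)) ^ 2 ≤ η) →
      ∀ b : ℝ, 0 ≤ b → b ≤ 1 →
      (2 * (Fintype.card G : ℝ))⁻¹ * ∑ g,
          (n2 τ (EZ τ (y j0 * wv (upd (fun i => (c i : A)) i (rot (V g) b 1)) y L)) ^ 2 +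
           n2 τ (EZ τ (y j0 * wv (upd (fun i => (c i : A)) i (rot (V g) b (-1))) y L)) ^ 2) ≤
        (1 - (cnt i L : ℝ) * b ^ 2) * n2 τ (EZ τ (y j0 * wv (fun i => (c i : A)) y L)) ^ 2 +
        2 * b ^ 2 * (L.length : ℝ) ^ 2 * n2 τ (EZ τ (y j0 * wv (fun i => (c i : A)) y L)) * S +
        1000 * ((L.length : ℝ) + 1) ^ 6 * b ^ 3 + 1000 * ((L.length : ℝ) + 1) ^ 6 * η

theorem finite_WS (τ : A →ₗ[ℂ] ℂ) {J : Type} [Fintype J] (y : J → A) (D : ℕ) :
    {w : J × List (Lt J) | w.2 ≠ [] ∧ w.2.length ≤ D ∧ RedC τ y w.2}.Finite := by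
  haveI : Finite (Lt J) := by unfold Lt; infer_instance
  refine ((Set.toFinite (Set.univ : Set J)).prod (List.finite_length_le (Lt J) D)).subset ?_
  rintro ⟨j, L⟩ hw
  exact ⟨Set.mem_univ _, hw.2.1⟩

/-- The finite set of reduced words of length between 1 and `D`. -/
def WS (τ : A →ₗ[ℂ] ℂ) {J : Type} [Fintype J] (y : J → A) (D : ℕ) : Finset (J × List (Lt J)) :=
  (finite_WS τ y D).toFinset

theorem mem_WS {τ : A →ₗ[ℂ] ℂ} {J : Type} [Fintype J] {y : J → A} {D : ℕ} {w : J × List (Lt J)} :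
    w ∈ WS τ y D ↔ w.2 ≠ [] ∧ w.2.length ≤ D ∧ RedC τ y w.2 := by
  unfold WS
  rw [Set.Finite.mem_toFinset]
  rfl

/-- The potential. -/
def Psi {J : Type} [Fintype J] (τ : A →ₗ[ℂ] ℂ) (y : J → A) (D : ℕ) (κ : ℝ) (c : Fin 4 → A) : ℝ :=
  ∑ w ∈ WS τ y D, κ ^ w.2.length * n2 τ (EZ τ (y w.1 * wv c y w.2)) ^ 2

/-- One greedy step. -/
theorem greedy (h : TW τ) (hos : OneStepC τ) (N : StarSubalgebra ℂ A)
    (hN : Mixing τ N) {J : Type} [Fintype J] (y : J → A) (hy : ∀ j, ‖y j‖ ≤ 1) (j1 : J)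
    (hj1 : y j1 = 1) (D : ℕ) (hD : 1 ≤ D) (κ : ℝ) (hκ0 : 0 < κ) (hκ1 : κ ≤ 1)
    (hκ : 256 * (D : ℝ) ^ 4 * (WS τ y D).card * κ ≤ 1) (b : ℝ) (hb0 : 0 < b) (hb1 : b ≤ 1)
    (c : Fin 4 → unitary A) (hc : ∀ i, (c i : A) ∈ N) :
    ∃ c' : Fin 4 → unitary A, (∀ i, (c' i : A) ∈ N) ∧
      Psi τ y D κ (fun i => (c' i : A)) ≤ (1 - b ^ 2 / 8) * Psi τ y D κ (fun i => (c i : A)) +
        2000 * ((D : ℝ) + 1) ^ 6 * (WS τ y D).card * b ^ 3 := by
  classical
  set a : J × List (Lt J) → ℝ := fun w => n2 τ (EZ τ (y w.1 * wv (fun i => (c i : A)) y w.2)) with ha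
  have ha0 : ∀ w, 0 ≤ a w := fun w => n2_nonneg _ _
  set P : ℝ := Psi τ y D κ (fun i => (c i : A)) with hP
  have hPsum : P = ∑ w ∈ WS τ y D, κ ^ w.2.length * a w ^ 2 := rfl
  have hP0 : 0 ≤ P := by
    rw [hPsum]; exact Finset.sum_nonneg fun w _ => by positivity
  -- choice of the colour
  obtain ⟨i, hi⟩ : ∃ i : Fin 4, P / 4 ≤ ∑ w ∈ WS τ y D, κ ^ w.2.length * (cnt i w.2 * a w ^ 2) := by
    by_contra hcon
    push Not at hcon
    have h1 : ∑ i : Fin 4, ∑ w ∈ WS τ y D, κ ^ w.2.length * (cnt i w.2 * a w ^ 2) < ∑ i : Fin 4, P / 4 :=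
      Finset.sum_lt_sum_of_nonempty ⟨0, Finset.mem_univ _⟩ fun i _ => hcon i
    rw [Finset.sum_comm] at h1
    have h2 : ∑ w ∈ WS τ y D, ∑ i : Fin 4, κ ^ w.2.length * (cnt i w.2 * a w ^ 2) =
        ∑ w ∈ WS τ y D, κ ^ w.2.length * ((w.2.length : ℝ) * a w ^ 2) := by
      refine Finset.sum_congr rfl fun w _ => ?_
      rw [← Finset.mul_sum, ← Finset.sum_mul]
      congr 2
      have := sum_cnt w.2
      exact_mod_cast this
    rw [h2] at h1
    have h3 : P ≤ ∑ w ∈ WS τ y D, κ ^ w.2.length * ((w.2.length : ℝ) * a w ^ 2) := by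
      rw [hPsum]
      refine Finset.sum_le_sum fun w hw => ?_
      have hw' := mem_WS.1 hw
      have hl : (1 : ℝ) ≤ w.2.length := by
        have : 0 < w.2.length := List.length_pos_of_ne_nil hw'.1
        exact_mod_cast this
      have : (0 : ℝ) ≤ κ ^ w.2.length := by positivity
      have h5 : a w ^ 2 ≤ (w.2.length : ℝ) * a w ^ 2 := by nlinarith [sq_nonneg (a w)]
      exact mul_le_mul_of_nonneg_left h5 this
    simp at h1
    linarith
  -- the shorter words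
  set S : J × List (Lt J) → ℝ := fun w =>
    Real.sqrt (∑ v ∈ (WS τ y D).filter (fun v => v.2.length < w.2.length), a v ^ 2) with hS
  have hS0 : ∀ w, 0 ≤ S w := fun w => Real.sqrt_nonneg _
  have hSsq : ∀ w, S w ^ 2 = ∑ v ∈ (WS τ y D).filter (fun v => v.2.length < w.2.length), a v ^ 2 :=
    fun w => Real.sq_sqrt (Finset.sum_nonneg fun v _ => sq_nonneg _)
  have hSw : ∀ w ∈ WS τ y D, ∀ (j : J) (B : List (Lt J)), B ≠ [] → B.length < w.2.length → RedC τ y B →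
      n2 τ (EZ τ (y j * wv (fun i => (c i : A)) y B)) ≤ S w := by
    intro w hw j B hB hBl hBr
    have hmem : (j, B) ∈ (WS τ y D).filter (fun v => v.2.length < w.2.length) := by
      rw [Finset.mem_filter, mem_WS]
      exact ⟨⟨hB, (hBl.le.trans (mem_WS.1 hw).2.1), hBr⟩, hBl⟩
    have : a (j, B) ^ 2 ≤ ∑ v ∈ (WS τ y D).filter (fun v => v.2.length < w.2.length), a v ^ 2 :=
      Finset.single_le_sum (f := fun v => a v ^ 2) (fun v _ => sq_nonneg _) hmem
    exact Real.le_sqrt_of_sq_le this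
  -- the sets `Y`
  have hY := fun (w : J × List (Lt J)) (hw : w ∈ WS τ y D) =>
    hos c y hy j1 hj1 i w.1 w.2 (mem_WS.1 hw).2.2 (S w) (hS0 w) (hSw w hw)
  choose Y hY using hY
  set YY : Finset A := (WS τ y D).attach.biUnion (fun w => Y w.1 w.2) with hYY
  obtain ⟨G, iG, nG, V, hV, hm1, hm2⟩ := hN YY (b ^ 3) (by positivity)
  have hb3 : (0 : ℝ) ≤ b ^ 3 := by positivity
  -- candidates
  have hcard : (0 : ℝ) < Fintype.card G := by exact_mod_cast Fintype.card_pos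
  set cc : G → ℝ → (Fin 4 → A) := fun g e => upd (fun k => (c k : A)) i (rot (V g) b e) with hcc
  have havg : (2 * (Fintype.card G : ℝ))⁻¹ * ∑ g, (Psi τ y D κ (cc g 1) + Psi τ y D κ (cc g (-1))) ≤
      (1 - b ^ 2 / 8) * P + 2000 * ((D : ℝ) + 1) ^ 6 * (WS τ y D).card * b ^ 3 := by
    have e1 : (2 * (Fintype.card G : ℝ))⁻¹ * ∑ g, (Psi τ y D κ (cc g 1) + Psi τ y D κ (cc g (-1))) =
        ∑ w ∈ WS τ y D, κ ^ w.2.length * ((2 * (Fintype.card G : ℝ))⁻¹ * ∑ g,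
          (n2 τ (EZ τ (y w.1 * wv (cc g 1) y w.2)) ^ 2 +
           n2 τ (EZ τ (y w.1 * wv (cc g (-1)) y w.2)) ^ 2)) := by
      unfold Psi
      simp only [← Finset.sum_add_distrib, ← mul_add]
      rw [Finset.sum_comm, Finset.mul_sum]
      refine Finset.sum_congr rfl fun w _ => ?_
      rw [← Finset.mul_sum]; ring
    rw [e1]
    have e2 : ∀ w ∈ WS τ y D, κ ^ w.2.length * ((2 * (Fintype.card G : ℝ))⁻¹ * ∑ g,
          (n2 τ (EZ τ (y w.1 * wv (cc g 1) y w.2)) ^ 2 +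
           n2 τ (EZ τ (y w.1 * wv (cc g (-1)) y w.2)) ^ 2)) ≤
        κ ^ w.2.length * a w ^ 2 - b ^ 2 * (κ ^ w.2.length * (cnt i w.2 * a w ^ 2)) +
          b ^ 2 / 16 * (κ ^ w.2.length * a w ^ 2) +
          b ^ 2 * (16 * (D : ℝ) ^ 4 * κ * P) + 2000 * ((D : ℝ) + 1) ^ 6 * b ^ 3 := by
      intro w hw
      have hw' := mem_WS.1 hw
      have h1 := hY w hw G V (fun g => ⟨(hV g).2.1, (hV g).2.2⟩) (b ^ 3) hb3
        (fun x hx => hm1 x (Finset.mem_biUnion.2 ⟨⟨w, hw⟩, Finset.mem_attach _ _, hx⟩))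
        (fun x hx => hm2 x (Finset.mem_biUnion.2 ⟨⟨w, hw⟩, Finset.mem_attach _ _, hx⟩)) b hb0.le hb1
      have hk0 : (0 : ℝ) < κ ^ w.2.length := by positivity
      have hk1 : κ ^ w.2.length ≤ 1 := pow_le_one₀ hκ0.le hκ1
      have hl1 : (w.2.length : ℝ) ≤ D := by exact_mod_cast hw'.2.1
      have hl0 : (0 : ℝ) ≤ w.2.length := by positivity
      -- bound of the cross term
      have h2 : 2 * (w.2.length : ℝ) ^ 2 * a w * S w ≤ a w ^ 2 / 16 + 16 * (D : ℝ) ^ 4 * S w ^ 2 := by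
        have h21 : (w.2.length : ℝ) ^ 2 ≤ (D : ℝ) ^ 2 := by gcongr
        have h22 : 2 * (w.2.length : ℝ) ^ 2 * a w * S w ≤ 2 * (D : ℝ) ^ 2 * a w * S w := by
          have := mul_nonneg (ha0 w) (hS0 w)
          nlinarith
        nlinarith [sq_nonneg (a w / 4 - 4 * (D : ℝ) ^ 2 * S w)]
      have h3 : κ ^ w.2.length * S w ^ 2 ≤ κ * P := by
        rw [hSsq, Finset.mul_sum, hPsum, Finset.mul_sum]
        refine le_trans (Finset.sum_le_sum (g := fun v => κ * (κ ^ v.2.length * a v ^ 2)) ?_)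
          (Finset.sum_le_sum_of_subset_of_nonneg (Finset.filter_subset _ _) fun v _ _ => by positivity)
        intro v hv
        have hvl := (Finset.mem_filter.1 hv).2
        have : κ ^ w.2.length ≤ κ * κ ^ v.2.length := by
          rw [← pow_succ']
          exact pow_le_pow_of_le_one hκ0.le hκ1 hvl
        calc κ ^ w.2.length * a v ^ 2 ≤ (κ * κ ^ v.2.length) * a v ^ 2 :=
              mul_le_mul_of_nonneg_right this (sq_nonneg _)
          _ = κ * (κ ^ v.2.length * a v ^ 2) := by ring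
      have h4 : 1000 * ((w.2.length : ℝ) + 1) ^ 6 * b ^ 3 + 1000 * ((w.2.length : ℝ) + 1) ^ 6 * b ^ 3 ≤
          2000 * ((D : ℝ) + 1) ^ 6 * b ^ 3 := by
        have : ((w.2.length : ℝ) + 1) ^ 6 ≤ ((D : ℝ) + 1) ^ 6 := by gcongr
        nlinarith
      have h5 := mul_le_mul_of_nonneg_left h1 hk0.le
      refine h5.trans ?_
      have e3 : κ ^ w.2.length * ((1 - (cnt i w.2 : ℝ) * b ^ 2) * a w ^ 2 +
            2 * b ^ 2 * (w.2.length : ℝ) ^ 2 * a w * S w +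
            1000 * ((w.2.length : ℝ) + 1) ^ 6 * b ^ 3 + 1000 * ((w.2.length : ℝ) + 1) ^ 6 * b ^ 3) =
          κ ^ w.2.length * a w ^ 2 - b ^ 2 * (κ ^ w.2.length * (cnt i w.2 * a w ^ 2)) +
          b ^ 2 * (κ ^ w.2.length * (2 * (w.2.length : ℝ) ^ 2 * a w * S w)) +
          κ ^ w.2.length * (1000 * ((w.2.length : ℝ) + 1) ^ 6 * b ^ 3 +
            1000 * ((w.2.length : ℝ) + 1) ^ 6 * b ^ 3) := by ring
      rw [e3]
      have h6 : κ ^ w.2.length * (2 * (w.2.length : ℝ) ^ 2 * a w * S w) ≤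
          κ ^ w.2.length * a w ^ 2 / 16 + 16 * (D : ℝ) ^ 4 * (κ * P) := by
        calc κ ^ w.2.length * (2 * (w.2.length : ℝ) ^ 2 * a w * S w)
            ≤ κ ^ w.2.length * (a w ^ 2 / 16 + 16 * (D : ℝ) ^ 4 * S w ^ 2) :=
              mul_le_mul_of_nonneg_left h2 hk0.le
          _ = κ ^ w.2.length * a w ^ 2 / 16 + 16 * (D : ℝ) ^ 4 * (κ ^ w.2.length * S w ^ 2) := by ring
          _ ≤ _ := by
            have : (0 : ℝ) ≤ 16 * (D : ℝ) ^ 4 := by positivity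
            linarith [mul_le_mul_of_nonneg_left h3 this]
      have h7 : κ ^ w.2.length * (1000 * ((w.2.length : ℝ) + 1) ^ 6 * b ^ 3 +
            1000 * ((w.2.length : ℝ) + 1) ^ 6 * b ^ 3) ≤ 2000 * ((D : ℝ) + 1) ^ 6 * b ^ 3 := by
        refine le_trans ?_ h4
        have : (0 : ℝ) ≤ 1000 * ((w.2.length : ℝ) + 1) ^ 6 * b ^ 3 +
            1000 * ((w.2.length : ℝ) + 1) ^ 6 * b ^ 3 := by positivity
        nlinarith
      have h8 := mul_le_mul_of_nonneg_left h6 (sq_nonneg b)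
      nlinarith [h8, h7]
    refine (Finset.sum_le_sum e2).trans ?_
    rw [Finset.sum_add_distrib, Finset.sum_add_distrib, Finset.sum_add_distrib,
      Finset.sum_sub_distrib, ← Finset.mul_sum, ← Finset.mul_sum, ← hPsum, Finset.sum_const,
      Finset.sum_const, nsmul_eq_mul, nsmul_eq_mul]
    have h9 : ((WS τ y D).card : ℝ) * (b ^ 2 * (16 * (D : ℝ) ^ 4 * κ * P)) ≤ b ^ 2 / 16 * P := by
      have : 16 * (D : ℝ) ^ 4 * (WS τ y D).card * κ ≤ 1 / 16 := by linarith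
      have hbP : 0 ≤ b ^ 2 * P := by positivity
      calc ((WS τ y D).card : ℝ) * (b ^ 2 * (16 * (D : ℝ) ^ 4 * κ * P)) =
            (16 * (D : ℝ) ^ 4 * (WS τ y D).card * κ) * (b ^ 2 * P) := by ring
        _ ≤ 1 / 16 * (b ^ 2 * P) := mul_le_mul_of_nonneg_right this hbP
        _ = _ := by ring
    have h10 := mul_le_mul_of_nonneg_left hi (sq_nonneg b)
    nlinarith [h9, h10]
  -- choose the best candidate
  obtain ⟨g, e, he, hge⟩ : ∃ (g : G) (e : ℝ), e ^ 2 = 1 ∧ Psi τ y D κ (cc g e) ≤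
      (1 - b ^ 2 / 8) * P + 2000 * ((D : ℝ) + 1) ^ 6 * (WS τ y D).card * b ^ 3 := by
    by_contra hcon
    push Not at hcon
    set R := (1 - b ^ 2 / 8) * P + 2000 * ((D : ℝ) + 1) ^ 6 * (WS τ y D).card * b ^ 3 with hR
    have h1 : ∑ g : G, (R + R) < ∑ g, (Psi τ y D κ (cc g 1) + Psi τ y D κ (cc g (-1))) := by
      refine Finset.sum_lt_sum_of_nonempty Finset.univ_nonempty fun g _ => ?_
      exact add_lt_add (hcon g 1 (by norm_num)) (hcon g (-1) (by norm_num))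
    rw [Finset.sum_const, nsmul_eq_mul, Finset.card_univ] at h1
    have h2 := mul_lt_mul_of_pos_left h1 (by positivity : (0 : ℝ) < (2 * (Fintype.card G : ℝ))⁻¹)
    have h3 : (2 * (Fintype.card G : ℝ))⁻¹ * (Fintype.card G * (R + R)) = R := by
      field_simp; ring
    rw [h3] at h2
    exact absurd (h2.trans_le havg) (lt_irrefl _)
  refine ⟨Function.update c i (c i * ⟨rot (V g) b e,
    rot_mem (V g) (hV g).2.1 (hV g).2.2 b e hb0.le hb1 he⟩), ?_, ?_⟩
  · intro k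
    by_cases hk : k = i
    · subst hk
      rw [Function.update_self]
      have h1 : rot (V g) b e ∈ N := by
        unfold rot
        exact add_mem (N.smul_mem N.one_mem _) (N.smul_mem (hV g).1 _)
      exact mul_mem (hc k) h1
    · rw [Function.update_of_ne hk]; exact hc k
  · have : (fun k => ((Function.update c i (c i * ⟨rot (V g) b e,
        rot_mem (V g) (hV g).2.1 (hV g).2.2 b e hb0.le hb1 he⟩) : Fin 4 → unitary A) k : A)) = cc g e := by
      funext k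
      by_cases hk : k = i
      · subst hk
        simp only [hcc, upd, Function.update_self]
        rfl
      · simp only [hcc, upd, Function.update_of_ne hk]
    rw [this]
    exact hge

/-- Iteration. -/
theorem iterate (h : TW τ) (hos : OneStepC τ) (N : StarSubalgebra ℂ A)
    (hN : Mixing τ N) {J : Type} [Fintype J] (y : J → A) (hy : ∀ j, ‖y j‖ ≤ 1) (j1 : J)
    (hj1 : y j1 = 1) (D : ℕ) (hD : 1 ≤ D) (κ : ℝ) (hκ0 : 0 < κ) (hκ1 : κ ≤ 1)
    (hκ : 256 * (D : ℝ) ^ 4 * (WS τ y D).card * κ ≤ 1) (b : ℝ) (hb0 : 0 < b) (hb1 : b ≤ 1) (n : ℕ) :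
    ∃ c : Fin 4 → unitary A, (∀ i, (c i : A) ∈ N) ∧
      Psi τ y D κ (fun i => (c i : A)) ≤
        (1 - b ^ 2 / 8) ^ n * Psi τ y D κ (fun _ => (1 : A)) +
        8 * (2000 * ((D : ℝ) + 1) ^ 6 * (WS τ y D).card) * b := by
  induction n with
  | zero =>
    refine ⟨fun _ => 1, fun _ => N.one_mem, ?_⟩
    simp only [pow_zero, one_mul, OneMemClass.coe_one]
    have : (0 : ℝ) ≤ 8 * (2000 * ((D : ℝ) + 1) ^ 6 * (WS τ y D).card) * b := by positivity
    linarith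
  | succ n ih =>
    obtain ⟨c, hc, hP⟩ := ih
    obtain ⟨c', hc', hP'⟩ := greedy h hos N hN y hy j1 hj1 D hD κ hκ0 hκ1 hκ b hb0 hb1 c hc
    refine ⟨c', hc', hP'.trans ?_⟩
    have hq : 0 ≤ 1 - b ^ 2 / 8 := by nlinarith
    have h1 := mul_le_mul_of_nonneg_left hP hq
    have h2 : (1 - b ^ 2 / 8) * ((1 - b ^ 2 / 8) ^ n * Psi τ y D κ (fun _ => (1 : A)) +
        8 * (2000 * ((D : ℝ) + 1) ^ 6 * (WS τ y D).card) * b) =
        (1 - b ^ 2 / 8) ^ (n + 1) * Psi τ y D κ (fun _ => (1 : A)) +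
        8 * (2000 * ((D : ℝ) + 1) ^ 6 * (WS τ y D).card) * b -
        (2000 * ((D : ℝ) + 1) ^ 6 * (WS τ y D).card) * b ^ 3 := by ring
    linarith

/-- The walk, when `1` is one of the coefficients. -/
theorem walk1 (h : TW τ) (hos : OneStepC τ) (N : StarSubalgebra ℂ A)
    (hN : Mixing τ N) {J : Type} [Fintype J] (y : J → A) (hy : ∀ j, ‖y j‖ ≤ 1) (j1 : J)
    (hj1 : y j1 = 1) (D : ℕ) (δ : ℝ) (hδ : 0 < δ) :
    ∃ c : Fin 4 → unitary A, (∀ i, (c i : A) ∈ N) ∧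
      ∀ (j0 : J) (L : List (Lt J)), L ≠ [] → L.length ≤ D → RedC τ y L →
        n2 τ (EZ τ (y j0 * wv (fun i => (c i : A)) y L)) ≤ δ := by
  rcases Nat.eq_zero_or_pos D with hD | hD
  · subst hD
    refine ⟨fun _ => 1, fun _ => N.one_mem, ?_⟩
    intro j0 L hL hl
    exact absurd (List.eq_nil_of_length_eq_zero (Nat.le_zero.1 hl)) hL
  set M : ℝ := 256 * (D : ℝ) ^ 4 * (WS τ y D).card + 1 with hM
  have hM1 : 1 ≤ M := by
    have : (0 : ℝ) ≤ 256 * (D : ℝ) ^ 4 * (WS τ y D).card := by positivity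
    linarith
  set κ : ℝ := M⁻¹ with hκd
  have hM0 : 0 < M := by linarith
  have hκ0 : 0 < κ := inv_pos.2 hM0
  have hκ1 : κ ≤ 1 := inv_le_one_of_one_le₀ hM1
  have hκ : 256 * (D : ℝ) ^ 4 * (WS τ y D).card * κ ≤ 1 := by
    rw [hκd, ← div_eq_mul_inv, div_le_one hM0]
    linarith
  set C : ℝ := 8 * (2000 * ((D : ℝ) + 1) ^ 6 * (WS τ y D).card) with hC
  have hC0 : 0 ≤ C := by positivity
  set T : ℝ := κ ^ D * δ ^ 2 with hT
  have hT0 : 0 < T := by positivity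
  set b : ℝ := min 1 (T / (2 * (C + 1))) with hb
  have hb0 : 0 < b := lt_min one_pos (by positivity)
  have hb1 : b ≤ 1 := min_le_left _ _
  have hCb : C * b ≤ T / 2 := by
    have h1 : b ≤ T / (2 * (C + 1)) := min_le_right _ _
    calc C * b ≤ (C + 1) * b := by nlinarith
      _ ≤ (C + 1) * (T / (2 * (C + 1))) := mul_le_mul_of_nonneg_left h1 (by positivity)
      _ = T / 2 := by field_simp
  have hlim : Tendsto (fun n : ℕ => (1 - b ^ 2 / 8) ^ n * Psi τ y D κ (fun _ => (1 : A))) atTop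
      (𝓝 (0 * Psi τ y D κ (fun _ => (1 : A)))) := by
    refine Tendsto.mul_const _ (tendsto_pow_atTop_nhds_zero_of_lt_one ?_ ?_)
    · nlinarith
    · have : 0 < b ^ 2 := by positivity
      linarith
  rw [zero_mul] at hlim
  obtain ⟨n, hn⟩ := (hlim.eventually (gt_mem_nhds (by positivity : (0 : ℝ) < T / 2))).exists
  obtain ⟨c, hc, hP⟩ := iterate h hos N hN y hy j1 hj1 D hD κ hκ0 hκ1 hκ b hb0 hb1 n
  refine ⟨c, hc, ?_⟩
  intro j0 L hL hl hr
  have hmem : (j0, L) ∈ WS τ y D := mem_WS.2 ⟨hL, hl, hr⟩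
  have h1 : κ ^ L.length * n2 τ (EZ τ (y j0 * wv (fun i => (c i : A)) y L)) ^ 2 ≤ T := by
    have h2 : κ ^ L.length * n2 τ (EZ τ (y j0 * wv (fun i => (c i : A)) y L)) ^ 2 ≤
        Psi τ y D κ (fun i => (c i : A)) :=
      Finset.single_le_sum (f := fun w : J × List (Lt J) =>
        κ ^ w.2.length * n2 τ (EZ τ (y w.1 * wv (fun i => (c i : A)) y w.2)) ^ 2)
        (fun w _ => by positivity) hmem
    linarith
  have h3 : κ ^ D ≤ κ ^ L.length := pow_le_pow_of_le_one hκ0.le hκ1 hl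
  have h4 : n2 τ (EZ τ (y j0 * wv (fun i => (c i : A)) y L)) ^ 2 ≤ δ ^ 2 := by
    by_contra hcon
    push Not at hcon
    have h5 : κ ^ D * δ ^ 2 < κ ^ D * n2 τ (EZ τ (y j0 * wv (fun i => (c i : A)) y L)) ^ 2 :=
      mul_lt_mul_of_pos_left hcon (by positivity)
    have h6 : κ ^ D * n2 τ (EZ τ (y j0 * wv (fun i => (c i : A)) y L)) ^ 2 ≤
        κ ^ L.length * n2 τ (EZ τ (y j0 * wv (fun i => (c i : A)) y L)) ^ 2 :=
      mul_le_mul_of_nonneg_right h3 (sq_nonneg _)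
    linarith
  exact (sq_le_sq₀ (n2_nonneg _ _) hδ.le).1 h4

/-- Adding the coefficient `1`. -/
theorem wv_map {J : Type} (c : Fin 4 → A) (y : J → A) (L : List (Lt J)) :
    wv c (fun o : Option J => o.elim 1 y) (L.map fun p => (p.1, p.2.1, some p.2.2)) = wv c y L := by
  induction L with
  | nil => rfl
  | cons p L ih =>
    simp only [List.map_cons, wv]
    rw [ih]
    rfl

end W5Cn

open W5Cn in
/-- W5C -/
theorem walkC (hos : OneStepC τ) (h : TW τ) (N : StarSubalgebra ℂ A) (hN : Mixing τ N) :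
    WalkC τ N := by
  intro J _ y hy D δ hδ
  obtain ⟨c, hc, hw⟩ := walk1 h hos N hN (J := Option J) (fun o : Option J => o.elim 1 y)
    (by
      intro o
      cases o with
      | none =>
        simp only [Option.elim]
        have : ‖(1 : A)‖ * ‖(1 : A)‖ = ‖(1 : A)‖ := by
          have := CStarRing.norm_star_mul_self (x := (1 : A))
          rw [star_one, mul_one] at this
          exact this.symm
        nlinarith [norm_nonneg (1 : A), sq_nonneg (‖(1 : A)‖ - 1)]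
      | some j => exact hy j) none rfl D δ hδ
  refine ⟨c, hc, ?_⟩
  intro j0 L hL hl hr
  have := hw (some j0) (L.map fun p => (p.1, p.2.1, some p.2.2)) (by simpa using hL)
    (by simpa using hl) (by
      unfold RedC at hr ⊢
      rw [List.isChain_map]
      exact hr)
  rw [wv_map] at this
  exact this

end Pool.Agent.H30K
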