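import Mathlib
import Pool.Agent.H30R4.KI.T_W2C
import Pool.Agent.H30R4.KI.T_W3C
import Pool.Agent.H30R4.KI.T_W5C
import Pool.Agent.H30R4.KI.T_MIXF
import Pool.Agent.H30R4.KI.T_FSYM
import Pool.Agent.H30R4.KI.T_NOAB
import Pool.Agent.H30R4.KI.T_LIFT
import Pool.Agent.Helper467.FP.P_tw_elt
import Pool.Agent.Helper278.DefsG
import Pool.Agent.Helper278.GroupMain

/-!
MP_64d6f1_an: assembly (part 1): free symmetries in every II_1 factor, reduction to the finite
form `FSk`.  Owner: helper30.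
-/

set_option autoImplicit false

open scoped ComplexOrder Topology BoundedContinuousFunction ComplexConjugate
open Filter

noncomputable section

namespace Pool.Agent.H30K

/-- Approximately free symmetries exist in every II_1 factor. -/
theorem freeSym' {A : Type} [CStarAlgebra A] {τ : A →ₗ[ℂ] ℂ} (h : Pool.Agent.H467F.TW τ)
    (hA : Pool.Agent.H735G.NoAbA A)
    (hF : ∀ z : A, (∀ y, z * y = y * z) → ∃ c : ℂ, z = c • (1 : A)) : FreeSym τ := by
  have hins : T_W3C.S_ins2C τ := fun c y hy j1 hj1 i L hL =>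
    ins2C (Pool.Agent.H270G.T_CEN.ezp h) c y hy j1 hj1 i L hL
  have hos : W5Cn.OneStepC τ := fun c y hy j1 hj1 i j0 L hL S hS0 hS =>
    one_stepC hins h c y hy j1 hj1 i j0 L hL S hS0 hS
  exact freeSym h hA hF (walkC hos h ⊤ (mixing_top h hA))

/-- Reduction of the lifting theorem to the finite form. -/
theorem final_of_fsk {H : Type} [NormedAddCommGroup H] [InnerProductSpace ℂ H] [CompleteSpace H]
    (N : VonNeumannAlgebra H) (t : Pool.Agent.Helper278.Elt N → ℂ)
    (hN : Pool.Agent.Helper278.IsIIOneFactor N t) (k : ℕ)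
    (fsk : ∀ {A : Type} [CStarAlgebra A] {τ : A →ₗ[ℂ] ℂ}, Pool.Agent.H467F.TW τ → FreeSym τ →
      Pool.Agent.Helper278.LyapProp τ → FSk τ k) :
    LiftsStrong k (Pool.Agent.Helper278.Elt N) t := by
  set T : Pool.Agent.Helper278.TracialState N :=
    Pool.Agent.Helper278.mkState N t hN.normal hN.trace with hT
  have hN' : Pool.Agent.H467F.IsIIOneFactor N t :=
    ⟨hN.center, hN.infinite, ⟨hN.trace.one, hN.trace.tracial, hN.trace.faithful⟩, hN.normal⟩
  obtain ⟨h1, h2, h3⟩ := iione N t hN'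
  have htw : @Pool.Agent.H467F.TW (Pool.Agent.H467F.Elt N) _ T.τ :=
    Pool.Agent.H467F.tw_elt N T.τ hN.normal ⟨hN.trace.one, hN.trace.tracial, hN.trace.faithful⟩
  have hfs := freeSym' htw h1 h3
  have hL := Pool.Agent.Helper278.lyapProp T h2
  exact lift_of_fsk N T k (fsk htw hfs hL)

end Pool.Agent.H30K
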