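import Mathlib
import Pool.Agent.H30R4.KI.Defs

/-! MP_64d6f1_an: statements of the tasks (table h30k_tasks).  NEVER import this file in a
deliverable: it contains `sorry`. -/

set_option autoImplicit false

open scoped ComplexOrder Topology BoundedContinuousFunction ComplexConjugate
open Filter

noncomputable section

namespace Pool.Agent.H30K.Stubs

open Pool.Agent.H467F (TW)
open Pool.Agent.H735G (NoAbA)
open Pool.Agent.H270G (EZ EZP Lt wv cnt upd rot D2 Mixing)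
open Pool.Agent.H30K

variable {A : Type} [CStarAlgebra A] {τ : A →ₗ[ℂ] ℂ}

local notation "n2" => Pool.Agent.H467F.n2

/-! ### Block W -/

/-- W2C -/
theorem ins2C (hE : EZP τ) {J : Type} (c : Fin 4 → unitary A) (y : J → A)
    (hy : ∀ j, ‖y j‖ ≤ 1) (j1 : J) (hj1 : y j1 = 1) (i : Fin 4) (L : List (Lt J))
    (hL : RedC τ y L) :
    ∃ l : List (A × A × A), l.length ≤ L.length ^ 2 ∧
      (∀ p ∈ l, ‖p.1‖ ≤ 1 ∧ ‖p.2.1‖ ≤ 1 ∧ ‖p.2.2‖ ≤ 1 ∧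
        (EZ τ p.2.1 = 0 ∨ ∃ (j : J) (B : List (Lt J)), B ≠ [] ∧ B.length < L.length ∧ RedC τ y B ∧
          n2 τ (EZ τ p.2.1) = n2 τ (EZ τ (y j * wv (fun i => (c i : A)) y B)))) ∧
      ∀ V, D2 (fun i => (c i : A)) y i V L =
        (l.map fun p => p.1 * V * p.2.1 * V * p.2.2).sum := sorry

/-- W3C -/
theorem one_stepC (h : TW τ) {J : Type} (c : Fin 4 → unitary A) (y : J → A)
    (hy : ∀ j, ‖y j‖ ≤ 1) (j1 : J) (hj1 : y j1 = 1) (i : Fin 4) (j0 : J) (L : List (Lt J))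
    (hL : RedC τ y L) (S : ℝ) (hS0 : 0 ≤ S)
    (hS : ∀ (j : J) (B : List (Lt J)), B ≠ [] → B.length < L.length → RedC τ y B →
      n2 τ (EZ τ (y j * wv (fun i => (c i : A)) y B)) ≤ S) :
    ∃ Y : Finset A, ∀ (G : Type) [Fintype G] [Nonempty G] (V : G → A),
      (∀ g, star (V g) = V g ∧ V g * V g = 1) → ∀ η : ℝ, 0 ≤ η →
      (∀ x ∈ Y, n2 τ ((Fintype.card G : ℂ)⁻¹ • (∑ g, V g * x * V g) - EZ τ x) ≤ η) →
      (∀ x ∈ Y, (Fintype.card G : ℝ)⁻¹ * ∑ g, n2 τ (EZ τ (V g * x)) ^ 2 ≤ η) →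
      ∀ b : ℝ, 0 ≤ b → b ≤ 1 →
      (2 * (Fintype.card G : ℝ))⁻¹ * ∑ g,
          (n2 τ (EZ τ (y j0 * wv (upd (fun i => (c i : A)) i (rot (V g) b 1)) y L)) ^ 2 +
           n2 τ (EZ τ (y j0 * wv (upd (fun i => (c i : A)) i (rot (V g) b (-1))) y L)) ^ 2) ≤
        (1 - (cnt i L : ℝ) * b ^ 2) * n2 τ (EZ τ (y j0 * wv (fun i => (c i : A)) y L)) ^ 2 +
        2 * b ^ 2 * (L.length : ℝ) ^ 2 * n2 τ (EZ τ (y j0 * wv (fun i => (c i : A)) y L)) * S +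
        1000 * ((L.length : ℝ) + 1) ^ 6 * b ^ 3 + 1000 * ((L.length : ℝ) + 1) ^ 6 * η := sorry

/-- W5C -/
theorem walkC (h : TW τ) (N : StarSubalgebra ℂ A) (hN : Mixing τ N) : WalkC τ N := sorry

/-- MIXF (no separability) -/
theorem mixing_top (h : TW τ) (hA : NoAbA A) : Mixing τ (⊤ : StarSubalgebra ℂ A) := sorry

/-- FSYM -/
theorem freeSym (h : TW τ) (hA : NoAbA A)
    (hF : ∀ z : A, (∀ y, z * y = y * z) → ∃ c : ℂ, z = c • (1 : A))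
    (hW : WalkC τ (⊤ : StarSubalgebra ℂ A)) : FreeSym τ := sorry

/-! ### Block S: sequences -/

/-- PHI -/
theorem exists_phi (h : TW τ) (U : Ultrafilter ℕ) : ∃ φ : (ℕ →ᵇ A) →ₗ[ℂ] ℂ, ULim τ U φ := sorry

/-- FSEQ -/
theorem freeSeq (h : TW τ) (hS : FreeSym τ) (U : Ultrafilter ℕ) (hU : ∀ n, {n} ∉ U)
    (φ : (ℕ →ᵇ A) →ₗ[ℂ] ℂ) (hφ : ULim τ U φ) {Λ : Type} [Countable Λ] (z : Λ → (ℕ →ᵇ A)) :
    ∃ s : ℕ →ᵇ A, star s = s ∧ s * s = 1 ∧ FreeOver φ s (Algebra.adjoin ℂ (Set.range z)) := sorry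

/-! ### Block P: words and pairing, pure algebra -/

section alg

variable {B : Type} [Ring B] [Algebra ℂ B]

/-- WZ -/
theorem word_zero (φ : B →ₗ[ℂ] ℂ) (s : B) (S : Bool → Subalgebra ℂ B)
    (C : Subalgebra ℂ B) (hSC : ∀ b, S b ≤ C) (hfree : FreeOver φ s C) (N : ℕ) (hK : KIS φ S N)
    {Λ : Type} (sd : Λ → Bool) (z : Λ → B) (hz : ∀ l, z l ∈ S (sd l) ∧ φ (z l) = 0)
    (κ₀ κ₁ κ₀' κ₁' : ℂ) (L : List Λ) (hL : Alt sd L) (h0 : L ≠ []) (hN : L.length ≤ N) :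
    φ (zv (zc sd z (κ₀ • 1 + κ₁ • s) (κ₀' • 1 + κ₁' • s)) L) = 0 := sorry

/-- PAIR -/
theorem pairing (φ : B →ₗ[ℂ] ℂ) (h1 : φ 1 = 1) (s : B) (hs : s * s = 1)
    (S : Bool → Subalgebra ℂ B) (C : Subalgebra ℂ B) (hSC : ∀ b, S b ≤ C)
    (hfree : FreeOver φ s C) (N : ℕ) (hK : KIS φ S N)
    {Λ : Type} [DecidableEq Λ] (sd : Λ → Bool) (z zh : Λ → B)
    (hz : ∀ l, z l ∈ S (sd l) ∧ φ (z l) = 0) (hzh : ∀ l, zh l ∈ S (sd l) ∧ φ (zh l) = 0)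
    (hd : ∀ l m, sd l = sd m → φ (zh l * z m) = if l = m then 1 else 0)
    (κ₀ κ₁ κ₀' κ₁' : ℂ) (L M : List Λ) (hL : Alt sd L) (hM : Alt sd M)
    (heL : Even L.length) (heM : Even M.length) (hL0 : L ≠ []) (hM0 : M ≠ [])
    (hLN : L.length ≤ N) (hML : M.length ≤ L.length) (hsg : sg sd L = 1) :
    φ ((L.reverse.map fun l => zh l * s).prod *
      zv (zc sd z (κ₀ • 1 + κ₁ • s) (κ₀' • 1 + κ₁' • s)) M) =
      if L = M then (κ₁ * κ₁') ^ (L.length / 2) else 0 := sorry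

/-- NONDEG -/
theorem nondeg (φ : B →ₗ[ℂ] ℂ) (h1 : φ 1 = 1) (s : B) (hs : s * s = 1)
    (S : Bool → Subalgebra ℂ B) (C : Subalgebra ℂ B) (hSC : ∀ b, S b ≤ C)
    (hfree : FreeOver φ s C) (N : ℕ) (hK : KIS φ S N)
    {Λ : Type} [Fintype Λ] [DecidableEq Λ] (sd : Λ → Bool) (z zh : Λ → B)
    (hz : ∀ l, z l ∈ S (sd l) ∧ φ (z l) = 0) (hzh : ∀ l, zh l ∈ S (sd l) ∧ φ (zh l) = 0)
    (hd : ∀ l m, sd l = sd m → φ (zh l * z m) = if l = m then 1 else 0)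
    (κ₀ κ₁ κ₀' κ₁' : ℂ) (hκ : κ₁ ≠ 0) (hκ' : κ₁' ≠ 0) (t : Wd sd N → ℂ) (ht : t ∈ EE sd N)
    (h0 : ∀ y, φ (y * PP sd (zc sd z (κ₀ • 1 + κ₁ • s) (κ₀' • 1 + κ₁' • s)) N t) = 0) :
    t = 0 := sorry

/-- REIDX -/
theorem reidx {Λ : Type} [Fintype Λ] (sd : Λ → Bool) (z : Λ → B) (N : ℕ) (t : Wd sd N → ℂ)
    (ht : t ∈ EE sd N) : ∑ L : Wd sd N, conj (t L) • Dl sd z L.1 = PP sd z N t := sorry

/-- DUAL (a): the dual letters are centered, in the algebra, and dual to the centered letters. -/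
theorem dual [StarRing B] (φ : B →ₗ[ℂ] ℂ) (h1 : φ 1 = 1) {Λ : Type} [Fintype Λ] [DecidableEq Λ]
    (sd : Λ → Bool) (p : Λ → B) (hp : PV2 sd p) (hpos : ∀ l, φ (p l) ≠ 0) (l0 : Bool → Λ)
    (hl0 : ∀ b, sd (l0 b) = b) :
    (∀ l : Lam sd l0, ctr φ sd l0 p l ∈ spn sd p (sd' sd l0 l) ∧ φ (ctr φ sd l0 p l) = 0) ∧
    (∀ l : Lam sd l0, dul φ sd l0 p l ∈ spn sd p (sd' sd l0 l) ∧ φ (dul φ sd l0 p l) = 0) ∧
    (∀ l m : Lam sd l0, sd' sd l0 l = sd' sd l0 m →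
      φ (dul φ sd l0 p l * ctr φ sd l0 p m) = if l = m then 1 else 0) := sorry

end alg

/-! ### Block D: derivative -/

/-- APPR -/
theorem approx (h : TW τ) {Λ : Type} [Fintype Λ] (sd : Λ → Bool) (N : ℕ) (c : ℝ) (hc : 0 < c) :
    ∃ ρ : ℝ, 0 < ρ ∧ ∀ z : Λ → A, (∀ l, ‖z l‖ ≤ 1) → ∀ X Y : A, ‖X‖ ≤ ρ → ‖Y‖ ≤ ρ →
      ∀ L : List Λ, Alt sd L → Even L.length → L.length ≤ N →
        ‖τ (zv (zc sd z (NormedSpace.exp (Complex.I • X)) (NormedSpace.exp (-(Complex.I • X)))) L) -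
          τ (zv (zc sd z (NormedSpace.exp (Complex.I • Y)) (NormedSpace.exp (-(Complex.I • Y)))) L)
            - Complex.I * τ ((X - Y) * Dl sd z L)‖ ≤ c * ‖X - Y‖ := sorry

/-- EE1 -/
theorem mem_EE (h : TW τ) {Λ : Type} [Fintype Λ] (sd : Λ → Bool) (N : ℕ) (z : Λ → A)
    (hz : ∀ l, star (z l) = z l) : (fun L : Wd sd N => τ (zv z L.1)) ∈ EE sd N := sorry

/-- EE2 -/
theorem mem_EE2 (h : TW τ) {Λ : Type} [Fintype Λ] (sd : Λ → Bool) (N : ℕ) (z : Λ → A)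
    (hz : ∀ l, star (z l) = z l) (X : A) (hX : star X = X) :
    (fun L : Wd sd N => Complex.I * τ (X * Dl sd z L.1)) ∈ EE sd N := sorry

/-- EE3 -/
theorem star_PP {B : Type} [Ring B] [StarRing B] [Algebra ℂ B] [StarModule ℂ B] {Λ : Type}
    [Fintype Λ] (sd : Λ → Bool) (N : ℕ) (z : Λ → B) (hz : ∀ l, star (z l) = z l)
    (t : Wd sd N → ℂ) (ht : t ∈ EE sd N) : star (PP sd z N t) = -PP sd z N t := sorry

/-- NEWT -/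
theorem newton {E : Type} [NormedAddCommGroup E] [NormedSpace ℝ E] [FiniteDimensional ℝ E]
    (U : Ultrafilter ℕ) (f : ℕ → E → E) (G : E →ₗ[ℝ] E) (hG : Function.Injective G)
    (hf : ∀ c : ℝ, 0 < c → ∃ ρ : ℝ, 0 < ρ ∧ ∀ᶠ n in (U : Filter ℕ), ∀ x y : E, ‖x‖ ≤ ρ → ‖y‖ ≤ ρ →
      ‖f n x - f n y - G (x - y)‖ ≤ c * ‖x - y‖)
    (h0 : Tendsto (fun n => f n 0) U (𝓝 0)) (ε : ℝ) (hε : 0 < ε) :
    ∀ᶠ n in (U : Filter ℕ), ∃ x : E, ‖x‖ ≤ ε ∧ f n x = 0 := sorry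

/-- KISP: it is enough to know the even words in the centered letters. -/
theorem kis_of_words (h : TW τ) {Λ : Type} [Fintype Λ] [DecidableEq Λ] (sd : Λ → Bool)
    (p : Λ → A) (hp : PV2 sd p) (l0 : Bool → Λ) (hl0 : ∀ b, sd (l0 b) = b) (N : ℕ)
    (hw : ∀ L : Wd (sd' sd l0) N, τ (zv (ctr τ sd l0 p) L.1) = 0) : KIS τ (spn sd p) N := sorry

/-- STAGE2 -/
theorem stage2 (h : TW τ) (hS : FreeSym τ) (U : Ultrafilter ℕ) (hU : ∀ n, {n} ∉ U)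
    (φ : (ℕ →ᵇ A) →ₗ[ℂ] ℂ) (hφ : ULim τ U φ) {Λ : Type} [Fintype Λ] [DecidableEq Λ]
    (sd : Λ → Bool) (p : Λ → (ℕ →ᵇ A)) (hp : PV2 sd p) (hpos : ∀ l, φ (p l) ≠ 0)
    (l0 : Bool → Λ) (hl0 : ∀ b, sd (l0 b) = b) (N : ℕ) (hK : KIS φ (spn sd p) N)
    (ε : ℝ) (hε : 0 < ε) :
    ∀ᶠ n in (U : Filter ℕ), ∃ v : unitary A, ‖(v : A) - 1‖ ≤ ε ∧
      KIS τ (spn sd (zc sd (fun l => p l n) (v : A) (star (v : A)))) N := sorry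

/-! ### Block C: finite spectrum -/

/-- CUT -/
theorem cut (Λ : C(Circle, ℝ) →ₗ[ℝ] ℝ) (hΛ : ∀ f, 0 ≤ f → 0 ≤ Λ f) (ε : ℝ) (hε : 0 < ε) :
    ∃ (m : ℕ) (c : Fin m → Circle) (f : ℕ → Fin m → C(Circle, ℝ)) (g : ℕ → C(Circle, ℝ)),
      (∀ j i, 0 ≤ f j i) ∧ (∀ j, ∑ i, f j i = 1) ∧
      (∀ j i z, f j i z ≠ 0 → ‖(z : ℂ) - (c i : ℂ)‖ ≤ ε) ∧
      (∀ j j' i z, j ≤ j' → |f j' i z - f j i z| ≤ g j z ∧ f j' i z * (1 - f j' i z) ≤ g j z) ∧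
      Tendsto (fun j => Λ (g j)) atTop (𝓝 0) := sorry

/-- FCAL -/
theorem fcal : ∃ Φ : ∀ (B : Type) [CStarAlgebra B], unitary B → (C(Circle, ℂ) →⋆ₐ[ℂ] B),
    (∀ (B : Type) [CStarAlgebra B] (a : unitary B),
      Φ B a ⟨fun z => (z : ℂ), by fun_prop⟩ = (a : B)) ∧
    (∀ (B : Type) [CStarAlgebra B] (a : unitary B) (f : C(Circle, ℂ)), ‖Φ B a f‖ ≤ ‖f‖) ∧
    (∀ (B : Type) [CStarAlgebra B] (a : unitary B) (f : C(Circle, ℂ)) (θ : ℝ), 0 < θ →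
      ∃ y ∈ Algebra.adjoin ℂ ({(a : B), star (a : B)} : Set B), ‖Φ B a f - y‖ ≤ θ) ∧
    (∀ (B B' : Type) [CStarAlgebra B] [CStarAlgebra B'] (π : B →⋆ₐ[ℂ] B') (a : unitary B)
      (a' : unitary B'), π (a : B) = (a' : B') → ∀ f, π (Φ B a f) = Φ B' a' f) := sorry

/-- ST1 -/
theorem stage1a (h : TW τ) (hL : Pool.Agent.Helper278.LyapProp τ) (U : Ultrafilter ℕ)
    (hU : ∀ n, {n} ∉ U) (φ : (ℕ →ᵇ A) →ₗ[ℂ] ℂ) (hφ : ULim τ U φ) (a : unitary (ℕ →ᵇ A))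
    (ε : ℝ) (hε : 0 < ε) :
    ∃ (m : ℕ) (p : Fin m → (ℕ →ᵇ A)) (c : Fin m → ℂ), Pool.Agent.Helper278.PVM p ∧
      (∀ l, ‖c l‖ = 1) ∧
      (∀ n, n2 τ ((a : ℕ →ᵇ A) n - ∑ l, c l • p l n) ≤ ε) ∧
      ∀ l, ∀ θ : ℝ, 0 < θ → ∃ y ∈ Algebra.adjoin ℂ ({(a : ℕ →ᵇ A), star (a : ℕ →ᵇ A)} :
        Set (ℕ →ᵇ A)), n2 φ (p l - y) ≤ θ := sorry

/-- ST1M: merging the projections of limit trace zero -/
theorem stage1 (h : TW τ) (hL : Pool.Agent.Helper278.LyapProp τ) (U : Ultrafilter ℕ)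
    (hU : ∀ n, {n} ∉ U) (φ : (ℕ →ᵇ A) →ₗ[ℂ] ℂ) (hφ : ULim τ U φ) (a : unitary (ℕ →ᵇ A))
    (ε : ℝ) (hε : 0 < ε) :
    ∃ (m : ℕ) (p : Fin (m + 1) → (ℕ →ᵇ A)) (c : Fin (m + 1) → ℂ), Pool.Agent.Helper278.PVM p ∧
      (∀ l, ‖c l‖ = 1) ∧ (∀ l, φ (p l) ≠ 0) ∧
      (∀ᶠ n in (U : Filter ℕ), n2 τ ((a : ℕ →ᵇ A) n - ∑ l, c l • p l n) ≤ ε) ∧
      ∀ l, ∀ θ : ℝ, 0 < θ → ∃ y ∈ Algebra.adjoin ℂ ({(a : ℕ →ᵇ A), star (a : ℕ →ᵇ A)} :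
        Set (ℕ →ᵇ A)), n2 φ (p l - y) ≤ θ := sorry

/-! ### Block F: assembly -/

/-- KLIM -/
theorem kis_lim (U : Ultrafilter ℕ) (φ : (ℕ →ᵇ A) →ₗ[ℂ] ℂ) (hφ : ULim τ U φ)
    {Λ : Type} [Fintype Λ] (sd : Λ → Bool) (p : Λ → (ℕ →ᵇ A)) (hp : PV2 sd p)
    (S : Bool → Subalgebra ℂ (ℕ →ᵇ A)) (N : ℕ)
    (happ : ∀ l, ∀ θ : ℝ, 0 < θ → ∃ y ∈ S (sd l), n2 φ (p l - y) ≤ θ) (hK : KIS φ S N) :
    KIS φ (spn sd p) N := sorry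

/-- KPOW -/
theorem kis_powers {B : Type} [Ring B] [StarRing B] [Algebra ℂ B] (φ : B →ₗ[ℂ] ℂ)
    (h1 : φ 1 = 1) (N : ℕ) (a : Bool → unitary B)
    (hw : ∀ (b : Bool) (l : List ℤ), l ≠ [] → l.length ≤ N →
      φ ((l.mapIdx fun i x => (((a (if Even i then b else !b)) ^ x : unitary B) : B) -
        φ (((a (if Even i then b else !b)) ^ x : unitary B) : B) • (1 : B)).prod) = 0) :
    KIS φ (gen2 fun b => (a b : B)) N := sorry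

/-- KIND -/
theorem kindep_of_kis (h : TW τ) {Λ : Type} [Fintype Λ] (sd : Λ → Bool) (p : Λ → A)
    (hp : PV2 sd p) (N : ℕ) (hK : KIS τ (spn sd p) N) (c : Λ → ℂ) (a : Bool → A)
    (ha : ∀ b, a b = ∑ l : {l : Λ // sd l = b}, c l.1 • p l.1) :
    ∀ j, 1 ≤ j → j ≤ N → Pool.Agent.Helper278.KIndep τ j (a true) (a false) := sorry

/-- FSK -/
theorem fsk (h : TW τ) (hS : FreeSym τ) (hL : Pool.Agent.Helper278.LyapProp τ) (k : ℕ) :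
    FSk τ k := sorry

/-- LIFT -/
theorem lift_of_fsk {H : Type} [NormedAddCommGroup H] [InnerProductSpace ℂ H] [CompleteSpace H]
    (N : VonNeumannAlgebra H) (T : Pool.Agent.Helper278.TracialState N) (k : ℕ)
    (hk : @FSk (Pool.Agent.H467F.Elt N) _ T.τ k) :
    LiftsStrong k (Pool.Agent.Helper278.Elt N) T.τ := sorry

/-- NOAB -/
theorem iione {H : Type} [NormedAddCommGroup H] [InnerProductSpace ℂ H] [CompleteSpace H]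
    (N : VonNeumannAlgebra H) (t : Pool.Agent.H467F.Elt N → ℂ)
    (hN : Pool.Agent.H467F.IsIIOneFactor N t) :
    NoAbA (Pool.Agent.H467F.Elt N) ∧ Pool.Agent.Helper278.IsDiffuse N ∧
      ∀ z : Pool.Agent.H467F.Elt N, (∀ y, z * y = y * z) →
        ∃ c : ℂ, z = c • (1 : Pool.Agent.H467F.Elt N) := sorry

/-- FINAL -/
theorem final {H : Type} [NormedAddCommGroup H] [InnerProductSpace ℂ H] [CompleteSpace H]
    (N : VonNeumannAlgebra H) (t : Pool.Agent.H467F.Elt N → ℂ)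
    (hN : Pool.Agent.H467F.IsIIOneFactor N t) (k : ℕ) :
    LiftsStrong k (Pool.Agent.Helper278.Elt N) t := sorry

end Pool.Agent.H30K.Stubs
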