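import Mathlib
import Pool.Agent.H30R4.KI.Defs
import Pool.Agent.Helper467.FP.P_tau_bounds

/-!
Linear approximation of the word functionals.
-/

set_option autoImplicit false

open scoped ComplexOrder Topology BoundedContinuousFunction ComplexConjugate
open Filter

noncomputable section

namespace Pool.Agent.H30K

open Pool.Agent.H467F (TW)

namespace APPR

variable {A : Type} [CStarAlgebra A] {Λ : Type}

/-- Uniform strict differentiability at `0`. -/
def Us (F D : (Λ → A) → A → A) : Prop :=
  (∃ K : ℝ, 0 ≤ K ∧ ∀ z : Λ → A, (∀ l, ‖z l‖ ≤ 1) → ‖F z 0‖ ≤ K ∧ ∀ H, ‖D z H‖ ≤ K * ‖H‖) ∧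
  ∀ c : ℝ, 0 < c → ∃ ρ : ℝ, 0 < ρ ∧ ∀ z : Λ → A, (∀ l, ‖z l‖ ≤ 1) → ∀ X Y : A, ‖X‖ ≤ ρ →
    ‖Y‖ ≤ ρ → ‖F z X - F z Y - D z (X - Y)‖ ≤ c * ‖X - Y‖

theorem Us.mul {F D F' D' : (Λ → A) → A → A} (h : Us F D) (h' : Us F' D') :
    Us (fun z X => F z X * F' z X) (fun z H => D z H * F' z 0 + F z 0 * D' z H) := by
  obtain ⟨⟨K, hK, hb⟩, ha⟩ := h
  obtain ⟨⟨K', hK', hb'⟩, ha'⟩ := h'
  refine ⟨⟨2 * (K * K') + K * K', by positivity, fun z hz => ⟨?_, fun H => ?_⟩⟩, ?_⟩
  · have h1 := (hb z hz).1
    have h2 := (hb' z hz).1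
    calc ‖F z 0 * F' z 0‖ ≤ ‖F z 0‖ * ‖F' z 0‖ := norm_mul_le _ _
      _ ≤ K * K' := by gcongr
      _ ≤ _ := by nlinarith [mul_nonneg hK hK']
  · have h1 := (hb z hz).1
    have h2 := (hb' z hz).1
    have h3 := (hb z hz).2 H
    have h4 := (hb' z hz).2 H
    calc ‖D z H * F' z 0 + F z 0 * D' z H‖ ≤ ‖D z H‖ * ‖F' z 0‖ + ‖F z 0‖ * ‖D' z H‖ :=
        (norm_add_le _ _).trans (add_le_add (norm_mul_le _ _) (norm_mul_le _ _))
      _ ≤ (K * ‖H‖) * K' + K * (K' * ‖H‖) := by gcongr
      _ ≤ _ := by nlinarith [mul_nonneg (mul_nonneg hK hK') (norm_nonneg H)]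
  · intro c hc
    set M := K + K' with hM
    have hM0 : 0 ≤ M := by positivity
    set η := min 1 (c / (4 * (M + 2) ^ 2)) with hη
    have hη0 : 0 < η := lt_min one_pos (by positivity)
    have hη1 : η ≤ 1 := min_le_left _ _
    have hη2 : η * (4 * (M + 2) ^ 2) ≤ c := by
      rw [← le_div_iff₀ (by positivity)]
      exact min_le_right _ _
    obtain ⟨ρ1, hρ1, h1⟩ := ha η hη0
    obtain ⟨ρ2, hρ2, h2⟩ := ha' η hη0
    refine ⟨min (min ρ1 ρ2) η, lt_min (lt_min hρ1 hρ2) hη0, fun z hz X Y hX hY => ?_⟩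
    have hX1 : ‖X‖ ≤ ρ1 := hX.trans ((min_le_left _ _).trans (min_le_left _ _))
    have hX2 : ‖X‖ ≤ ρ2 := hX.trans ((min_le_left _ _).trans (min_le_right _ _))
    have hX3 : ‖X‖ ≤ η := hX.trans (min_le_right _ _)
    have hY1 : ‖Y‖ ≤ ρ1 := hY.trans ((min_le_left _ _).trans (min_le_left _ _))
    have hY2 : ‖Y‖ ≤ ρ2 := hY.trans ((min_le_left _ _).trans (min_le_right _ _))
    have hY3 : ‖Y‖ ≤ η := hY.trans (min_le_right _ _)
    have bF0 : ‖F z 0‖ ≤ M := (hb z hz).1.trans (by linarith)
    have bF0' : ‖F' z 0‖ ≤ M := (hb' z hz).1.trans (by linarith)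
    have bD : ∀ H, ‖D z H‖ ≤ M * ‖H‖ := fun H => ((hb z hz).2 H).trans (by
      nlinarith [norm_nonneg H])
    have bD' : ∀ H, ‖D' z H‖ ≤ M * ‖H‖ := fun H => ((hb' z hz).2 H).trans (by
      nlinarith [norm_nonneg H])
    have e1 := h1 z hz X Y hX1 hY1
    have e2 := h2 z hz X Y hX2 hY2
    have e3 : ‖F' z X - F' z 0‖ ≤ (M + 1) * η := by
      have e := h2 z hz X 0 hX2 (by rw [norm_zero]; exact hρ2.le)
      rw [sub_zero] at e
      calc ‖F' z X - F' z 0‖ = ‖(F' z X - F' z 0 - D' z X) + D' z X‖ := by rw [sub_add_cancel]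
        _ ≤ η * ‖X‖ + M * ‖X‖ := (norm_add_le _ _).trans (add_le_add e (bD' X))
        _ = (M + η) * ‖X‖ := by ring
        _ ≤ (M + 1) * η := by gcongr
    have e4 : ‖F z Y - F z 0‖ ≤ (M + 1) * η := by
      have e := h1 z hz Y 0 hY1 (by rw [norm_zero]; exact hρ1.le)
      rw [sub_zero] at e
      calc ‖F z Y - F z 0‖ = ‖(F z Y - F z 0 - D z Y) + D z Y‖ := by rw [sub_add_cancel]
        _ ≤ η * ‖Y‖ + M * ‖Y‖ := (norm_add_le _ _).trans (add_le_add e (bD Y))
        _ = (M + η) * ‖Y‖ := by ring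
        _ ≤ (M + 1) * η := by gcongr
    have e5 : ‖F' z X‖ ≤ 2 * M + 1 := by
      calc ‖F' z X‖ = ‖(F' z X - F' z 0) + F' z 0‖ := by rw [sub_add_cancel]
        _ ≤ (M + 1) * η + M := (norm_add_le _ _).trans (add_le_add e3 bF0')
        _ ≤ _ := by nlinarith
    have e6 : ‖F z Y‖ ≤ 2 * M + 1 := by
      calc ‖F z Y‖ = ‖(F z Y - F z 0) + F z 0‖ := by rw [sub_add_cancel]
        _ ≤ (M + 1) * η + M := (norm_add_le _ _).trans (add_le_add e4 bF0)
        _ ≤ _ := by nlinarith
    set T := ‖X - Y‖ with hT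
    have hT0 : 0 ≤ T := norm_nonneg _
    have key : F z X * F' z X - F z Y * F' z Y - (D z (X - Y) * F' z 0 + F z 0 * D' z (X - Y)) =
        D z (X - Y) * (F' z X - F' z 0) + (F z X - F z Y - D z (X - Y)) * F' z X +
        ((F z Y - F z 0) * D' z (X - Y) + F z Y * (F' z X - F' z Y - D' z (X - Y))) := by
      noncomm_ring
    show ‖F z X * F' z X - F z Y * F' z Y - (D z (X - Y) * F' z 0 + F z 0 * D' z (X - Y))‖ ≤ _
    rw [key]
    calc _ ≤ ‖D z (X - Y)‖ * ‖F' z X - F' z 0‖ + ‖F z X - F z Y - D z (X - Y)‖ * ‖F' z X‖ +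
          (‖F z Y - F z 0‖ * ‖D' z (X - Y)‖ + ‖F z Y‖ * ‖F' z X - F' z Y - D' z (X - Y)‖) := by
          refine (norm_add_le _ _).trans (add_le_add ((norm_add_le _ _).trans
            (add_le_add (norm_mul_le _ _) (norm_mul_le _ _))) ((norm_add_le _ _).trans
            (add_le_add (norm_mul_le _ _) (norm_mul_le _ _))))
      _ ≤ (M * T) * ((M + 1) * η) + (η * T) * (2 * M + 1) +
          (((M + 1) * η) * (M * T) + (2 * M + 1) * (η * T)) := by
          have := bD (X - Y)
          have := bD' (X - Y)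
          gcongr
      _ = (2 * M ^ 2 + 6 * M + 2) * (η * T) := by ring
      _ ≤ (4 * (M + 2) ^ 2) * (η * T) := by
          apply mul_le_mul_of_nonneg_right _ (by positivity)
          nlinarith
      _ = (η * (4 * (M + 2) ^ 2)) * T := by ring
      _ ≤ c * T := by gcongr

theorem us_letter (l : Λ) : Us (A := A) (fun z _ => z l) (fun _ _ => 0) := by
  refine ⟨⟨1, zero_le_one, fun z hz => ⟨hz l, fun H => ?_⟩⟩, fun c hc => ⟨1, one_pos,
    fun z hz X Y _ _ => ?_⟩⟩
  · simp
  · simp only [sub_self, norm_zero]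
    positivity

theorem us_one : Us (A := A) (Λ := Λ) (fun _ _ => 1) (fun _ _ => 0) := by
  refine ⟨⟨‖(1 : A)‖, norm_nonneg _, fun z hz => ⟨le_rfl, fun H => ?_⟩⟩, fun c hc => ⟨1, one_pos,
    fun z hz X Y _ _ => ?_⟩⟩
  · simp only [norm_zero]
    positivity
  · simp only [sub_self, norm_zero]
    positivity

theorem us_strict {F : A → A} {F' : A →L[ℂ] A} (h : HasStrictFDerivAt F F' 0) :
    Us (A := A) (Λ := Λ) (fun _ X => F X) (fun _ H => F' H) := by
  refine ⟨⟨‖F 0‖ + ‖F'‖, by positivity, fun z hz => ⟨?_, fun H => ?_⟩⟩, fun c hc => ?_⟩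
  · linarith [norm_nonneg F']
  · refine (F'.le_opNorm H).trans ?_
    gcongr
    linarith [norm_nonneg (F 0)]
  · have h1 := h.isLittleO.def hc
    rw [Metric.eventually_nhds_iff] at h1
    obtain ⟨ε, hε, h2⟩ := h1
    refine ⟨ε / 2, by positivity, fun z hz X Y hX hY => ?_⟩
    have h3 : dist (X, Y) ((0 : A), (0 : A)) < ε := by
      rw [Prod.dist_eq]
      refine max_lt ?_ ?_
      · simp only [dist_zero_right]
        linarith
      · simp only [dist_zero_right]
        linarith
    exact h2 h3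

theorem us_exp1 : Us (A := A) (Λ := Λ) (fun _ X => NormedSpace.exp (Complex.I • X))
    (fun _ H => Complex.I • H) := by
  have h1 : HasStrictFDerivAt (NormedSpace.exp : A → A) (1 : A →L[ℂ] A)
      (Complex.I • (0 : A)) := by
    rw [smul_zero]
    exact hasStrictFDerivAt_exp_zero
  have h2 : HasStrictFDerivAt (fun X : A => Complex.I • X)
      (Complex.I • (ContinuousLinearMap.id ℂ A)) 0 :=
    (hasStrictFDerivAt_id (𝕜 := ℂ) (0 : A)).const_smul Complex.I
  exact us_strict (h1.comp (0 : A) h2)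

theorem us_exp2 : Us (A := A) (Λ := Λ) (fun _ X => NormedSpace.exp (-(Complex.I • X)))
    (fun _ H => -(Complex.I • H)) := by
  have h1 : HasStrictFDerivAt (NormedSpace.exp : A → A) (1 : A →L[ℂ] A)
      (-(Complex.I • (0 : A))) := by
    rw [smul_zero, neg_zero]
    exact hasStrictFDerivAt_exp_zero
  have h2 : HasStrictFDerivAt (fun X : A => -(Complex.I • X))
      (-(Complex.I • (ContinuousLinearMap.id ℂ A))) 0 :=
    ((hasStrictFDerivAt_id (𝕜 := ℂ) (0 : A)).const_smul Complex.I).neg
  exact us_strict (h1.comp (0 : A) h2)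

/-- The derivative of a letter. -/
def dl (sd : Λ → Bool) (z : Λ → A) (H : A) (l : Λ) : A :=
  if sd l = true then 0 else Complex.I • (H * z l - z l * H)

/-- The derivative of a word. -/
def DD (sd : Λ → Bool) (z : Λ → A) (H : A) : List Λ → A
  | [] => 0
  | l :: L => dl sd z H l * zv z L + z l * DD sd z H L

/-- The conjugated letter. -/
def cl (sd : Λ → Bool) (z : Λ → A) (X : A) (l : Λ) : A :=
  zc sd z (NormedSpace.exp (Complex.I • X)) (NormedSpace.exp (-(Complex.I • X))) l

theorem cl_zero (sd : Λ → Bool) (z : Λ → A) (l : Λ) : cl sd z 0 l = z l := by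
  unfold cl zc
  simp

theorem us_cl (sd : Λ → Bool) (l : Λ) : Us (A := A) (fun z X => cl sd z X l)
    (fun z H => dl sd z H l) := by
  by_cases hl : sd l = true
  · have h := us_letter (A := A) l
    have e1 : (fun (z : Λ → A) (X : A) => cl sd z X l) = fun z _ => z l := by
      funext z X
      unfold cl zc
      rw [if_pos hl]
    have e2 : (fun (z : Λ → A) (H : A) => dl sd z H l) = fun _ _ => 0 := by
      funext z X
      unfold dl
      rw [if_pos hl]
    rw [e1, e2]
    exact h
  · have h := (us_exp1.mul (us_letter (A := A) l)).mul us_exp2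
    have e1 : (fun (z : Λ → A) (X : A) => cl sd z X l) = fun z X =>
        NormedSpace.exp (Complex.I • X) * z l * NormedSpace.exp (-(Complex.I • X)) := by
      funext z X
      unfold cl zc
      rw [if_neg hl]
    have e2 : (fun (z : Λ → A) (H : A) => dl sd z H l) = fun z H =>
        (Complex.I • H * z l + NormedSpace.exp (Complex.I • (0 : A)) * 0) *
          NormedSpace.exp (-(Complex.I • (0 : A))) +
        NormedSpace.exp (Complex.I • (0 : A)) * z l * -(Complex.I • H) := by
      funext z H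
      unfold dl
      rw [if_neg hl]
      simp only [smul_zero, neg_zero, NormedSpace.exp_zero, mul_one, one_mul, mul_zero, add_zero,
        smul_sub, smul_mul_assoc, mul_neg, mul_smul_comm]
      rw [sub_eq_add_neg]
    rw [e1, e2]
    exact h

theorem us_word (sd : Λ → Bool) (L : List Λ) : Us (A := A) (fun z X => zv (cl sd z X) L)
    (fun z H => DD sd z H L) := by
  induction L with
  | nil =>
    have e1 : (fun (z : Λ → A) (X : A) => zv (cl sd z X) []) = fun _ _ => 1 := by
      funext z X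
      simp [zv]
    rw [e1]
    exact us_one
  | cons l L ih =>
    have h := (us_cl sd l).mul ih
    have e1 : (fun (z : Λ → A) (X : A) => zv (cl sd z X) (l :: L)) =
        fun z X => cl sd z X l * zv (cl sd z X) L := by
      funext z X
      simp [zv]
    have e2 : (fun (z : Λ → A) (H : A) => DD sd z H (l :: L)) =
        fun z H => dl sd z H l * zv (cl sd z 0) L + cl sd z 0 l * DD sd z H L := by
      funext z H
      have e3 : cl sd z 0 = z := funext fun l => cl_zero sd z l
      rw [e3]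
      rfl
    rw [e1, e2]
    exact h

/-! ### The trace of the derivative -/

theorem zv_append (z : Λ → A) (L M : List Λ) : zv z (L ++ M) = zv z L * zv z M := by
  simp [zv]

theorem zv_cons (z : Λ → A) (l : Λ) (M : List Λ) : zv z (l :: M) = z l * zv z M := by
  simp [zv]

/-- the summands -/
def cc (τ : A →ₗ[ℂ] ℂ) (sd : Λ → Bool) (z : Λ → A) (H : A) (W : List Λ) (r : ℕ) : ℂ :=
  (((1 + sg sd (W.rotate r)) / 2 : ℝ) : ℂ) * Complex.I *
    (τ (H * zv z (W.rotate r)) - τ (H * zv z (W.rotate (r + 1))))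

theorem tau_DD {τ : A →ₗ[ℂ] ℂ} (h : TW τ) (sd : Λ → Bool) (z : Λ → A) (H : A) (W : List Λ) :
    ∀ L pre : List Λ, pre ++ L = W →
      τ (zv z pre * DD sd z H L) = ∑ r ∈ Finset.Ico pre.length W.length, cc τ sd z H W r := by
  intro L
  induction L with
  | nil =>
    intro pre hpre
    rw [List.append_nil] at hpre
    rw [hpre]
    simp [DD]
  | cons l L ih =>
    intro pre hpre
    have h1 : (pre ++ [l]) ++ L = W := by rw [List.append_assoc]; exact hpre
    have h2 := ih (pre ++ [l]) h1
    have hlen : W.length = pre.length + (L.length + 1) := by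
      rw [← hpre, List.length_append, List.length_cons]
    rw [List.length_append, List.length_singleton] at h2
    rw [Finset.sum_eq_sum_Ico_succ_bot (by omega), ← h2]
    have r1 : W.rotate pre.length = l :: L ++ pre := by
      rw [← hpre]
      exact List.rotate_append_length_eq _ _
    have r2 : W.rotate (pre.length + 1) = L ++ (pre ++ [l]) := by
      have := List.rotate_append_length_eq (pre ++ [l]) L
      rw [List.length_append, List.length_singleton, h1] at this
      exact this
    show τ (zv z pre * (dl sd z H l * zv z L + z l * DD sd z H L)) = _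
    rw [mul_add, map_add]
    congr 1
    · unfold cc
      rw [r1, r2]
      have e0 : sg sd (l :: L ++ pre) = if sd l = true then -1 else 1 := rfl
      rw [e0]
      by_cases hl : sd l = true
      · rw [if_pos hl]
        unfold dl
        rw [if_pos hl]
        simp
      · rw [if_neg hl]
        unfold dl
        rw [if_neg hl]
        have e1 : τ (H * zv z (l :: L ++ pre)) = τ (zv z pre * (H * z l * zv z L)) := by
          rw [List.cons_append, zv_cons, zv_append, h.comm (zv z pre)]
          simp only [mul_assoc]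
        have e2 : τ (H * zv z (L ++ (pre ++ [l]))) = τ (zv z pre * (z l * H * zv z L)) := by
          rw [zv_append, zv_append, h.comm (zv z pre)]
          have : zv z [l] = z l := by simp [zv]
          rw [this]
          have e3 : H * (zv z L * (zv z pre * z l)) = (H * zv z L * zv z pre) * z l := by
            simp only [mul_assoc]
          rw [e3, h.comm]
          simp only [mul_assoc]
        rw [e1, e2, smul_mul_assoc, mul_smul_comm, map_smul, sub_mul, mul_sub, map_sub,
          smul_eq_mul]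
        norm_num
    · rw [zv_append]
      have : zv z [l] = z l := by simp [zv]
      rw [this, mul_assoc]

theorem alt_last (sd : Λ → Bool) : ∀ (L : List Λ) (l : Λ), Alt sd (l :: L) →
    sd ((l :: L).getLast (List.cons_ne_nil _ _)) = (if Even L.length then sd l else !(sd l)) := by
  intro L
  induction L with
  | nil =>
    intro l _
    simp
  | cons m L ih =>
    intro l hl
    unfold Alt at hl
    rw [List.isChain_cons_cons] at hl
    have h1 := ih m hl.2
    rw [List.getLast_cons (List.cons_ne_nil _ _), h1, List.length_cons]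
    have h2 : sd m = !(sd l) := by
      have := hl.1
      cases h3 : sd l <;> cases h4 : sd m <;> simp_all
    rw [h2]
    by_cases he : Even L.length
    · have : ¬ Even (L.length + 1) := by
        rw [Nat.even_add_one]
        exact fun h => h he
      rw [if_pos he, if_neg this]
    · have : Even (L.length + 1) := by
        rw [Nat.even_add_one]
        exact he
      rw [if_neg he, if_pos this, Bool.not_not]

theorem alt_rot (sd : Λ → Bool) (L : List Λ) (hL : Alt sd L) (he : Even L.length) (h0 : L ≠ []) :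
    Alt sd (L.rotate 1) ∧ sg sd (L.rotate 1) = -sg sd L := by
  match L, hL, he, h0 with
  | [l], _, he, _ => simp at he
  | l :: m :: L, hL, he, _ =>
    have h1 : (l :: m :: L).rotate 1 = (m :: L) ++ [l] := by simp
    have h2 := hL
    unfold Alt at h2
    rw [List.isChain_cons_cons] at h2
    have h3 : sd m = !(sd l) := by
      have := h2.1
      cases h3 : sd l <;> cases h4 : sd m <;> simp_all
    rw [h1]
    constructor
    · unfold Alt
      rw [List.isChain_append]
      refine ⟨h2.2, List.isChain_singleton _, ?_⟩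
      intro x hx y hy
      rw [List.getLast?_eq_some_getLast (List.cons_ne_nil _ _)] at hx
      simp only [Option.mem_def, Option.some.injEq] at hx
      simp only [List.head?_cons, Option.mem_def, Option.some.injEq] at hy
      subst hx hy
      rw [alt_last sd L m h2.2]
      have he' : Even L.length := by
        simp only [List.length_cons] at he
        rw [Nat.even_add_one, Nat.even_add_one, not_not] at he
        exact he
      rw [if_pos he', h3]
      cases sd l <;> simp
    · show (if sd m = true then (-1 : ℝ) else 1) = -(if sd l = true then (-1 : ℝ) else 1)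
      rw [h3]
      cases sd l <;> simp

theorem alt_rots (sd : Λ → Bool) (L : List Λ) (hL : Alt sd L) (he : Even L.length)
    (h0 : L ≠ []) (r : ℕ) :
    Alt sd (L.rotate r) ∧ sg sd (L.rotate (r + 1)) = -sg sd (L.rotate r) := by
  induction r with
  | zero =>
    rw [List.rotate_zero, zero_add]
    exact ⟨hL, (alt_rot sd L hL he h0).2⟩
  | succ r ih =>
    have hr0 : L.rotate r ≠ [] := by
      intro h
      rw [List.rotate_eq_nil_iff] at h
      exact h0 h
    have hr1 : Even (L.rotate r).length := by rw [List.length_rotate]; exact he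
    have h1 := alt_rot sd (L.rotate r) ih.1 hr1 hr0
    have e1 : (L.rotate r).rotate 1 = L.rotate (r + 1) := List.rotate_rotate _ _ _
    rw [e1] at h1
    have hr2 : L.rotate (r + 1) ≠ [] := by
      intro h
      rw [List.rotate_eq_nil_iff] at h
      exact h0 h
    have hr3 : Even (L.rotate (r + 1)).length := by rw [List.length_rotate]; exact he
    have h2 := alt_rot sd (L.rotate (r + 1)) h1.1 hr3 hr2
    have e2 : (L.rotate (r + 1)).rotate 1 = L.rotate (r + 1 + 1) := List.rotate_rotate _ _ _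
    rw [e2] at h2
    exact ⟨h1.1, h2.2⟩

theorem tau_DD' {τ : A →ₗ[ℂ] ℂ} (h : TW τ) (sd : Λ → Bool) (z : Λ → A) (H : A) (L : List Λ)
    (hL : Alt sd L) (he : Even L.length) :
    τ (DD sd z H L) = Complex.I * τ (H * Dl sd z L) := by
  by_cases h0 : L = []
  · subst h0
    simp [DD, Dl]
  have h1 := tau_DD h sd z H L L [] (List.nil_append L)
  have e1 : zv z ([] : List Λ) = 1 := by simp [zv]
  rw [e1, one_mul, List.length_nil, ← Finset.range_eq_Ico] at h1
  rw [h1]
  unfold Dl
  rw [Finset.mul_sum, map_sum, Finset.mul_sum]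
  set a : ℕ → ℂ := fun r => τ (H * zv z (L.rotate r)) with ha
  set σ : ℕ → ℂ := fun r => ((sg sd (L.rotate r) : ℝ) : ℂ) with hσ
  have hper : ∀ f : ℕ → ℂ, f L.length = f 0 →
      ∑ r ∈ Finset.range L.length, f (r + 1) = ∑ r ∈ Finset.range L.length, f r := by
    intro f hf
    have h2 := Finset.sum_range_succ f L.length
    have h3 := Finset.sum_range_succ' f L.length
    rw [h2, hf] at h3
    exact (add_right_cancel h3).symm
  have hrot : L.rotate L.length = L.rotate 0 := by
    rw [List.rotate_length, List.rotate_zero]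
  have p1 := hper a (by simp only [ha, hrot])
  have p2 := hper (fun r => σ r * a r) (by simp only [ha, hσ, hrot])
  have hs : ∀ r, σ (r + 1) = -σ r := by
    intro r
    simp only [hσ]
    rw [(alt_rots sd L hL he h0 r).2]
    push_cast
    ring
  have lhs : ∑ r ∈ Finset.range L.length, cc τ sd z H L r =
      Complex.I / 2 * (∑ r ∈ Finset.range L.length, a r -
        ∑ r ∈ Finset.range L.length, a (r + 1) + ∑ r ∈ Finset.range L.length, σ r * a r +
        ∑ r ∈ Finset.range L.length, σ (r + 1) * a (r + 1)) := by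
    rw [← Finset.sum_sub_distrib, ← Finset.sum_add_distrib, ← Finset.sum_add_distrib,
      Finset.mul_sum]
    refine Finset.sum_congr rfl fun r _ => ?_
    rw [hs r]
    unfold cc
    simp only [ha, hσ]
    push_cast
    ring
  rw [lhs, p1, p2]
  have rhs : ∑ r ∈ Finset.range L.length, Complex.I * τ (H * (((sg sd (L.rotate r) : ℝ) : ℂ) •
      zv z (L.rotate r))) = Complex.I * ∑ r ∈ Finset.range L.length, σ r * a r := by
    rw [Finset.mul_sum]
    refine Finset.sum_congr rfl fun r _ => ?_
    rw [mul_smul_comm, map_smul, smul_eq_mul]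
  rw [rhs]
  ring

end APPR

open APPR in
/-- APPR -/
theorem approx {A : Type} [CStarAlgebra A] {τ : A →ₗ[ℂ] ℂ} (h : TW τ) {Λ : Type} [Fintype Λ]
    (sd : Λ → Bool) (N : ℕ) (c : ℝ) (hc : 0 < c) :
    ∃ ρ : ℝ, 0 < ρ ∧ ∀ z : Λ → A, (∀ l, ‖z l‖ ≤ 1) → ∀ X Y : A, ‖X‖ ≤ ρ → ‖Y‖ ≤ ρ →
      ∀ L : List Λ, Alt sd L → Even L.length → L.length ≤ N →
        ‖τ (zv (zc sd z (NormedSpace.exp (Complex.I • X)) (NormedSpace.exp (-(Complex.I • X)))) L) -
          τ (zv (zc sd z (NormedSpace.exp (Complex.I • Y)) (NormedSpace.exp (-(Complex.I • Y)))) L)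
            - Complex.I * τ ((X - Y) * Dl sd z L)‖ ≤ c * ‖X - Y‖ := by
  have hfin := List.finite_length_le Λ N
  have h1 : ∀ᶠ ρ in 𝓝[>] (0 : ℝ), ∀ L ∈ {L : List Λ | L.length ≤ N}, ∀ z : Λ → A,
      (∀ l, ‖z l‖ ≤ 1) → ∀ X Y : A, ‖X‖ ≤ ρ → ‖Y‖ ≤ ρ →
      ‖zv (cl sd z X) L - zv (cl sd z Y) L - DD sd z (X - Y) L‖ ≤ c * ‖X - Y‖ := by
    rw [Filter.eventually_all_finite hfin]
    intro L _
    obtain ⟨ρ, hρ, h2⟩ := (us_word (A := A) sd L).2 c hc
    filter_upwards [Ioo_mem_nhdsGT hρ] with ρ' hρ' z hz X Y hX hY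
    exact h2 z hz X Y (hX.trans hρ'.2.le) (hY.trans hρ'.2.le)
  obtain ⟨ρ, h2, hρ⟩ := (h1.and self_mem_nhdsWithin).exists
  refine ⟨ρ, hρ, fun z hz X Y hX hY L hL he hN => ?_⟩
  have h3 := h2 L hN z hz X Y hX hY
  rw [← tau_DD' h sd z (X - Y) L hL he, ← map_sub, ← map_sub]
  have h4 := Pool.Agent.H467F.tau_bounds h
  exact ((h4.1 _).trans (h4.2 _)).trans h3

end Pool.Agent.H30K
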