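import Pool.Agent.H30R4.KI.Defs

/-!
# CUT: cut points on the circle
-/

set_option autoImplicit false

open scoped ComplexOrder Topology BoundedContinuousFunction ComplexConjugate
open Filter

noncomputable section

namespace Pool.Agent.H30K

namespace CUTaux

/-- bump of height one on `[t - δ, t + δ]`, supported in `[t - 2δ, t + 2δ]` -/
def bump (δ t x : ℝ) : ℝ := min 1 (max 0 (2 - |x - t| / δ))

/-- ramp from `0` at `t` to `1` at `t + δ` -/
def ramp (δ t x : ℝ) : ℝ := min 1 (max 0 ((x - t) / δ))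

theorem bump_nonneg (δ t x : ℝ) : 0 ≤ bump δ t x := le_min zero_le_one (le_max_left _ _)

theorem bump_le_one (δ t x : ℝ) : bump δ t x ≤ 1 := min_le_left _ _

theorem bump_eq_one {δ t x : ℝ} (hδ : 0 < δ) (h : |x - t| ≤ δ) : bump δ t x = 1 := by
  unfold bump
  have h1 : |x - t| / δ ≤ 1 := (div_le_one hδ).2 h
  rw [min_eq_left]
  exact le_max_of_le_right (by linarith)

theorem bump_eq_zero {δ t x : ℝ} (hδ : 0 < δ) (h : 2 * δ ≤ |x - t|) : bump δ t x = 0 := by
  unfold bump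
  have h1 : 2 ≤ |x - t| / δ := (le_div_iff₀ hδ).2 h
  rw [max_eq_left (by linarith)]
  exact min_eq_right zero_le_one

theorem bump_mono {δ δ' t x : ℝ} (hδ' : 0 < δ') (h : δ' ≤ δ) : bump δ' t x ≤ bump δ t x := by
  unfold bump
  have h1 : |x - t| / δ ≤ |x - t| / δ' :=
    div_le_div_of_nonneg_left (abs_nonneg _) hδ' h
  exact min_le_min le_rfl (max_le_max le_rfl (by linarith))

theorem ramp_nonneg (δ t x : ℝ) : 0 ≤ ramp δ t x := le_min zero_le_one (le_max_left _ _)

theorem ramp_le_one (δ t x : ℝ) : ramp δ t x ≤ 1 := min_le_left _ _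

theorem ramp_eq_zero {δ t x : ℝ} (hδ : 0 < δ) (h : x ≤ t) : ramp δ t x = 0 := by
  unfold ramp
  have h1 : (x - t) / δ ≤ 0 := div_nonpos_of_nonpos_of_nonneg (by linarith) hδ.le
  rw [max_eq_left h1]
  exact min_eq_right zero_le_one

theorem ramp_eq_one {δ t x : ℝ} (hδ : 0 < δ) (h : t + δ ≤ x) : ramp δ t x = 1 := by
  unfold ramp
  have h1 : 1 ≤ (x - t) / δ := (le_div_iff₀ hδ).2 (by linarith)
  rw [min_eq_left]
  exact le_max_of_le_right h1

theorem ramp_anti {δ t t' x : ℝ} (hδ : 0 < δ) (h : t ≤ t') : ramp δ t' x ≤ ramp δ t x := by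
  unfold ramp
  have h1 : (x - t') / δ ≤ (x - t) / δ := div_le_div_of_nonneg_right (by linarith) hδ.le
  exact min_le_min le_rfl (max_le_max le_rfl h1)

theorem ramp_diff {δ δ' t x : ℝ} (hδ' : 0 < δ') (h : δ' ≤ δ) :
    |ramp δ' t x - ramp δ t x| ≤ bump δ t x ∧
      ramp δ' t x * (1 - ramp δ' t x) ≤ bump δ t x := by
  have hδ : 0 < δ := lt_of_lt_of_le hδ' h
  rcases le_or_gt x t with h1 | h1
  · rw [ramp_eq_zero hδ' h1, ramp_eq_zero hδ h1]
    simpa using bump_nonneg δ t x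
  · rcases le_or_gt (t + δ) x with h2 | h2
    · rw [ramp_eq_one hδ' (by linarith), ramp_eq_one hδ h2]
      simpa using bump_nonneg δ t x
    · rw [bump_eq_one hδ (by rw [abs_le]; constructor <;> linarith)]
      have a1 := ramp_nonneg δ' t x
      have a2 := ramp_le_one δ' t x
      have a3 := ramp_nonneg δ t x
      have a4 := ramp_le_one δ t x
      constructor
      · rw [abs_le]; constructor <;> linarith
      · nlinarith

variable {X : Type*} [TopologicalSpace X] [CompactSpace X]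

/-- the bump as a continuous function -/
def cb (ρ : C(X, ℝ)) (δ t : ℝ) : C(X, ℝ) :=
  ⟨fun z => bump δ t (ρ z), by unfold bump; fun_prop⟩

/-- the ramp as a continuous function -/
def cr (ρ : C(X, ℝ)) (δ t : ℝ) : C(X, ℝ) :=
  ⟨fun z => ramp δ t (ρ z), by unfold ramp; fun_prop⟩

theorem mono_of_pos (Λ : C(X, ℝ) →ₗ[ℝ] ℝ) (hΛ : ∀ f, 0 ≤ f → 0 ≤ Λ f) {f g : C(X, ℝ)}
    (h : f ≤ g) : Λ f ≤ Λ g := by
  have := hΛ (g - f) (sub_nonneg.2 h)
  rw [map_sub] at this
  linarith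

theorem card_le (Λ : C(X, ℝ) →ₗ[ℝ] ℝ) (hΛ : ∀ f, 0 ≤ f → 0 ≤ Λ f) (ρ : C(X, ℝ)) (κ : ℝ)
    (hκ : 0 < κ) (F : Finset ℝ)
    (hF : ∀ t ∈ F, ∀ j : ℕ, κ ≤ Λ (cb ρ (1 / ((j : ℝ) + 1)) t)) : (F.card : ℝ) * κ ≤ Λ 1 := by
  have h1 : ∀ᶠ j : ℕ in atTop, ∀ t ∈ F, ∀ t' ∈ F, t ≠ t' →
      4 * (1 / ((j : ℝ) + 1)) ≤ |t - t'| := by
    rw [Filter.eventually_all_finset]
    intro t _
    rw [Filter.eventually_all_finset]
    intro t' _
    by_cases h : t = t'
    · exact Eventually.of_forall fun j h' => absurd h h'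
    · have h2 : Tendsto (fun j : ℕ => 4 * (1 / ((j : ℝ) + 1))) atTop (𝓝 (4 * 0)) :=
        tendsto_one_div_add_atTop_nhds_zero_nat.const_mul 4
      have h3 : (4 * 0 : ℝ) < |t - t'| := by
        rw [mul_zero]; exact abs_pos.2 (sub_ne_zero.2 h)
      filter_upwards [h2.eventually_lt_const h3] with j hj _ using hj.le
  obtain ⟨j, hj⟩ := h1.exists
  set δ : ℝ := 1 / ((j : ℝ) + 1) with hδdef
  have hδ : 0 < δ := by positivity
  have h2 : ∑ t ∈ F, cb ρ δ t ≤ 1 := by
    intro z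
    show (∑ t ∈ F, cb ρ δ t) z ≤ 1
    rw [ContinuousMap.coe_sum, Finset.sum_apply]
    show ∑ t ∈ F, bump δ t (ρ z) ≤ 1
    by_cases h : ∃ t ∈ F, bump δ t (ρ z) ≠ 0
    · obtain ⟨t, ht, hne⟩ := h
      rw [Finset.sum_eq_single t]
      · exact bump_le_one _ _ _
      · intro t' ht' hne'
        by_contra h3
        have a1 : |ρ z - t| < 2 * δ := by
          by_contra h4; exact hne (bump_eq_zero hδ (not_lt.1 h4))
        have a2 : |ρ z - t'| < 2 * δ := by
          by_contra h4; exact h3 (bump_eq_zero hδ (not_lt.1 h4))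
        have a3 := hj t ht t' ht' (Ne.symm hne')
        have a4 : |t - t'| ≤ |ρ z - t| + |ρ z - t'| := by
          have : t - t' = (ρ z - t') - (ρ z - t) := by ring
          rw [this]
          have := abs_sub (ρ z - t') (ρ z - t)
          linarith
        linarith
      · intro h3; exact absurd ht h3
    · push Not at h
      rw [Finset.sum_eq_zero h]
      exact zero_le_one
  have h3 := mono_of_pos Λ hΛ h2
  rw [map_sum] at h3
  have h4 : (F.card : ℝ) * κ ≤ ∑ t ∈ F, Λ (cb ρ δ t) := by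
    have := Finset.card_nsmul_le_sum F (fun t => Λ (cb ρ δ t)) κ (fun t ht => hF t ht j)
    rwa [nsmul_eq_mul] at this
  linarith

theorem exists_null (Λ : C(X, ℝ) →ₗ[ℝ] ℝ) (hΛ : ∀ f, 0 ≤ f → 0 ≤ Λ f) (ρ : C(X, ℝ)) (α β : ℝ)
    (hαβ : α < β) :
    ∃ t ∈ Set.Ioo α β, Tendsto (fun j : ℕ => Λ (cb ρ (1 / ((j : ℝ) + 1)) t)) atTop (𝓝 0) := by
  by_contra hcon
  push Not at hcon
  -- the sequences are antitone
  have hanti : ∀ t, Antitone (fun j : ℕ => Λ (cb ρ (1 / ((j : ℝ) + 1)) t)) := by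
    intro t j j' hjj
    refine mono_of_pos Λ hΛ fun z => ?_
    exact bump_mono (by positivity) (by
      apply one_div_le_one_div_of_le (by positivity)
      have : (j : ℝ) ≤ j' := by exact_mod_cast hjj
      linarith)
  have hnn : ∀ t (j : ℕ), 0 ≤ Λ (cb ρ (1 / ((j : ℝ) + 1)) t) := fun t j =>
    hΛ _ fun z => bump_nonneg _ _ _
  have hpos : ∀ t ∈ Set.Ioo α β, ∃ n : ℕ, ∀ j : ℕ,
      1 / ((n : ℝ) + 1) ≤ Λ (cb ρ (1 / ((j : ℝ) + 1)) t) := by
    intro t ht
    by_contra h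
    push Not at h
    apply hcon t ht
    rw [Metric.tendsto_atTop]
    intro e he
    obtain ⟨n, hn⟩ := exists_nat_one_div_lt he
    obtain ⟨j, hj⟩ := h n
    refine ⟨j, fun j' hj' => ?_⟩
    rw [Real.dist_eq, sub_zero, abs_of_nonneg (hnn t j')]
    exact lt_of_le_of_lt (hanti t hj') (lt_trans hj hn)
  have hfin : ∀ n : ℕ, {t ∈ Set.Ioo α β | ∀ j : ℕ,
      1 / ((n : ℝ) + 1) ≤ Λ (cb ρ (1 / ((j : ℝ) + 1)) t)}.Finite := by
    intro n
    by_contra h
    obtain ⟨N, hN⟩ := exists_nat_gt (Λ 1 * ((n : ℝ) + 1))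
    obtain ⟨F, hF1, hF2⟩ := (show Set.Infinite _ from h).exists_subset_card_eq N
    have h1 := card_le Λ hΛ ρ (1 / ((n : ℝ) + 1)) (by positivity) F
      (fun t ht => (hF1 ht).2)
    rw [hF2, mul_one_div, div_le_iff₀ (by positivity)] at h1
    linarith
  have hcount : (Set.Ioo α β).Countable := by
    have h1 : Set.Ioo α β ⊆ ⋃ n : ℕ, {t ∈ Set.Ioo α β | ∀ j : ℕ,
        1 / ((n : ℝ) + 1) ≤ Λ (cb ρ (1 / ((j : ℝ) + 1)) t)} := by
      intro t ht
      obtain ⟨n, hn⟩ := hpos t ht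
      exact Set.mem_iUnion.2 ⟨n, ht, hn⟩
    exact (Set.countable_iUnion fun n => (hfin n).countable).mono h1
  have h0 := hcount.measure_zero MeasureTheory.volume
  rw [Real.volume_Ioo] at h0
  have : β - α ≤ 0 := ENNReal.ofReal_eq_zero.1 h0
  linarith

theorem sub_mul_le {r s : ℝ} (h0 : 0 ≤ s) (h2 : r ≤ 1) :
    (r - s) * (1 - (r - s)) ≤ r * (1 - r) + s * (1 - s) := by
  nlinarith

/-- the one-dimensional statement -/
theorem one (Λ : C(X, ℝ) →ₗ[ℝ] ℝ) (hΛ : ∀ f, 0 ≤ f → 0 ≤ Λ f) (ρ : C(X, ℝ)) (η : ℝ)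
    (hη : 0 < η) :
    ∃ (p : ℕ) (a : ℕ → Fin p → C(X, ℝ)) (g : ℕ → C(X, ℝ)),
      (∀ j i, 0 ≤ a j i) ∧ (∀ j, ∑ i, a j i = 1) ∧
      (∀ j j' i z z', a j i z ≠ 0 → a j' i z' ≠ 0 → |ρ z - ρ z'| ≤ η) ∧
      (∀ j j' i z, j ≤ j' → |a j' i z - a j i z| ≤ g j z ∧ a j' i z * (1 - a j' i z) ≤ g j z) ∧
      Tendsto (fun j => Λ (g j)) atTop (𝓝 0) := by
  obtain ⟨B, hB⟩ : ∃ B : ℝ, ∀ z, |ρ z| ≤ B := ⟨‖ρ‖, fun z => ρ.norm_coe_le_norm z⟩
  have hη' : 0 < η / 3 := by positivity
  choose t ht ht0 using fun k : ℕ => exists_null Λ hΛ ρ (-B + (k : ℝ) * (η / 3))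
    (-B + ((k : ℝ) + 1) * (η / 3)) (by nlinarith)
  obtain ⟨q, hq⟩ := exists_nat_gt (2 * B / (η / 3))
  have hq' : 2 * B < (q : ℝ) * (η / 3) := by rwa [div_lt_iff₀ hη'] at hq
  obtain ⟨n0, hn0⟩ := exists_nat_one_div_lt hη'
  -- the scales
  let dl : ℕ → ℝ := fun j => 1 / (((j + n0 : ℕ) : ℝ) + 1)
  have hdl : ∀ j, 0 < dl j := fun j => by positivity
  have hdlη : ∀ j, dl j ≤ η / 3 := by
    intro j
    refine le_trans ?_ hn0.le
    apply one_div_le_one_div_of_le (by positivity)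
    push_cast
    have : (0 : ℝ) ≤ j := Nat.cast_nonneg j
    linarith
  have hdlm : ∀ {j j' : ℕ}, j ≤ j' → dl j' ≤ dl j := by
    intro j j' h
    apply one_div_le_one_div_of_le (by positivity)
    push_cast
    have : (j : ℝ) ≤ j' := by exact_mod_cast h
    linarith
  -- steps
  let s : ℕ → ℕ → C(X, ℝ) := fun j k => match k with
    | 0 => 1
    | k + 1 => cr ρ (dl j) (t k)
  let b : ℕ → ℕ → C(X, ℝ) := fun j k => match k with
    | 0 => 0
    | k + 1 => cb ρ (dl j) (t k)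
  have hs0 : ∀ j k z, 0 ≤ s j k z := by
    intro j k z
    cases k with
    | zero => exact zero_le_one
    | succ k => exact ramp_nonneg _ _ _
  have hs1 : ∀ j k z, s j k z ≤ 1 := by
    intro j k z
    cases k with
    | zero => exact le_rfl
    | succ k => exact ramp_le_one _ _ _
  have hb0 : ∀ j k z, 0 ≤ b j k z := by
    intro j k z
    cases k with
    | zero => exact le_rfl
    | succ k => exact bump_nonneg _ _ _
  have hsb : ∀ {j j' : ℕ} (k : ℕ) (z : X), j ≤ j' →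
      |s j' k z - s j k z| ≤ b j k z ∧ s j' k z * (1 - s j' k z) ≤ b j k z := by
    intro j j' k z h
    cases k with
    | zero =>
      show |(1 : ℝ) - 1| ≤ 0 ∧ (1 : ℝ) * (1 - 1) ≤ 0
      simp
    | succ k => exact ramp_diff (hdl j') (hdlm h)
  have htt : ∀ k, t k ≤ t (k + 1) := by
    intro k
    have h1 := (ht k).2
    have h2 := (ht (k + 1)).1
    push_cast at h2
    linarith
  have hanti : ∀ j k z, s j (k + 1) z ≤ s j k z := by
    intro j k z
    cases k with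
    | zero => exact ramp_le_one _ _ _
    | succ k => exact ramp_anti (hdl j) (htt k)
  have hlo : ∀ j k z, s j k z ≠ 0 → -B + ((k : ℝ) - 1) * (η / 3) ≤ ρ z := by
    intro j k z h
    have hz := (abs_le.1 (hB z)).1
    cases k with
    | zero => push_cast; linarith
    | succ k =>
      by_contra h1
      apply h
      have h2 := (ht k).1
      push_cast at h1
      exact ramp_eq_zero (hdl j) (by push Not at h1; nlinarith)
  have hhi : ∀ j k z, s j (k + 1) z ≠ 1 → ρ z ≤ -B + ((k : ℝ) + 2) * (η / 3) := by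
    intro j k z h
    by_contra h1
    apply h
    have h2 := (ht k).2
    have h3 := hdlη j
    exact ramp_eq_one (hdl j) (by push Not at h1; nlinarith)
  refine ⟨q + 1, fun j i => s j i - s j (i + 1), fun j => ∑ i : Fin (q + 1),
    (b j i + b j (i + 1)), ?_, ?_, ?_, ?_, ?_⟩
  · intro j i z
    show (0 : ℝ) ≤ s j i z - s j (i + 1) z
    have := hanti j i z
    linarith
  · intro j
    rw [Fin.sum_univ_eq_sum_range (fun i => s j i - s j (i + 1)) (q + 1),
      Finset.sum_range_sub']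
    have h1 : s j (q + 1) = 0 := by
      ext z
      refine ramp_eq_zero (hdl j) ?_
      have h2 := (ht q).1
      have h3 := (abs_le.1 (hB z)).2
      linarith
    rw [h1, sub_zero]
  · intro j j' i z z' h h'
    have key : ∀ (j : ℕ) (z : X), (s j i - s j (i + 1)) z ≠ 0 →
        -B + ((i : ℕ) - 1 : ℝ) * (η / 3) ≤ ρ z ∧ ρ z ≤ -B + (((i : ℕ) : ℝ) + 2) * (η / 3) := by
      intro j z h
      have h1 : s j i z - s j (i + 1) z ≠ 0 := h
      constructor
      · refine hlo j i z fun h2 => h1 ?_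
        have h3 := hanti j i z
        have h4 := hs0 j (i + 1) z
        linarith
      · refine hhi j i z fun h2 => h1 ?_
        have h3 := hanti j i z
        have h4 := hs1 j i z
        linarith
    obtain ⟨h1, h2⟩ := key j z h
    obtain ⟨h3, h4⟩ := key j' z' h'
    rw [abs_le]
    constructor <;> nlinarith
  · intro j j' i z hjj
    have hg : b j i z + b j (i + 1) z ≤ (∑ i : Fin (q + 1), (b j i + b j (i + 1))) z := by
      rw [ContinuousMap.coe_sum, Finset.sum_apply]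
      exact Finset.single_le_sum (f := fun i : Fin (q + 1) => (b j i + b j (i + 1)) z)
        (fun i _ => add_nonneg (hb0 j i z) (hb0 j ((i : ℕ) + 1) z)) (Finset.mem_univ i)
    obtain ⟨h1, h2⟩ := hsb (i : ℕ) z hjj
    obtain ⟨h3, h4⟩ := hsb ((i : ℕ) + 1) z hjj
    constructor
    · refine le_trans ?_ hg
      show |(s j' i z - s j' (i + 1) z) - (s j i z - s j (i + 1) z)| ≤ _
      rw [abs_le] at h1 h3 ⊢
      constructor <;> linarith [h1.1, h1.2, h3.1, h3.2]
    · refine le_trans ?_ hg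
      show (s j' i z - s j' (i + 1) z) * (1 - (s j' i z - s j' (i + 1) z)) ≤ _
      have h5 := sub_mul_le (r := s j' i z) (s := s j' (i + 1) z) (hs0 j' (i + 1) z) (hs1 j' i z)
      linarith
  · have hbt : ∀ k, Tendsto (fun j => Λ (b j k)) atTop (𝓝 0) := by
      intro k
      cases k with
      | zero =>
        have : (fun j => Λ (b j 0)) = fun _ => (0 : ℝ) := by
          funext j
          exact map_zero Λ
        rw [this]
        exact tendsto_const_nhds
      | succ k => exact (ht0 k).comp (tendsto_add_atTop_nat n0)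
    have h1 : (fun j => Λ (∑ i : Fin (q + 1), (b j i + b j (i + 1))))
        = fun j => ∑ i : Fin (q + 1), (Λ (b j i) + Λ (b j (i + 1))) := by
      funext j
      rw [map_sum]
      exact Finset.sum_congr rfl fun i _ => map_add _ _ _
    rw [h1]
    have h2 : Tendsto (fun j => ∑ i : Fin (q + 1), (Λ (b j i) + Λ (b j (i + 1)))) atTop
        (𝓝 (∑ _i : Fin (q + 1), ((0 : ℝ) + 0))) :=
      tendsto_finsetSum _ fun i _ => (hbt i).add (hbt (i + 1))
    simpa using h2

end CUTaux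

open CUTaux in
/-- CUT -/
theorem cut (Λ : C(Circle, ℝ) →ₗ[ℝ] ℝ) (hΛ : ∀ f, 0 ≤ f → 0 ≤ Λ f) (ε : ℝ) (hε : 0 < ε) :
    ∃ (m : ℕ) (c : Fin m → Circle) (f : ℕ → Fin m → C(Circle, ℝ)) (g : ℕ → C(Circle, ℝ)),
      (∀ j i, 0 ≤ f j i) ∧ (∀ j, ∑ i, f j i = 1) ∧
      (∀ j i z, f j i z ≠ 0 → ‖(z : ℂ) - (c i : ℂ)‖ ≤ ε) ∧
      (∀ j j' i z, j ≤ j' → |f j' i z - f j i z| ≤ g j z ∧ f j' i z * (1 - f j' i z) ≤ g j z) ∧
      Tendsto (fun j => Λ (g j)) atTop (𝓝 0) := by
  have hε2 : 0 < ε / 2 := by positivity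
  obtain ⟨p, a, g, a1, a2, a3, a4, a5⟩ := one Λ hΛ
    (⟨fun z : Circle => (z : ℂ).re, by fun_prop⟩ : C(Circle, ℝ)) (ε / 2) hε2
  obtain ⟨q, b, h, b1, b2, b3, b4, b5⟩ := one Λ hΛ
    (⟨fun z : Circle => (z : ℂ).im, by fun_prop⟩ : C(Circle, ℝ)) (ε / 2) hε2
  have ha01 : ∀ j i z, a j i z ≤ 1 := by
    intro j i z
    have h1 : ∑ i, a j i z = 1 := by
      have := congrArg (fun F : C(Circle, ℝ) => F z) (a2 j)
      simpa [ContinuousMap.coe_sum, Finset.sum_apply] using this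
    rw [← h1]
    exact Finset.single_le_sum (f := fun i => a j i z) (fun i _ => a1 j i z) (Finset.mem_univ i)
  have hb01 : ∀ j i z, b j i z ≤ 1 := by
    intro j i z
    have h1 : ∑ i, b j i z = 1 := by
      have := congrArg (fun F : C(Circle, ℝ) => F z) (b2 j)
      simpa [ContinuousMap.coe_sum, Finset.sum_apply] using this
    rw [← h1]
    exact Finset.single_le_sum (f := fun i => b j i z) (fun i _ => b1 j i z) (Finset.mem_univ i)
  let e : Fin p × Fin q ≃ Fin (p * q) := finProdFinEquiv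
  let F : ℕ → Fin p × Fin q → C(Circle, ℝ) := fun j x => a j x.1 * b j x.2
  classical
  let c : Fin p × Fin q → Circle := fun x =>
    if hx : ∃ z : Circle, ∃ j, F j x z ≠ 0 then hx.choose else 1
  refine ⟨p * q, fun i => c (e.symm i), fun j i => F j (e.symm i), fun j => g j + h j, ?_, ?_,
    ?_, ?_, ?_⟩
  · intro j i z
    exact mul_nonneg (a1 j _ z) (b1 j _ z)
  · intro j
    rw [Equiv.sum_comp e.symm (fun x => F j x), Fintype.sum_prod_type]
    show ∑ x, ∑ y, a j x * b j y = 1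
    simp_rw [← Finset.mul_sum]
    rw [b2 j]
    simp [a2 j]
  · intro j i z hz
    have hx : ∃ z : Circle, ∃ j, F j (e.symm i) z ≠ 0 := ⟨z, j, hz⟩
    have hc : c (e.symm i) = hx.choose := dif_pos hx
    obtain ⟨j', hj'⟩ := hx.choose_spec
    rw [← hc] at hj'
    have h1 : a j (e.symm i).1 z * b j (e.symm i).2 z ≠ 0 := hz
    have h2 : a j' (e.symm i).1 (c (e.symm i)) * b j' (e.symm i).2 (c (e.symm i)) ≠ 0 := hj'
    have h3 : |((z : ℂ).re) - ((c (e.symm i) : ℂ)).re| ≤ ε / 2 :=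
      a3 j j' _ z (c (e.symm i)) (left_ne_zero_of_mul h1) (left_ne_zero_of_mul h2)
    have h4 : |((z : ℂ).im) - ((c (e.symm i) : ℂ)).im| ≤ ε / 2 :=
      b3 j j' _ z (c (e.symm i)) (right_ne_zero_of_mul h1) (right_ne_zero_of_mul h2)
    have h5 := Complex.norm_le_abs_re_add_abs_im ((z : ℂ) - (c (e.symm i) : ℂ))
    rw [Complex.sub_re, Complex.sub_im] at h5
    linarith
  · intro j j' i z hjj
    obtain ⟨h1, h2⟩ := a4 j j' (e.symm i).1 z hjj
    obtain ⟨h3, h4⟩ := b4 j j' (e.symm i).2 z hjj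
    have u0 : (0 : ℝ) ≤ a j (e.symm i).1 z := a1 j (e.symm i).1 z
    have u1 := ha01 j (e.symm i).1 z
    have u0' : (0 : ℝ) ≤ a j' (e.symm i).1 z := a1 j' (e.symm i).1 z
    have u1' := ha01 j' (e.symm i).1 z
    have v0 : (0 : ℝ) ≤ b j (e.symm i).2 z := b1 j (e.symm i).2 z
    have v1 := hb01 j (e.symm i).2 z
    have v0' : (0 : ℝ) ≤ b j' (e.symm i).2 z := b1 j' (e.symm i).2 z
    have v1' := hb01 j' (e.symm i).2 z
    show |a j' (e.symm i).1 z * b j' (e.symm i).2 z - a j (e.symm i).1 z * b j (e.symm i).2 z|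
        ≤ g j z + h j z ∧ (a j' (e.symm i).1 z * b j' (e.symm i).2 z) *
        (1 - a j' (e.symm i).1 z * b j' (e.symm i).2 z) ≤ g j z + h j z
    set x := a j (e.symm i).1 z
    set x' := a j' (e.symm i).1 z
    set y := b j (e.symm i).2 z
    set y' := b j' (e.symm i).2 z
    constructor
    · have h5 : x' * y' - x * y = (x' - x) * y' + x * (y' - y) := by ring
      rw [h5]
      have h6 : |(x' - x) * y'| ≤ |x' - x| := by
        rw [abs_mul, abs_of_nonneg v0']
        exact mul_le_of_le_one_right (abs_nonneg _) v1'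
      have h7 : |x * (y' - y)| ≤ |y' - y| := by
        rw [abs_mul, abs_of_nonneg u0]
        exact mul_le_of_le_one_left (abs_nonneg _) u1
      have h8 := abs_add_le ((x' - x) * y') (x * (y' - y))
      linarith
    · have h5 : x' * y' * (1 - x' * y') ≤ x' * (1 - x') + y' * (1 - y') := by
        have k1 : 1 - x' * y' ≤ (1 - x') + (1 - y') := by nlinarith
        have k2 : 0 ≤ x' * y' := mul_nonneg u0' v0'
        have k3 : x' * y' ≤ x' := mul_le_of_le_one_right u0' v1'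
        have k4 : x' * y' ≤ y' := mul_le_of_le_one_left v0' u1'
        nlinarith [mul_le_mul_of_nonneg_left k1 k2, mul_le_mul_of_nonneg_right k3 (sub_nonneg.2 u1'),
          mul_le_mul_of_nonneg_right k4 (sub_nonneg.2 v1')]
      linarith
  · have h1 : (fun j => Λ (g j + h j)) = fun j => Λ (g j) + Λ (h j) := by
      funext j; exact map_add _ _ _
    rw [h1]
    simpa using a5.add b5

end Pool.Agent.H30K
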