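import Pool.Agent.H30R4.KI.Defs

/-!
Task DUAL: the dual letters.
-/

set_option autoImplicit false

open scoped ComplexOrder Topology BoundedContinuousFunction ComplexConjugate
open Filter

noncomputable section

namespace Pool.Agent.H30K

/-- DUAL (a): the dual letters are centered, in the algebra, and dual to the centered letters. -/
theorem dual {B : Type} [Ring B] [Algebra ℂ B] [StarRing B] (φ : B →ₗ[ℂ] ℂ) (h1 : φ 1 = 1)
    {Λ : Type} [Fintype Λ] [DecidableEq Λ]
    (sd : Λ → Bool) (p : Λ → B) (hp : PV2 sd p) (hpos : ∀ l, φ (p l) ≠ 0) (l0 : Bool → Λ)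
    (hl0 : ∀ b, sd (l0 b) = b) :
    (∀ l : Lam sd l0, ctr φ sd l0 p l ∈ spn sd p (sd' sd l0 l) ∧ φ (ctr φ sd l0 p l) = 0) ∧
    (∀ l : Lam sd l0, dul φ sd l0 p l ∈ spn sd p (sd' sd l0 l) ∧ φ (dul φ sd l0 p l) = 0) ∧
    (∀ l m : Lam sd l0, sd' sd l0 l = sd' sd l0 m →
      φ (dul φ sd l0 p l * ctr φ sd l0 p m) = if l = m then 1 else 0) := by
  have hmem : ∀ l b, sd l = b → p l ∈ spn sd p b := fun l b h =>
    Algebra.subset_adjoin ⟨l, h, rfl⟩
  have hd : ∀ l : Lam sd l0, φ (dul φ sd l0 p l) = 0 := by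
    intro l
    unfold dul
    rw [map_sub, map_smul, map_smul, smul_eq_mul, smul_eq_mul, inv_mul_cancel₀ (hpos _),
      inv_mul_cancel₀ (hpos _), sub_self]
  refine ⟨fun l => ⟨?_, ?_⟩, fun l => ⟨?_, hd l⟩, ?_⟩
  · unfold ctr
    exact sub_mem (hmem _ _ rfl) (Subalgebra.smul_mem _ (one_mem _) _)
  · unfold ctr
    rw [map_sub, map_smul, h1, smul_eq_mul, mul_one, sub_self]
  · unfold dul
    exact sub_mem (Subalgebra.smul_mem _ (hmem _ _ rfl) _)
      (Subalgebra.smul_mem _ (hmem _ _ (hl0 _)) _)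
  · intro l m hlm
    have hlm' : sd l.1 = sd m.1 := hlm
    have e : dul φ sd l0 p l * ctr φ sd l0 p m
        = dul φ sd l0 p l * p m.1 - φ (p m.1) • dul φ sd l0 p l := by
      unfold ctr
      rw [mul_sub, mul_smul_comm, mul_one]
    rw [e, map_sub, map_smul, hd, smul_zero, sub_zero]
    unfold dul
    have h0 : p (l0 (sd l.1)) * p m.1 = 0 := by
      apply hp.orth
      · intro h
        have := m.2
        rw [← hlm'] at this
        exact this h.symm
      · rw [hl0, hlm']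
    rw [sub_mul, smul_mul_assoc, smul_mul_assoc, h0, smul_zero, sub_zero, map_smul, smul_eq_mul]
    by_cases h : l = m
    · subst h
      rw [if_pos rfl, hp.idem, inv_mul_cancel₀ (hpos _)]
    · rw [if_neg h, hp.orth l.1 m.1 (fun h' => h (Subtype.ext h')) hlm', map_zero, mul_zero]

end Pool.Agent.H30K
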