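import Mathlib
import Pool.Agent.H30R4.KI.Defs

/-! MP_64d6f1_an, task EE1 (helper25): the traces of the words form a symmetric family. -/

set_option autoImplicit false

open scoped ComplexOrder Topology BoundedContinuousFunction ComplexConjugate
open Filter

noncomputable section

namespace Pool.Agent.H30K

open Pool.Agent.H467F (TW)

variable {A : Type} [CStarAlgebra A] {τ : A →ₗ[ℂ] ℂ}

private theorem ee1_star_prod {Λ : Type} (z : Λ → A) (hz : ∀ l, star (z l) = z l)
    (L : List Λ) : zv z L.reverse = star (zv z L) := by
  induction L with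
  | nil => simp [zv]
  | cons a L ih =>
    simp only [zv, List.reverse_cons, List.map_append, List.prod_append, List.map_cons,
      List.map_nil, List.prod_cons, List.prod_nil, mul_one, star_mul, hz] at ih ⊢
    rw [ih]

/-- EE1 -/
theorem mem_EE (h : TW τ) {Λ : Type} [Fintype Λ] (sd : Λ → Bool) (N : ℕ) (z : Λ → A)
    (hz : ∀ l, star (z l) = z l) : (fun L : Wd sd N => τ (zv z L.1)) ∈ EE sd N := by
  intro L M
  refine ⟨fun hM => ?_, fun hM => ?_⟩
  · show τ (zv z M.1) = τ (zv z L.1)
    rw [hM]
    rcases hL : L.1 with _ | ⟨a, l⟩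
    · simp
    · simp only [List.rotate_cons_succ, List.rotate_zero, zv, List.map_append, List.prod_append,
        List.map_cons, List.map_nil, List.prod_cons, List.prod_nil, mul_one]
      exact h.comm _ _
  · show τ (zv z M.1) = conj (τ (zv z L.1))
    rw [hM, ee1_star_prod z hz, h.conj]
    rfl

end Pool.Agent.H30K
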