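import Mathlib
import Pool.Agent.H30R4.KI.Defs

set_option autoImplicit false
set_option linter.unusedSectionVars false

open scoped ComplexOrder Topology BoundedContinuousFunction ComplexConjugate
open Filter

noncomputable section

namespace Pool.Agent.H30K

open Pool.Agent.H467F (TW)

section words

variable {Λ : Type} {sd : Λ → Bool}

/-- last letter of an alternating word -/
theorem EE2_last (a : Λ) (T : List Λ) (h : Alt sd (a :: T)) :
    sd ((a :: T).getLast (List.cons_ne_nil a T)) = (if Even T.length then sd a else !(sd a)) := by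
  induction T generalizing a with
  | nil => simp
  | cons b T ih =>
    unfold Alt at h
    rw [List.isChain_cons_cons] at h
    have h1 := ih b h.2
    rw [List.getLast_cons (List.cons_ne_nil b T), h1]
    have h2 : sd b = !(sd a) := by
      cases hb : sd b <;> cases ha : sd a <;> simp_all
    rw [List.length_cons, h2]
    by_cases hT : Even T.length
    · have : ¬ Even (T.length + 1) := by rwa [Nat.even_add_one, not_not]
      simp [hT, this]
    · have : Even (T.length + 1) := by rwa [Nat.even_add_one]
      simp [hT, this]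

/-- rotation of an alternating word of even length -/
theorem EE2_rot1 (L : List Λ) (h : Alt sd L) (he : Even L.length) :
    Alt sd (L.rotate 1) ∧ sg sd (L.rotate 1) = -sg sd L := by
  cases L with
  | nil => simp [Alt, sg]
  | cons a T =>
    cases T with
    | nil => simp at he
    | cons b T =>
      have h0 := h
      unfold Alt at h
      rw [List.isChain_cons_cons] at h
      have e1 : (a :: b :: T).rotate 1 = (b :: T) ++ [a] := by
        rw [List.rotate_cons_succ, List.rotate_zero]
      have h1 := EE2_last b T h.2
      have hT : Even T.length := by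
        rw [List.length_cons, List.length_cons, Nat.even_add_one, Nat.even_add_one,
          not_not] at he
        exact he
      rw [if_pos hT] at h1
      rw [e1]
      constructor
      · unfold Alt
        rw [List.isChain_append]
        refine ⟨h.2, by simp, ?_⟩
        intro x hx y hy
        rw [List.getLast?_eq_getLast_of_ne_nil (List.cons_ne_nil b T)] at hx
        simp only [Option.mem_def, Option.some.injEq] at hx
        simp only [List.head?_cons, Option.mem_def, Option.some.injEq] at hy
        subst hy
        rw [← hx, h1]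
        exact fun hc => h.1 hc.symm
      · have h2 : sd b = !(sd a) := by
          cases hb : sd b <;> cases ha : sd a <;> simp_all
        show (if sd b = true then (-1 : ℝ) else 1) = -(if sd a = true then (-1 : ℝ) else 1)
        rw [h2]
        cases sd a <;> simp

theorem EE2_rot (L : List Λ) (h : Alt sd L) (he : Even L.length) (r : ℕ) :
    Alt sd (L.rotate r) ∧ sg sd (L.rotate r) = (-1) ^ r * sg sd L := by
  induction r with
  | zero => rw [List.rotate_zero]; exact ⟨h, by simp⟩
  | succ r ih =>
    have h1 := EE2_rot1 (L.rotate r) ih.1 (by rwa [List.length_rotate])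
    rw [List.rotate_rotate] at h1
    refine ⟨h1.1, ?_⟩
    rw [h1.2, ih.2, pow_succ]
    ring

theorem EE2_sg_reverse (L : List Λ) (h : Alt sd L) (he : Even L.length) :
    sg sd L.reverse = -sg sd L := by
  cases L with
  | nil => simp [sg]
  | cons a T =>
    have h1 := EE2_last a T h
    have hT : ¬ Even T.length := by
      rwa [List.length_cons, Nat.even_add_one] at he
    rw [if_neg hT] at h1
    have h2 : (a :: T).reverse = ((a :: T).getLast (List.cons_ne_nil a T)) ::
        (a :: T).dropLast.reverse := by
      conv_lhs => rw [← List.dropLast_append_getLast (List.cons_ne_nil a T)]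
      rw [List.reverse_append]
      rfl
    rw [h2]
    show (if sd ((a :: T).getLast (List.cons_ne_nil a T)) = true then (-1 : ℝ) else 1) =
      -(if sd a = true then (-1 : ℝ) else 1)
    rw [h1]
    cases sd a <;> simp

theorem EE2_alt_reverse (L : List Λ) (h : Alt sd L) : Alt sd L.reverse := by
  unfold Alt at h ⊢
  rw [List.isChain_reverse]
  refine h.imp ?_
  intro a b hab hba
  exact hab hba.symm

end words

section alg

variable {B : Type} [Ring B] [Algebra ℂ B] {Λ : Type}

theorem EE2_Dl (sd : Λ → Bool) (z : Λ → B) (L : List Λ) (h : Alt sd L) (he : Even L.length) :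
    Dl sd z L = ((sg sd L : ℝ) : ℂ) •
      ∑ r ∈ Finset.range L.length, ((-1 : ℂ) ^ r) • zv z (L.rotate r) := by
  unfold Dl
  rw [Finset.smul_sum]
  refine Finset.sum_congr rfl fun r _ => ?_
  rw [(EE2_rot L h he r).2, smul_smul]
  congr 1
  push_cast
  ring

theorem EE2_Dl_rot (sd : Λ → Bool) (z : Λ → B) (L : List Λ) :
    Dl sd z (L.rotate 1) = Dl sd z L := by
  unfold Dl
  rw [List.length_rotate]
  have h1 : ∀ r, ((sg sd ((L.rotate 1).rotate r) : ℝ) : ℂ) • zv z ((L.rotate 1).rotate r) =
      ((sg sd (L.rotate (r + 1)) : ℝ) : ℂ) • zv z (L.rotate (r + 1)) := by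
    intro r
    rw [List.rotate_rotate, add_comm 1 r]
  rw [Finset.sum_congr rfl fun r _ => h1 r]
  have h2 := Finset.sum_range_succ' (fun r => ((sg sd (L.rotate r) : ℝ) : ℂ) • zv z (L.rotate r))
    L.length
  have h3 := Finset.sum_range_succ (fun r => ((sg sd (L.rotate r) : ℝ) : ℂ) • zv z (L.rotate r))
    L.length
  rw [h3, List.rotate_length, List.rotate_zero] at h2
  exact (add_right_cancel h2).symm

theorem EE2_star_zv [StarRing B] (z : Λ → B) (hz : ∀ l, star (z l) = z l) (L : List Λ) :
    star (zv z L) = zv z L.reverse := by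
  induction L with
  | nil => simp [zv]
  | cons a T ih =>
    unfold zv at ih ⊢
    rw [List.map_cons, List.prod_cons, star_mul, ih, hz, List.reverse_cons, List.map_append,
      List.prod_append]
    simp

theorem EE2_star_Dl [StarRing B] [StarModule ℂ B] (sd : Λ → Bool) (z : Λ → B)
    (hz : ∀ l, star (z l) = z l) (L : List Λ) (h : Alt sd L) (he : Even L.length) :
    star (Dl sd z L) = -Dl sd z L.reverse := by
  rw [EE2_Dl sd z L h he, EE2_Dl sd z L.reverse (EE2_alt_reverse L h) (by
    rwa [List.length_reverse]), EE2_sg_reverse L h he, star_smul, star_sum, List.length_reverse]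
  have h1 : ∀ r ∈ Finset.range L.length, star (((-1 : ℂ) ^ r) • zv z (L.rotate r)) =
      ((-1 : ℂ) ^ (L.length - r)) • zv z (L.reverse.rotate (L.length - r)) := by
    intro r hr
    rw [Finset.mem_range] at hr
    rw [star_smul, EE2_star_zv z hz, List.reverse_rotate, Nat.mod_eq_of_lt hr]
    congr 1
    have h2 : (-1 : ℂ) ^ (L.length - r) = (-1) ^ r := by
      have h3 : (-1 : ℂ) ^ (L.length - r) * (-1) ^ r = 1 := by
        rw [← pow_add, Nat.sub_add_cancel hr.le]
        exact he.neg_one_pow
      have h4 : (-1 : ℂ) ^ r * (-1) ^ r = 1 := by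
        rw [← pow_add]
        exact (Even.add_self r).neg_one_pow
      have h5 : ((-1 : ℂ) ^ r) ≠ 0 := pow_ne_zero _ (by norm_num)
      exact mul_right_cancel₀ h5 (h3.trans h4.symm)
    rw [h2]
    simp
  rw [Finset.sum_congr rfl h1]
  have h2 : ∑ r ∈ Finset.range L.length,
      ((-1 : ℂ) ^ (L.length - r)) • zv z (L.reverse.rotate (L.length - r)) =
      ∑ r ∈ Finset.range L.length, ((-1 : ℂ) ^ (r + 1)) • zv z (L.reverse.rotate (r + 1)) := by
    rw [← Finset.sum_range_reflect (fun r => ((-1 : ℂ) ^ (r + 1)) •
      zv z (L.reverse.rotate (r + 1))) L.length]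
    refine Finset.sum_congr rfl fun r hr => ?_
    rw [Finset.mem_range] at hr
    have : L.length - 1 - r + 1 = L.length - r := by omega
    rw [this]
  rw [h2]
  have h3 := Finset.sum_range_succ' (fun r => ((-1 : ℂ) ^ r) • zv z (L.reverse.rotate r)) L.length
  have h4 := Finset.sum_range_succ (fun r => ((-1 : ℂ) ^ r) • zv z (L.reverse.rotate r)) L.length
  have h5 : L.reverse.rotate L.length = L.reverse := by
    have := List.rotate_length L.reverse
    rwa [List.length_reverse] at this
  rw [h4, h5, List.rotate_zero, he.neg_one_pow, pow_zero] at h3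
  rw [← add_right_cancel h3]
  simp

end alg

/-- EE2 -/
theorem mem_EE2 {A : Type} [CStarAlgebra A] {τ : A →ₗ[ℂ] ℂ} (h : TW τ) {Λ : Type} [Fintype Λ]
    (sd : Λ → Bool) (N : ℕ) (z : Λ → A)
    (hz : ∀ l, star (z l) = z l) (X : A) (hX : star X = X) :
    (fun L : Wd sd N => Complex.I * τ (X * Dl sd z L.1)) ∈ EE sd N := by
  intro L M
  refine ⟨fun hM => ?_, fun hM => ?_⟩
  · simp only
    rw [hM, EE2_Dl_rot]
  · simp only
    rw [hM]
    have h1 := EE2_star_Dl sd z hz L.1 L.2.1 L.2.2.1
    have h2 : Dl sd z L.1.reverse = -star (Dl sd z L.1) := by rw [h1, neg_neg]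
    have h3 : τ (X * star (Dl sd z L.1)) = conj (τ (X * Dl sd z L.1)) := by
      have h4 := h.conj (X * Dl sd z L.1)
      rw [star_mul, hX, h.comm] at h4
      exact h4
    rw [h2, mul_neg, map_neg, h3]
    have h5 : ∀ t : ℂ, Complex.I * -(conj t) = conj (Complex.I * t) := by
      intro t
      rw [RingHom.map_mul, Complex.conj_I]
      ring
    exact h5 _

end Pool.Agent.H30K
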