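import Mathlib
import Pool.Agent.H30R4.KI.Defs

/-! MP_64d6f1_an, task EE3: the gradient element is skew adjoint. -/

set_option autoImplicit false

open scoped ComplexOrder Topology BoundedContinuousFunction ComplexConjugate
open Filter

noncomputable section

namespace Pool.Agent.H30K

namespace EE3n

theorem star_zv {B : Type} [Ring B] [StarRing B] {Λ : Type} (z : Λ → B)
    (hz : ∀ l, star (z l) = z l) (L : List Λ) : star (zv z L) = zv z L.reverse := by
  unfold zv
  induction L with
  | nil => simp
  | cons l L ih =>
    rw [List.map_cons, List.prod_cons, star_mul, ih, hz, List.reverse_cons, List.map_append,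
      List.prod_append]
    simp

theorem alt_reverse {Λ : Type} {sd : Λ → Bool} {L : List Λ} (h : Alt sd L) :
    Alt sd L.reverse := by
  unfold Alt at *
  rw [List.isChain_reverse]
  exact h.imp fun a b hab => fun he => hab he.symm

/-- In an alternating list, the side of the last letter is determined by the parity. -/
theorem last_side {Λ : Type} {sd : Λ → Bool} : ∀ (L : List Λ) (hL : L ≠ []), Alt sd L →
    (sd (L.getLast hL) = sd (L.head hL) ↔ Odd L.length) := by
  intro L
  induction L with
  | nil => intro hL; exact absurd rfl hL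
  | cons a L ih =>
    intro hL hA
    cases L with
    | nil => simp
    | cons b L =>
      have h1 : Alt sd (b :: L) := by
        unfold Alt at *
        exact (List.isChain_cons_cons.1 hA).2
      have h2 : sd a ≠ sd b := by
        unfold Alt at hA
        exact (List.isChain_cons_cons.1 hA).1
      have h3 := ih (by simp) h1
      rw [List.getLast_cons (by simp : (b :: L) ≠ [])]
      rw [List.head_cons] at h3 ⊢
      have hlen : (a :: b :: L).length = (b :: L).length + 1 := rfl
      rw [hlen, Nat.odd_add_one]
      rw [← h3]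
      cases ha : sd a <;> cases hb : sd b <;> cases hl : sd ((b :: L).getLast (by simp)) <;>
        simp_all

theorem sg_reverse {Λ : Type} {sd : Λ → Bool} (L : List Λ) (hL : L ≠ []) (hA : Alt sd L)
    (he : Even L.length) : sg sd L.reverse = -sg sd L := by
  have h1 := last_side L hL hA
  have h2 : ¬ Odd L.length := Nat.not_odd_iff_even.2 he
  have h3 : sd (L.getLast hL) ≠ sd (L.head hL) := fun h => h2 (h1.1 h)
  have e1 : ∀ (M : List Λ) (hM : M ≠ []), sg sd M = if sd (M.head hM) = true then -1 else 1 := by
    intro M hM
    cases M with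
    | nil => exact absurd rfl hM
    | cons a M => rfl
  rw [e1 L.reverse (by simpa using hL), e1 L hL, List.head_reverse]
  cases ha : sd (L.getLast hL) <;> cases hb : sd (L.head hL) <;> simp_all

/-- Reversal of words. -/
def rv {Λ : Type} {sd : Λ → Bool} {N : ℕ} (L : Wd sd N) : Wd sd N :=
  ⟨L.1.reverse, alt_reverse L.2.1, by rw [List.length_reverse]; exact L.2.2.1,
    by simpa using L.2.2.2.1, by rw [List.length_reverse]; exact L.2.2.2.2⟩

theorem rv_rv {Λ : Type} {sd : Λ → Bool} {N : ℕ} (L : Wd sd N) : rv (rv L) = L := by
  apply Subtype.ext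
  exact List.reverse_reverse _

end EE3n

open EE3n in
/-- EE3 -/
theorem star_PP {B : Type} [Ring B] [StarRing B] [Algebra ℂ B] [StarModule ℂ B] {Λ : Type}
    [Fintype Λ] (sd : Λ → Bool) (N : ℕ) (z : Λ → B) (hz : ∀ l, star (z l) = z l)
    (t : Wd sd N → ℂ) (ht : t ∈ EE sd N) : star (PP sd z N t) = -PP sd z N t := by
  unfold PP
  rw [star_sum, ← Finset.sum_neg_distrib]
  refine Finset.sum_nbij' (fun L => rv L) (fun L => rv L) (fun _ _ => Finset.mem_univ _)
    (fun _ _ => Finset.mem_univ _) (fun L _ => rv_rv L) (fun L _ => rv_rv L) ?_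
  intro L _
  have h1 : t (rv L) = conj (t L) := (ht L (rv L)).2 rfl
  have h2 : (rv L).1.length = L.1.length := List.length_reverse
  have h3 : sg sd (rv L).1 = -sg sd L.1 := sg_reverse L.1 L.2.2.2.1 L.2.1 L.2.2.1
  have h4 : star (zv z L.1) = zv z (rv L).1 := star_zv z hz L.1
  rw [star_smul, h4, h1, h2, h3, ← neg_smul]
  congr 1
  simp only [Complex.star_def, map_mul, Complex.conj_conj, Complex.conj_ofReal]
  push_cast
  ring

end Pool.Agent.H30K
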