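import Mathlib

/-! # FCAL: functional calculus on the circle, natural in the algebra (helper781) -/

set_option autoImplicit false

open scoped ComplexOrder Topology BoundedContinuousFunction ComplexConjugate
open Filter

noncomputable section

namespace Pool.Agent.H30K

namespace FCAL

/-- the coordinate function -/
def Z : C(Circle, ℂ) := ⟨fun z => (z : ℂ), by fun_prop⟩

theorem dense (f : C(Circle, ℂ)) (θ : ℝ) (hθ : 0 < θ) :
    ∃ g ∈ Algebra.adjoin ℂ ({Z, star Z} : Set C(Circle, ℂ)), ‖f - g‖ ≤ θ := by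
  have h1 : (StarAlgebra.adjoin ℂ ({Z} : Set C(Circle, ℂ))).topologicalClosure = ⊤ := by
    refine ContinuousMap.starSubalgebra_topologicalClosure_eq_top_of_separatesPoints _ ?_
    intro x y hxy
    refine ⟨Z, ⟨Z, StarAlgebra.subset_adjoin ℂ _ (Set.mem_singleton _), rfl⟩, ?_⟩
    intro h
    exact hxy (Circle.ext h)
  have h2 : f ∈ (StarAlgebra.adjoin ℂ ({Z} : Set C(Circle, ℂ))).topologicalClosure := by
    rw [h1]; exact StarSubalgebra.mem_top
  have h3 : f ∈ closure ((StarAlgebra.adjoin ℂ ({Z} : Set C(Circle, ℂ))) : Set C(Circle, ℂ)) := h2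
  rw [Metric.mem_closure_iff] at h3
  obtain ⟨g, hg, hd⟩ := h3 θ hθ
  refine ⟨g, ?_, ?_⟩
  · have h4 : g ∈ (StarAlgebra.adjoin ℂ ({Z} : Set C(Circle, ℂ))).toSubalgebra := hg
    rw [StarAlgebra.adjoin_toSubalgebra] at h4
    have h5 : ({Z} : Set C(Circle, ℂ)) ∪ star {Z} = {Z, star Z} := by
      rw [Set.star_singleton]
      rfl
    rwa [h5] at h4
  · rw [← dist_eq_norm]; exact hd.le

variable {B : Type} [CStarAlgebra B]

/-- the spectrum of a unitary as a subset of the circle -/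
def ι (a : unitary B) : C(spectrum ℂ (a : B), Circle) where
  toFun z := ⟨z.1, by
    exact Unitary.spectrum_subset_circle (𝕜 := ℂ) a z.2⟩
  continuous_toFun := by fun_prop

theorem normal (a : unitary B) : IsStarNormal (a : B) := inferInstance

/-- the functional calculus -/
def Φ (a : unitary B) : C(Circle, ℂ) →⋆ₐ[ℂ] B :=
  (cfcHom (R := ℂ) (normal a)).comp (ContinuousMap.compStarAlgHom' ℂ ℂ (ι a))

theorem Φ_Z (a : unitary B) : Φ a Z = (a : B) := by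
  have h := cfcHom_id (R := ℂ) (normal a)
  refine Eq.trans ?_ h
  show cfcHom (R := ℂ) (normal a) _ = _
  congr 1

theorem Φ_mem (a : unitary B) {g : C(Circle, ℂ)}
    (hg : g ∈ Algebra.adjoin ℂ ({Z, star Z} : Set C(Circle, ℂ))) :
    Φ a g ∈ Algebra.adjoin ℂ ({(a : B), star (a : B)} : Set B) := by
  have h1 : Φ a g ∈ (Algebra.adjoin ℂ ({Z, star Z} : Set C(Circle, ℂ))).map
      ((Φ a : C(Circle, ℂ) →⋆ₐ[ℂ] B) : C(Circle, ℂ) →ₐ[ℂ] B) := ⟨g, hg, rfl⟩
  rw [AlgHom.map_adjoin, Set.image_pair] at h1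
  have e1 : ((Φ a : C(Circle, ℂ) →⋆ₐ[ℂ] B) : C(Circle, ℂ) →ₐ[ℂ] B) Z = (a : B) := Φ_Z a
  have e2 : ((Φ a : C(Circle, ℂ) →⋆ₐ[ℂ] B) : C(Circle, ℂ) →ₐ[ℂ] B) (star Z) = star (a : B) := by
    have : Φ a (star Z) = star (Φ a Z) := map_star (Φ a) Z
    rw [Φ_Z] at this
    exact this
  rw [e1, e2] at h1
  exact h1

theorem Φ_norm (a : unitary B) (f : C(Circle, ℂ)) : ‖Φ a f‖ ≤ ‖f‖ :=
  NonUnitalStarAlgHom.norm_apply_le (Φ a) f

/-- two star homomorphisms which agree on the coordinate function are equal -/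
theorem hom_ext {ψ ψ' : C(Circle, ℂ) →⋆ₐ[ℂ] B} (h : ψ Z = ψ' Z) (f : C(Circle, ℂ)) :
    ψ f = ψ' f := by
  have hs : ∀ g ∈ Algebra.adjoin ℂ ({Z, star Z} : Set C(Circle, ℂ)), ψ g = ψ' g := by
    intro g hg
    induction hg using Algebra.adjoin_induction with
    | mem x hx =>
      rcases hx with rfl | hx
      · exact h
      · rw [Set.mem_singleton_iff] at hx
        subst hx
        rw [map_star, map_star, h]
    | algebraMap r => rw [AlgHomClass.commutes, AlgHomClass.commutes]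
    | add x y _ _ hx hy => rw [map_add, map_add, hx, hy]
    | mul x y _ _ hx hy => rw [map_mul, map_mul, hx, hy]
  rw [← sub_eq_zero, ← norm_le_zero_iff]
  refine le_of_forall_pos_le_add fun θ hθ => ?_
  obtain ⟨g, hg, hd⟩ := dense f (θ / 2) (by positivity)
  have e : ψ f - ψ' f = ψ (f - g) - ψ' (f - g) := by
    rw [map_sub, map_sub, hs g hg]; abel
  rw [e]
  calc ‖ψ (f - g) - ψ' (f - g)‖ ≤ ‖ψ (f - g)‖ + ‖ψ' (f - g)‖ := norm_sub_le _ _
    _ ≤ ‖f - g‖ + ‖f - g‖ := add_le_add (NonUnitalStarAlgHom.norm_apply_le ψ _)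
        (NonUnitalStarAlgHom.norm_apply_le ψ' _)
    _ ≤ 0 + θ := by linarith

end FCAL

open FCAL in
/-- FCAL -/
theorem fcal : ∃ Φ : ∀ (B : Type) [CStarAlgebra B], unitary B → (C(Circle, ℂ) →⋆ₐ[ℂ] B),
    (∀ (B : Type) [CStarAlgebra B] (a : unitary B),
      Φ B a ⟨fun z => (z : ℂ), by fun_prop⟩ = (a : B)) ∧
    (∀ (B : Type) [CStarAlgebra B] (a : unitary B) (f : C(Circle, ℂ)), ‖Φ B a f‖ ≤ ‖f‖) ∧
    (∀ (B : Type) [CStarAlgebra B] (a : unitary B) (f : C(Circle, ℂ)) (θ : ℝ), 0 < θ →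
      ∃ y ∈ Algebra.adjoin ℂ ({(a : B), star (a : B)} : Set B), ‖Φ B a f - y‖ ≤ θ) ∧
    (∀ (B B' : Type) [CStarAlgebra B] [CStarAlgebra B'] (π : B →⋆ₐ[ℂ] B') (a : unitary B)
      (a' : unitary B'), π (a : B) = (a' : B') → ∀ f, π (Φ B a f) = Φ B' a' f) := by
  refine ⟨fun B _ a => FCAL.Φ a, fun B _ a => Φ_Z a, fun B _ a f => Φ_norm a f, ?_, ?_⟩
  · intro B _ a f θ hθ
    obtain ⟨g, hg, hd⟩ := dense f θ hθ
    refine ⟨FCAL.Φ a g, Φ_mem a hg, ?_⟩
    rw [← map_sub]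
    exact (Φ_norm a _).trans hd
  · intro B B' _ _ π a a' h f
    refine hom_ext (ψ := π.comp (FCAL.Φ a)) (ψ' := FCAL.Φ a') ?_ f
    show π (FCAL.Φ a Z) = FCAL.Φ a' Z
    rw [Φ_Z, Φ_Z, h]

end Pool.Agent.H30K
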