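import Mathlib
import Pool.Agent.H30R4.KI.Defs
import Pool.Agent.Helper467.FP.P_tau_bounds

/-!
MP_64d6f1_an, task FSEQ: a symmetry in the bounded sequences that is free from a countably
generated algebra of bounded sequences.
-/

set_option autoImplicit false

open scoped ComplexOrder Topology BoundedContinuousFunction ComplexConjugate
open Filter

noncomputable section

namespace Pool.Agent.H30K

open Pool.Agent.H467F (TW)

section lin

variable {B : Type} [Ring B] [Algebra ℂ B]

/-- The words with inner letters in `T` and last letter in `X`. -/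
def fsW (s : B) (T X : Set B) : Set B :=
  {w | ∃ (K : List B) (x : B), (∀ t ∈ K, t ∈ T) ∧ x ∈ X ∧ w = (K.map fun t => s * t).prod * (s * x)}

omit [Algebra ℂ B] in
theorem fs_cons (s : B) (T X : Set B) (t w : B) (ht : t ∈ T) (hw : w ∈ fsW s T X) :
    s * t * w ∈ fsW s T X := by
  obtain ⟨K, x, hK, hx, rfl⟩ := hw
  refine ⟨t :: K, x, ?_, hx, ?_⟩
  · intro u hu
    rcases List.mem_cons.1 hu with rfl | hu
    · exact ht
    · exact hK u hu
  · rw [List.map_cons, List.prod_cons]
    noncomm_ring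

theorem fs_cons_span (s : B) (T X : Set B) (t w : B) (ht : t ∈ Submodule.span ℂ T)
    (hw : w ∈ Submodule.span ℂ (fsW s T X)) : s * t * w ∈ Submodule.span ℂ (fsW s T X) := by
  induction ht using Submodule.span_induction with
  | mem t ht =>
    induction hw using Submodule.span_induction with
    | mem w hw => exact Submodule.subset_span (fs_cons s T X t w ht hw)
    | zero => rw [mul_zero]; exact Submodule.zero_mem _
    | add a b _ _ ha hb => rw [mul_add]; exact Submodule.add_mem _ ha hb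
    | smul c a _ ha => rw [mul_smul_comm]; exact Submodule.smul_mem _ _ ha
  | zero => rw [mul_zero, zero_mul]; exact Submodule.zero_mem _
  | add a b _ _ ha hb => rw [mul_add, add_mul]; exact Submodule.add_mem _ ha hb
  | smul c a _ ha => rw [mul_smul_comm, smul_mul_assoc]; exact Submodule.smul_mem _ _ ha

theorem fs_word_span (s : B) (T X : Set B) (E : List B) (e : B)
    (hE : ∀ t ∈ E, t ∈ Submodule.span ℂ T) (he : e ∈ Submodule.span ℂ X) :
    (E.map fun t => s * t).prod * (s * e) ∈ Submodule.span ℂ (fsW s T X) := by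
  induction E with
  | nil =>
    rw [List.map_nil, List.prod_nil, one_mul]
    induction he using Submodule.span_induction with
    | mem w hw => exact Submodule.subset_span ⟨[], w, by simp, hw, by simp⟩
    | zero => rw [mul_zero]; exact Submodule.zero_mem _
    | add a b _ _ ha hb => rw [mul_add]; exact Submodule.add_mem _ ha hb
    | smul c a _ ha => rw [mul_smul_comm]; exact Submodule.smul_mem _ _ ha
  | cons t E ih =>
    rw [List.map_cons, List.prod_cons, mul_assoc]
    exact fs_cons_span s T X t _ (hE t (by simp)) (ih fun u hu => hE u (by simp [hu]))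

theorem fs_zero (φ : B →ₗ[ℂ] ℂ) (s : B) (T X : Set B)
    (H : ∀ x ∈ X, ∀ w ∈ fsW s T X, φ (x * w) = 0) (x w : B) (hx : x ∈ Submodule.span ℂ X)
    (hw : w ∈ Submodule.span ℂ (fsW s T X)) : φ (x * w) = 0 := by
  induction hx using Submodule.span_induction with
  | mem x hx =>
    induction hw using Submodule.span_induction with
    | mem w hw => exact H x hx w hw
    | zero => rw [mul_zero, map_zero]
    | add a b _ _ ha hb => rw [mul_add, map_add, ha, hb, add_zero]
    | smul c a _ ha => rw [mul_smul_comm, map_smul, ha, smul_zero]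
  | zero => rw [zero_mul, map_zero]
  | add a b _ _ ha hb => rw [add_mul, map_add, ha, hb, add_zero]
  | smul c a _ ha => rw [smul_mul_assoc, map_smul, ha, smul_zero]

theorem fs_centered (φ : B →ₗ[ℂ] ℂ) (X : Set B) (e : B) (he : e ∈ Submodule.span ℂ X)
    (h0 : φ e = 0) : e ∈ Submodule.span ℂ ((fun x => x - φ x • (1 : B)) '' X) := by
  have h1 : ∀ e ∈ Submodule.span ℂ X,
      e - φ e • (1 : B) ∈ Submodule.span ℂ ((fun x => x - φ x • (1 : B)) '' X) := by
    intro e he
    induction he using Submodule.span_induction with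
    | mem w hw => exact Submodule.subset_span ⟨w, hw, rfl⟩
    | zero => simp
    | add a b _ _ ha hb =>
      have : a + b - φ (a + b) • (1 : B) = (a - φ a • (1 : B)) + (b - φ b • (1 : B)) := by
        rw [map_add, add_smul]; abel
      rw [this]
      exact Submodule.add_mem _ ha hb
    | smul c a _ ha =>
      have : c • a - φ (c • a) • (1 : B) = c • (a - φ a • (1 : B)) := by
        rw [map_smul, smul_eq_mul, mul_smul, smul_sub]
      rw [this]
      exact Submodule.smul_mem _ _ ha
  have h2 := h1 e he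
  rw [h0, zero_smul, sub_zero] at h2
  exact h2

theorem fs_free (φ : B →ₗ[ℂ] ℂ) (s : B) (x : ℕ → B) (C : Subalgebra ℂ B)
    (hC : Subalgebra.toSubmodule C = Submodule.span ℂ (Set.range x))
    (H : ∀ (k0 : ℕ) (K : List ℕ) (kr : ℕ),
      φ (x k0 * ((K.map fun k => s * (x k - φ (x k) • (1 : B))).prod * (s * x kr))) = 0) :
    FreeOver φ s C := by
  intro e0 L he0 hL hne hin
  have hm : ∀ e, e ∈ C ↔ e ∈ Submodule.span ℂ (Set.range x) := by
    intro e
    rw [← hC]; rfl
  have h1 : (L.map fun e => s * e).prod =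
      (L.dropLast.map fun e => s * e).prod * (s * L.getLast hne) := by
    conv_lhs => rw [← List.dropLast_append_getLast hne]
    rw [List.map_append, List.prod_append]
    simp
  rw [h1]
  set T : Set B := (fun y => y - φ y • (1 : B)) '' Set.range x with hT
  refine fs_zero φ s T (Set.range x) ?_ _ _ ((hm e0).1 he0) ?_
  · rintro _ ⟨k0, rfl⟩ _ ⟨K, _, hK, ⟨kr, rfl⟩, rfl⟩
    have h2 : ∃ K' : List ℕ, K = K'.map fun k => x k - φ (x k) • (1 : B) := by
      clear hm h1
      induction K with
      | nil => exact ⟨[], rfl⟩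
      | cons t K ih =>
        obtain ⟨K', hK'⟩ := ih fun u hu => hK u (by simp [hu])
        obtain ⟨_, ⟨k, rfl⟩, hk⟩ := hK t (by simp)
        exact ⟨k :: K', by rw [List.map_cons, ← hK', ← hk]⟩
    obtain ⟨K', rfl⟩ := h2
    have h3 := H k0 K' kr
    rw [List.map_map]
    exact h3
  · refine fs_word_span s T (Set.range x) _ _ ?_ ((hm _).1 (hL _ (List.getLast_mem hne)))
    intro t ht
    exact fs_centered φ _ t ((hm t).1 (hL t (List.dropLast_subset L ht))) (hin t ht)

end lin

variable {A : Type} [CStarAlgebra A] {τ : A →ₗ[ℂ] ℂ}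

/-- The free symmetries with arbitrary finite families. -/
theorem fs_fin (hS : FreeSym τ) (J : Type) [Fintype J] (y : J → A) (D : ℕ) (δ : ℝ) (hδ : 0 < δ) :
    ∃ s : A, star s = s ∧ s * s = 1 ∧
      ∀ (j0 : J) (L : List J), L ≠ [] → L.length ≤ D → (∀ j ∈ L.dropLast, τ (y j) = 0) →
        ‖τ (y j0 * (L.map fun j => s * y j).prod)‖ ≤ δ := by
  set C : ℝ := 1 + ∑ j, ‖y j‖ with hC
  have hs0 : 0 ≤ ∑ j, ‖y j‖ := Finset.sum_nonneg fun j _ => norm_nonneg _
  have hC1 : 1 ≤ C := by linarith
  have hC0 : 0 < C := by linarith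
  have hyC : ∀ j, ‖y j‖ ≤ C := by
    intro j
    have := Finset.single_le_sum (f := fun j => ‖y j‖) (fun j _ => norm_nonneg _)
      (Finset.mem_univ j)
    linarith
  obtain ⟨s, h1, h2, h3⟩ := hS J (fun j => ((C⁻¹ : ℝ) : ℂ) • y j) (by
    intro j
    rw [norm_smul, Complex.norm_real, Real.norm_of_nonneg (inv_nonneg.2 hC0.le)]
    rw [inv_mul_le_iff₀ hC0, mul_one]
    exact hyC j) D (δ / C ^ (D + 1)) (by positivity)
  refine ⟨s, h1, h2, ?_⟩
  intro j0 L hne hD hin
  have h4 := h3 j0 L hne hD (fun j hj => by rw [map_smul, hin j hj, smul_zero])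
  have h5 : ∀ L : List J, (L.map fun j => s * ((C⁻¹ : ℝ) : ℂ) • y j).prod =
      (((C⁻¹ : ℝ) : ℂ) ^ L.length) • (L.map fun j => s * y j).prod := by
    intro L
    induction L with
    | nil => simp
    | cons j L ih =>
      rw [List.map_cons, List.prod_cons, ih, List.map_cons, List.prod_cons, List.length_cons,
        mul_smul_comm, mul_smul_comm _ s, smul_mul_assoc, smul_smul, pow_succ]
  rw [h5, smul_mul_assoc, mul_smul_comm, smul_smul, map_smul, smul_eq_mul, norm_mul,
    ← pow_succ', norm_pow, Complex.norm_real, Real.norm_of_nonneg (inv_nonneg.2 hC0.le)] at h4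
  rw [inv_pow, inv_mul_le_iff₀ (by positivity)] at h4
  refine h4.trans ?_
  have h6 : C ^ (L.length + 1) ≤ C ^ (D + 1) := pow_le_pow_right₀ hC1 (by omega)
  calc C ^ (L.length + 1) * (δ / C ^ (D + 1)) ≤ C ^ (D + 1) * (δ / C ^ (D + 1)) := by gcongr
    _ = δ := by field_simp

/-- The sequence of the values of the trace. -/
def fsc (h : TW τ) (x : ℕ →ᵇ A) : ℕ →ᵇ A :=
  BoundedContinuousFunction.ofNormedAddCommGroupDiscrete (fun n => τ (x n) • (1 : A))
    (‖x‖ * ‖(1 : A)‖) (fun n => by
      rw [norm_smul]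
      gcongr
      exact (((Pool.Agent.H467F.tau_bounds h).1 _).trans
        ((Pool.Agent.H467F.tau_bounds h).2 _)).trans (x.norm_coe_le_norm n))

theorem fsc_apply (h : TW τ) (x : ℕ →ᵇ A) (n : ℕ) : fsc h x n = τ (x n) • (1 : A) := rfl

theorem fs_mid (h : TW τ) (U : Ultrafilter ℕ) (φ : (ℕ →ᵇ A) →ₗ[ℂ] ℂ) (hφ : ULim τ U φ)
    (x a b : ℕ →ᵇ A) : φ (a * (fsc h x - φ x • (1 : ℕ →ᵇ A)) * b) = 0 := by
  have h1 := hφ.lim (a * (fsc h x - φ x • (1 : ℕ →ᵇ A)) * b)
  have h2 : (fun n => τ ((a * (fsc h x - φ x • (1 : ℕ →ᵇ A)) * b) n)) =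
      fun n => (τ (x n) - φ x) * τ ((a * b) n) := by
    funext n
    have : (a * (fsc h x - φ x • (1 : ℕ →ᵇ A)) * b) n = (τ (x n) - φ x) • ((a * b) n) := by
      change a n * (fsc h x n - φ x • (1 : A)) * b n = _
      rw [fsc_apply, ← sub_smul, mul_smul_comm, smul_mul_assoc, mul_one]
      rfl
    rw [this, map_smul, smul_eq_mul]
  rw [h2] at h1
  have h3 : Tendsto (fun n => (τ (x n) - φ x) * τ ((a * b) n)) U (𝓝 ((φ x - φ x) * φ (a * b))) :=
    ((hφ.lim x).sub_const _).mul (hφ.lim (a * b))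
  rw [sub_self, zero_mul] at h3
  exact tendsto_nhds_unique h1 h3

theorem fs_swap (h : TW τ) (U : Ultrafilter ℕ) (φ : (ℕ →ᵇ A) →ₗ[ℂ] ℂ) (hφ : ULim τ U φ)
    (s : ℕ →ᵇ A) (x : ℕ → (ℕ →ᵇ A)) (K : List ℕ) : ∀ a b : ℕ →ᵇ A,
    φ (a * (K.map fun k => s * (x k - φ (x k) • (1 : ℕ →ᵇ A))).prod * b) =
      φ (a * (K.map fun k => s * (x k - fsc h (x k))).prod * b) := by
  induction K with
  | nil => intro a b; rfl
  | cons k K ih =>
    intro a b
    rw [List.map_cons, List.prod_cons, List.map_cons, List.prod_cons]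
    have h1 := ih (a * (s * (x k - φ (x k) • (1 : ℕ →ᵇ A)))) b
    have h2 := fs_mid h U φ hφ (x k) (a * s)
      ((K.map fun k => s * (x k - fsc h (x k))).prod * b)
    have h3 : a * (s * (x k - φ (x k) • (1 : ℕ →ᵇ A)) *
        (K.map fun k => s * (x k - φ (x k) • (1 : ℕ →ᵇ A))).prod) * b =
        a * (s * (x k - φ (x k) • (1 : ℕ →ᵇ A))) *
        (K.map fun k => s * (x k - φ (x k) • (1 : ℕ →ᵇ A))).prod * b := by
      simp only [mul_assoc]
    rw [h3, h1, ← sub_eq_zero, ← map_sub, ← h2]
    congr 1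
    noncomm_ring

theorem fs_atTop (U : Ultrafilter ℕ) (hU : ∀ n, {n} ∉ U) : (U : Filter ℕ) ≤ atTop := by
  rw [← Nat.cofinite_eq_atTop]
  rcases U.le_cofinite_or_eq_pure with h | ⟨n, hn⟩
  · exact h
  · exact absurd (by rw [hn]; exact Filter.mem_pure.2 rfl) (hU n)

/-- FSEQ -/
theorem freeSeq (h : TW τ) (hS : FreeSym τ) (U : Ultrafilter ℕ) (hU : ∀ n, {n} ∉ U)
    (φ : (ℕ →ᵇ A) →ₗ[ℂ] ℂ) (hφ : ULim τ U φ) {Λ : Type} [Countable Λ] (z : Λ → (ℕ →ᵇ A)) :
    ∃ s : ℕ →ᵇ A, star s = s ∧ s * s = 1 ∧ FreeOver φ s (Algebra.adjoin ℂ (Set.range z)) := by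
  -- the words
  have hcount : ((Submonoid.closure (Set.range z) : Submonoid (ℕ →ᵇ A)) :
      Set (ℕ →ᵇ A)).Countable := by
    rw [Submonoid.closure_eq_image_prod, ← Set.range_list_map]
    exact (Set.countable_range _).image _
  obtain ⟨x, hx⟩ := hcount.exists_eq_range ⟨1, Submonoid.one_mem _⟩
  have hC : Subalgebra.toSubmodule (Algebra.adjoin ℂ (Set.range z)) =
      Submodule.span ℂ (Set.range x) := by
    rw [Algebra.adjoin_eq_span, hx]
  -- the symmetries
  have hfin : ∀ n : ℕ, ∃ s : A, star s = s ∧ s * s = 1 ∧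
      ∀ (j0 : Fin n × Bool) (L : List (Fin n × Bool)), L ≠ [] → L.length ≤ n →
        (∀ j ∈ L.dropLast, τ (if j.2 = true then x j.1 n - fsc h (x j.1) n else x j.1 n) = 0) →
        ‖τ ((if j0.2 = true then x j0.1 n - fsc h (x j0.1) n else x j0.1 n) *
          (L.map fun j => s * (if j.2 = true then x j.1 n - fsc h (x j.1) n
            else x j.1 n)).prod)‖ ≤ 1 / ((n : ℝ) + 1) := fun n =>
    fs_fin hS (Fin n × Bool)
      (fun j => if j.2 = true then x j.1 n - fsc h (x j.1) n else x j.1 n) n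
      (1 / ((n : ℝ) + 1)) (by positivity)
  choose s0 hs1 hs2 hs3 using hfin
  have hn1 : ∀ n, ‖s0 n‖ ≤ 1 := by
    intro n
    by_contra hlt
    push Not at hlt
    have h1 : ‖s0 n‖ * ‖s0 n‖ = ‖(1 : A)‖ := by
      rw [← CStarRing.norm_star_mul_self, hs1, hs2]
    have h2 : ‖(1 : A)‖ ≤ 1 := by
      rcases subsingleton_or_nontrivial A with hA | hA
      · rw [Subsingleton.elim (1 : A) 0, norm_zero]; norm_num
      · rw [CStarRing.norm_one]
    nlinarith
  set s : ℕ →ᵇ A := BoundedContinuousFunction.ofNormedAddCommGroupDiscrete s0 1 hn1 with hs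
  have hsn : ∀ n, s n = s0 n := fun n => rfl
  refine ⟨s, ?_, ?_, ?_⟩
  · ext n
    exact hs1 n
  · ext n
    exact hs2 n
  · refine fs_free φ s x _ hC ?_
    intro k0 K kr
    have h1 := fs_swap h U φ hφ s x K (x k0) (s * x kr)
    rw [← mul_assoc, h1]
    have h2 := hφ.lim (x k0 * (K.map fun k => s * (x k - fsc h (x k))).prod * (s * x kr))
    refine tendsto_nhds_unique h2 ?_
    have h3 : Tendsto (fun n : ℕ => 1 / ((n : ℝ) + 1)) U (𝓝 0) :=
      tendsto_one_div_add_atTop_nhds_zero_nat.mono_left (fs_atTop U hU)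
    refine squeeze_zero_norm' ?_ h3
    -- eventually
    have h4 : ∀ᶠ n in (U : Filter ℕ), K.length + 1 ≤ n ∧ k0 < n ∧ kr < n ∧ ∀ k ∈ K, k < n := by
      refine (fs_atTop U hU) ?_
      have h5 : ∀ k ∈ K, k ≤ K.sum := fun k hk => List.le_sum_of_mem hk
      filter_upwards [eventually_ge_atTop (K.length + 1), eventually_gt_atTop k0,
        eventually_gt_atTop kr, eventually_gt_atTop K.sum] with n a1 a2 a3 a4
      exact ⟨a1, a2, a3, fun k hk => lt_of_le_of_lt (h5 k hk) a4⟩
    filter_upwards [h4] with n hn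
    obtain ⟨a1, a2, a3, a4⟩ := hn
    -- the list of indices
    have h6 : ∃ L : List (Fin n × Bool), L.length = K.length ∧ (∀ j ∈ L, j.2 = true) ∧
        (K.map fun k => s * (x k - fsc h (x k))).prod n =
        (L.map fun j => s0 n * (if j.2 = true then x j.1 n - fsc h (x j.1) n
            else x j.1 n)).prod := by
      clear h1 h2 a1
      induction K with
      | nil => exact ⟨[], rfl, by simp, rfl⟩
      | cons k K ih =>
        obtain ⟨L, b1, b2, b3⟩ := ih (by
          filter_upwards [h4] with m hm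
          refine ⟨?_, hm.2.1, hm.2.2.1, fun k hk => hm.2.2.2 k (by simp [hk])⟩
          have := hm.1
          simp only [List.length_cons] at this
          omega) (fun u hu => a4 u (by simp [hu]))
        refine ⟨(⟨k, a4 k (by simp)⟩, true) :: L, by simp [b1], ?_, ?_⟩
        · intro j hj
          rcases List.mem_cons.1 hj with rfl | hj
          · rfl
          · exact b2 j hj
        · rw [List.map_cons, List.prod_cons, List.map_cons, List.prod_cons, ← b3]
          simp only [if_true]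
          rfl
    obtain ⟨L, b1, b2, b3⟩ := h6
    have h7 := hs3 n (⟨k0, a2⟩, false) (L ++ [(⟨kr, a3⟩, false)]) (by simp) (by
      rw [List.length_append, b1]; simpa using a1) (by
      intro j hj
      rw [List.dropLast_concat] at hj
      rw [if_pos (b2 j hj), fsc_apply, map_sub, map_smul, h.one, smul_eq_mul, mul_one, sub_self])
    rw [List.map_append, List.prod_append, ← b3] at h7
    simp only [Bool.false_eq_true, if_false, List.map_cons, List.map_nil, List.prod_cons,
      List.prod_nil, mul_one] at h7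
    have h8 : (x k0 * (K.map fun k => s * (x k - fsc h (x k))).prod * (s * x kr)) n =
        x k0 n * ((K.map fun k => s * (x k - fsc h (x k))).prod n * (s0 n * x kr n)) := by
      rw [← mul_assoc (x k0 n)]
      rfl
    rw [h8]
    exact h7

end Pool.Agent.H30K
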