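import Mathlib
import Pool.Agent.H30R4.KI.Defs

/-!
MP_64d6f1_an, task KIND: `k`-independence of finite spectrum elements from the vanishing of the
alternating words.
-/

set_option autoImplicit false

open scoped ComplexOrder Topology BoundedContinuousFunction ComplexConjugate
open Filter

noncomputable section

namespace Pool.Agent.H30K

open Pool.Agent.H467F (TW)
open Pool.Agent.Helper278 (TrAlg wstar AltProducts centered KIndep)

variable {A : Type} [CStarAlgebra A] {τ : A →ₗ[ℂ] ℂ}

namespace KIND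

/-- The star algebra generated by a combination of the projections of one side. -/
theorem mem_span {Λ : Type} [Fintype Λ] (sd : Λ → Bool) (p : Λ → A) (hp : PV2 sd p) (c : Λ → ℂ)
    (b : Bool) (x : A)
    (hx : x ∈ StarAlgebra.adjoin ℂ ({∑ l : {l : Λ // sd l = b}, c l.1 • p l.1} : Set A)) :
    ∃ d : {l : Λ // sd l = b} → ℂ, x = ∑ l, d l • p l.1 := by
  classical
  induction hx using StarAlgebra.adjoin_induction with
  | mem x hx => exact ⟨fun l => c l.1, hx⟩
  | algebraMap r =>
    refine ⟨fun _ => r, ?_⟩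
    rw [← Finset.smul_sum, hp.sum, Algebra.algebraMap_eq_smul_one]
  | add x y _ _ hx hy =>
    obtain ⟨d, rfl⟩ := hx
    obtain ⟨d', rfl⟩ := hy
    exact ⟨fun i => d i + d' i, by simp [add_smul, Finset.sum_add_distrib]⟩
  | mul x y _ _ hx hy =>
    obtain ⟨d, rfl⟩ := hx
    obtain ⟨d', rfl⟩ := hy
    refine ⟨fun i => d i * d' i, ?_⟩
    rw [Finset.sum_mul_sum]
    refine Finset.sum_congr rfl fun i _ => ?_
    rw [Finset.sum_eq_single i]
    · rw [smul_mul_smul_comm, hp.idem]
    · intro j _ hj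
      rw [smul_mul_smul_comm, hp.orth i.1 j.1 (fun h => hj (Subtype.ext h.symm))
        (i.2.trans j.2.symm), smul_zero]
    · intro hi
      exact absurd (Finset.mem_univ i) hi
  | star x _ hx =>
    obtain ⟨d, rfl⟩ := hx
    refine ⟨fun i => star (d i), ?_⟩
    rw [star_sum]
    refine Finset.sum_congr rfl fun i _ => ?_
    rw [star_smul, hp.star_eq]

/-- The functional `x ↦ τ(y (x - E x))`. -/
def FF (τ : A →ₗ[ℂ] ℂ) {ι : Type} [Fintype ι] (q : ι → A) (y : A) : A →ₗ[ℂ] ℂ :=
  τ ∘ₗ LinearMap.mulLeft ℂ y - ∑ l, ((τ (q l))⁻¹ * τ (y * q l)) • (τ ∘ₗ LinearMap.mulRight ℂ (q l))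

theorem FF_apply {ι : Type} [Fintype ι] (q : ι → A) (y x : A) :
    FF τ q y x = τ (y * (x - ∑ l, ((τ (q l))⁻¹ * τ (x * q l)) • q l)) := by
  simp only [FF, LinearMap.sub_apply, LinearMap.comp_apply, LinearMap.mulLeft_apply,
    LinearMap.sum_apply, LinearMap.smul_apply, LinearMap.mulRight_apply, mul_sub, map_sub,
    Finset.mul_sum, map_sum, mul_smul_comm, map_smul, smul_eq_mul]
  congr 1
  refine Finset.sum_congr rfl fun l _ => ?_
  ring

theorem FF_bound (h : TrAlg τ) {ι : Type} [Fintype ι] (q : ι → A) (y x : A) :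
    ‖FF τ q y x‖ ≤ (Pool.Agent.Helper278.n2 τ y +
      ∑ l, ‖(τ (q l))⁻¹ * τ (y * q l)‖ * Pool.Agent.Helper278.n2 τ (q l)) *
        Pool.Agent.Helper278.n2 τ x := by
  simp only [FF, LinearMap.sub_apply, LinearMap.comp_apply, LinearMap.mulLeft_apply,
    LinearMap.sum_apply, LinearMap.smul_apply, LinearMap.mulRight_apply, smul_eq_mul]
  refine (norm_sub_le _ _).trans ?_
  rw [add_mul]
  refine add_le_add (h.cauchy' y x) ?_
  refine (norm_sum_le _ _).trans ?_
  rw [Finset.sum_mul]
  refine Finset.sum_le_sum fun l _ => ?_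
  rw [norm_mul, mul_assoc]
  refine mul_le_mul_of_nonneg_left ?_ (norm_nonneg _)
  rw [mul_comm]
  exact h.cauchy' x (q l)

/-- `W*(a)` is the span of the projections. -/
theorem wstar_sub (h : TrAlg τ) {Λ : Type} [Fintype Λ] (sd : Λ → Bool) (p : Λ → A)
    (hp : PV2 sd p) (c : Λ → ℂ) (b : Bool) (x : A)
    (hx : x ∈ wstar τ (∑ l : {l : Λ // sd l = b}, c l.1 • p l.1)) :
    x ∈ spn sd p b := by
  classical
  set q : {l : Λ // sd l = b} → A := fun l => p l.1 with hq
  have hq0 : ∀ l, τ (q l) = 0 → q l = 0 := by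
    intro l h0
    apply h.faithful
    rw [hp.star_eq, hp.idem]
    exact h0
  have key : ∀ y, FF τ q y x = 0 := by
    intro y
    refine Pool.Agent.Helper278.wstar_vanish (τ := τ) _ (FF τ q y) _ ?_ (FF_bound h q y) ?_ x hx
    · have : ∀ l, 0 ≤ ‖(τ (q l))⁻¹ * τ (y * q l)‖ * Pool.Agent.Helper278.n2 τ (q l) := fun l =>
        mul_nonneg (norm_nonneg _) (Pool.Agent.Helper278.n2_nonneg _ _)
      exact add_nonneg (Pool.Agent.Helper278.n2_nonneg _ _) (Finset.sum_nonneg fun l _ => this l)
    · intro z hz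
      obtain ⟨d, rfl⟩ := mem_span sd p hp c b z hz
      rw [FF_apply]
      have e : ∀ l : {l : Λ // sd l = b}, (∑ m, d m • p m.1) * q l = d l • q l := by
        intro l
        rw [Finset.sum_mul, Finset.sum_eq_single l]
        · rw [smul_mul_assoc, hp.idem]
        · intro m _ hm
          rw [smul_mul_assoc, hp.orth m.1 l.1 (fun h => hm (Subtype.ext h))
            (m.2.trans l.2.symm), smul_zero]
        · intro hl
          exact absurd (Finset.mem_univ l) hl
      have e2 : ∀ l : {l : Λ // sd l = b},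
          ((τ (q l))⁻¹ * τ ((∑ m, d m • p m.1) * q l)) • q l = d l • p l.1 := by
        intro l
        rw [e l, map_smul, smul_eq_mul]
        by_cases h0 : τ (q l) = 0
        · have h1 := hq0 l h0
          have h2 : p l.1 = 0 := h1
          rw [h1, h2, smul_zero, smul_zero]
        · rw [mul_comm (d l), inv_mul_cancel_left₀ h0]
      rw [Finset.sum_congr rfl fun l _ => e2 l, sub_self, mul_zero, map_zero]
  have h1 := key (star (x - ∑ l, ((τ (q l))⁻¹ * τ (x * q l)) • q l))
  rw [FF_apply] at h1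
  have h2 := h.faithful _ h1
  rw [sub_eq_zero] at h2
  rw [h2]
  refine Subalgebra.sum_mem _ fun l _ => Subalgebra.smul_mem _ ?_ _
  exact Algebra.subset_adjoin ⟨l.1, l.2, rfl⟩

/-- Alternating products are products of alternating lists. -/
theorem alt_list (S : Bool → Set A) : ∀ (k : ℕ) (b : Bool) (w : A),
    w ∈ AltProducts (S b) (S (!b)) k → ∃ L : List (Bool × A), L.length = k ∧
      (∀ x ∈ L.head?, x.1 = b) ∧ L.IsChain (fun x y => x.1 ≠ y.1) ∧ (∀ x ∈ L, x.2 ∈ S x.1) ∧
      w = (L.map Prod.snd).prod := by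
  intro k
  induction k with
  | zero =>
    intro b w hw
    refine ⟨[], rfl, by simp, List.isChain_nil, by simp, ?_⟩
    simpa [AltProducts] using hw
  | succ k ih =>
    intro b w hw
    obtain ⟨x, hx, y, hy, rfl⟩ := hw
    have hy' : y ∈ AltProducts (S (!b)) (S (!(!b))) k := by rwa [Bool.not_not]
    obtain ⟨L, hL1, hL2, hL3, hL4, hL5⟩ := ih (!b) y hy'
    refine ⟨(b, x) :: L, by simp [hL1], by simp, ?_, ?_, by simp [hL5]⟩
    · rw [List.isChain_cons]
      refine ⟨?_, hL3⟩
      intro z hz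
      have := hL2 z hz
      simp [this]
    · intro z hz
      rcases List.mem_cons.1 hz with rfl | hz
      · exact hx
      · exact hL4 z hz

end KIND

open KIND in
/-- KIND -/
theorem kindep_of_kis (h : TW τ) {Λ : Type} [Fintype Λ] (sd : Λ → Bool) (p : Λ → A)
    (hp : PV2 sd p) (N : ℕ) (hK : KIS τ (spn sd p) N) (c : Λ → ℂ) (a : Bool → A)
    (ha : ∀ b, a b = ∑ l : {l : Λ // sd l = b}, c l.1 • p l.1) :
    ∀ j, 1 ≤ j → j ≤ N → Pool.Agent.Helper278.KIndep τ j (a true) (a false) := by
  have hT : TrAlg τ := ⟨h.one, h.comm, h.nonneg, h.conj, h.faithful⟩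
  intro j hj1 hjN w hw
  have main : ∀ b : Bool, w ∈ AltProducts (centered τ (a b)) (centered τ (a (!b))) j → τ w = 0 := by
    intro b hw
    obtain ⟨L, hL1, -, hL3, hL4, rfl⟩ := alt_list (fun b => centered τ (a b)) j b w hw
    refine hK L ?_ (by omega) hL3 ?_
    · rintro rfl
      simp at hL1
      omega
    · intro x hx
      have h1 := hL4 x hx
      refine ⟨?_, h1.2⟩
      have h2 := h1.1
      rw [ha x.1] at h2
      exact wstar_sub hT sd p hp c x.1 x.2 h2
  rcases hw with hw | hw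
  · exact main true hw
  · exact main false hw

end Pool.Agent.H30K
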