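import Pool.Agent.H30R4.KI.Defs

/-! Task KLIM of h30k_tasks (helper401): independence passes to 2-norm limits. -/

set_option autoImplicit false

open scoped ComplexOrder Topology BoundedContinuousFunction ComplexConjugate
open Filter

noncomputable section

namespace Pool.Agent.H30K

open Pool.Agent.H467F (TW n2 Cl)
open Pool.Agent.H735G (NoAbA SepT)

variable {A : Type} [CStarAlgebra A] {τ : A →ₗ[ℂ] ℂ}

namespace KLIMaux

theorem n2_sub_comm' {U : Ultrafilter ℕ} {φ : (ℕ →ᵇ A) →ₗ[ℂ] ℂ} (hφ : ULim τ U φ)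
    (x y : ℕ →ᵇ A) : n2 φ (x - y) = n2 φ (y - x) := by
  unfold Pool.Agent.H467F.n2
  have : star (x - y) * (x - y) = star (y - x) * (y - x) := by
    rw [← neg_sub y x, star_neg, neg_mul_neg]
  rw [this]

theorem n2_nonneg' (φ : (ℕ →ᵇ A) →ₗ[ℂ] ℂ) (x : ℕ →ᵇ A) : 0 ≤ n2 φ x := Real.sqrt_nonneg _

theorem n2_smul_one {U : Ultrafilter ℕ} {φ : (ℕ →ᵇ A) →ₗ[ℂ] ℂ} (hφ : ULim τ U φ) (c : ℂ) :
    n2 φ (c • (1 : ℕ →ᵇ A)) = ‖c‖ := by
  unfold Pool.Agent.H467F.n2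
  rw [star_smul, smul_mul_smul_comm, star_one, one_mul, map_smul, hφ.one]
  have : star c * c = ((‖c‖ ^ 2 : ℝ) : ℂ) := by
    rw [Complex.star_def, ← Complex.normSq_eq_conj_mul_self, Complex.normSq_eq_norm_sq]
  rw [this, smul_eq_mul, mul_one, Complex.ofReal_re, Real.sqrt_sq (norm_nonneg _)]

/-- approximation on the generated algebra -/
theorem approx {U : Ultrafilter ℕ} {φ : (ℕ →ᵇ A) →ₗ[ℂ] ℂ} (hφ : ULim τ U φ)
    {Λ : Type} (sd : Λ → Bool) (p : Λ → (ℕ →ᵇ A)) (S : Bool → Subalgebra ℂ (ℕ →ᵇ A))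
    (happ : ∀ l, ∀ θ : ℝ, 0 < θ → ∃ y ∈ S (sd l), n2 φ (p l - y) ≤ θ) (b : Bool)
    (x : ℕ →ᵇ A) (hx : x ∈ spn sd p b) : ∀ θ : ℝ, 0 < θ → ∃ y ∈ S b, n2 φ (x - y) ≤ θ := by
  unfold spn at hx
  induction hx using Algebra.adjoin_induction with
  | mem x hx =>
    obtain ⟨l, hl, rfl⟩ := hx
    intro θ hθ
    rw [← hl]
    exact happ l θ hθ
  | algebraMap r =>
    intro θ hθ
    refine ⟨algebraMap ℂ _ r, (S b).algebraMap_mem r, ?_⟩
    rw [sub_self]
    have : n2 φ (0 : ℕ →ᵇ A) = 0 := by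
      unfold Pool.Agent.H467F.n2
      simp
    rw [this]
    exact hθ.le
  | add x y _ _ hx hy =>
    intro θ hθ
    obtain ⟨x', hx', h1⟩ := hx (θ / 2) (by positivity)
    obtain ⟨y', hy', h2⟩ := hy (θ / 2) (by positivity)
    refine ⟨x' + y', add_mem hx' hy', ?_⟩
    have e : x + y - (x' + y') = (x - x') + (y - y') := by abel
    rw [e]
    have := hφ.n2_add (x - x') (y - y')
    linarith
  | mul x y _ _ hx hy =>
    intro θ hθ
    have hy0 : 0 < ‖y‖ + 1 := by positivity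
    obtain ⟨x', hx', h1⟩ := hx (θ / 2 / (‖y‖ + 1)) (by positivity)
    have hx0 : 0 < ‖x'‖ + 1 := by positivity
    obtain ⟨y', hy', h2⟩ := hy (θ / 2 / (‖x'‖ + 1)) (by positivity)
    refine ⟨x' * y', mul_mem hx' hy', ?_⟩
    have e : x * y - x' * y' = (x - x') * y + x' * (y - y') := by noncomm_ring
    rw [e]
    have h3 := hφ.n2_add ((x - x') * y) (x' * (y - y'))
    have h4 := hφ.n2_mul_right (x - x') y
    have h5 := hφ.n2_mul_left x' (y - y')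
    have h6 : n2 φ (x - x') * ‖y‖ ≤ θ / 2 := by
      rw [le_div_iff₀ hy0] at h1
      have := n2_nonneg' φ (x - x')
      nlinarith
    have h7 : ‖x'‖ * n2 φ (y - y') ≤ θ / 2 := by
      rw [le_div_iff₀ hx0] at h2
      have := n2_nonneg' φ (y - y')
      nlinarith
    linarith

theorem approx0 {U : Ultrafilter ℕ} {φ : (ℕ →ᵇ A) →ₗ[ℂ] ℂ} (hφ : ULim τ U φ)
    {Λ : Type} (sd : Λ → Bool) (p : Λ → (ℕ →ᵇ A)) (S : Bool → Subalgebra ℂ (ℕ →ᵇ A))
    (happ : ∀ l, ∀ θ : ℝ, 0 < θ → ∃ y ∈ S (sd l), n2 φ (p l - y) ≤ θ) (b : Bool)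
    (x : ℕ →ᵇ A) (hx : x ∈ spn sd p b) (hx0 : φ x = 0) (θ : ℝ) (hθ : 0 < θ) :
    ∃ y ∈ S b, φ y = 0 ∧ n2 φ (x - y) ≤ θ := by
  obtain ⟨y, hy, h1⟩ := approx hφ sd p S happ b x hx (θ / 2) (by positivity)
  refine ⟨y - φ y • (1 : ℕ →ᵇ A), sub_mem hy ((S b).smul_mem (one_mem _) _), ?_, ?_⟩
  · rw [map_sub, map_smul, hφ.one, smul_eq_mul, mul_one, sub_self]
  · have h2 : ‖φ y‖ ≤ θ / 2 := by
      have h3 := hφ.norm_le (y - x)
      rw [map_sub, hx0, sub_zero, ← n2_sub_comm' hφ] at h3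
      linarith
    have e : x - (y - φ y • (1 : ℕ →ᵇ A)) = (x - y) + φ y • (1 : ℕ →ᵇ A) := by abel
    rw [e]
    have h4 := hφ.n2_add (x - y) (φ y • (1 : ℕ →ᵇ A))
    rw [n2_smul_one hφ] at h4
    linarith

theorem main {U : Ultrafilter ℕ} {φ : (ℕ →ᵇ A) →ₗ[ℂ] ℂ} (hφ : ULim τ U φ)
    {Λ : Type} (sd : Λ → Bool) (p : Λ → (ℕ →ᵇ A)) (S : Bool → Subalgebra ℂ (ℕ →ᵇ A)) (N : ℕ)
    (happ : ∀ l, ∀ θ : ℝ, 0 < θ → ∃ y ∈ S (sd l), n2 φ (p l - y) ≤ θ) (hK : KIS φ S N) :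
    ∀ (Q P : List (Bool × (ℕ →ᵇ A))), P ++ Q ≠ [] → (P ++ Q).length ≤ N →
      ((P ++ Q).map Prod.fst).IsChain (fun x y => x ≠ y) →
      (∀ x ∈ P, x.2 ∈ S x.1 ∧ φ x.2 = 0) → (∀ x ∈ Q, x.2 ∈ spn sd p x.1 ∧ φ x.2 = 0) →
      φ ((P ++ Q).map Prod.snd).prod = 0 := by
  intro Q
  induction Q with
  | nil =>
    intro P h1 h2 h3 h4 _
    rw [List.append_nil] at h1 h2 h3 ⊢
    exact hK P h1 h2 ((List.isChain_map Prod.fst).1 h3) h4
  | cons x Q ih =>
    intro P h1 h2 h3 h4 h5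
    obtain ⟨b, x⟩ := x
    have hx := h5 (b, x) (List.mem_cons_self)
    have hz : ∀ θ : ℝ, 0 < θ → ‖φ ((P ++ (b, x) :: Q).map Prod.snd).prod‖ ≤ θ := by
      intro θ hθ
      set a := (P.map Prod.snd).prod with ha
      set c := (Q.map Prod.snd).prod with hc
      have hC : 0 < ‖c‖ * ‖a‖ + 1 := by positivity
      obtain ⟨y, hy, hy0, hxy⟩ := approx0 hφ sd p S happ b x hx.1 hx.2
        (θ / (‖c‖ * ‖a‖ + 1)) (by positivity)
      have e1 : ((P ++ (b, x) :: Q).map Prod.snd).prod = a * (x * c) := by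
        rw [List.map_append, List.prod_append, List.map_cons, List.prod_cons]
      have e2 : φ (a * (y * c)) = 0 := by
        have h6 := ih (P ++ [(b, y)]) (by simp) (by simpa using h2) (by simpa using h3)
          (by
            intro z hz
            rw [List.mem_append, List.mem_singleton] at hz
            rcases hz with hz | rfl
            · exact h4 z hz
            · exact ⟨hy, hy0⟩)
          (fun z hz => h5 z (List.mem_cons_of_mem _ hz))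
        rw [List.append_assoc, List.singleton_append, List.map_append, List.prod_append,
          List.map_cons, List.prod_cons] at h6
        exact h6
      have e3 : φ (a * (x * c)) = φ ((x - y) * (c * a)) := by
        have : a * (x * c) = a * ((x - y) * c) + a * (y * c) := by noncomm_ring
        rw [this, map_add, e2, add_zero, hφ.comm, mul_assoc]
      rw [e1, e3]
      have h7 := hφ.norm_le ((x - y) * (c * a))
      have h8 := hφ.n2_mul_right (x - y) (c * a)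
      have h9 : ‖c * a‖ ≤ ‖c‖ * ‖a‖ := norm_mul_le _ _
      have h10 := n2_nonneg' φ (x - y)
      have h11 : n2 φ (x - y) * ‖c * a‖ ≤ n2 φ (x - y) * (‖c‖ * ‖a‖ + 1) :=
        mul_le_mul_of_nonneg_left (by linarith) h10
      have h12 : n2 φ (x - y) * (‖c‖ * ‖a‖ + 1) ≤ θ := by
        rwa [le_div_iff₀ hC] at hxy
      linarith
    have h13 : ‖φ ((P ++ (b, x) :: Q).map Prod.snd).prod‖ ≤ 0 :=
      le_of_forall_pos_le_add (fun θ hθ => by rw [zero_add]; exact hz θ hθ)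
    exact norm_le_zero_iff.1 h13

end KLIMaux

/-- KLIM -/
theorem kis_lim (U : Ultrafilter ℕ) (φ : (ℕ →ᵇ A) →ₗ[ℂ] ℂ) (hφ : ULim τ U φ)
    {Λ : Type} [Fintype Λ] (sd : Λ → Bool) (p : Λ → (ℕ →ᵇ A)) (hp : PV2 sd p)
    (S : Bool → Subalgebra ℂ (ℕ →ᵇ A)) (N : ℕ)
    (happ : ∀ l, ∀ θ : ℝ, 0 < θ → ∃ y ∈ S (sd l), n2 φ (p l - y) ≤ θ) (hK : KIS φ S N) :
    KIS φ (spn sd p) N := by
  intro L h1 h2 h3 h4
  have := KLIMaux.main hφ sd p S N happ hK L [] (by simpa using h1) (by simpa using h2)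
    (by
      rw [List.nil_append]
      exact (List.isChain_map Prod.fst).2 h3)
    (fun x hx => absurd hx List.not_mem_nil) h4
  simpa using this

end Pool.Agent.H30K
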