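import Mathlib
import Pool.Agent.H30R4.KI.Defs

/-!
Task KPOW (MP_64d6f1_an): words in centered powers suffice.  (helper594)
-/

set_option autoImplicit false

open scoped ComplexOrder Topology BoundedContinuousFunction ComplexConjugate
open Filter

noncomputable section

namespace Pool.Agent.H30K

namespace KPOWaux

variable {B : Type} [Ring B] [StarRing B] [Algebra ℂ B]

/-- the centered power -/
def cp (φ : B →ₗ[ℂ] ℂ) (a : Bool → unitary B) (b : Bool) (x : ℤ) : B :=
  (((a b) ^ x : unitary B) : B) - φ (((a b) ^ x : unitary B) : B) • (1 : B)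

/-- alternating words in centered powers -/
def word (φ : B →ₗ[ℂ] ℂ) (a : Bool → unitary B) : Bool → List ℤ → B
  | _, [] => 1
  | b, x :: l => cp φ a b x * word φ a (!b) l

theorem word_eq (φ : B →ₗ[ℂ] ℂ) (a : Bool → unitary B) (l : List ℤ) : ∀ b : Bool,
    (l.mapIdx fun i x => (((a (if Even i then b else !b)) ^ x : unitary B) : B) -
      φ (((a (if Even i then b else !b)) ^ x : unitary B) : B) • (1 : B)).prod = word φ a b l := by
  induction l with
  | nil => intro b; simp [word]
  | cons x l ih =>
    intro b
    rw [List.mapIdx_cons, List.prod_cons, word]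
    congr 1
    have h1 : (fun (i : ℕ) (x : ℤ) =>
        (((a (if Even (i + 1) then b else !b)) ^ x : unitary B) : B) -
          φ (((a (if Even (i + 1) then b else !b)) ^ x : unitary B) : B) • (1 : B)) =
        fun (i : ℕ) (x : ℤ) => (((a (if Even i then !b else !!b)) ^ x : unitary B) : B) -
          φ (((a (if Even i then !b else !!b)) ^ x : unitary B) : B) • (1 : B) := by
      funext i x
      have h2 : (if Even (i + 1) then b else !b) = (if Even i then !b else !!b) := by
        by_cases h : Even i
        · rw [if_pos h, if_neg (by rw [Nat.even_add_one]; exact not_not.2 h)]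
        · rw [if_neg h, if_pos (by rw [Nat.even_add_one]; exact h), Bool.not_not]
      rw [h2]
    rw [h1]
    exact ih (!b)

/-- the side of the letter number `n` -/
def side (b : Bool) (n : ℕ) : Bool := if Even n then b else !b

theorem side_succ (b : Bool) (n : ℕ) : side b (n + 1) = !(side b n) := by
  unfold side
  by_cases h : Even n
  · rw [if_pos h, if_neg (by rw [Nat.even_add_one]; exact not_not.2 h)]
  · rw [if_neg h, if_pos (by rw [Nat.even_add_one]; exact h), Bool.not_not]

theorem side_not (b : Bool) (n : ℕ) : side (!b) n = !(side b n) := by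
  unfold side
  by_cases h : Even n
  · rw [if_pos h, if_pos h]
  · rw [if_neg h, if_neg h]

theorem word_append (φ : B →ₗ[ℂ] ℂ) (a : Bool → unitary B) (l : List ℤ) (k : ℤ) : ∀ b : Bool,
    word φ a b (l ++ [k]) = word φ a b l * cp φ a (side b l.length) k := by
  induction l with
  | nil =>
    intro b
    simp [word, side]
  | cons x l ih =>
    intro b
    rw [List.cons_append, word, ih, word, mul_assoc, List.length_cons, side_succ, side_not]

/-- alternating, starting with side `s` -/
def AltFrom : Bool → List (Bool × B) → Prop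
  | _, [] => True
  | s, x :: L => x.1 = s ∧ AltFrom (!s) L

theorem altFrom_of_chain (L : List (Bool × B)) (x : Bool × B)
    (h : (x :: L).IsChain (fun x y => x.1 ≠ y.1)) : AltFrom x.1 (x :: L) := by
  induction L generalizing x with
  | nil => exact ⟨rfl, trivial⟩
  | cons y L ih =>
    rw [List.isChain_cons_cons] at h
    refine ⟨rfl, ?_⟩
    have h1 : (!x.1) = y.1 := by
      have := h.1
      cases hx : x.1 <;> cases hy : y.1 <;> simp_all
    rw [h1]
    exact ih y h.2

theorem mem_span (a : Bool → unitary B) (b : Bool) (y : B)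
    (hy : y ∈ gen2 (fun b => (a b : B)) b) :
    y ∈ Submodule.span ℂ (Set.range fun k : ℤ => (((a b) ^ k : unitary B) : B)) := by
  unfold gen2 at hy
  induction hy using Algebra.adjoin_induction with
  | mem x hx =>
    rcases hx with hx | hx
    · rw [hx]
      exact Submodule.subset_span ⟨1, by simp⟩
    · have hx' : x = star (a b : B) := hx
      rw [hx']
      refine Submodule.subset_span ⟨-1, ?_⟩
      show (((a b) ^ (-1 : ℤ) : unitary B) : B) = star (a b : B)
      rw [zpow_neg_one]
      rfl
  | algebraMap r =>
    rw [Algebra.algebraMap_eq_smul_one]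
    exact Submodule.smul_mem _ _ (Submodule.subset_span ⟨0, by simp⟩)
  | add x y _ _ hx hy => exact Submodule.add_mem _ hx hy
  | mul x y _ _ hx hy =>
    have h1 := Submodule.mul_mem_mul hx hy
    rw [Submodule.span_mul_span] at h1
    refine Submodule.span_mono ?_ h1
    rintro _ ⟨_, ⟨k, rfl⟩, _, ⟨l, rfl⟩, rfl⟩
    exact ⟨k + l, by
      show (((a b) ^ (k + l) : unitary B) : B) =
        (((a b) ^ k : unitary B) : B) * (((a b) ^ l : unitary B) : B)
      rw [zpow_add]; rfl⟩

theorem main (φ : B →ₗ[ℂ] ℂ) (h1 : φ 1 = 1) (N : ℕ) (a : Bool → unitary B)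
    (hw : ∀ (b : Bool) (l : List ℤ), l ≠ [] → l.length ≤ N → φ (word φ a b l) = 0)
    (L : List (Bool × B)) : ∀ (l : List ℤ) (b : Bool), l.length + L.length ≤ N →
      0 < l.length + L.length → AltFrom (side b l.length) L →
      (∀ x ∈ L, x.2 ∈ gen2 (fun b => (a b : B)) x.1 ∧ φ x.2 = 0) →
      φ (word φ a b l * (L.map Prod.snd).prod) = 0 := by
  induction L with
  | nil =>
    intro l b hN hpos _ _
    rw [List.map_nil, List.prod_nil, mul_one]
    refine hw b l ?_ (by simpa using hN)
    rintro rfl
    simp at hpos
  | cons x L ih =>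
    intro l b hN hpos hA hx
    obtain ⟨hx1, hx2⟩ := hA
    have hxm := hx x List.mem_cons_self
    -- the functional
    let T : B →ₗ[ℂ] ℂ := φ.comp ((LinearMap.mulLeft ℂ (word φ a b l)).comp
      (LinearMap.mulRight ℂ (L.map Prod.snd).prod))
    have hT : ∀ y, T y = φ (word φ a b l * (y * (L.map Prod.snd).prod)) := fun y => rfl
    have key : ∀ k : ℤ, T (cp φ a (side b l.length) k) = 0 := by
      intro k
      rw [hT, ← mul_assoc, ← word_append]
      refine ih (l ++ [k]) b ?_ ?_ ?_ (fun z hz => hx z (List.mem_cons_of_mem _ hz))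
      · rw [List.length_append, List.length_singleton]
        rw [List.length_cons] at hN
        omega
      · rw [List.length_append, List.length_singleton]; omega
      · rw [List.length_append, List.length_singleton, side_succ]
        exact hx2
    have key2 : ∀ y ∈ Submodule.span ℂ
        (Set.range fun k : ℤ => (((a (side b l.length)) ^ k : unitary B) : B)),
        T y = φ y * T 1 := by
      intro y hy
      induction hy using Submodule.span_induction with
      | mem y hy =>
        obtain ⟨k, rfl⟩ := hy
        have := key k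
        unfold cp at this
        rw [map_sub, map_smul, smul_eq_mul, sub_eq_zero] at this
        exact this
      | zero => simp
      | add y z _ _ hy hz => rw [map_add, map_add, hy, hz, add_mul]
      | smul c y _ hy => rw [map_smul, map_smul, hy, smul_eq_mul, smul_eq_mul, mul_assoc]
    rw [List.map_cons, List.prod_cons]
    have h3 := mem_span a x.1 x.2 hxm.1
    rw [hx1] at h3
    have h4 := key2 x.2 h3
    rw [hxm.2, zero_mul, hT] at h4
    exact h4

end KPOWaux

/-- KPOW -/
theorem kis_powers {B : Type} [Ring B] [StarRing B] [Algebra ℂ B] (φ : B →ₗ[ℂ] ℂ)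
    (h1 : φ 1 = 1) (N : ℕ) (a : Bool → unitary B)
    (hw : ∀ (b : Bool) (l : List ℤ), l ≠ [] → l.length ≤ N →
      φ ((l.mapIdx fun i x => (((a (if Even i then b else !b)) ^ x : unitary B) : B) -
        φ (((a (if Even i then b else !b)) ^ x : unitary B) : B) • (1 : B)).prod) = 0) :
    KIS φ (gen2 fun b => (a b : B)) N := by
  intro L hL hN hch hx
  cases L with
  | nil => exact absurd rfl hL
  | cons x L =>
    have hw' : ∀ (b : Bool) (l : List ℤ), l ≠ [] → l.length ≤ N →
        φ (KPOWaux.word φ a b l) = 0 := by
      intro b l hl hlN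
      rw [← KPOWaux.word_eq]
      exact hw b l hl hlN
    have h2 := KPOWaux.main φ h1 N a hw' (x :: L) [] x.1 (by simpa using hN) (by simp)
      (by
        have := KPOWaux.altFrom_of_chain L x hch
        simpa [KPOWaux.side] using this) hx
    simpa [KPOWaux.word] using h2

end Pool.Agent.H30K
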