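import Mathlib
import Pool.Agent.H30R4.KI.Defs
import Pool.Agent.Helper467.FP.P_n2_mul_le
import Pool.Agent.Helper467.FP.P_tau_bounds

/-!
The limit of a trace along an ultrafilter on the algebra of bounded sequences.
-/

set_option autoImplicit false

open scoped ComplexOrder Topology BoundedContinuousFunction ComplexConjugate
open Filter

noncomputable section

namespace Pool.Agent.H30K

open Pool.Agent.H467F (TW)
open Pool.Agent.H735G (NoAbA)

variable {A : Type} [CStarAlgebra A] {τ : A →ₗ[ℂ] ℂ}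

open Pool.Agent.H467F (n2)

/-- The limit exists. -/
theorem ulimPhi_lim (h : TW τ) (U : Ultrafilter ℕ) (x : ℕ →ᵇ A) :
    ∃ c : ℂ, Tendsto (fun n => τ (x n)) U (𝓝 c) := by
  have hb : ∀ n, τ (x n) ∈ Metric.closedBall (0 : ℂ) ‖x‖ := by
    intro n
    rw [mem_closedBall_zero_iff]
    exact (((Pool.Agent.H467F.tau_bounds h).1 _).trans ((Pool.Agent.H467F.tau_bounds h).2 _)).trans
      (x.norm_coe_le_norm n)
  obtain ⟨c, -, hc⟩ := (isCompact_closedBall (0 : ℂ) ‖x‖).ultrafilter_le_nhds
    (U.map fun n => τ (x n)) (by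
      rw [le_principal_iff]
      exact Filter.mem_map.2 (Filter.Eventually.of_forall hb))
  exact ⟨c, hc⟩

/-- The limit functional. -/
def ulimPhi (h : TW τ) (U : Ultrafilter ℕ) : (ℕ →ᵇ A) →ₗ[ℂ] ℂ where
  toFun x := (ulimPhi_lim h U x).choose
  map_add' x y := by
    refine tendsto_nhds_unique (ulimPhi_lim h U (x + y)).choose_spec ?_
    have := (ulimPhi_lim h U x).choose_spec.add (ulimPhi_lim h U y).choose_spec
    refine this.congr fun n => ?_
    rw [← map_add]
    rfl
  map_smul' c x := by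
    refine tendsto_nhds_unique (ulimPhi_lim h U (c • x)).choose_spec ?_
    have := (ulimPhi_lim h U x).choose_spec.const_mul c
    refine this.congr fun n => ?_
    rw [← smul_eq_mul, ← map_smul]
    rfl

theorem ulimPhi_spec (h : TW τ) (U : Ultrafilter ℕ) (x : ℕ →ᵇ A) :
    Tendsto (fun n => τ (x n)) U (𝓝 (ulimPhi h U x)) := (ulimPhi_lim h U x).choose_spec

theorem ulimPhi_spec2 (h : TW τ) (U : Ultrafilter ℕ) (x : ℕ →ᵇ A) :
    Tendsto (fun n => n2 τ (x n)) U (𝓝 (n2 (ulimPhi h U) x)) := by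
  have h1 := ulimPhi_spec h U (star x * x)
  have h2 := (Complex.continuous_re.tendsto _).comp h1
  exact (Real.continuous_sqrt.tendsto _).comp h2

/-- PHI -/
theorem exists_phi (h : TW τ) (U : Ultrafilter ℕ) : ∃ φ : (ℕ →ᵇ A) →ₗ[ℂ] ℂ, ULim τ U φ := by
  have hm := @Pool.Agent.H467F.n2_mul_le A _ τ h
  have hb := Pool.Agent.H467F.tau_bounds h
  have L := ulimPhi_spec h U
  have L2 := ulimPhi_spec2 h U
  have hnn : ∀ x : ℕ →ᵇ A, 0 ≤ ulimPhi h U (star x * x) := by
    intro x
    have h1 := L (star x * x)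
    have h2 := (Complex.continuous_re.tendsto _).comp h1
    have h3 := (Complex.continuous_im.tendsto _).comp h1
    rw [Complex.nonneg_iff]
    refine ⟨ge_of_tendsto' h2 fun n => h.re_nonneg (x n), ?_⟩
    refine tendsto_nhds_unique tendsto_const_nhds (h3.congr fun n => ?_)
    exact h.im_zero (x n)
  have hcm : ∀ x y : ℕ →ᵇ A, ulimPhi h U (x * y) = ulimPhi h U (y * x) := by
    intro x y
    refine tendsto_nhds_unique (L (x * y)) ((L (y * x)).congr fun n => ?_)
    exact h.comm _ _
  refine ⟨ulimPhi h U, ⟨L, L2, ?_, hcm, hnn, ?_, ?_, ?_, ?_, ?_, ?_, ?_, ?_, ?_⟩⟩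
  · refine tendsto_nhds_unique (L 1) (tendsto_const_nhds.congr fun n => ?_)
    exact h.one.symm
  · intro x
    refine tendsto_nhds_unique (L (star x)) (((continuous_star.tendsto _).comp (L x)).congr
      fun n => ?_)
    exact (h.conj (x n)).symm
  · intro x y
    refine le_of_tendsto_of_tendsto' (L (x * y)).norm ((L2 x).mul (L2 y)) fun n => ?_
    exact h.cauchy' (x n) (y n)
  · intro x
    exact le_of_tendsto_of_tendsto' (L x).norm (L2 x) fun n => hb.1 (x n)
  · intro x
    exact le_of_tendsto' (L2 x) fun n => (hb.2 (x n)).trans (x.norm_coe_le_norm n)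
  · intro x y
    exact le_of_tendsto_of_tendsto' (L2 (x + y)) ((L2 x).add (L2 y)) fun n =>
      h.n2_add_le (x n) (y n)
  · intro x y
    refine le_of_tendsto_of_tendsto' (L2 (x * y)) ((L2 y).const_mul ‖x‖) fun n => ?_
    exact ((hm (x n) (y n)).1).trans (mul_le_mul_of_nonneg_right (x.norm_coe_le_norm n)
      (Pool.Agent.H467F.n2_nonneg _ _))
  · intro x y
    refine le_of_tendsto_of_tendsto' (L2 (x * y)) ((L2 x).mul_const ‖y‖) fun n => ?_
    exact ((hm (y n) (x n)).2).trans (mul_le_mul_of_nonneg_left (y.norm_coe_le_norm n)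
      (Pool.Agent.H467F.n2_nonneg _ _))
  · intro x
    unfold Pool.Agent.H467F.n2
    rw [star_star, hcm]
  · intro x
    have h1 := Complex.nonneg_iff.1 (hnn x)
    have h2 : n2 (ulimPhi h U) x ^ 2 = (ulimPhi h U (star x * x)).re := Real.sq_sqrt h1.1
    rw [h2]
    apply Complex.ext
    · simp
    · simp [← h1.2]

end Pool.Agent.H30K
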