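import Mathlib
import Pool.Agent.H30R4.KI.Defs

/-! Task ST1: a projection valued measure near a unitary sequence. -/

set_option autoImplicit false

open scoped ComplexOrder Topology BoundedContinuousFunction ComplexConjugate
open Filter

noncomputable section

namespace Pool.Agent.H30K

open Pool.Agent.H467F (TW)

namespace ST1

/-- Statement of CUT. -/
def S_CUT : Prop := ∀ (Λ : C(Circle, ℝ) →ₗ[ℝ] ℝ) (_hΛ : ∀ f, 0 ≤ f → 0 ≤ Λ f) (ε : ℝ) (_hε : 0 < ε),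
    ∃ (m : ℕ) (c : Fin m → Circle) (f : ℕ → Fin m → C(Circle, ℝ)) (g : ℕ → C(Circle, ℝ)),
      (∀ j i, 0 ≤ f j i) ∧ (∀ j, ∑ i, f j i = 1) ∧
      (∀ j i z, f j i z ≠ 0 → ‖(z : ℂ) - (c i : ℂ)‖ ≤ ε) ∧
      (∀ j j' i z, j ≤ j' → |f j' i z - f j i z| ≤ g j z ∧ f j' i z * (1 - f j' i z) ≤ g j z) ∧
      Tendsto (fun j => Λ (g j)) atTop (𝓝 0)

/-- Statement of FCAL. -/
def S_FCAL : Prop := ∃ Φ : ∀ (B : Type) [CStarAlgebra B], unitary B → (C(Circle, ℂ) →⋆ₐ[ℂ] B),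
    (∀ (B : Type) [CStarAlgebra B] (a : unitary B),
      Φ B a ⟨fun z => (z : ℂ), by fun_prop⟩ = (a : B)) ∧
    (∀ (B : Type) [CStarAlgebra B] (a : unitary B) (f : C(Circle, ℂ)), ‖Φ B a f‖ ≤ ‖f‖) ∧
    (∀ (B : Type) [CStarAlgebra B] (a : unitary B) (f : C(Circle, ℂ)) (θ : ℝ), 0 < θ →
      ∃ y ∈ Algebra.adjoin ℂ ({(a : B), star (a : B)} : Set B), ‖Φ B a f - y‖ ≤ θ) ∧
    (∀ (B B' : Type) [CStarAlgebra B] [CStarAlgebra B'] (π : B →⋆ₐ[ℂ] B') (a : unitary B)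
      (a' : unitary B'), π (a : B) = (a' : B') → ∀ f, π (Φ B a f) = Φ B' a' f)

/-- a real function as a complex function -/
def cx (f : C(Circle, ℝ)) : C(Circle, ℂ) := ⟨fun z => ((f z : ℝ) : ℂ), by fun_prop⟩

@[simp] theorem cx_apply (f : C(Circle, ℝ)) (z : Circle) : cx f z = ((f z : ℝ) : ℂ) := rfl

theorem cx_add (f g : C(Circle, ℝ)) : cx (f + g) = cx f + cx g := by ext z; simp
theorem cx_sub (f g : C(Circle, ℝ)) : cx (f - g) = cx f - cx g := by ext z; simp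
theorem cx_mul (f g : C(Circle, ℝ)) : cx (f * g) = cx f * cx g := by ext z; simp
theorem cx_one : cx 1 = 1 := by ext z; simp
theorem cx_zero : cx 0 = 0 := by ext z; simp
theorem cx_smul (r : ℝ) (f : C(Circle, ℝ)) : cx (r • f) = (r : ℂ) • cx f := by ext z; simp
theorem cx_star (f : C(Circle, ℝ)) : star (cx f) = cx f := by ext z; simp

theorem cx_sum {ι : Type} (s : Finset ι) (f : ι → C(Circle, ℝ)) :
    cx (∑ i ∈ s, f i) = ∑ i ∈ s, cx (f i) := by
  classical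
  induction s using Finset.induction_on with
  | empty => simp [cx_zero]
  | insert i s hi ih => rw [Finset.sum_insert hi, Finset.sum_insert hi, cx_add, ih]

theorem cx_sq {f : C(Circle, ℝ)} (hf : 0 ≤ f) : ∃ g : C(Circle, ℂ), cx f = star g * g := by
  refine ⟨cx ⟨fun z => Real.sqrt (f z), by fun_prop⟩, ?_⟩
  rw [cx_star]
  ext z
  have h0 : 0 ≤ f z := hf z
  simp only [cx_apply, ContinuousMap.mul_apply, ContinuousMap.coe_mk]
  rw [← Complex.ofReal_mul, Real.mul_self_sqrt h0]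

section one

variable {M : Type} [CStarAlgebra M] (ψ : M →ₗ[ℂ] ℂ) (hψ : ∀ x, 0 ≤ ψ (star x * x))
  (Ψ : C(Circle, ℂ) →⋆ₐ[ℂ] M)

/-- the functional on real functions -/
def TT : C(Circle, ℝ) →ₗ[ℝ] ℝ where
  toFun f := (ψ (Ψ (cx f))).re
  map_add' f g := by rw [cx_add, map_add, map_add, Complex.add_re]
  map_smul' r f := by
    rw [cx_smul, map_smul, map_smul, smul_eq_mul, Complex.re_ofReal_mul]
    rfl

theorem TT_apply (f : C(Circle, ℝ)) : TT ψ Ψ f = (ψ (Ψ (cx f))).re := rfl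

include hψ in
theorem TT_nonneg {f : C(Circle, ℝ)} (hf : 0 ≤ f) : 0 ≤ TT ψ Ψ f := by
  obtain ⟨g, hg⟩ := cx_sq hf
  rw [TT_apply, hg, map_mul, map_star]
  exact (Complex.nonneg_iff.1 (hψ _)).1

include hψ in
theorem TT_mono {f g : C(Circle, ℝ)} (hfg : ∀ z, f z ≤ g z) : TT ψ Ψ f ≤ TT ψ Ψ g := by
  have h1 : 0 ≤ g - f := by
    intro z
    have := hfg z
    show (0 : ℝ) ≤ g z - f z
    linarith
  have h2 := TT_nonneg ψ hψ Ψ h1
  rw [map_sub] at h2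
  linarith

end one

section two

variable {A : Type} [CStarAlgebra A] {τ : A →ₗ[ℂ] ℂ}

open Pool.Agent.H467F (n2)

theorem pos_cx (Ψ : C(Circle, ℂ) →⋆ₐ[ℂ] A) {f : C(Circle, ℝ)} (hf : 0 ≤ f) :
    Pool.Agent.Helper278.Pos (Ψ (cx f)) := by
  obtain ⟨g, hg⟩ := cx_sq hf
  rw [hg, map_mul, map_star]
  exact Pool.Agent.Helper278.pos_star_mul _

/-- (i) -/
theorem part1 (h : TW τ) (Ψ : C(Circle, ℂ) →⋆ₐ[ℂ] A) (f : C(Circle, ℝ)) (p : A)
    (hp1 : star p = p) (hp2 : p * p = p) (e1 : τ (p * 1) = τ (Ψ (cx f) * 1))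
    (e2 : τ (p * Ψ (cx f)) = τ (Ψ (cx f) * Ψ (cx f))) :
    n2 τ (p - Ψ (cx f)) ^ 2 = TT τ Ψ (f * (1 - f)) := by
  have hx : star (Ψ (cx f)) = Ψ (cx f) := by rw [← map_star, cx_star]
  rw [h.n2_sq, TT_apply]
  refine congrArg Complex.re ?_
  rw [star_sub, hp1, hx]
  have e3 : (p - Ψ (cx f)) * (p - Ψ (cx f)) =
      p * p - p * Ψ (cx f) - (Ψ (cx f) * p - Ψ (cx f) * Ψ (cx f)) := by noncomm_ring
  have e4 : cx (f * (1 - f)) = cx f - cx f * cx f := by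
    rw [cx_mul, cx_sub, cx_one, mul_sub, mul_one]
  have e5 : Ψ (cx (f * (1 - f))) = Ψ (cx f) - Ψ (cx f) * Ψ (cx f) := by
    rw [e4, map_sub, map_mul]
  rw [mul_one, mul_one] at e1
  have e6 : τ (p - p * Ψ (cx f) - (Ψ (cx f) * p - Ψ (cx f) * Ψ (cx f))) =
      τ p - τ (p * Ψ (cx f)) - (τ (Ψ (cx f) * p) - τ (Ψ (cx f) * Ψ (cx f))) := by
    rw [map_sub, map_sub, map_sub]
  have e7 : τ (Ψ (cx f) - Ψ (cx f) * Ψ (cx f)) = τ (Ψ (cx f)) - τ (Ψ (cx f) * Ψ (cx f)) := map_sub _ _ _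
  rw [e3, hp2, e5, e6, e7, h.comm (Ψ (cx f)) p, e2, e1]
  ring

/-- the polynomial z - c -/
def zc' (c : ℂ) : C(Circle, ℂ) := ⟨fun z => (z : ℂ), by fun_prop⟩ - c • (1 : C(Circle, ℂ))

theorem cx_q (f : C(Circle, ℝ)) (c : ℂ) :
    cx f * (star (zc' c) * zc' c) = cx (f * ⟨fun z => ‖(z : ℂ) - c‖ ^ 2, by fun_prop⟩) := by
  ext z
  have : (starRingEnd ℂ) ((z : ℂ) - c) * ((z : ℂ) - c) = ((‖(z : ℂ) - c‖ ^ 2 : ℝ) : ℂ) := by
    rw [← Complex.normSq_eq_conj_mul_self, Complex.normSq_eq_norm_sq]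
  simp only [zc', ContinuousMap.mul_apply, cx_apply, ContinuousMap.star_apply,
    ContinuousMap.sub_apply, ContinuousMap.coe_mk, ContinuousMap.smul_apply,
    ContinuousMap.one_apply, smul_eq_mul, mul_one, Complex.ofReal_mul]
  rw [← this]
  rfl

/-- (ii) -/
theorem part2 (h : TW τ) (Ψ : C(Circle, ℂ) →⋆ₐ[ℂ] A) (a : A)
    (ha : Ψ ⟨fun z => (z : ℂ), by fun_prop⟩ = a) {m : ℕ} (c : Fin m → Circle)
    (f : Fin m → C(Circle, ℝ)) (hf : ∀ i, 0 ≤ f i) (hf1 : ∑ i, f i = 1) (ε : ℝ)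
    (hfc : ∀ i z, f i z ≠ 0 → ‖(z : ℂ) - (c i : ℂ)‖ ≤ ε) (p : Fin m → A)
    (hp : Pool.Agent.Helper278.PVM p)
    (e : ∀ i, τ (p i * (star (a - (c i : ℂ) • (1 : A)) * (a - (c i : ℂ) • (1 : A)))) =
      τ (Ψ (cx (f i)) * (star (a - (c i : ℂ) • (1 : A)) * (a - (c i : ℂ) • (1 : A))))) :
    n2 τ (a - ∑ i, (c i : ℂ) • p i) ^ 2 ≤ ε ^ 2 := by
  obtain ⟨d, hd⟩ : ∃ d : Fin m → A, d = fun i => a - (c i : ℂ) • (1 : A) := ⟨_, rfl⟩
  have hd' : ∀ i, a - (c i : ℂ) • (1 : A) = d i := fun i => by rw [hd]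
  have hsumd : a - ∑ i, (c i : ℂ) • p i = ∑ i, d i * p i := by
    have h1 : a = ∑ i, a * p i := by rw [← Finset.mul_sum, hp.sum, mul_one]
    conv_lhs => rw [h1]
    rw [← Finset.sum_sub_distrib]
    refine Finset.sum_congr rfl fun i _ => ?_
    rw [hd, sub_mul, smul_mul_assoc, one_mul]
  have hmain : τ (star (∑ i, d i * p i) * ∑ i, d i * p i) = ∑ i, τ (p i * (star (d i) * d i)) := by
    rw [star_sum, Finset.sum_mul, map_sum]
    refine Finset.sum_congr rfl fun i _ => ?_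
    rw [Finset.mul_sum, map_sum, Finset.sum_eq_single i]
    · rw [star_mul, hp.star_eq]
      have : p i * star (d i) * (d i * p i) = (p i * star (d i) * d i) * p i := by noncomm_ring
      rw [this, h.comm]
      have : p i * (p i * star (d i) * d i) = (p i * p i) * (star (d i) * d i) := by noncomm_ring
      rw [this, hp.idem]
    · intro j _ hj
      rw [star_mul, hp.star_eq]
      have : p i * star (d i) * (d j * p j) = (p i * star (d i) * d j) * p j := by noncomm_ring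
      rw [this, h.comm]
      have : p j * (p i * star (d i) * d j) = (p j * p i) * (star (d i) * d j) := by noncomm_ring
      rw [this, hp.orth j i hj, zero_mul, map_zero]
    · intro hi; exact absurd (Finset.mem_univ i) hi
  rw [h.n2_sq, hsumd, hmain, Complex.re_sum]
  have hterm : ∀ i, (τ (p i * (star (d i) * d i))).re ≤ ε ^ 2 * TT τ Ψ (f i) := by
    intro i
    have e1 := e i
    rw [hd'] at e1
    rw [e1]
    have e2 : d i = Ψ (zc' (c i : ℂ)) := by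
      rw [zc', map_sub, map_smul, map_one, ha, hd]
    rw [e2, ← map_star, ← map_mul, ← map_mul, cx_q, ← TT_apply]
    have e3 : ε ^ 2 * TT τ Ψ (f i) = TT τ Ψ (ε ^ 2 • f i) := by
      rw [map_smul, smul_eq_mul]
    rw [e3]
    apply TT_mono τ h.nonneg Ψ
    intro z
    simp only [ContinuousMap.mul_apply, ContinuousMap.coe_mk, ContinuousMap.smul_apply,
      smul_eq_mul]
    by_cases hz : f i z = 0
    · rw [hz]; simp
    · have h1 := hfc i z hz
      have h2 : 0 ≤ f i z := hf i z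
      have h3 : ‖(z : ℂ) - (c i : ℂ)‖ ^ 2 ≤ ε ^ 2 := pow_le_pow_left₀ (norm_nonneg _) h1 2
      rw [mul_comm (ε ^ 2)]
      exact mul_le_mul_of_nonneg_left h3 h2
  calc ∑ i, (τ (p i * (star (d i) * d i))).re ≤ ∑ i, ε ^ 2 * TT τ Ψ (f i) :=
        Finset.sum_le_sum fun i _ => hterm i
    _ = ε ^ 2 := by
        rw [← Finset.mul_sum, ← map_sum, hf1, TT_apply, cx_one, map_one, h.one, Complex.one_re,
          mul_one]

/-- evaluation -/
def evn (n : ℕ) : (ℕ →ᵇ A) →⋆ₐ[ℂ] A where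
  toFun x := x n
  map_one' := rfl
  map_mul' _ _ := rfl
  map_zero' := rfl
  map_add' _ _ := rfl
  commutes' _ := rfl
  map_star' _ := rfl

theorem evn_apply (n : ℕ) (x : ℕ →ᵇ A) : evn n x = x n := rfl

/-- the n-th unitary -/
def un (a : unitary (ℕ →ᵇ A)) (n : ℕ) : unitary A :=
  ⟨(a : ℕ →ᵇ A) n, by
    rw [Unitary.mem_iff]
    have h1 := (Unitary.mem_iff.1 a.2).1
    have h2 := (Unitary.mem_iff.1 a.2).2
    exact ⟨congrArg (fun x : ℕ →ᵇ A => x n) h1, congrArg (fun x : ℕ →ᵇ A => x n) h2⟩⟩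

theorem un_coe (a : unitary (ℕ →ᵇ A)) (n : ℕ) : ((un a n : unitary A) : A) = (a : ℕ →ᵇ A) n := rfl

theorem ev_ge (U : Ultrafilter ℕ) (hU : ∀ n, {n} ∉ U) (j : ℕ) : ∀ᶠ n in (U : Filter ℕ), j ≤ n := by
  induction j with
  | zero => exact Eventually.of_forall fun n => Nat.zero_le n
  | succ j ih =>
    have h1 : ({j} : Set ℕ)ᶜ ∈ (U : Filter ℕ) := Ultrafilter.compl_mem_iff_notMem.2 (hU j)
    filter_upwards [ih, h1] with n h2 h3
    have h4 : n ≠ j := fun h => h3 h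
    omega

theorem norm_proj {p : A} (h1 : star p = p) (h2 : p * p = p) : ‖p‖ ≤ 1 := by
  have h3 : ‖star p * p‖ = ‖p‖ * ‖p‖ := CStarRing.norm_star_mul_self
  rw [h1, h2] at h3
  by_contra h4
  push Not at h4
  nlinarith

end two

end ST1

open ST1

variable {A : Type} [CStarAlgebra A] {τ : A →ₗ[ℂ] ℂ}

open Pool.Agent.H467F (n2)

/-- ST1 -/
theorem stage1a (hCUT : S_CUT) (hFCAL : S_FCAL) (h : TW τ) (hL : Pool.Agent.Helper278.LyapProp τ)
    (U : Ultrafilter ℕ)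
    (hU : ∀ n, {n} ∉ U) (φ : (ℕ →ᵇ A) →ₗ[ℂ] ℂ) (hφ : ULim τ U φ) (a : unitary (ℕ →ᵇ A))
    (ε : ℝ) (hε : 0 < ε) :
    ∃ (m : ℕ) (p : Fin m → (ℕ →ᵇ A)) (c : Fin m → ℂ), Pool.Agent.Helper278.PVM p ∧
      (∀ l, ‖c l‖ = 1) ∧
      (∀ n, n2 τ ((a : ℕ →ᵇ A) n - ∑ l, c l • p l n) ≤ ε) ∧
      ∀ l, ∀ θ : ℝ, 0 < θ → ∃ y ∈ Algebra.adjoin ℂ ({(a : ℕ →ᵇ A), star (a : ℕ →ᵇ A)} :
        Set (ℕ →ᵇ A)), n2 φ (p l - y) ≤ θ := by
  obtain ⟨Φ, hΦ1, -, hΦ3, hΦ4⟩ := hFCAL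
  obtain ⟨ΨB, hΨB⟩ : ∃ ΨB : C(Circle, ℂ) →⋆ₐ[ℂ] (ℕ →ᵇ A), ΨB = Φ (ℕ →ᵇ A) a := ⟨_, rfl⟩
  obtain ⟨Ψ, hΨ⟩ : ∃ Ψ : ℕ → (C(Circle, ℂ) →⋆ₐ[ℂ] A), Ψ = fun n => Φ A (un a n) := ⟨_, rfl⟩
  have hnat : ∀ (n : ℕ) (f : C(Circle, ℂ)), (ΨB f) n = Ψ n f := by
    intro n f
    have := hΦ4 (ℕ →ᵇ A) A (evn n) a (un a n) rfl f
    rw [hΨB, hΨ]
    exact this
  have hid : ∀ n, Ψ n ⟨fun z => (z : ℂ), by fun_prop⟩ = (a : ℕ →ᵇ A) n := by
    intro n
    rw [hΨ]
    exact hΦ1 A (un a n)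
  obtain ⟨m, c, f, g, hf0, hf1, hfc, hfg, hlim⟩ :=
    hCUT (TT φ ΨB) (fun f hf => TT_nonneg φ hφ.nonneg ΨB hf) ε hε
  -- the projections
  have hex : ∀ n, ∃ p : Fin m → A, Pool.Agent.Helper278.PVM p ∧
      (∀ i, τ (p i * 1) = τ (Ψ n (cx (f n i)) * 1)) ∧
      (∀ i, τ (p i * Ψ n (cx (f n i))) = τ (Ψ n (cx (f n i)) * Ψ n (cx (f n i)))) ∧
      (∀ i, τ (p i * (star ((a : ℕ →ᵇ A) n - (c i : ℂ) • (1 : A)) *
          ((a : ℕ →ᵇ A) n - (c i : ℂ) • (1 : A)))) =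
        τ (Ψ n (cx (f n i)) * (star ((a : ℕ →ᵇ A) n - (c i : ℂ) • (1 : A)) *
          ((a : ℕ →ᵇ A) n - (c i : ℂ) • (1 : A))))) := by
    intro n
    obtain ⟨D, hD1, -, hD3⟩ := hL (Set.range (Ψ n)) (by
      rintro _ ⟨q, rfl⟩
      exact ⟨star q, map_star _ _⟩) (by
      rintro _ ⟨q, rfl⟩ _ ⟨q', rfl⟩
      rw [← map_mul, ← map_mul, mul_comm])
    obtain ⟨p, -, hp, hpy⟩ := hD3 (Fin m) (Fin 3 × Fin m) (fun i => Ψ n (cx (f n i)))
      (fun k => if k.1 = 0 then 1 else if k.1 = 1 then Ψ n (cx (f n k.2)) else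
        star ((a : ℕ →ᵇ A) n - (c k.2 : ℂ) • (1 : A)) * ((a : ℕ →ᵇ A) n - (c k.2 : ℂ) • (1 : A)))
      (fun i => hD1 _ ⟨_, rfl⟩) (fun i => pos_cx (Ψ n) (hf0 n i)) (by
        rw [← map_sum, ← cx_sum, hf1, cx_one, map_one])
    refine ⟨p, hp, fun i => ?_, fun i => ?_, fun i => ?_⟩
    · simpa using hpy i (0, i)
    · simpa using hpy i (1, i)
    · simpa using hpy i (2, i)
  choose p hp hp1 hp2 hp3 using hex
  obtain ⟨P, hP⟩ : ∃ P : Fin m → (ℕ →ᵇ A), ∀ i n, P i n = p n i :=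
    ⟨fun i => BoundedContinuousFunction.ofNormedAddCommGroupDiscrete (fun n => p n i) 1
      (fun n => norm_proj ((hp n).star_eq i) ((hp n).idem i)), fun i n => rfl⟩
  have hPV : Pool.Agent.Helper278.PVM P := by
    refine ⟨fun i => ?_, fun i => ?_, fun i j hij => ?_, ?_⟩
    · ext n
      rw [BoundedContinuousFunction.star_apply, hP]
      exact (hp n).star_eq i
    · ext n
      rw [BoundedContinuousFunction.mul_apply, hP]
      exact (hp n).idem i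
    · ext n
      rw [BoundedContinuousFunction.mul_apply, hP, hP]
      exact (hp n).orth i j hij
    · ext n
      rw [BoundedContinuousFunction.sum_apply]
      simp_rw [hP]
      exact (hp n).sum
  refine ⟨m, P, fun i => (c i : ℂ), hPV, fun i => Circle.norm_coe _, fun n => ?_, fun i θ hθ => ?_⟩
  · have h1 := part2 h (Ψ n) _ (hid n) c (f n) (hf0 n) (hf1 n) ε (hfc n) (p n) (hp n) (hp3 n)
    simp_rw [hP]
    exact (pow_le_pow_iff_left₀ (Pool.Agent.H467F.n2_nonneg _ _) hε.le two_ne_zero).1 h1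
  · -- the estimate for the limit
    have hle1 : ∀ n i z, 0 ≤ f n i z ∧ f n i z ≤ 1 := by
      intro n i z
      refine ⟨hf0 n i z, ?_⟩
      have h1 := congrArg (fun q : C(Circle, ℝ) => q z) (hf1 n)
      simp only [ContinuousMap.coe_sum, Finset.sum_apply, ContinuousMap.one_apply] at h1
      rw [← h1]
      exact Finset.single_le_sum (f := fun i => f n i z) (fun i _ => hf0 n i z) (Finset.mem_univ i)
    have hn : ∀ j n, j ≤ n → n2 τ ((P i - ΨB (cx (f j i))) n) ≤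
        2 * Real.sqrt ((τ ((ΨB (cx (g j))) n)).re) := by
      intro j n hjn
      have e0 : (P i - ΨB (cx (f j i))) n = (p n i - Ψ n (cx (f n i))) +
          (Ψ n (cx (f n i)) - Ψ n (cx (f j i))) := by
        rw [BoundedContinuousFunction.sub_apply, hP, hnat]
        abel
      have e1 : n2 τ (p n i - Ψ n (cx (f n i))) ≤ Real.sqrt ((τ ((ΨB (cx (g j))) n)).re) := by
        apply Real.le_sqrt_of_sq_le
        rw [part1 h (Ψ n) (f n i) (p n i) ((hp n).star_eq i) ((hp n).idem i) (hp1 n i) (hp2 n i),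
          hnat, ← TT_apply]
        apply TT_mono τ h.nonneg
        intro z
        exact (hfg j n i z hjn).2
      have e2 : n2 τ (Ψ n (cx (f n i)) - Ψ n (cx (f j i))) ≤
          Real.sqrt ((τ ((ΨB (cx (g j))) n)).re) := by
        apply Real.le_sqrt_of_sq_le
        rw [h.n2_sq, ← map_sub, ← cx_sub, ← map_star, ← map_mul, cx_star, ← cx_mul, hnat,
          ← TT_apply, ← TT_apply]
        apply TT_mono τ h.nonneg
        intro z
        have k1 := (hfg j n i z hjn).1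
        have k2 := hle1 n i z
        have k3 := hle1 j i z
        simp only [ContinuousMap.mul_apply, ContinuousMap.sub_apply]
        have k4 : |f n i z - f j i z| ≤ 1 := by
          rw [abs_le]; constructor <;> linarith
        have k5 : (f n i z - f j i z) * (f n i z - f j i z) =
            |f n i z - f j i z| * |f n i z - f j i z| := (abs_mul_abs_self _).symm
        rw [k5]
        nlinarith [abs_nonneg (f n i z - f j i z)]
      rw [e0]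
      have e3 := h.n2_add_le (p n i - Ψ n (cx (f n i))) (Ψ n (cx (f n i)) - Ψ n (cx (f j i)))
      linarith
    have hlimj : ∀ j, n2 φ (P i - ΨB (cx (f j i))) ≤ 2 * Real.sqrt (TT φ ΨB (g j)) := by
      intro j
      have t1 := hφ.lim2 (P i - ΨB (cx (f j i)))
      have t2 := hφ.lim (ΨB (cx (g j)))
      have t3 : Tendsto (fun n => 2 * Real.sqrt ((τ ((ΨB (cx (g j))) n)).re)) U
          (𝓝 (2 * Real.sqrt (TT φ ΨB (g j)))) := by
        have t4 : Tendsto (fun n => ((τ ((ΨB (cx (g j))) n)).re)) U (𝓝 (TT φ ΨB (g j))) :=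
          (Complex.continuous_re.tendsto _).comp t2
        exact ((Real.continuous_sqrt.tendsto _).comp t4).const_mul 2
      refine le_of_tendsto_of_tendsto t1 t3 ?_
      filter_upwards [ev_ge U hU j] with n hjn
      exact hn j n hjn
    -- choice of `j`
    have hsm : Tendsto (fun j => 2 * Real.sqrt (TT φ ΨB (g j))) atTop (𝓝 0) := by
      have t5 := ((Real.continuous_sqrt.tendsto _).comp hlim).const_mul 2
      rw [Real.sqrt_zero, mul_zero] at t5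
      exact t5
    obtain ⟨j, hj⟩ := (hsm.eventually_lt_const (show (0 : ℝ) < θ / 2 by linarith)).exists
    obtain ⟨y, hy, hyn⟩ := hΦ3 (ℕ →ᵇ A) a (cx (f j i)) (θ / 2) (by linarith)
    refine ⟨y, hy, ?_⟩
    have s1 := hφ.n2_add (P i - ΨB (cx (f j i))) (ΨB (cx (f j i)) - y)
    rw [sub_add_sub_cancel] at s1
    have s2 := hφ.n2_le (ΨB (cx (f j i)) - y)
    rw [← hΨB] at hyn
    have s3 := hlimj j
    linarith

end Pool.Agent.H30K
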