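import Mathlib
import Pool.Agent.H30R4.KI.Defs
import Pool.Agent.H30R4.KI.T_ST1
import Pool.Agent.H30R4.KI.T_CUT
import Pool.Agent.H30R4.KI.T_FCAL

/-!
MP_64d6f1_an, task ST1M: merging the projections of limit trace zero.
-/

set_option autoImplicit false

open scoped ComplexOrder Topology BoundedContinuousFunction ComplexConjugate
open Filter

noncomputable section

namespace Pool.Agent.H30K

open Pool.Agent.H467F (TW)

variable {A : Type} [CStarAlgebra A] {τ : A →ₗ[ℂ] ℂ}

open Pool.Agent.H467F (n2)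

namespace ST1M

/-- Merging a projection valued measure. -/
theorem pvm_merge {B : Type} [Ring B] [StarRing B] [Algebra ℂ B] {ι κ : Type} [Fintype ι]
    [Fintype κ] [DecidableEq κ] (p : ι → B) (hp : Pool.Agent.Helper278.PVM p) (g : ι → κ) :
    Pool.Agent.Helper278.PVM fun k : κ => ∑ i with g i = k, p i := by
  classical
  refine ⟨fun k => ?_, fun k => ?_, fun k k' hk => ?_, ?_⟩
  · rw [star_sum]
    exact Finset.sum_congr rfl fun i _ => hp.star_eq i
  · rw [Finset.sum_mul_sum]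
    refine Finset.sum_congr rfl fun i hi => ?_
    rw [Finset.sum_eq_single i]
    · exact hp.idem i
    · intro j _ hj
      exact hp.orth i j (Ne.symm hj)
    · intro h
      exact absurd hi h
  · rw [Finset.sum_mul_sum]
    refine Finset.sum_eq_zero fun i hi => Finset.sum_eq_zero fun j hj => ?_
    refine hp.orth i j ?_
    rintro rfl
    exact hk ((Finset.mem_filter.1 hi).2.symm.trans (Finset.mem_filter.1 hj).2)
  · rw [← hp.sum]
    exact Finset.sum_fiberwise_of_maps_to (fun i _ => Finset.mem_univ (g i)) p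

theorem n2_nonneg' (φ : (ℕ →ᵇ A) →ₗ[ℂ] ℂ) (x : ℕ →ᵇ A) : 0 ≤ n2 φ x := Real.sqrt_nonneg _

theorem n2_smul_zero {U : Ultrafilter ℕ} {φ : (ℕ →ᵇ A) →ₗ[ℂ] ℂ} (hφ : ULim τ U φ) (c : ℂ)
    (x : ℕ →ᵇ A) (hx : n2 φ x = 0) : n2 φ (c • x) = 0 := by
  refine le_antisymm ?_ (n2_nonneg' φ _)
  have h1 := hφ.n2_mul_left (c • (1 : ℕ →ᵇ A)) x
  rw [hx, mul_zero, smul_mul_assoc, one_mul] at h1
  exact h1

theorem n2_sum_zero {U : Ultrafilter ℕ} {φ : (ℕ →ᵇ A) →ₗ[ℂ] ℂ} (hφ : ULim τ U φ) {ι : Type}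
    (s : Finset ι) (x : ι → (ℕ →ᵇ A)) (hx : ∀ i ∈ s, n2 φ (x i) = 0) :
    n2 φ (∑ i ∈ s, x i) = 0 := by
  classical
  induction s using Finset.induction_on with
  | empty =>
    rw [Finset.sum_empty]
    show Real.sqrt (φ (star (0 : ℕ →ᵇ A) * 0)).re = 0
    rw [mul_zero, map_zero, Complex.zero_re, Real.sqrt_zero]
  | insert i s hi ih =>
    rw [Finset.sum_insert hi]
    refine le_antisymm ?_ (n2_nonneg' φ _)
    have h1 := hφ.n2_add (x i) (∑ i ∈ s, x i)
    rw [ih fun j hj => hx j (Finset.mem_insert_of_mem hj), hx i (Finset.mem_insert_self i s),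
      add_zero] at h1
    exact h1

end ST1M

open ST1M in
/-- ST1M: merging the projections of limit trace zero -/
theorem stage1 (h : TW τ) (hL : Pool.Agent.Helper278.LyapProp τ) (U : Ultrafilter ℕ)
    (hU : ∀ n, {n} ∉ U) (φ : (ℕ →ᵇ A) →ₗ[ℂ] ℂ) (hφ : ULim τ U φ) (a : unitary (ℕ →ᵇ A))
    (ε : ℝ) (hε : 0 < ε) :
    ∃ (m : ℕ) (p : Fin (m + 1) → (ℕ →ᵇ A)) (c : Fin (m + 1) → ℂ), Pool.Agent.Helper278.PVM p ∧
      (∀ l, ‖c l‖ = 1) ∧ (∀ l, φ (p l) ≠ 0) ∧
      (∀ᶠ n in (U : Filter ℕ), n2 τ ((a : ℕ →ᵇ A) n - ∑ l, c l • p l n) ≤ ε) ∧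
      ∀ l, ∀ θ : ℝ, 0 < θ → ∃ y ∈ Algebra.adjoin ℂ ({(a : ℕ →ᵇ A), star (a : ℕ →ᵇ A)} :
        Set (ℕ →ᵇ A)), n2 φ (p l - y) ≤ θ := by
  classical
  obtain ⟨m, p, c, hp, hc, hn, happ⟩ := stage1a cut fcal h hL U hU φ hφ a (ε / 2) (half_pos hε)
  have hsum : ∑ l, φ (p l) = 1 := by rw [← map_sum, hp.sum, hφ.one]
  have hex : ∃ l0, φ (p l0) ≠ 0 := by
    by_contra hcon
    rw [Finset.sum_eq_zero fun l _ => not_not.1 (not_exists.1 hcon l)] at hsum
    exact zero_ne_one hsum
  obtain ⟨l0, hl0⟩ := hex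
  -- the projections of limit trace zero
  have hzero : ∀ l, φ (p l) = 0 → n2 φ (p l) = 0 := by
    intro l hl
    show Real.sqrt (φ (star (p l) * p l)).re = 0
    rw [hp.star_eq, hp.idem, hl, Complex.zero_re, Real.sqrt_zero]
  let P : Type := {l : Fin m // φ (p l) ≠ 0}
  let g : Fin m → P := fun l => if hl : φ (p l) ≠ 0 then ⟨l, hl⟩ else ⟨l0, hl0⟩
  have hg1 : ∀ l : P, g l.1 = l := fun l => by
    simp only [g, dif_pos l.2]
    exact Subtype.ext rfl
  have hg2 : ∀ l : Fin m, φ (p l) = 0 ∨ (g l).1 = l := by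
    intro l
    by_cases hl : φ (p l) = 0
    · exact Or.inl hl
    · right
      simp only [g, dif_pos hl]
  have hcard : ∃ m', Fintype.card P = m' + 1 := by
    have : 0 < Fintype.card P := Fintype.card_pos_iff.2 ⟨⟨l0, hl0⟩⟩
    exact ⟨Fintype.card P - 1, by omega⟩
  obtain ⟨m', hm'⟩ := hcard
  let e : P ≃ Fin (m' + 1) := (Fintype.equivFin P).trans (finCongr hm')
  have hP := pvm_merge p hp (fun l => e (g l))
  -- the merged projection minus the main one
  have hdiff : ∀ k : Fin (m' + 1), n2 φ ((∑ i with e (g i) = k, p i) - p (e.symm k).1) = 0 := by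
    intro k
    have h1 : (e.symm k).1 ∈ Finset.univ.filter fun i => e (g i) = k := by
      rw [Finset.mem_filter]
      refine ⟨Finset.mem_univ _, ?_⟩
      rw [hg1, Equiv.apply_symm_apply]
    rw [← Finset.add_sum_erase _ _ h1, add_sub_cancel_left]
    refine n2_sum_zero hφ _ _ fun i hi => hzero i ?_
    rw [Finset.mem_erase, Finset.mem_filter] at hi
    rcases hg2 i with h2 | h2
    · exact h2
    · exfalso
      apply hi.1
      rw [← hi.2.2, Equiv.symm_apply_apply, h2]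
  refine ⟨m', fun k => ∑ i with e (g i) = k, p i, fun k => c (e.symm k).1, hP,
    fun k => hc _, ?_, ?_, ?_⟩
  · intro k
    have h1 : φ ((∑ i with e (g i) = k, p i) - p (e.symm k).1) = 0 := by
      have h2 := hφ.norm_le ((∑ i with e (g i) = k, p i) - p (e.symm k).1)
      rw [hdiff k] at h2
      exact norm_le_zero_iff.1 h2
    rw [map_sub, sub_eq_zero] at h1
    show φ (∑ i with e (g i) = k, p i) ≠ 0
    rw [h1]
    exact (e.symm k).2
  · -- the change of the sum
    let x : ℕ →ᵇ A := ∑ l, (c l - c (g l).1) • p l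
    have hx : n2 φ x = 0 := by
      refine n2_sum_zero hφ _ _ fun l _ => ?_
      rcases hg2 l with h2 | h2
      · exact n2_smul_zero hφ _ _ (hzero l h2)
      · rw [h2, sub_self, zero_smul]
        have := n2_sum_zero hφ (∅ : Finset (Fin 1)) (fun _ => 0) (by simp)
        rwa [Finset.sum_empty] at this
    have hx2 := hφ.lim2 x
    rw [hx] at hx2
    have hx3 : ∀ᶠ n in (U : Filter ℕ), n2 τ (x n) < ε / 2 :=
      hx2.eventually (gt_mem_nhds (half_pos hε))
    filter_upwards [hx3] with n hn2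
    have h1 : (a : ℕ →ᵇ A) n - ∑ k, c (e.symm k).1 • (∑ i with e (g i) = k, p i : ℕ →ᵇ A) n =
        ((a : ℕ →ᵇ A) n - ∑ l, c l • p l n) + x n := by
      have h2 : ∑ k, c (e.symm k).1 • (∑ i with e (g i) = k, p i : ℕ →ᵇ A) n =
          ∑ l, c (g l).1 • p l n := by
        rw [← Finset.sum_fiberwise_of_maps_to (fun i _ => Finset.mem_univ (e (g i)))
          (fun l => c (g l).1 • p l n)]
        refine Finset.sum_congr rfl fun k _ => ?_
        rw [BoundedContinuousFunction.coe_sum, Finset.sum_apply, Finset.smul_sum]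
        refine Finset.sum_congr rfl fun i hi => ?_
        rw [← (Finset.mem_filter.1 hi).2, Equiv.symm_apply_apply]
      rw [h2]
      have h3 : x n = ∑ l, (c l - c (g l).1) • p l n := by
        simp only [x]
        rw [BoundedContinuousFunction.coe_sum, Finset.sum_apply]
        rfl
      rw [h3]
      simp only [sub_smul, Finset.sum_sub_distrib]
      abel
    rw [h1]
    refine (h.n2_add_le _ _).trans ?_
    have := hn n
    linarith
  · intro k θ hθ
    obtain ⟨y, hy, hy2⟩ := happ (e.symm k).1 θ hθ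
    refine ⟨y, hy, ?_⟩
    have h1 : (∑ i with e (g i) = k, p i) - y =
        ((∑ i with e (g i) = k, p i) - p (e.symm k).1) + (p (e.symm k).1 - y) := by abel
    rw [h1]
    refine (hφ.n2_add _ _).trans ?_
    rw [hdiff k, zero_add]
    exact hy2

end Pool.Agent.H30K
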