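import Pool.Agent.H30R4.KI.Defs

/-!
KISP: it is enough to know the even words in the centered letters.
-/

set_option autoImplicit false

open scoped ComplexOrder Topology BoundedContinuousFunction ComplexConjugate
open Filter

noncomputable section

namespace Pool.Agent.H30K

open Pool.Agent.H467F (TW)

variable {A : Type} [CStarAlgebra A] {τ : A →ₗ[ℂ] ℂ}

namespace KISP

/-- the span of the letters of one side is the algebra they generate -/
theorem spn_le {Λ : Type} [Fintype Λ] [DecidableEq Λ] (sd : Λ → Bool)
    (p : Λ → A) (hp : PV2 sd p) (b : Bool) (x : A) (hx : x ∈ spn sd p b) :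
    x ∈ Submodule.span ℂ {y : A | ∃ l, sd l = b ∧ y = p l} := by
  have h1 : (1 : A) ∈ Submodule.span ℂ {y : A | ∃ l, sd l = b ∧ y = p l} := by
    rw [← hp.sum b]
    exact Submodule.sum_mem _ fun l _ => Submodule.subset_span ⟨l.1, l.2, rfl⟩
  have hmul : ∀ x y : A, x ∈ Submodule.span ℂ {y : A | ∃ l, sd l = b ∧ y = p l} →
      y ∈ Submodule.span ℂ {y : A | ∃ l, sd l = b ∧ y = p l} →
      x * y ∈ Submodule.span ℂ {y : A | ∃ l, sd l = b ∧ y = p l} := by
    intro x y hx hy
    induction hx using Submodule.span_induction with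
    | zero => rw [zero_mul]; exact Submodule.zero_mem _
    | add u v _ _ hu hv => rw [add_mul]; exact Submodule.add_mem _ hu hv
    | smul c u _ hu => rw [smul_mul_assoc]; exact Submodule.smul_mem _ _ hu
    | mem u hu =>
      obtain ⟨l, hl, rfl⟩ := hu
      induction hy using Submodule.span_induction with
      | zero => rw [mul_zero]; exact Submodule.zero_mem _
      | add u v _ _ hu hv => rw [mul_add]; exact Submodule.add_mem _ hu hv
      | smul c u _ hu => rw [mul_smul_comm]; exact Submodule.smul_mem _ _ hu
      | mem v hv =>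
        obtain ⟨m, hm, rfl⟩ := hv
        by_cases hlm : l = m
        · subst hlm
          rw [hp.idem]
          exact Submodule.subset_span ⟨l, hl, rfl⟩
        · rw [hp.orth l m hlm (hl.trans hm.symm)]
          exact Submodule.zero_mem _
  unfold spn at hx
  induction hx using Algebra.adjoin_induction with
  | mem x hx => exact Submodule.subset_span hx
  | algebraMap r =>
    rw [Algebra.algebraMap_eq_smul_one]
    exact Submodule.smul_mem _ _ h1
  | add x y _ _ hx hy => exact Submodule.add_mem _ hx hy
  | mul x y _ _ hx hy => exact hmul x y hx hy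

/-- the span of the centered letters of one side -/
def Ctr (τ : A →ₗ[ℂ] ℂ) {Λ : Type} (sd : Λ → Bool) (l0 : Bool → Λ) (p : Λ → A) (b : Bool) :
    Submodule ℂ A :=
  Submodule.span ℂ {y : A | ∃ l : Lam sd l0, sd' sd l0 l = b ∧ y = ctr τ sd l0 p l}

theorem letter_mem (h : TW τ) {Λ : Type} [Fintype Λ] [DecidableEq Λ] (sd : Λ → Bool)
    (p : Λ → A) (hp : PV2 sd p) (l0 : Bool → Λ) (hl0 : ∀ b, sd (l0 b) = b) (b : Bool) (l : Λ)
    (hl : sd l = b) : p l - τ (p l) • (1 : A) ∈ Ctr τ sd l0 p b := by
  by_cases h0 : l = l0 b
  · subst h0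
    have hsum := hp.sum b
    rw [Fintype.sum_eq_add_sum_compl (⟨l0 b, hl⟩ : {l : Λ // sd l = b})] at hsum
    have e1 : p (l0 b) = 1 - ∑ l ∈ ({(⟨l0 b, hl⟩ : {l : Λ // sd l = b})}ᶜ :
        Finset {l : Λ // sd l = b}), p l.1 := by
      rw [← hsum]
      abel
    have e2 : p (l0 b) - τ (p (l0 b)) • (1 : A) =
        -∑ l ∈ ({(⟨l0 b, hl⟩ : {l : Λ // sd l = b})}ᶜ :
        Finset {l : Λ // sd l = b}), (p l.1 - τ (p l.1) • (1 : A)) := by
      rw [e1, map_sub, h.one, map_sum, Finset.sum_sub_distrib, sub_smul, one_smul, Finset.sum_smul]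
      abel
    rw [e2]
    refine Submodule.neg_mem _ (Submodule.sum_mem _ fun l hl2 => ?_)
    refine Submodule.subset_span ⟨⟨l.1, ?_⟩, l.2, rfl⟩
    intro hcon
    rw [l.2] at hcon
    have : l = ⟨l0 b, hl⟩ := Subtype.ext hcon
    simp [this] at hl2
  · refine Submodule.subset_span ⟨⟨l, ?_⟩, hl, rfl⟩
    rw [hl]
    exact h0

theorem centered_mem (h : TW τ) {Λ : Type} [Fintype Λ] [DecidableEq Λ] (sd : Λ → Bool)
    (p : Λ → A) (hp : PV2 sd p) (l0 : Bool → Λ) (hl0 : ∀ b, sd (l0 b) = b) (b : Bool) (x : A)
    (hx : x ∈ spn sd p b) : x - τ x • (1 : A) ∈ Ctr τ sd l0 p b := by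
  have hx2 := spn_le sd p hp b x hx
  induction hx2 using Submodule.span_induction with
  | zero => rw [map_zero, zero_smul, sub_zero]; exact Submodule.zero_mem _
  | add u v hu' hv' hu hv =>
    have e : u + v - τ (u + v) • (1 : A) = (u - τ u • (1 : A)) + (v - τ v • (1 : A)) := by
      rw [map_add, add_smul]; abel
    rw [e]
    have key : ∀ w : A, w ∈ Submodule.span ℂ {y : A | ∃ l, sd l = b ∧ y = p l} →
        w ∈ spn sd p b := by
      intro w hw
      unfold spn
      exact (Submodule.span_le.2 (fun y hy => Algebra.subset_adjoin hy) :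
        Submodule.span ℂ {y : A | ∃ l, sd l = b ∧ y = p l} ≤
          Subalgebra.toSubmodule (Algebra.adjoin ℂ {y : A | ∃ l, sd l = b ∧ y = p l})) hw
    exact Submodule.add_mem _ (hu (key u hu')) (hv (key v hv'))
  | smul c u hu' hu =>
    have e : c • u - τ (c • u) • (1 : A) = c • (u - τ u • (1 : A)) := by
      rw [map_smul, smul_sub, smul_smul, smul_eq_mul]
    rw [e]
    have key : ∀ w : A, w ∈ Submodule.span ℂ {y : A | ∃ l, sd l = b ∧ y = p l} →
        w ∈ spn sd p b := by
      intro w hw
      unfold spn
      exact (Submodule.span_le.2 (fun y hy => Algebra.subset_adjoin hy) :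
        Submodule.span ℂ {y : A | ∃ l, sd l = b ∧ y = p l} ≤
          Subalgebra.toSubmodule (Algebra.adjoin ℂ {y : A | ∃ l, sd l = b ∧ y = p l})) hw
    exact Submodule.smul_mem _ _ (hu (key u hu'))
  | mem u hu =>
    obtain ⟨l, hl, rfl⟩ := hu
    exact letter_mem h sd p hp l0 hl0 b l hl

/-- multilinearity -/
theorem multi {Λ : Type} (sd : Λ → Bool) (p : Λ → A) (l0 : Bool → Λ) (L : List (Bool × A)) :
    ∀ (ψ : A →ₗ[ℂ] ℂ), (∀ x ∈ L, x.2 ∈ Ctr τ sd l0 p x.1) →
    (∀ M : List (Lam sd l0), M.map (sd' sd l0) = L.map Prod.fst →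
      ψ (zv (ctr τ sd l0 p) M) = 0) → ψ (L.map Prod.snd).prod = 0 := by
  induction L with
  | nil =>
    intro ψ _ hM
    have := hM [] rfl
    simpa [zv] using this
  | cons x L ih =>
    intro ψ hL hM
    obtain ⟨b, x⟩ := x
    have hx : x ∈ Ctr τ sd l0 p b := hL (b, x) (by simp)
    have hL' : ∀ y ∈ L, y.2 ∈ Ctr τ sd l0 p y.1 := fun y hy => hL y (by simp [hy])
    rw [List.map_cons, List.prod_cons]
    unfold Ctr at hx
    replace hM : ∀ M : List (Lam sd l0), M.map (sd' sd l0) = b :: L.map Prod.fst →
      ψ (zv (ctr τ sd l0 p) M) = 0 := hM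
    clear hL
    change ψ (x * (L.map Prod.snd).prod) = 0
    induction hx using Submodule.span_induction with
    | zero => rw [zero_mul, map_zero]
    | add u v _ _ hu hv => rw [add_mul, map_add, hu, hv, add_zero]
    | smul c u _ hu => rw [smul_mul_assoc, map_smul, hu, smul_zero]
    | mem u hu =>
      obtain ⟨l, hl, rfl⟩ := hu
      have := ih (ψ ∘ₗ LinearMap.mulLeft ℂ (ctr τ sd l0 p l)) hL' (fun M hM' => by
        have h2 := hM (l :: M) (by rw [List.map_cons, hM', hl])
        simpa [zv] using h2)
      simpa using this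

theorem getLast_side : ∀ (n : ℕ) (l : List Bool) (b : Bool), l.length = 2 * n →
    (b :: l).IsChain (fun x y => x ≠ y) → (b :: l).getLast (by simp) = b := by
  intro n
  induction n with
  | zero =>
    intro l b hl _
    have : l = [] := List.length_eq_zero_iff.1 (by omega)
    subst this
    rfl
  | succ n ih =>
    intro l b hl hc
    match l, hl, hc with
    | c :: d :: r, hl, hc =>
      rw [List.isChain_cons_cons, List.isChain_cons_cons] at hc
      obtain ⟨h1, h2, h3⟩ := hc
      have hd : d = b := by
        revert h1 h2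
        cases b <;> cases c <;> cases d <;> simp
      have := ih r d (by simp at hl; omega) h3
      rw [List.getLast_cons (by simp), List.getLast_cons (by simp), this, hd]
    | [c], hl, _ => simp at hl; omega
    | [], hl, _ => simp at hl

end KISP

open KISP in
/-- KISP: it is enough to know the even words in the centered letters. -/
theorem kis_of_words (h : TW τ) {Λ : Type} [Fintype Λ] [DecidableEq Λ] (sd : Λ → Bool)
    (p : Λ → A) (hp : PV2 sd p) (l0 : Bool → Λ) (hl0 : ∀ b, sd (l0 b) = b) (N : ℕ)
    (hw : ∀ L : Wd (sd' sd l0) N, τ (zv (ctr τ sd l0 p) L.1) = 0) : KIS τ (spn sd p) N := by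
  intro L
  -- strong induction on the length
  induction hn : L.length using Nat.strong_induction_on generalizing L with
  | _ n ih =>
  intro hne hlen hch hmem
  rcases Nat.even_or_odd n with hev | hodd
  · -- even length
    have hc : ∀ x ∈ L, x.2 ∈ Ctr τ sd l0 p x.1 := by
      intro x hx
      have h1 := centered_mem h sd p hp l0 hl0 x.1 x.2 (hmem x hx).1
      rwa [(hmem x hx).2, zero_smul, sub_zero] at h1
    refine multi sd p l0 L τ hc (fun M hM => ?_)
    have hMl : M.length = L.length := by
      have := congrArg List.length hM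
      simpa using this
    have hMc : Alt (sd' sd l0) M := by
      unfold Alt
      rw [← List.isChain_map (R := fun x y : Bool => x ≠ y), hM, List.isChain_map]
      exact hch
    refine hw ⟨M, hMc, ?_, ?_, ?_⟩
    · rw [hMl, hn]; exact hev
    · intro h0
      rw [h0] at hMl
      exact hne (List.length_eq_zero_iff.1 hMl.symm)
    · rw [hMl, hn]; omega
  · -- odd length
    match L, hn, hne, hch, hmem with
    | [x], _, _, _, hmem =>
      simp only [List.map_cons, List.map_nil, List.prod_cons, List.prod_nil, mul_one]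
      exact (hmem x (by simp)).2
    | x :: y :: R, hn, _, hch, hmem =>
      obtain ⟨mid, x', hmid⟩ : ∃ (mid : List (Bool × A)) (x' : Bool × A),
          y :: R = mid ++ [x'] := by
        refine ⟨(y :: R).dropLast, (y :: R).getLast (by simp), ?_⟩
        rw [List.dropLast_append_getLast]
      rw [hmid] at hn hch hmem ⊢
      have hlen2 : mid.length + 2 = n := by
        rw [← hn]; simp
      have hmidne : mid ≠ [] := by
        intro h0
        rw [h0, List.length_nil] at hlen2
        rw [← hlen2] at hodd
        exact absurd hodd (by decide)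
      -- sides of the first and last letters agree
      have hside : x'.1 = x.1 := by
        obtain ⟨k, hk⟩ := hodd
        have h1 : ((x :: (mid ++ [x'])).map Prod.fst).IsChain (fun x y : Bool => x ≠ y) := by
          rw [List.isChain_map]
          exact hch
        have h2 := getLast_side k ((mid ++ [x']).map Prod.fst) x.1 (by simp; omega)
          (by simpa using h1)
        simpa using h2
      have hch1 : (mid ++ [x']).IsChain (fun x y => x.1 ≠ y.1) := (List.isChain_cons.1 hch).2
      have hch2 : mid.IsChain (fun x y => x.1 ≠ y.1) := hch1.left_of_append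
      have hch3 : (x :: mid).IsChain (fun x y => x.1 ≠ y.1) := by
        have : (x :: mid) ++ [x'] = x :: (mid ++ [x']) := rfl
        rw [← this] at hch
        exact hch.left_of_append
      have hx := hmem x (by simp)
      have hx' := hmem x' (by simp)
      have hmm : ∀ z ∈ mid, z.2 ∈ spn sd p z.1 ∧ τ z.2 = 0 := fun z hz => hmem z (by simp [hz])
      -- the cyclic shift
      have e1 : ((x :: (mid ++ [x'])).map Prod.snd).prod = x.2 * (mid.map Prod.snd).prod * x'.2 := by
        simp [mul_assoc]
      rw [e1, h.comm, ← mul_assoc]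
      set q : A := x'.2 * x.2 with hq
      have hqm : q ∈ spn sd p x.1 := by
        refine Subalgebra.mul_mem _ ?_ hx.1
        rw [← hside]
        exact hx'.1
      have e2 : q * (mid.map Prod.snd).prod =
          (q - τ q • (1 : A)) * (mid.map Prod.snd).prod + τ q • (mid.map Prod.snd).prod := by
        rw [sub_mul, smul_mul_assoc, one_mul]
        abel
      rw [e2, map_add, map_smul]
      have e3 : τ (mid.map Prod.snd).prod = 0 :=
        ih mid.length (by omega) mid rfl hmidne (by omega) hch2 hmm
      have e4 : τ ((q - τ q • (1 : A)) * (mid.map Prod.snd).prod) = 0 := by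
        have := ih (mid.length + 1) (by omega) ((x.1, q - τ q • (1 : A)) :: mid) (by simp)
          (by simp) (by omega) (by
            rw [List.isChain_cons] at hch3 ⊢
            exact hch3) (by
            intro z hz
            rcases List.mem_cons.1 hz with rfl | hz
            · refine ⟨Subalgebra.sub_mem _ hqm (Subalgebra.smul_mem _ (Subalgebra.one_mem _) _), ?_⟩
              simp [h.one]
            · exact hmm z hz)
        simpa using this
      rw [e3, e4, smul_zero, add_zero]

end Pool.Agent.H30K

end
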