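import Pool.Agent.H30R4.KI.Defs

/-!
Task NEWT: uniform Newton theorem along an ultrafilter.
-/

set_option autoImplicit false

open scoped Topology
open Filter

noncomputable section

namespace Pool.Agent.H30K

/-- NEWT -/
theorem newton {E : Type} [NormedAddCommGroup E] [NormedSpace ℝ E] [FiniteDimensional ℝ E]
    (U : Ultrafilter ℕ) (f : ℕ → E → E) (G : E →ₗ[ℝ] E) (hG : Function.Injective G)
    (hf : ∀ c : ℝ, 0 < c → ∃ ρ : ℝ, 0 < ρ ∧ ∀ᶠ n in (U : Filter ℕ), ∀ x y : E, ‖x‖ ≤ ρ → ‖y‖ ≤ ρ →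
      ‖f n x - f n y - G (x - y)‖ ≤ c * ‖x - y‖)
    (h0 : Tendsto (fun n => f n 0) U (𝓝 0)) (ε : ℝ) (hε : 0 < ε) :
    ∀ᶠ n in (U : Filter ℕ), ∃ x : E, ‖x‖ ≤ ε ∧ f n x = 0 := by
  have : CompleteSpace E := FiniteDimensional.complete ℝ E
  let G' : E ≃L[ℝ] E := (LinearEquiv.ofInjectiveEndo G hG).toContinuousLinearEquiv
  have hG' : ∀ x, G' x = G x := fun x => rfl
  let R : (G' : E →L[ℝ] E).NonlinearRightInverse :=
    { toFun := fun y => G'.symm y
      nnnorm := ‖(G'.symm : E →L[ℝ] E)‖₊ + 1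
      bound' := fun y => by
        have h1 : ‖(G'.symm : E →L[ℝ] E) y‖ ≤ ‖(G'.symm : E →L[ℝ] E)‖ * ‖y‖ :=
          (G'.symm : E →L[ℝ] E).le_opNorm y
        have h2 : ‖G'.symm y‖ = ‖(G'.symm : E →L[ℝ] E) y‖ := rfl
        rw [h2]
        push_cast
        have := norm_nonneg y
        nlinarith
      right_inv' := fun y => by simp }
  have hR : (0 : ℝ) < ((R.nnnorm : NNReal) : ℝ) := by
    have : R.nnnorm = ‖(G'.symm : E →L[ℝ] E)‖₊ + 1 := rfl
    rw [this]
    push_cast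
    positivity
  let c : NNReal := R.nnnorm⁻¹ / 2
  have hc : (c : ℝ) = (R.nnnorm : ℝ)⁻¹ / 2 := by
    simp [c]
  have hc0 : 0 < (c : ℝ) := by rw [hc]; positivity
  obtain ⟨ρ, hρ, hev⟩ := hf c hc0
  have hr : 0 < min ρ ε := lt_min hρ hε
  have h0' : ∀ᶠ n in (U : Filter ℕ), ‖f n 0‖ ≤ c * min ρ ε := by
    have h1 : ∀ᶠ n in (U : Filter ℕ), f n 0 ∈ Metric.closedBall (0 : E) (c * min ρ ε) :=
      h0 (Metric.closedBall_mem_nhds _ (by positivity))
    filter_upwards [h1] with n hn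
    simpa using hn
  filter_upwards [hev, h0'] with n hn hn0
  have hA : ApproximatesLinearOn (f n) (G' : E →L[ℝ] E) (Metric.closedBall 0 ρ) c := by
    intro x hx y hy
    have h1 := hn x y (by simpa using hx) (by simpa using hy)
    have e : (G' : E →L[ℝ] E) (x - y) = G (x - y) := rfl
    rw [e]
    exact h1
  have hS := hA.surjOn_closedBall_of_nonlinearRightInverse R (ε := min ρ ε) (b := 0) hr.le
    (Metric.closedBall_subset_closedBall (min_le_left _ _))
  have hmem : (0 : E) ∈ Metric.closedBall (f n 0) (((R.nnnorm : ℝ)⁻¹ - c) * min ρ ε) := by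
    rw [Metric.mem_closedBall, dist_comm, dist_zero_right]
    refine hn0.trans (le_of_eq ?_)
    rw [hc]
    ring
  obtain ⟨x, hx, hx0⟩ := hS hmem
  refine ⟨x, ?_, hx0⟩
  have : ‖x‖ ≤ min ρ ε := by simpa using hx
  exact this.trans (min_le_right _ _)

end Pool.Agent.H30K
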