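import Mathlib
import Pool.Agent.H30R4.KI.Defs

/-!
The gradients are linearly independent.
-/

set_option autoImplicit false

open scoped ComplexOrder Topology BoundedContinuousFunction ComplexConjugate
open Filter

noncomputable section

namespace Pool.Agent.H30K

/-- The statement `PAIR`. -/
def S_PAIR_nd : Prop :=
  ∀ {B : Type} [Ring B] [Algebra ℂ B] (φ : B →ₗ[ℂ] ℂ) (_ : φ 1 = 1) (s : B) (_ : s * s = 1)
    (S : Bool → Subalgebra ℂ B) (C : Subalgebra ℂ B) (_ : ∀ b, S b ≤ C)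
    (_ : FreeOver φ s C) (N : ℕ) (_ : KIS φ S N)
    {Λ : Type} [DecidableEq Λ] (sd : Λ → Bool) (z zh : Λ → B)
    (_ : ∀ l, z l ∈ S (sd l) ∧ φ (z l) = 0) (_ : ∀ l, zh l ∈ S (sd l) ∧ φ (zh l) = 0)
    (_ : ∀ l m, sd l = sd m → φ (zh l * z m) = if l = m then 1 else 0)
    (κ₀ κ₁ κ₀' κ₁' : ℂ) (L M : List Λ) (_ : Alt sd L) (_ : Alt sd M)
    (_ : Even L.length) (_ : Even M.length) (_ : L ≠ []) (_ : M ≠ [])
    (_ : L.length ≤ N) (_ : M.length ≤ L.length) (_ : sg sd L = 1),
    φ ((L.reverse.map fun l => zh l * s).prod *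
      zv (zc sd z (κ₀ • 1 + κ₁ • s) (κ₀' • 1 + κ₁' • s)) M) =
      if L = M then (κ₁ * κ₁') ^ (L.length / 2) else 0

theorem nd_last {Λ : Type} (sd : Λ → Bool) (L : List Λ) : ∀ (a x : Λ), Alt sd (a :: L) →
    (a :: L).getLast? = some x → sd x = (if Even L.length then sd a else !sd a) := by
  induction L with
  | nil =>
    intro a x _ h
    simp only [List.getLast?_singleton, Option.some.injEq] at h
    subst h
    simp
  | cons b L ih =>
    intro a x hA h
    rw [Alt, List.isChain_cons_cons] at hA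
    rw [List.getLast?_cons_cons] at h
    rw [ih b x hA.2 h, List.length_cons]
    have hab := hA.1
    by_cases he : Even L.length
    · rw [if_pos he, if_neg (by rw [Nat.even_add_one]; exact not_not.2 he)]
      cases h1 : sd a <;> cases h2 : sd b <;> simp_all
    · rw [if_neg he, if_pos (by rw [Nat.even_add_one]; exact he)]
      cases h1 : sd a <;> cases h2 : sd b <;> simp_all

theorem nd_rot {Λ : Type} (sd : Λ → Bool) (L : List Λ) (hL : Alt sd L) (he : Even L.length) :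
    Alt sd (L.rotate 1) := by
  cases L with
  | nil => simpa using hL
  | cons a L =>
    rw [List.rotate_cons_succ, List.rotate_zero]
    unfold Alt
    rw [List.isChain_append]
    refine ⟨?_, List.isChain_singleton _, ?_⟩
    · exact (List.isChain_cons.1 hL).2
    · intro x hx y hy
      simp only [List.head?_cons, Option.mem_def, Option.some.injEq] at hy
      subst hy
      cases L with
      | nil => simp at hx
      | cons b L =>
        have h2 := nd_last sd (b :: L) a x hL (by rw [List.getLast?_cons_cons]; exact hx)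
        rw [List.length_cons, Nat.even_add_one] at he
        rw [h2, if_neg he]
        cases sd a <;> simp

theorem nd_sg {Λ : Type} (sd : Λ → Bool) (L : List Λ) (hL : Alt sd L) (he : Even L.length)
    (h0 : L ≠ []) : sg sd L = 1 ∨ sg sd (L.rotate 1) = 1 := by
  cases L with
  | nil => exact absurd rfl h0
  | cons a L =>
    cases L with
    | nil => simp at he
    | cons b L =>
      rw [Alt, List.isChain_cons_cons] at hL
      rw [List.rotate_cons_succ, List.rotate_zero]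
      simp only [sg, List.cons_append]
      have := hL.1
      cases h1 : sd a <;> cases h2 : sd b <;> simp_all

/-- NONDEG, from PAIR -/
theorem nondeg_of_pair (hP : S_PAIR_nd) {B : Type} [Ring B] [Algebra ℂ B]
    (φ : B →ₗ[ℂ] ℂ) (h1 : φ 1 = 1) (s : B) (hs : s * s = 1)
    (S : Bool → Subalgebra ℂ B) (C : Subalgebra ℂ B) (hSC : ∀ b, S b ≤ C)
    (hfree : FreeOver φ s C) (N : ℕ) (hK : KIS φ S N)
    {Λ : Type} [Fintype Λ] [DecidableEq Λ] (sd : Λ → Bool) (z zh : Λ → B)
    (hz : ∀ l, z l ∈ S (sd l) ∧ φ (z l) = 0) (hzh : ∀ l, zh l ∈ S (sd l) ∧ φ (zh l) = 0)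
    (hd : ∀ l m, sd l = sd m → φ (zh l * z m) = if l = m then 1 else 0)
    (κ₀ κ₁ κ₀' κ₁' : ℂ) (hκ : κ₁ ≠ 0) (hκ' : κ₁' ≠ 0) (t : Wd sd N → ℂ) (ht : t ∈ EE sd N)
    (h0 : ∀ y, φ (y * PP sd (zc sd z (κ₀ • 1 + κ₁ • s) (κ₀' • 1 + κ₁' • s)) N t) = 0) :
    t = 0 := by
  classical
  by_contra hne
  obtain ⟨L0, hL0⟩ : ∃ L, t L ≠ 0 := by
    by_contra hc
    push Not at hc
    exact hne (funext hc)
  obtain ⟨L1, hL1, hmax1⟩ := Finset.exists_max_image (Finset.univ.filter fun L => t L ≠ 0)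
    (fun L => L.1.length) ⟨L0, by simpa using hL0⟩
  simp only [Finset.mem_filter, Finset.mem_univ, true_and] at hL1 hmax1
  obtain ⟨L, htL, hmax, hsg⟩ : ∃ L : Wd sd N, t L ≠ 0 ∧
      (∀ M, t M ≠ 0 → M.1.length ≤ L.1.length) ∧ sg sd L.1 = 1 := by
    rcases nd_sg sd L1.1 L1.2.1 L1.2.2.1 L1.2.2.2.1 with h | h
    · exact ⟨L1, hL1, hmax1, h⟩
    · refine ⟨⟨L1.1.rotate 1, nd_rot sd L1.1 L1.2.1 L1.2.2.1, ?_, ?_, ?_⟩, ?_, ?_, h⟩
      · rw [List.length_rotate]; exact L1.2.2.1
      · intro h'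
        exact L1.2.2.2.1 (List.rotate_eq_nil_iff.1 h')
      · rw [List.length_rotate]; exact L1.2.2.2.2
      · rw [(ht L1 _).1 rfl]
        exact hL1
      · intro M hM
        simp only [List.length_rotate]
        exact hmax1 M hM
  have key := h0 (L.1.reverse.map fun l => zh l * s).prod
  unfold PP at key
  rw [Finset.mul_sum, map_sum, Finset.sum_eq_single L] at key
  · rw [mul_smul_comm, map_smul, hP φ h1 s hs S C hSC hfree N hK sd z zh hz hzh hd κ₀ κ₁ κ₀' κ₁'
      L.1 L.1 L.2.1 L.2.1 L.2.2.1 L.2.2.1 L.2.2.2.1 L.2.2.2.1 L.2.2.2.2 le_rfl hsg, if_pos rfl,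
      hsg, smul_eq_mul] at key
    have hlen : (L.1.length : ℝ) ≠ 0 := by
      rw [Nat.cast_ne_zero]
      exact (List.length_pos_iff.2 L.2.2.2.1).ne'
    refine mul_ne_zero (mul_ne_zero ?_ ?_) (pow_ne_zero _ (mul_ne_zero hκ hκ')) key
    · rw [mul_one]
      exact_mod_cast hlen
    · simpa using htL
  · intro M _ hM
    rw [mul_smul_comm, map_smul]
    by_cases htM : t M = 0
    · rw [htM]
      simp
    · rw [hP φ h1 s hs S C hSC hfree N hK sd z zh hz hzh hd κ₀ κ₁ κ₀' κ₁'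
        L.1 M.1 L.2.1 M.2.1 L.2.2.1 M.2.2.1 L.2.2.2.1 M.2.2.2.1 L.2.2.2.2 (hmax M htM) hsg,
        if_neg (fun h => hM (Subtype.ext h.symm)), smul_zero]
  · intro h
    exact absurd (Finset.mem_univ L) h

end Pool.Agent.H30K
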