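import Pool.Agent.H30R4.KI.Defs

/-!
PAIR: pairing of the perturbed words with the test words (MP_64d6f1_an).
-/

set_option autoImplicit false

open scoped ComplexOrder Topology BoundedContinuousFunction ComplexConjugate
open Filter

noncomputable section

namespace Pool.Agent.H30K

namespace PAIR

variable {B : Type} [Ring B] [Algebra ℂ B]

/-- the word with bare first letter -/
def RR {Λ : Type} (sd : Λ → Bool) (z : Λ → B) (w w' : B) : List Λ → B
  | [] => 1
  | [m] => if sd m = true then z m else z m * w'
  | m :: m' :: M => z m * (if sd m = true then w else w') * RR sd z w w' (m' :: M)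

theorem zv_eq {Λ : Type} (sd : Λ → Bool) (z : Λ → B) (w w' : B) (M : List Λ) :
    ∀ m : Λ, Alt sd (m :: M) → zv (zc sd z w w') (m :: M) =
      if sd m = true then RR sd z w w' (m :: M) else w * RR sd z w w' (m :: M) := by
  induction M with
  | nil =>
    intro m _
    simp only [zv, zc, RR, List.map_cons, List.map_nil, List.prod_cons, List.prod_nil, mul_one]
    split_ifs
    · rfl
    · rw [mul_assoc]
  | cons m' M ih =>
    intro m h
    have h1 : sd m ≠ sd m' ∧ Alt sd (m' :: M) := List.isChain_cons_cons.1 h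
    have h2 := ih m' h1.2
    have h3 : zv (zc sd z w w') (m :: m' :: M) = zc sd z w w' m * zv (zc sd z w w') (m' :: M) := by
      simp [zv]
    rw [h3, h2]
    simp only [RR, zc]
    cases hm : sd m
    · have hm' : sd m' = true := by
        cases h5 : sd m'
        · exact absurd (hm.trans h5.symm) h1.1
        · rfl
      simp [hm', mul_assoc]
    · have hm' : sd m' = false := by
        cases h5 : sd m'
        · rfl
        · exact absurd (hm.trans h5.symm) h1.1
      simp [hm', mul_assoc]

/-- `e0 s e1 s ... s er` -/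
def WW (s : B) (e0 : B) (es : List B) : B := e0 * (es.map fun e => s * e).prod

theorem WW_append (s e0 : B) (es : List B) (e : B) :
    WW s e0 (es ++ [e]) = WW s e0 es * (s * e) := by
  simp [WW, mul_assoc]

theorem free_last {φ : B →ₗ[ℂ] ℂ} {s : B} {C : Subalgebra ℂ B} (hfree : FreeOver φ s C)
    {e0 : B} (he0 : e0 ∈ C) {es : List B} (hes : ∀ e ∈ es, e ∈ C ∧ φ e = 0) {x : B}
    (hx : x ∈ C) : φ (WW s e0 es * (s * x)) = 0 := by
  rw [← WW_append]
  refine hfree e0 (es ++ [x]) he0 (fun e he => ?_) (by simp) (fun e he => ?_)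
  · rcases List.mem_append.1 he with h | h
    · exact (hes e h).1
    · rw [List.mem_singleton] at h
      rw [h]; exact hx
  · rw [List.dropLast_concat] at he
    exact (hes e he).2

section

variable {φ : B →ₗ[ℂ] ℂ} {s : B} {S : Bool → Subalgebra ℂ B} {C : Subalgebra ℂ B}
  {N : ℕ} {Λ : Type} {sd : Λ → Bool} {z : Λ → B}

/-- all blocks of an alternating word are centered -/
theorem block (hK : KIS φ S N) (hz : ∀ l, z l ∈ S (sd l) ∧ φ (z l) = 0) {M : List Λ}
    (hM : Alt sd M) (hN : M.length ≤ N) (Q : List Λ) (h0 : Q ≠ []) (hQ : Q <+: M) :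
    φ (zv z Q) = 0 := by
  have h1 : Alt sd Q := by
    obtain ⟨t, ht⟩ := hQ
    have hM' : Alt sd (Q ++ t) := ht ▸ hM
    exact List.IsChain.left_of_append hM'
  have h2 := hK (Q.map fun l => (sd l, z l)) (by simpa using h0)
    (by rw [List.length_map]; exact hQ.length_le.trans hN)
    ((List.isChain_map _).2 h1)
    (by
      intro x hx
      obtain ⟨l, _, rfl⟩ := List.mem_map.1 hx
      exact hz l)
  rw [List.map_map] at h2
  exact h2

/-- the same with a centered first letter -/
theorem block' (hK : KIS φ S N) (hz : ∀ l, z l ∈ S (sd l) ∧ φ (z l) = 0) {m : Λ} {M : List Λ}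
    (hM : Alt sd (m :: M)) (hN : (m :: M).length ≤ N) {c : B} (hc : c ∈ S (sd m)) (hc0 : φ c = 0)
    (Q : List Λ) (hQ : Q <+: M) :
    φ (c * zv z Q) = 0 := by
  have h1 : Alt sd (m :: Q) := by
    obtain ⟨t, ht⟩ := hQ
    have hM' : Alt sd ((m :: Q) ++ t) := by
      rw [List.cons_append, ht]
      exact hM
    exact List.IsChain.left_of_append hM'
  have h2 := hK ((sd m, c) :: Q.map fun l => (sd l, z l)) (by simp)
    (by
      rw [List.length_cons, List.length_map]
      rw [List.length_cons] at hN
      have := hQ.length_le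
      omega)
    (by
      cases Q with
      | nil => simp
      | cons q Q =>
        have h3 : sd m ≠ sd q ∧ Alt sd (q :: Q) := List.isChain_cons_cons.1 h1
        have h4 : ((q :: Q).map fun l => (sd l, z l)).IsChain (fun x y => x.1 ≠ y.1) :=
          (List.isChain_map _).2 h3.2
        rw [List.map_cons] at h4 ⊢
        exact List.isChain_cons_cons.2 ⟨h3.1, h4⟩)
    (by
      intro x hx
      rcases List.mem_cons.1 hx with h | h
      · rw [h]; exact ⟨hc, hc0⟩
      · obtain ⟨l, _, rfl⟩ := List.mem_map.1 h
        exact hz l)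
  rw [List.map_cons, List.prod_cons, List.map_map] at h2
  exact h2

theorem zv_cons (m : Λ) (Q : List Λ) : zv z (m :: Q) = z m * zv z Q := by simp [zv]

theorem claimA (hSC : ∀ b, S b ≤ C) (hfree : FreeOver φ s C) (hK : KIS φ S N)
    (hz : ∀ l, z l ∈ S (sd l) ∧ φ (z l) = 0) (κ₀ κ₁ κ₀' κ₁' : ℂ) (M : List Λ) :
    ∀ m : Λ, Alt sd (m :: M) → (m :: M).length ≤ N → ∀ e0 ∈ C, ∀ es : List B,
      (∀ e ∈ es, e ∈ C ∧ φ e = 0) → ∀ c ∈ C,
      (∀ Q, Q ≠ [] → Q <+: m :: M → φ (c * zv z Q) = 0) →
      φ (WW s e0 es * (s * (c * RR sd z (κ₀ • 1 + κ₁ • s) (κ₀' • 1 + κ₁' • s) (m :: M)))) = 0 := by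
  induction M with
  | nil =>
    intro m hM hN e0 he0 es hes c hc hcen
    have hzm : z m ∈ C := hSC _ (hz m).1
    have h1 : φ (c * z m) = 0 := by
      have := hcen [m] (by simp) List.prefix_rfl
      rwa [zv_cons, show zv z ([] : List Λ) = 1 from by simp [zv], mul_one] at this
    simp only [RR]
    cases hm : sd m
    · simp only [Bool.false_eq_true, if_false]
      have e1 : WW s e0 es * (s * (c * (z m * (κ₀' • 1 + κ₁' • s)))) =
          κ₀' • (WW s e0 es * (s * (c * z m))) +
            κ₁' • (WW s e0 (es ++ [c * z m]) * (s * 1)) := by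
        rw [WW_append]
        simp [mul_add, mul_assoc]
      rw [e1, map_add, map_smul, map_smul, free_last hfree he0 hes (C.mul_mem hc hzm),
        free_last hfree he0 (es := es ++ [c * z m]) (fun e he => ?_) C.one_mem]
      · simp
      · rcases List.mem_append.1 he with h | h
        · exact hes e h
        · rw [List.mem_singleton] at h
          rw [h]; exact ⟨C.mul_mem hc hzm, h1⟩
    · simp only [if_true]
      exact free_last hfree he0 hes (C.mul_mem hc hzm)
  | cons m' M ih =>
    intro m hM hN e0 he0 es hes c hc hcen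
    have h2 : sd m ≠ sd m' ∧ Alt sd (m' :: M) := List.isChain_cons_cons.1 hM
    have hN' : (m' :: M).length ≤ N := by
      simp only [List.length_cons] at hN ⊢; omega
    have hzm : z m ∈ C := hSC _ (hz m).1
    have h1 : φ (c * z m) = 0 := by
      have := hcen [m] (by simp) (by simp)
      rwa [zv_cons, show zv z ([] : List Λ) = 1 from by simp [zv], mul_one] at this
    have hcen' : ∀ Q, Q ≠ [] → Q <+: m' :: M → φ (c * z m * zv z Q) = 0 := by
      intro Q _ hQ
      have := hcen (m :: Q) (by simp) ((List.prefix_cons_inj m).2 hQ)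
      rwa [zv_cons, ← mul_assoc] at this
    have hcen1 : ∀ Q, Q ≠ [] → Q <+: m' :: M → φ (1 * zv z Q) = 0 := by
      intro Q h0 hQ
      rw [one_mul]
      exact block hK hz h2.2 hN' Q h0 hQ
    have hes' : ∀ e ∈ es ++ [c * z m], e ∈ C ∧ φ e = 0 := by
      intro e he
      rcases List.mem_append.1 he with h | h
      · exact hes e h
      · rw [List.mem_singleton] at h
        rw [h]; exact ⟨C.mul_mem hc hzm, h1⟩
    have key : ∀ a b : ℂ, ∀ R : B, WW s e0 es * (s * (c * (z m * (a • 1 + b • s) * R))) =
        a • (WW s e0 es * (s * (c * z m * R))) +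
          b • (WW s e0 (es ++ [c * z m]) * (s * (1 * R))) := by
      intro a b R
      rw [WW_append]
      simp [mul_add, add_mul, mul_assoc]
    have a1 := ih m' h2.2 hN' e0 he0 es hes (c * z m) (C.mul_mem hc hzm) hcen'
    have a2 := ih m' h2.2 hN' e0 he0 (es ++ [c * z m]) hes' 1 C.one_mem hcen1
    simp only [RR]
    split_ifs
    · rw [key, map_add, map_smul, map_smul, a1, a2]; simp
    · rw [key, map_add, map_smul, map_smul, a1, a2]; simp

/-- the test word -/
def TT {Λ : Type} (zh : Λ → B) (s : B) (L : List Λ) : B := (L.reverse.map fun l => zh l * s).prod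

theorem TT_cons (zh : Λ → B) (l : Λ) (L : List Λ) : TT zh s (l :: L) = TT zh s L * (zh l * s) := by
  simp [TT]

theorem TT_WW (hSC : ∀ b, S b ≤ C) {zh : Λ → B} (hzh : ∀ l, zh l ∈ S (sd l) ∧ φ (zh l) = 0)
    (L : List Λ) : ∀ l : Λ, ∃ e0 ∈ C, ∃ es : List B, (∀ e ∈ es, e ∈ C ∧ φ e = 0) ∧
      TT zh s L * zh l = WW s e0 es := by
  induction L with
  | nil =>
    intro l
    exact ⟨zh l, hSC _ (hzh l).1, [], by simp, by simp [TT, WW]⟩
  | cons l' L ih =>
    intro l
    obtain ⟨e0, he0, es, hes, h⟩ := ih l'
    refine ⟨e0, he0, es ++ [zh l], fun e he => ?_, ?_⟩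
    · rcases List.mem_append.1 he with h | h
      · exact hes e h
      · rw [List.mem_singleton] at h
        rw [h]; exact ⟨hSC _ (hzh l).1, (hzh l).2⟩
    · rw [TT_cons, WW_append, ← h]
      simp [mul_assoc]

theorem main (h1 : φ 1 = 1) (hs : s * s = 1) (hSC : ∀ b, S b ≤ C) (hfree : FreeOver φ s C)
    (hK : KIS φ S N) [DecidableEq Λ] {zh : Λ → B}
    (hz : ∀ l, z l ∈ S (sd l) ∧ φ (z l) = 0) (hzh : ∀ l, zh l ∈ S (sd l) ∧ φ (zh l) = 0)
    (hd : ∀ l m, sd l = sd m → φ (zh l * z m) = if l = m then 1 else 0)
    (κ₀ κ₁ κ₀' κ₁' : ℂ) (M : List Λ) :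
    ∀ (m l : Λ) (L : List Λ), Alt sd (m :: M) → Alt sd (l :: L) → sd l = sd m →
      (sd m = true ↔ Odd (m :: M).length) → (sd l = true ↔ Odd (l :: L).length) →
      M.length ≤ L.length → (m :: M).length ≤ N →
      (if sd m = true then 1 else κ₁) * φ (TT zh s L * zh l *
        RR sd z (κ₀ • 1 + κ₁ • s) (κ₀' • 1 + κ₁' • s) (m :: M)) =
      if l :: L = m :: M then (κ₁ * κ₁') ^ ((l :: L).length / 2) else 0 := by
  induction M with
  | nil =>
    intro m l L hM hL hlm hpm hpl hle hN
    have hm : sd m = true := hpm.2 (by simp)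
    simp only [RR, hm, if_true, one_mul]
    cases L with
    | nil =>
      simp only [TT, List.reverse_nil, List.map_nil, List.prod_nil, one_mul]
      rw [hd l m hlm]
      simp
    | cons l' L =>
      obtain ⟨e0, he0, es, hes, h⟩ := TT_WW (s := s) hSC hzh L l'
      rw [TT_cons, if_neg (by simp)]
      have e1 : TT zh s L * (zh l' * s) * zh l * z m = WW s e0 es * (s * (zh l * z m)) := by
        rw [← h]; simp [mul_assoc]
      rw [e1]
      exact free_last hfree he0 hes (C.mul_mem (hSC _ (hzh l).1) (hSC _ (hz m).1))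
  | cons m' M ih =>
    intro m l L hM hL hlm hpm hpl hle hN
    cases L with
    | nil => simp at hle
    | cons l' L =>
      have h2 : sd m ≠ sd m' ∧ Alt sd (m' :: M) := List.isChain_cons_cons.1 hM
      have h3 : sd l ≠ sd l' ∧ Alt sd (l' :: L) := List.isChain_cons_cons.1 hL
      have hN' : (m' :: M).length ≤ N := by
        simp only [List.length_cons] at hN ⊢; omega
      have hlm' : sd l' = sd m' := by
        revert h2 h3 hlm
        cases sd l <;> cases sd l' <;> cases sd m <;> cases sd m' <;> simp
      have hneg : sd m' = true ↔ ¬ sd m = true := by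
        have := h2.1
        revert this
        cases sd m <;> cases sd m' <;> simp
      have hneg' : sd l' = true ↔ ¬ sd l = true := by
        have := h3.1
        revert this
        cases sd l <;> cases sd l' <;> simp
      have hpm' : sd m' = true ↔ Odd (m' :: M).length := by
        rw [hneg, hpm]
        simp only [List.length_cons, Nat.odd_add_one]
        tauto
      have hpl' : sd l' = true ↔ Odd (l' :: L).length := by
        rw [hneg', hpl]
        simp only [List.length_cons, Nat.odd_add_one]
        tauto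
      have hle' : M.length ≤ L.length := by
        simp only [List.length_cons] at hle; omega
      have hI := ih m' l' L h2.2 h3.2 hlm' hpm' hpl' hle' hN'
      obtain ⟨e0, he0, es, hes, h⟩ := TT_WW (s := s) hSC hzh L l'
      have hzm : z m ∈ C := hSC _ (hz m).1
      have hzl : zh l ∈ C := hSC _ (hzh l).1
      -- the centered part
      obtain ⟨δ, hδ⟩ : ∃ δ : ℂ, δ = φ (zh l * z m) := ⟨_, rfl⟩
      obtain ⟨c0, hc0⟩ : ∃ c0 : B, c0 = zh l * z m - δ • (1 : B) := ⟨_, rfl⟩
      have hc1 : c0 ∈ S (sd m) := by
        rw [hc0]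
        exact (S (sd m)).sub_mem ((S (sd m)).mul_mem (hlm ▸ (hzh l).1) (hz m).1)
          ((S (sd m)).smul_mem (S (sd m)).one_mem δ)
      have hc2 : φ c0 = 0 := by
        rw [hc0, map_sub, map_smul, h1, ← hδ]; simp
      have hc3 : zh l * z m = c0 + δ • (1 : B) := by rw [hc0]; abel
      have key : ∀ a b : ℂ, ∀ R : B, TT zh s (l' :: L) * zh l * (z m * (a • 1 + b • s) * R) =
          a • (WW s e0 es * (s * (zh l * z m * R))) +
            b • (WW s e0 (es ++ [c0]) * (s * (1 * R))) +
            (b * δ) • (TT zh s L * zh l' * R) := by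
        intro a b R
        have e1 : TT zh s (l' :: L) * zh l * (z m * (a • 1 + b • s) * R) =
            a • (WW s e0 es * (s * (zh l * z m * R))) +
              b • (WW s e0 es * (s * ((zh l * z m) * (s * R)))) := by
          rw [TT_cons, ← h]
          simp [mul_add, add_mul, mul_assoc]
        have e2 : WW s e0 es * (s * ((zh l * z m) * (s * R))) =
            WW s e0 (es ++ [c0]) * (s * (1 * R)) + δ • (TT zh s L * zh l' * R) := by
          rw [hc3, WW_append, h]
          have e3 : s * (s * R) = R := by rw [← mul_assoc, hs, one_mul]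
          simp only [add_mul, mul_add, smul_mul_assoc, one_mul, mul_smul_comm, e3, mul_assoc]
        rw [e1, e2, smul_add, smul_smul, add_assoc]
      have hcen : ∀ Q, Q ≠ [] → Q <+: m' :: M → φ (zh l * z m * zv z Q) = 0 := by
        intro Q h0 hQ
        rw [hc3, add_mul, map_add, block' hK hz hM hN hc1 hc2 Q hQ, smul_mul_assoc, one_mul,
          map_smul, block hK hz h2.2 hN' Q h0 hQ]
        simp
      have hcen1 : ∀ Q, Q ≠ [] → Q <+: m' :: M → φ (1 * zv z Q) = 0 := by
        intro Q h0 hQ
        rw [one_mul]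
        exact block hK hz h2.2 hN' Q h0 hQ
      have hes' : ∀ e ∈ es ++ [c0], e ∈ C ∧ φ e = 0 := by
        intro e he
        rcases List.mem_append.1 he with h | h
        · exact hes e h
        · rw [List.mem_singleton] at h
          rw [h]; exact ⟨hSC _ hc1, hc2⟩
      have a1 := claimA hSC hfree hK hz κ₀ κ₁ κ₀' κ₁' M m' h2.2 hN' e0 he0 es hes (zh l * z m)
        (C.mul_mem hzl hzm) hcen
      have a2 := claimA hSC hfree hK hz κ₀ κ₁ κ₀' κ₁' M m' h2.2 hN' e0 he0 (es ++ [c0]) hes' 1
        C.one_mem hcen1
      have hδ' : δ = if l = m then 1 else 0 := by rw [hδ, hd l m hlm]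
      cases hm : sd m
      · -- side false
        have hm' : sd m' = true := by
          rw [hneg, hm]; simp
        have hodd : Odd (l' :: L).length := hpl'.1 (hlm' ▸ hm')
        simp only [RR, hm, Bool.false_eq_true, if_false]
        rw [key, map_add, map_add, map_smul, map_smul, map_smul, a1, a2]
        rw [hm', if_pos rfl, one_mul] at hI
        rw [hI, hδ']
        have hlen : (l :: l' :: L).length / 2 = (l' :: L).length / 2 + 1 := by
          obtain ⟨r, hr⟩ := hodd
          simp only [List.length_cons] at hr ⊢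
          omega
        rw [hlen]
        by_cases e : l = m
        · subst e
          have e1 : (l :: l' :: L = l :: m' :: M) ↔ (l' :: L = m' :: M) :=
            ⟨fun h => (List.cons.inj h).2, fun h => by rw [h]⟩
          rw [if_pos (rfl : l = l)]
          simp only [e1]
          by_cases e' : l' :: L = m' :: M
          · simp only [if_pos e', smul_eq_mul]
            ring
          · simp only [if_neg e', smul_eq_mul]
            ring
        · have e1 : ¬ (l :: l' :: L = m :: m' :: M) := fun h => e (List.cons.inj h).1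
          rw [if_neg e, if_neg e1]
          simp
      · -- side true
        have hm' : ¬ sd m' = true := by
          rw [hneg, hm]; simp
        have hev : Odd (l :: l' :: L).length := hpl.1 (hlm ▸ hm)
        simp only [RR, hm, if_true, one_mul]
        rw [key, map_add, map_add, map_smul, map_smul, map_smul, a1, a2]
        rw [if_neg hm'] at hI
        have hlen : (l :: l' :: L).length / 2 = (l' :: L).length / 2 := by
          obtain ⟨r, hr⟩ := hev
          simp only [List.length_cons] at hr ⊢
          omega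
        rw [hlen, hδ']
        by_cases e : l = m
        · subst e
          have e1 : (l :: l' :: L = l :: m' :: M) ↔ (l' :: L = m' :: M) :=
            ⟨fun h => (List.cons.inj h).2, fun h => by rw [h]⟩
          rw [if_pos (rfl : l = l)]
          simp only [e1]
          rw [← hI]
          simp only [smul_eq_mul]
          ring
        · have e1 : ¬ (l :: l' :: L = m :: m' :: M) := fun h => e (List.cons.inj h).1
          rw [if_neg e, if_neg e1]
          simp

end

end PAIR

open PAIR

/-- PAIR -/
theorem pairing {B : Type} [Ring B] [Algebra ℂ B]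
    (φ : B →ₗ[ℂ] ℂ) (h1 : φ 1 = 1) (s : B) (hs : s * s = 1)
    (S : Bool → Subalgebra ℂ B) (C : Subalgebra ℂ B) (hSC : ∀ b, S b ≤ C)
    (hfree : FreeOver φ s C) (N : ℕ) (hK : KIS φ S N)
    {Λ : Type} [DecidableEq Λ] (sd : Λ → Bool) (z zh : Λ → B)
    (hz : ∀ l, z l ∈ S (sd l) ∧ φ (z l) = 0) (hzh : ∀ l, zh l ∈ S (sd l) ∧ φ (zh l) = 0)
    (hd : ∀ l m, sd l = sd m → φ (zh l * z m) = if l = m then 1 else 0)
    (κ₀ κ₁ κ₀' κ₁' : ℂ) (L M : List Λ) (hL : Alt sd L) (hM : Alt sd M)
    (heL : Even L.length) (heM : Even M.length) (hL0 : L ≠ []) (hM0 : M ≠ [])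
    (hLN : L.length ≤ N) (hML : M.length ≤ L.length) (hsg : sg sd L = 1) :
    φ ((L.reverse.map fun l => zh l * s).prod *
      zv (zc sd z (κ₀ • 1 + κ₁ • s) (κ₀' • 1 + κ₁' • s)) M) =
      if L = M then (κ₁ * κ₁') ^ (L.length / 2) else 0 := by
  cases L with
  | nil => exact absurd rfl hL0
  | cons l L =>
  cases M with
  | nil => exact absurd rfl hM0
  | cons m M =>
  have hl : sd l = false := by
    cases h : sd l
    · rfl
    · exfalso
      simp only [sg, h, if_true] at hsg
      norm_num at hsg
  have hle : M.length ≤ L.length := by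
    simp only [List.length_cons] at hML; omega
  have hN : (m :: M).length ≤ N := hML.trans hLN
  obtain ⟨e0, he0, es, hes, h⟩ := TT_WW (s := s) hSC hzh L l
  have hA := claimA hSC hfree hK hz κ₀ κ₁ κ₀' κ₁' M m hM hN e0 he0 es hes 1 C.one_mem
    (fun Q h0 hQ => by rw [one_mul]; exact block hK hz hM hN Q h0 hQ)
  have e0' : ((l :: L).reverse.map fun l => zh l * s).prod = WW s e0 es * s := by
    have : ((l :: L).reverse.map fun l => zh l * s).prod = TT zh s (l :: L) := rfl
    rw [this, TT_cons, ← h]
    simp [mul_assoc]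
  rw [zv_eq sd z _ _ M m hM, e0']
  cases hm : sd m
  · -- side false
    simp only [Bool.false_eq_true, if_false]
    have hmain := main h1 hs hSC hfree hK hz hzh hd κ₀ κ₁ κ₀' κ₁' M m l L hM hL (hl.trans hm.symm)
      (by rw [hm]; simpa using heM) (by rw [hl]; simpa using heL) hle hN
    rw [← hmain, hm]
    simp only [Bool.false_eq_true, if_false]
    have e2 : ∀ R : B, WW s e0 es * s * ((κ₀ • 1 + κ₁ • s) * R) =
        κ₀ • (WW s e0 es * (s * (1 * R))) + κ₁ • (TT zh s L * zh l * R) := by
      intro R
      rw [h]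
      have e3 : s * (s * R) = R := by rw [← mul_assoc, hs, one_mul]
      simp only [add_mul, mul_add, smul_mul_assoc, one_mul, mul_smul_comm, e3, mul_assoc]
    rw [e2, map_add, map_smul, map_smul, hA]
    simp
  · simp only [if_true]
    rw [if_neg (by
      intro hh
      have := (List.cons.inj hh).1
      rw [this, hm] at hl
      exact absurd hl (by simp))]
    have e2 : ∀ R : B, WW s e0 es * s * R = WW s e0 es * (s * (1 * R)) := by
      intro R; simp [mul_assoc]
    rw [e2]
    exact hA

end Pool.Agent.H30K
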