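import Mathlib
import Pool.Agent.H30R4.KI.Defs

/-! MP_64d6f1_an, task REIDX: reindexing of the gradient.  Prover: helper676. -/

set_option autoImplicit false
set_option linter.unusedSectionVars false

open scoped ComplexOrder Topology BoundedContinuousFunction ComplexConjugate
open Filter

noncomputable section

namespace Pool.Agent.H30K

namespace REIDX

variable {Λ : Type} {sd : Λ → Bool}

theorem last_side : ∀ (M : List Λ) (x y : Λ), Alt sd (x :: M) → (x :: M).getLast? = some y →
    (sd y = sd x ↔ Even M.length)
  | [], x, y, _, h => by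
    have : x = y := by simpa using h
    simp [this]
  | a :: M, x, y, hA, h => by
    have h1 : sd x ≠ sd a ∧ Alt sd (a :: M) := List.isChain_cons_cons.1 hA
    have h2 : (a :: M).getLast? = some y := by
      rw [List.getLast?_cons_cons] at h
      exact h
    have ih := last_side M a y h1.2 h2
    rw [List.length_cons, Nat.even_add_one, ← ih]
    have h3 := h1.1
    clear ih h1 hA
    revert h3
    generalize sd x = p
    generalize sd a = q
    generalize sd y = w
    revert p q w
    decide

theorem alt_rotate {L : List Λ} (h : Alt sd L) (he : Even L.length) : Alt sd (L.rotate 1) := by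
  cases L with
  | nil => simpa using h
  | cons x M =>
    rw [List.rotate_cons_succ, List.rotate_zero]
    unfold Alt
    rw [List.isChain_append]
    have hM : Alt sd M := List.IsChain.tail h
    refine ⟨hM, List.isChain_singleton _, ?_⟩
    intro y hy a ha
    have ha' : x = a := by simpa using ha
    subst ha'
    have h1 : (x :: M).getLast? = some y := by
      cases M with
      | nil => simp at hy
      | cons b M => rw [List.getLast?_cons_cons]; exact hy
    have h2 := last_side M x y h h1
    rw [List.length_cons, Nat.even_add_one] at he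
    exact fun h3 => he (h2.1 h3)

variable [Fintype Λ]

/-- rotation by one -/
def rho (sd : Λ → Bool) (N : ℕ) (L : Wd sd N) : Wd sd N :=
  ⟨L.1.rotate 1, alt_rotate L.2.1 L.2.2.1, by rw [List.length_rotate]; exact L.2.2.1,
    fun h => L.2.2.2.1 (List.rotate_eq_nil_iff.1 h), by rw [List.length_rotate]; exact L.2.2.2.2⟩

theorem rho_inj (N : ℕ) : Function.Injective (rho sd N) := by
  intro a b h
  exact Subtype.ext (List.rotate_injective 1 (congrArg Subtype.val h))

/-- rotation as a permutation -/
def rhoE (sd : Λ → Bool) (N : ℕ) : Equiv.Perm (Wd sd N) :=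
  Equiv.ofBijective (rho sd N) (Finite.injective_iff_bijective.1 (rho_inj N))

theorem rhoE_pow (N r : ℕ) (L : Wd sd N) : ((rhoE sd N ^ r) L).1 = L.1.rotate r := by
  induction r with
  | zero => simp
  | succ r ih =>
    rw [pow_succ', Equiv.Perm.mul_apply]
    change ((rhoE sd N ^ r) L).1.rotate 1 = _
    rw [ih, List.rotate_rotate]

theorem t_pow (N r : ℕ) {t : Wd sd N → ℂ} (ht : t ∈ EE sd N) (L : Wd sd N) :
    t ((rhoE sd N ^ r) L) = t L := by
  induction r with
  | zero => simp
  | succ r ih =>
    rw [pow_succ', Equiv.Perm.mul_apply]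
    exact ((ht ((rhoE sd N ^ r) L) (rhoE sd N ((rhoE sd N ^ r) L))).1 rfl).trans ih

end REIDX

open REIDX in
/-- REIDX -/
theorem reidx {B : Type} [Ring B] [Algebra ℂ B] {Λ : Type} [Fintype Λ] (sd : Λ → Bool)
    (z : Λ → B) (N : ℕ) (t : Wd sd N → ℂ)
    (ht : t ∈ EE sd N) : ∑ L : Wd sd N, conj (t L) • Dl sd z L.1 = PP sd z N t := by
  classical
  let g : Wd sd N → B := fun L => conj (t L) • (((sg sd L.1 : ℝ) : ℂ) • zv z L.1)
  have h1 : ∀ L : Wd sd N, conj (t L) • Dl sd z L.1 =
      ∑ r ∈ Finset.range N, if r < L.1.length then g ((rhoE sd N ^ r) L) else 0 := by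
    intro L
    unfold Dl
    rw [Finset.smul_sum, ← Finset.sum_filter]
    have e : (Finset.range N).filter (fun r => r < L.1.length) = Finset.range L.1.length := by
      ext r
      have := L.2.2.2.2
      simp only [Finset.mem_filter, Finset.mem_range]
      omega
    rw [e]
    refine Finset.sum_congr rfl fun r _ => ?_
    simp only [g]
    rw [rhoE_pow, t_pow N r ht]
  rw [Finset.sum_congr rfl fun L _ => h1 L, Finset.sum_comm]
  have h2 : ∀ r ∈ Finset.range N,
      (∑ L : Wd sd N, if r < L.1.length then g ((rhoE sd N ^ r) L) else 0) =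
      ∑ L : Wd sd N, if r < L.1.length then g L else 0 := by
    intro r _
    rw [← Equiv.sum_comp (rhoE sd N ^ r) (fun L => if r < L.1.length then g L else 0)]
    refine Finset.sum_congr rfl fun L _ => ?_
    rw [rhoE_pow, List.length_rotate]
  rw [Finset.sum_congr rfl h2, Finset.sum_comm]
  unfold PP
  refine Finset.sum_congr rfl fun L _ => ?_
  rw [← Finset.sum_filter]
  have e : (Finset.range N).filter (fun r => r < L.1.length) = Finset.range L.1.length := by
    ext r
    have := L.2.2.2.2
    simp only [Finset.mem_filter, Finset.mem_range]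
    omega
  rw [e, Finset.sum_const, Finset.card_range]
  simp only [g]
  rw [smul_smul, ← Nat.cast_smul_eq_nsmul ℂ, smul_smul]
  congr 1
  push_cast
  ring

end Pool.Agent.H30K
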