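import Mathlib
import Pool.Agent.H30R4.KI.Defs
import Pool.Agent.H30R4.KI.T_EE2
import Pool.Agent.Helper467.FP.P_tau_bounds

set_option autoImplicit false
set_option linter.unusedSectionVars false

open scoped ComplexOrder Topology BoundedContinuousFunction ComplexConjugate
open Filter

noncomputable section

namespace Pool.Agent.H30K

open Pool.Agent.H467F (TW)

open Pool.Agent.H467F (n2)

/-! ### Asymptotic equality along the ultrafilter -/

section apx

variable {A : Type} [CStarAlgebra A]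

/-- asymptotic equality -/
def ST2_Apx (U : Ultrafilter ℕ) (a : ℕ → A) (b : ℕ →ᵇ A) : Prop :=
  Tendsto (fun n => a n - b n) U (𝓝 0)

variable {U : Ultrafilter ℕ}

theorem ST2_self (b : ℕ →ᵇ A) : ST2_Apx U (fun n => b n) b := by
  unfold ST2_Apx
  simp

theorem ST2_add {a a' : ℕ → A} {b b' : ℕ →ᵇ A} (h : ST2_Apx U a b) (h' : ST2_Apx U a' b') :
    ST2_Apx U (fun n => a n + a' n) (b + b') := by
  unfold ST2_Apx at *
  have h1 := h.add h'
  rw [add_zero] at h1
  refine h1.congr fun n => ?_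
  rw [BoundedContinuousFunction.add_apply]
  exact (add_sub_add_comm _ _ _ _).symm

theorem ST2_smul {a : ℕ → A} {b : ℕ →ᵇ A} (c : ℂ) (h : ST2_Apx U a b) :
    ST2_Apx U (fun n => c • a n) (c • b) := by
  unfold ST2_Apx at *
  have h1 := h.const_smul c
  rw [smul_zero] at h1
  refine h1.congr fun n => ?_
  rw [BoundedContinuousFunction.smul_apply, smul_sub]

theorem ST2_mul {a a' : ℕ → A} {b b' : ℕ →ᵇ A} (h : ST2_Apx U a b) (h' : ST2_Apx U a' b') :
    ST2_Apx U (fun n => a n * a' n) (b * b') := by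
  unfold ST2_Apx at *
  have h1 : Tendsto (fun n => (a n - b n) * (a' n - b' n)) U (𝓝 0) := by
    have := h.mul h'
    rwa [mul_zero] at this
  have h2 : Tendsto (fun n => (a n - b n) * b' n) U (𝓝 0) := by
    rw [tendsto_zero_iff_norm_tendsto_zero] at h ⊢
    have h3 := h.mul_const ‖b'‖
    rw [zero_mul] at h3
    refine squeeze_zero (fun n => norm_nonneg _) (fun n => ?_) h3
    exact (norm_mul_le _ _).trans (mul_le_mul_of_nonneg_left (b'.norm_coe_le_norm n) (norm_nonneg _))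
  have h4 : Tendsto (fun n => b n * (a' n - b' n)) U (𝓝 0) := by
    rw [tendsto_zero_iff_norm_tendsto_zero] at h' ⊢
    have h3 := h'.const_mul ‖b‖
    rw [mul_zero] at h3
    refine squeeze_zero (fun n => norm_nonneg _) (fun n => ?_) h3
    exact (norm_mul_le _ _).trans (mul_le_mul_of_nonneg_right (b.norm_coe_le_norm n) (norm_nonneg _))
  have h5 := (h1.add h2).add h4
  rw [add_zero, add_zero] at h5
  refine h5.congr fun n => ?_
  rw [BoundedContinuousFunction.mul_apply]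
  noncomm_ring

theorem ST2_sum {ι : Type} (s : Finset ι) {a : ι → ℕ → A} {b : ι → (ℕ →ᵇ A)}
    (h : ∀ i ∈ s, ST2_Apx U (a i) (b i)) : ST2_Apx U (fun n => ∑ i ∈ s, a i n) (∑ i ∈ s, b i) := by
  classical
  induction s using Finset.induction with
  | empty => simpa using ST2_self (U := U) (0 : ℕ →ᵇ A)
  | insert i s hi ih =>
    have h1 := ST2_add (h i (Finset.mem_insert_self i s))
      (ih fun j hj => h j (Finset.mem_insert_of_mem hj))
    rw [Finset.sum_insert hi]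
    refine (show ST2_Apx U (fun n => ∑ j ∈ insert i s, a j n) _ from ?_)
    simpa only [Finset.sum_insert hi] using h1

theorem ST2_zv {Λ : Type} {a : ℕ → Λ → A} {b : Λ → (ℕ →ᵇ A)}
    (h : ∀ l, ST2_Apx U (fun n => a n l) (b l)) (L : List Λ) :
    ST2_Apx U (fun n => zv (a n) L) (zv b L) := by
  induction L with
  | nil => exact ST2_self (1 : ℕ →ᵇ A)
  | cons x T ih =>
    have h1 := ST2_mul (h x) ih
    simpa [zv] using h1

theorem ST2_Dl {Λ : Type} (sd : Λ → Bool) {a : ℕ → Λ → A} {b : Λ → (ℕ →ᵇ A)}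
    (h : ∀ l, ST2_Apx U (fun n => a n l) (b l)) (L : List Λ) :
    ST2_Apx U (fun n => Dl sd (a n) L) (Dl sd b L) := by
  unfold Dl
  exact ST2_sum _ fun r _ => ST2_smul _ (ST2_zv h _)

theorem ST2_tau {τ : A →ₗ[ℂ] ℂ} (h : TW τ) {φ : (ℕ →ᵇ A) →ₗ[ℂ] ℂ} (hφ : ULim τ U φ)
    {a : ℕ → A} {b : ℕ →ᵇ A} (hab : ST2_Apx U a b) :
    Tendsto (fun n => τ (a n)) U (𝓝 (φ b)) := by
  have h1 := hφ.lim b
  have h2 : Tendsto (fun n => τ (a n - b n)) U (𝓝 0) := by
    unfold ST2_Apx at hab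
    rw [tendsto_zero_iff_norm_tendsto_zero] at hab ⊢
    refine squeeze_zero (fun n => norm_nonneg _) (fun n => ?_) hab
    obtain ⟨e1, e2⟩ := Pool.Agent.H467F.tau_bounds h
    exact (e1 _).trans (e2 _)
  have h3 := h1.add h2
  rw [add_zero] at h3
  refine h3.congr fun n => ?_
  rw [← map_add]
  congr 1
  abel

end apx

/-! ### Linearity of the gradient -/

section lin

variable {B : Type} [Ring B] [Algebra ℂ B] {Λ : Type} [Fintype Λ]

theorem ST2_PP_add (sd : Λ → Bool) (z : Λ → B) (N : ℕ) (t t' : Wd sd N → ℂ) :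
    PP sd z N (t + t') = PP sd z N t + PP sd z N t' := by
  unfold PP
  rw [← Finset.sum_add_distrib]
  refine Finset.sum_congr rfl fun L _ => ?_
  rw [← add_smul]
  congr 1
  rw [Pi.add_apply, RingHom.map_add]
  ring

theorem ST2_PP_smul (sd : Λ → Bool) (z : Λ → B) (N : ℕ) (c : ℝ) (t : Wd sd N → ℂ) :
    PP sd z N (c • t) = (c : ℂ) • PP sd z N t := by
  unfold PP
  rw [Finset.smul_sum]
  refine Finset.sum_congr rfl fun L _ => ?_
  rw [smul_smul]
  congr 1
  rw [Pi.smul_apply, Complex.real_smul, RingHom.map_mul, Complex.conj_ofReal]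
  ring

theorem ST2_PP_zero (sd : Λ → Bool) (z : Λ → B) (N : ℕ) : PP sd z N (0 : Wd sd N → ℂ) = 0 := by
  unfold PP
  simp

theorem ST2_PP_sub (sd : Λ → Bool) (z : Λ → B) (N : ℕ) (t t' : Wd sd N → ℂ) :
    PP sd z N (t - t') = PP sd z N t - PP sd z N t' := by
  have h := ST2_PP_add sd z N (t - t') t'
  rw [sub_add_cancel] at h
  rw [h]
  abel

/-- coefficient -/
def ST2_co {Λ : Type} (sd : Λ → Bool) (N : ℕ) (M : Wd sd N) : ℝ := (M.1.length : ℝ) * sg sd M.1

/-- the matrix of the derivative -/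
theorem ST2_GG (ψ : B →ₗ[ℂ] ℂ) (sd : Λ → Bool) (z : Λ → B) (N : ℕ) (t : Wd sd N → ℂ)
    (D : B) :
    Complex.I * ψ ((Complex.I • PP sd z N t) * D) =
      -∑ M : Wd sd N, ((ST2_co sd N M : ℂ) * conj (t M)) * ψ (zv z M.1 * D) := by
  unfold PP
  rw [smul_mul_assoc, map_smul, Finset.sum_mul, map_sum, smul_eq_mul, ← mul_assoc,
    Complex.I_mul_I, neg_one_mul]
  congr 1
  refine Finset.sum_congr rfl fun M _ => ?_
  rw [smul_mul_assoc, map_smul, smul_eq_mul]
  rfl

end lin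

/-! ### Norms -/

section norms

variable {A : Type} [CStarAlgebra A]

theorem ST2_norm_sa {s : A} (hs : star s = s) (hs1 : s * s = 1) : ‖s‖ ≤ 1 := by
  have h1 : ‖star s * s‖ = ‖s‖ * ‖s‖ := CStarRing.norm_star_mul_self
  rw [hs, hs1] at h1
  by_contra hc
  push Not at hc
  have h2 : ‖(1 : A)‖ ≤ 1 := by
    rcases subsingleton_or_nontrivial A with h3 | h3
    · rw [Subsingleton.elim (1 : A) 0, norm_zero]
      exact zero_le_one
    · exact CStarRing.norm_one.le
  nlinarith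

theorem ST2_norm_one : ‖(1 : A)‖ ≤ 1 := ST2_norm_sa (star_one A) (one_mul 1)

theorem ST2_norm_unitary {v : A} (hv : star v * v = 1) : ‖v‖ ≤ 1 := by
  have h1 : ‖star v * v‖ = ‖v‖ * ‖v‖ := CStarRing.norm_star_mul_self
  rw [hv] at h1
  have h2 := ST2_norm_one (A := A)
  by_contra hc
  push Not at hc
  nlinarith

/-- trace of a projection -/
theorem ST2_tau_proj {τ : A →ₗ[ℂ] ℂ} (h : TW τ) {p : A} (hp : star p = p) (hp2 : p * p = p) :
    ∃ t : ℝ, τ p = (t : ℂ) ∧ 0 ≤ t ∧ t ≤ 1 := by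
  have h1 := h.nonneg p
  rw [hp, hp2] at h1
  have h2 := h.nonneg (1 - p)
  have h3 : star (1 - p) * (1 - p) = 1 - p := by
    rw [star_sub, star_one, hp, sub_mul, one_mul, mul_sub, mul_one, hp2, sub_self, sub_zero]
  rw [h3, map_sub, h.one] at h2
  obtain ⟨t, ht⟩ : ∃ t : ℝ, τ p = (t : ℂ) := by
    refine ⟨(τ p).re, ?_⟩
    apply Complex.ext
    · simp
    · simpa using (Complex.nonneg_iff.1 h1).2.symm
  refine ⟨t, ht, ?_, ?_⟩
  · rw [ht] at h1
    simpa using h1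
  · rw [ht] at h2
    have := (Complex.nonneg_iff.1 h2).1
    simp at this
    linarith

/-- norm of a centered projection -/
theorem ST2_norm_ctr {τ : A →ₗ[ℂ] ℂ} (h : TW τ) {p : A} (hp : star p = p) (hp2 : p * p = p) :
    ‖p - τ p • (1 : A)‖ ≤ 1 := by
  obtain ⟨t, ht, h0, h1⟩ := ST2_tau_proj h hp hp2
  have e1 : p - τ p • (1 : A) = ((1 / 2 - t : ℝ) : ℂ) • (1 : A) +
      ((1 / 2 : ℝ) : ℂ) • ((2 : ℂ) • p - 1) := by
    rw [ht, smul_sub, smul_smul, Complex.ofReal_sub, sub_smul]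
    have : ((1 / 2 : ℝ) : ℂ) * 2 = 1 := by
      push_cast
      ring
    rw [this, one_smul]
    abel
  have e2 : ‖(2 : ℂ) • p - 1‖ ≤ 1 := by
    refine ST2_norm_sa ?_ ?_
    · rw [star_sub, star_smul, hp, star_one]
      congr 2
      simp
    · rw [sub_mul, mul_sub, mul_one, one_mul, smul_mul_smul_comm, hp2]
      have : (2 : ℂ) * 2 = 2 + 2 := by norm_num
      rw [this, add_smul]
      abel
  rw [e1]
  refine (norm_add_le _ _).trans ?_
  rw [norm_smul, norm_smul, Complex.norm_real, Complex.norm_real]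
  have e3 : ‖(1 / 2 - t : ℝ)‖ ≤ 1 / 2 := by
    rw [Real.norm_eq_abs, abs_le]
    constructor <;> linarith
  have e4 : ‖(1 / 2 : ℝ)‖ = 1 / 2 := by
    rw [Real.norm_eq_abs, abs_of_pos]
    norm_num
  rw [e4]
  have e5 := ST2_norm_one (A := A)
  have e6 := norm_nonneg (1 / 2 - t : ℝ)
  have e7 := norm_nonneg (1 : A)
  nlinarith

theorem ST2_norm_zv {Λ : Type} {z : Λ → A} (hz : ∀ l, ‖z l‖ ≤ 1) (L : List Λ) :
    ‖zv z L‖ ≤ 1 := by
  induction L with
  | nil => exact ST2_norm_one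
  | cons x T ih =>
    have h1 : zv z (x :: T) = z x * zv z T := by simp [zv]
    rw [h1]
    refine (norm_mul_le _ _).trans ?_
    exact mul_le_one₀ (hz x) (norm_nonneg _) ih

/-- uniform bound for the gradient -/
theorem ST2_norm_PP {Λ : Type} [Fintype Λ] (sd : Λ → Bool) {z : Λ → A} (hz : ∀ l, ‖z l‖ ≤ 1)
    (N : ℕ) (t : Wd sd N → ℂ) :
    ‖Complex.I • PP sd z N t‖ ≤ (∑ M : Wd sd N, ‖ST2_co sd N M‖) * ‖t‖ := by
  rw [norm_smul, Complex.norm_I, one_mul]
  unfold PP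
  refine (norm_sum_le _ _).trans ?_
  rw [Finset.sum_mul]
  refine Finset.sum_le_sum fun M _ => ?_
  rw [norm_smul, norm_mul, Complex.norm_real, Complex.norm_conj]
  have h1 := ST2_norm_zv hz M.1
  have h2 : ‖t M‖ ≤ ‖t‖ := norm_le_pi_norm t M
  have h3 : 0 ≤ ‖ST2_co sd N M‖ * ‖t M‖ := by positivity
  calc ‖((M.1.length : ℝ) * sg sd M.1 : ℝ)‖ * ‖t M‖ * ‖zv z M.1‖
      ≤ ‖ST2_co sd N M‖ * ‖t M‖ * 1 := mul_le_mul_of_nonneg_left h1 h3
    _ ≤ ‖ST2_co sd N M‖ * ‖t‖ := by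
      rw [mul_one]
      exact mul_le_mul_of_nonneg_left h2 (norm_nonneg _)

end norms

end Pool.Agent.H30K
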