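import Pool.Agent.H30R4.KI.Defs

/-! Task WZ (helper166): alternating words of the perturbed letters vanish. -/

set_option autoImplicit false
set_option linter.unusedSectionVars false

noncomputable section

namespace Pool.Agent.H30K

variable {B : Type} [Ring B] [Algebra ℂ B]

namespace WZ

theorem blk (φ : B →ₗ[ℂ] ℂ) (S : Bool → Subalgebra ℂ B) (N : ℕ) (hK : KIS φ S N)
    {Λ : Type} (sd : Λ → Bool) (z : Λ → B) (hz : ∀ l, z l ∈ S (sd l) ∧ φ (z l) = 0)
    (M : List Λ) (hM : Alt sd M) (h0 : M ≠ []) (hN : M.length ≤ N) : φ (zv z M) = 0 := by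
  have h := hK (M.map fun l => (sd l, z l)) (by simpa using h0) (by simpa using hN)
    (by
      rw [List.isChain_map]
      exact hM)
    (by
      intro x hx
      rw [List.mem_map] at hx
      obtain ⟨l, -, rfl⟩ := hx
      exact hz l)
  rw [List.map_map] at h
  exact h

theorem zv_mem {Λ : Type} (sd : Λ → Bool) (z : Λ → B) (S : Bool → Subalgebra ℂ B)
    (C : Subalgebra ℂ B) (hSC : ∀ b, S b ≤ C) (hz : ∀ l, z l ∈ S (sd l)) (M : List Λ) :
    zv z M ∈ C := by
  unfold zv
  apply Subalgebra.list_prod_mem
  intro x hx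
  rw [List.mem_map] at hx
  obtain ⟨l, -, rfl⟩ := hx
  exact hSC _ (hz l)

theorem zv_append {Λ : Type} (z : Λ → B) (L M : List Λ) : zv z (L ++ M) = zv z L * zv z M := by
  unfold zv
  rw [List.map_append, List.prod_append]

theorem zv_cons {Λ : Type} (z : Λ → B) (l : Λ) (M : List Λ) : zv z (l :: M) = z l * zv z M := by
  unfold zv
  rw [List.map_cons, List.prod_cons]

theorem zv_nil {Λ : Type} (z : Λ → B) : zv z [] = 1 := by
  unfold zv
  simp

theorem zv_single {Λ : Type} (z : Λ → B) (l : Λ) : zv z [l] = z l := by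
  unfold zv
  simp

theorem head_true {Λ : Type} (sd : Λ → Bool) (l : Λ) (L : List Λ) (h : Alt sd (l :: L))
    (hl : sd l = false) : ∀ m ∈ L.head?, sd m = true := by
  intro m hm
  cases L with
  | nil => simp at hm
  | cons a L' =>
    simp only [List.head?_cons, Option.mem_def, Option.some.injEq] at hm
    subst hm
    unfold Alt at h
    rw [List.isChain_cons_cons] at h
    have := h.1
    rw [hl] at this
    cases h' : sd a
    · exact absurd h'.symm this
    · rfl

/-- expansion of the conjugated letter -/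
theorem expand (φ : B →ₗ[ℂ] ℂ) (Y Z x s : B) (a b a' b' : ℂ)
    (h1 : φ (Y * x * Z) = 0) (h2 : φ (Y * x * s * Z) = 0) (h3 : φ (Y * s * x * Z) = 0)
    (h4 : φ (Y * s * x * s * Z) = 0) :
    φ (Y * ((a • 1 + b • s) * x * (a' • 1 + b' • s) * Z)) = 0 := by
  have e : Y * ((a • 1 + b • s) * x * (a' • 1 + b' • s) * Z) =
      (a * a') • (Y * x * Z) + (a * b') • (Y * x * s * Z) + (b * a') • (Y * s * x * Z) +
        (b * b') • (Y * s * x * s * Z) := by
    simp only [add_mul, mul_add, smul_mul_assoc, mul_smul_comm, one_mul, mul_one, smul_smul,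
      mul_assoc, smul_add]
    simp only [mul_comm a' a, mul_comm b' a, mul_comm a' b, mul_comm b' b]
    abel
  rw [e]
  simp only [map_add, map_smul, h1, h2, h3, h4, smul_zero, add_zero]

/-- with at least one `s` on the left -/
theorem stepA (φ : B →ₗ[ℂ] ℂ) (s : B) (S : Bool → Subalgebra ℂ B)
    (C : Subalgebra ℂ B) (hSC : ∀ b, S b ≤ C) (hfree : FreeOver φ s C) (N : ℕ) (hK : KIS φ S N)
    {Λ : Type} (sd : Λ → Bool) (z : Λ → B) (hz : ∀ l, z l ∈ S (sd l) ∧ φ (z l) = 0)
    (κ₀ κ₁ κ₀' κ₁' : ℂ) (L : List Λ) : ∀ (M : List Λ) (E : List B) (e0 : B),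
    Alt sd (M ++ L) → (M ++ L).length ≤ N → e0 ∈ C → (∀ e ∈ E, e ∈ C ∧ φ e = 0) →
    (M = [] → ∀ l ∈ L.head?, sd l = true) →
    φ (e0 * (E.map fun e => s * e).prod * s * zv z M *
      zv (zc sd z (κ₀ • 1 + κ₁ • s) (κ₀' • 1 + κ₁' • s)) L) = 0 := by
  induction L with
  | nil =>
    intro M E e0 hM hN he0 hE _
    have hMC := zv_mem sd z S C hSC (fun l => (hz l).1) M
    have h := hfree e0 (E ++ [zv z M]) he0 (by
        intro e he
        rw [List.mem_append] at he
        rcases he with he | he
        · exact (hE e he).1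
        · rw [List.mem_singleton] at he
          rw [he]; exact hMC) (by simp) (by
        intro e he
        rw [List.dropLast_concat] at he
        exact (hE e he).2)
    rw [List.map_append, List.prod_append] at h
    simp only [List.map_cons, List.map_nil, List.prod_cons, List.prod_nil, mul_one] at h
    rw [zv_nil, mul_one]
    rw [← h]
    congr 1
    simp only [mul_assoc]
  | cons l L ih =>
    intro M E e0 hM hN he0 hE hhead
    have hMC := zv_mem sd z S C hSC (fun l => (hz l).1) M
    have hM1 : Alt sd ((M ++ [l]) ++ L) := by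
      rw [List.append_assoc]
      exact hM
    have hN1 : ((M ++ [l]) ++ L).length ≤ N := by
      rw [List.append_assoc]
      exact hN
    have hne : M ++ [l] ≠ [] := by simp
    have hr := ih (M ++ [l]) E e0 hM1 hN1 he0 hE (fun h => absurd h hne)
    rw [zv_append, zv_single] at hr
    cases hsd : sd l with
    | true =>
      rw [zv_cons]
      have : zc sd z (κ₀ • 1 + κ₁ • s) (κ₀' • 1 + κ₁' • s) l = z l := by
        unfold zc
        rw [if_pos hsd]
      rw [this, ← hr]
      congr 1
      simp only [mul_assoc]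
    | false =>
      rw [zv_cons]
      have hzc : zc sd z (κ₀ • 1 + κ₁ • s) (κ₀' • 1 + κ₁' • s) l =
          (κ₀ • 1 + κ₁ • s) * z l * (κ₀' • 1 + κ₁' • s) := by
        unfold zc
        rw [if_neg (by rw [hsd]; simp)]
      rw [hzc]
      -- `M` is not empty
      have hMne : M ≠ [] := by
        intro h
        have := hhead h l (by simp)
        rw [hsd] at this
        exact absurd this (by simp)
      have hMalt : Alt sd M := by
        unfold Alt at hM ⊢
        exact hM.left_of_append
      have hlL : Alt sd (l :: L) := by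
        unfold Alt at hM ⊢
        exact hM.right_of_append
      have hLalt : Alt sd L := by
        unfold Alt at hlL ⊢
        exact hlL.tail
      have hMlalt : Alt sd (M ++ [l]) := by
        unfold Alt at hM1 ⊢
        exact hM1.left_of_append
      have hlen : M.length + (L.length + 1) ≤ N := by
        simpa using hN
      have hφM : φ (zv z M) = 0 := blk φ S N hK sd z hz M hMalt hMne (by omega)
      have hφMl : φ (zv z (M ++ [l])) = 0 :=
        blk φ S N hK sd z hz (M ++ [l]) hMlalt hne (by simp; omega)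
      have hMlC := zv_mem sd z S C hSC (fun l => (hz l).1) (M ++ [l])
      have hht := head_true sd l L hlL hsd
      have h2 := ih [] (E ++ [zv z (M ++ [l])]) e0 (by simpa using hLalt) (by simp; omega) he0
        (by
          intro e he
          rw [List.mem_append, List.mem_singleton] at he
          rcases he with he | he
          · exact hE e he
          · rw [he]; exact ⟨hMlC, hφMl⟩) (fun _ => hht)
      have h3 := ih [l] (E ++ [zv z M]) e0 (by simpa using hlL) (by simp; omega) he0
        (by
          intro e he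
          rw [List.mem_append, List.mem_singleton] at he
          rcases he with he | he
          · exact hE e he
          · rw [he]; exact ⟨hMC, hφM⟩) (fun h => absurd h (by simp))
      have h4 := ih [] (E ++ [zv z M] ++ [z l]) e0 (by simpa using hLalt) (by simp; omega) he0
        (by
          intro e he
          rw [List.mem_append, List.mem_singleton, List.mem_append, List.mem_singleton] at he
          rcases he with (he | he) | he
          · exact hE e he
          · rw [he]; exact ⟨hMC, hφM⟩
          · rw [he]; exact ⟨hSC _ (hz l).1, (hz l).2⟩) (fun _ => hht)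
      simp only [List.map_append, List.prod_append, List.map_cons, List.map_nil, List.prod_cons,
        List.prod_nil, mul_one, zv_nil, zv_single, zv_append, mul_assoc] at hr h2 h3 h4
      have key := expand φ (e0 * (E.map fun e => s * e).prod * s * zv z M)
        (zv (zc sd z (κ₀ • 1 + κ₁ • s) (κ₀' • 1 + κ₁' • s)) L) (z l) s κ₀ κ₁ κ₀' κ₁'
        (by simp only [mul_assoc]; exact hr) (by simp only [mul_assoc]; exact h2)
        (by simp only [mul_assoc]; exact h3) (by simp only [mul_assoc]; exact h4)
      simp only [mul_assoc] at key ⊢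
      exact key

/-- no `s` so far -/
theorem stepB (φ : B →ₗ[ℂ] ℂ) (s : B) (S : Bool → Subalgebra ℂ B)
    (C : Subalgebra ℂ B) (hSC : ∀ b, S b ≤ C) (hfree : FreeOver φ s C) (N : ℕ) (hK : KIS φ S N)
    {Λ : Type} (sd : Λ → Bool) (z : Λ → B) (hz : ∀ l, z l ∈ S (sd l) ∧ φ (z l) = 0)
    (κ₀ κ₁ κ₀' κ₁' : ℂ) (L : List Λ) : ∀ (M : List Λ),
    Alt sd (M ++ L) → (M ++ L).length ≤ N → M ++ L ≠ [] →
    φ (zv z M * zv (zc sd z (κ₀ • 1 + κ₁ • s) (κ₀' • 1 + κ₁' • s)) L) = 0 := by
  induction L with
  | nil =>
    intro M hM hN h0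
    rw [zv_nil, mul_one]
    rw [List.append_nil] at hM hN h0
    exact blk φ S N hK sd z hz M hM h0 hN
  | cons l L ih =>
    intro M hM hN h0
    have hMC := zv_mem sd z S C hSC (fun l => (hz l).1) M
    have hM1 : Alt sd ((M ++ [l]) ++ L) := by
      rw [List.append_assoc]
      exact hM
    have hN1 : ((M ++ [l]) ++ L).length ≤ N := by
      rw [List.append_assoc]
      exact hN
    have hne : M ++ [l] ≠ [] := by simp
    have hr := ih (M ++ [l]) hM1 hN1 (by simp)
    rw [zv_append, zv_single] at hr
    cases hsd : sd l with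
    | true =>
      rw [zv_cons]
      have : zc sd z (κ₀ • 1 + κ₁ • s) (κ₀' • 1 + κ₁' • s) l = z l := by
        unfold zc
        rw [if_pos hsd]
      rw [this, ← hr]
      congr 1
      simp only [mul_assoc]
    | false =>
      rw [zv_cons]
      have hzc : zc sd z (κ₀ • 1 + κ₁ • s) (κ₀' • 1 + κ₁' • s) l =
          (κ₀ • 1 + κ₁ • s) * z l * (κ₀' • 1 + κ₁' • s) := by
        unfold zc
        rw [if_neg (by rw [hsd]; simp)]
      rw [hzc]
      have hlL : Alt sd (l :: L) := by
        unfold Alt at hM ⊢
        exact hM.right_of_append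
      have hLalt : Alt sd L := by
        unfold Alt at hlL ⊢
        exact hlL.tail
      have hlen : M.length + (L.length + 1) ≤ N := by
        simpa using hN
      have hMlC := zv_mem sd z S C hSC (fun l => (hz l).1) (M ++ [l])
      have hht := head_true sd l L hlL hsd
      have h2 := stepA φ s S C hSC hfree N hK sd z hz κ₀ κ₁ κ₀' κ₁' L [] [] (zv z (M ++ [l]))
        (by simpa using hLalt) (by simp; omega) hMlC (by simp) (fun _ => hht)
      have h3 := stepA φ s S C hSC hfree N hK sd z hz κ₀ κ₁ κ₀' κ₁' L [l] [] (zv z M)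
        (by simpa using hlL) (by simp; omega) hMC (by simp) (fun h => absurd h (by simp))
      have h4 := stepA φ s S C hSC hfree N hK sd z hz κ₀ κ₁ κ₀' κ₁' L [] [z l] (zv z M)
        (by simpa using hLalt) (by simp; omega) hMC
        (by
          intro e he
          rw [List.mem_singleton] at he
          rw [he]; exact ⟨hSC _ (hz l).1, (hz l).2⟩) (fun _ => hht)
      simp only [List.map_cons, List.map_nil, List.prod_cons,
        List.prod_nil, mul_one, zv_nil, zv_single, zv_append, mul_assoc] at hr h2 h3 h4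
      have key := expand φ (zv z M)
        (zv (zc sd z (κ₀ • 1 + κ₁ • s) (κ₀' • 1 + κ₁' • s)) L) (z l) s κ₀ κ₁ κ₀' κ₁'
        (by simp only [mul_assoc]; exact hr) (by simp only [mul_assoc]; exact h2)
        (by simp only [mul_assoc]; exact h3) (by simp only [mul_assoc]; exact h4)
      exact key

end WZ

/-- WZ -/
theorem word_zero (φ : B →ₗ[ℂ] ℂ) (s : B) (S : Bool → Subalgebra ℂ B)
    (C : Subalgebra ℂ B) (hSC : ∀ b, S b ≤ C) (hfree : FreeOver φ s C) (N : ℕ) (hK : KIS φ S N)
    {Λ : Type} (sd : Λ → Bool) (z : Λ → B) (hz : ∀ l, z l ∈ S (sd l) ∧ φ (z l) = 0)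
    (κ₀ κ₁ κ₀' κ₁' : ℂ) (L : List Λ) (hL : Alt sd L) (h0 : L ≠ []) (hN : L.length ≤ N) :
    φ (zv (zc sd z (κ₀ • 1 + κ₁ • s) (κ₀' • 1 + κ₁' • s)) L) = 0 := by
  have h := WZ.stepB φ s S C hSC hfree N hK sd z hz κ₀ κ₁ κ₀' κ₁' L [] (by simpa using hL)
    (by simpa using hN) (by simpa using h0)
  rw [WZ.zv_nil, one_mul] at h
  exact h

end Pool.Agent.H30K
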