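import Mathlib
import Pool.Agent.H30R4.KI.Defs
import Pool.Agent.H30R4.KI.T_STAGE2a
import Pool.Agent.H30R4.KI.T_FSEQ
import Pool.Agent.H30R4.KI.T_WZ
import Pool.Agent.H30R4.KI.T_PAIR
import Pool.Agent.H30R4.KI.T_NONDEG
import Pool.Agent.H30R4.KI.T_DUAL
import Pool.Agent.H30R4.KI.T_APPR
import Pool.Agent.H30R4.KI.T_EE1
import Pool.Agent.H30R4.KI.T_EE3
import Pool.Agent.H30R4.KI.T_NEWT
import Pool.Agent.H30R4.KI.T_KISP
import Pool.Agent.H30R4.KI.T_REIDX

set_option autoImplicit false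
set_option linter.unusedSectionVars false

open scoped ComplexOrder Topology BoundedContinuousFunction ComplexConjugate
open Filter

noncomputable section

namespace Pool.Agent.H30K

open Pool.Agent.H467F (TW)

open Pool.Agent.H467F (n2)

section newton

variable {A : Type} [CStarAlgebra A] {τ : A →ₗ[ℂ] ℂ} {U : Ultrafilter ℕ}
  {φ : (ℕ →ᵇ A) →ₗ[ℂ] ℂ} {Λ : Type} [Fintype Λ]

theorem ST2_conv (h : TW τ) (hφ : ULim τ U φ) (sd : Λ → Bool) (N : ℕ) (z : ℕ → Λ → A)
    (zz : Λ → (ℕ →ᵇ A)) (ha : ∀ l, ST2_Apx U (fun n => z n l) (zz l)) (c : ℝ) (hc : 0 < c) :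
    ∀ᶠ n in (U : Filter ℕ), ∀ (t : Wd sd N → ℂ) (L : Wd sd N),
      ‖Complex.I * τ ((Complex.I • PP sd (z n) N t) * Dl sd (z n) L.1) -
        Complex.I * φ ((Complex.I • PP sd zz N t) * Dl sd zz L.1)‖ ≤ c * ‖t‖ := by
  set K : ℝ := ∑ M : Wd sd N, ‖ST2_co sd N M‖ with hK
  have hK0 : 0 ≤ K := Finset.sum_nonneg fun _ _ => norm_nonneg _
  have h1 : ∀ (M L : Wd sd N), ∀ᶠ n in (U : Filter ℕ),
      ‖τ (zv (z n) M.1 * Dl sd (z n) L.1) - φ (zv zz M.1 * Dl sd zz L.1)‖ ≤ c / (K + 1) := by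
    intro M L
    have h2 : Tendsto (fun n => τ (zv (z n) M.1 * Dl sd (z n) L.1)) U
        (𝓝 (φ (zv zz M.1 * Dl sd zz L.1))) :=
      ST2_tau h hφ (ST2_mul (ST2_zv ha M.1) (ST2_Dl sd ha L.1))
    have h3 := (tendsto_iff_norm_sub_tendsto_zero.1 h2).eventually
      (ge_mem_nhds (show (0 : ℝ) < c / (K + 1) by positivity))
    exact h3
  have h4 : ∀ᶠ n in (U : Filter ℕ), ∀ (M L : Wd sd N),
      ‖τ (zv (z n) M.1 * Dl sd (z n) L.1) - φ (zv zz M.1 * Dl sd zz L.1)‖ ≤ c / (K + 1) := by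
    rw [eventually_all]
    intro M
    rw [eventually_all]
    intro L
    exact h1 M L
  filter_upwards [h4] with n hn t L
  rw [ST2_GG, ST2_GG]
  have e1 : (-∑ M : Wd sd N, ((ST2_co sd N M : ℂ) * conj (t M)) * τ (zv (z n) M.1 * Dl sd (z n) L.1))
      - (-∑ M : Wd sd N, ((ST2_co sd N M : ℂ) * conj (t M)) * φ (zv zz M.1 * Dl sd zz L.1)) =
      -∑ M : Wd sd N, ((ST2_co sd N M : ℂ) * conj (t M)) *
        (τ (zv (z n) M.1 * Dl sd (z n) L.1) - φ (zv zz M.1 * Dl sd zz L.1)) := by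
    simp only [mul_sub, Finset.sum_sub_distrib]
    ring
  rw [e1, norm_neg]
  refine (norm_sum_le _ _).trans ?_
  have e2 : ∀ M ∈ (Finset.univ : Finset (Wd sd N)), ‖((ST2_co sd N M : ℂ) * conj (t M)) *
        (τ (zv (z n) M.1 * Dl sd (z n) L.1) - φ (zv zz M.1 * Dl sd zz L.1))‖ ≤
        ‖ST2_co sd N M‖ * (‖t‖ * (c / (K + 1))) := by
    intro M _
    rw [norm_mul, norm_mul, Complex.norm_real, Complex.norm_conj, mul_assoc]
    refine mul_le_mul_of_nonneg_left ?_ (norm_nonneg _)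
    exact mul_le_mul (norm_le_pi_norm t M) (hn M L) (norm_nonneg _) (norm_nonneg _)
  refine (Finset.sum_le_sum e2).trans ?_
  rw [← Finset.sum_mul, ← hK]
  have e3 : K * (c / (K + 1)) ≤ c := by
    rw [mul_div_assoc', div_le_iff₀ (by positivity)]
    nlinarith
  calc K * (‖t‖ * (c / (K + 1))) = (K * (c / (K + 1))) * ‖t‖ := by ring
    _ ≤ c * ‖t‖ := mul_le_mul_of_nonneg_right e3 (norm_nonneg _)

theorem ST2_starX {B : Type} [Ring B] [StarRing B] [Algebra ℂ B] [StarModule ℂ B]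
    (sd : Λ → Bool) (N : ℕ) (z : Λ → B) (hz : ∀ l, star (z l) = z l)
    (t : Wd sd N → ℂ) (ht : t ∈ EE sd N) :
    star (Complex.I • PP sd z N t) = Complex.I • PP sd z N t := by
  rw [star_smul, star_PP sd N z hz t ht, Complex.star_def, Complex.conj_I, neg_smul,
    smul_neg, neg_neg]

theorem ST2_exp_star {X : A} (hX : star X = X) :
    star (NormedSpace.exp (Complex.I • X)) = NormedSpace.exp (-(Complex.I • X)) := by
  rw [NormedSpace.star_exp, star_smul, hX, Complex.star_def, Complex.conj_I, neg_smul]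

theorem ST2_exp_unitary {X : A} (hX : star X = X) :
    NormedSpace.exp (Complex.I • X) ∈ unitary A :=
  (selfAdjoint.expUnitary ⟨X, hX⟩).2

theorem ST2_zc_star {B : Type} [Ring B] [StarRing B] {Λ : Type} (sd : Λ → Bool) (z : Λ → B)
    (hz : ∀ l, star (z l) = z l) (v : B) (l : Λ) :
    star (zc sd z v (star v) l) = zc sd z v (star v) l := by
  unfold zc
  split_ifs
  · exact hz l
  · rw [star_mul, star_mul, star_star, hz l, mul_assoc]

/-- the map of the Newton argument -/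
def ST2_F (h : TW τ) (sd : Λ → Bool) (N : ℕ) (z : Λ → A) (hz : ∀ l, star (z l) = z l)
    (x : EE sd N) : EE sd N :=
  ⟨fun L => τ (zv (zc sd z (NormedSpace.exp (Complex.I • (Complex.I • PP sd z N x.1)))
      (NormedSpace.exp (-(Complex.I • (Complex.I • PP sd z N x.1))))) L.1), by
    rw [← ST2_exp_star (ST2_starX sd N z hz x.1 x.2)]
    exact mem_EE h sd N _ (ST2_zc_star sd z hz _)⟩

/-- the limit of the derivatives -/
def ST2_G (h : TW τ) (hφ : ULim τ U φ) (sd : Λ → Bool) (N : ℕ) (z : ℕ → Λ → A)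
    (hz : ∀ n l, star (z n l) = z n l) (zz : Λ → (ℕ →ᵇ A))
    (ha : ∀ l, ST2_Apx U (fun n => z n l) (zz l)) : EE sd N →ₗ[ℝ] EE sd N where
  toFun x := ⟨fun L => Complex.I * φ ((Complex.I • PP sd zz N x.1) * Dl sd zz L.1), by
    have h1 : ∀ L : Wd sd N, Tendsto (fun n => Complex.I * τ ((Complex.I • PP sd (z n) N x.1) *
        Dl sd (z n) L.1)) U (𝓝 (Complex.I * φ ((Complex.I • PP sd zz N x.1) * Dl sd zz L.1))) := by
      intro L
      rw [tendsto_iff_norm_sub_tendsto_zero]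
      rw [Metric.tendsto_nhds]
      intro c hc
      have h2 := ST2_conv h hφ sd N z zz ha (c / (2 * (‖x.1‖ + 1))) (by positivity)
      filter_upwards [h2] with n hn
      rw [Real.dist_eq, sub_zero, abs_of_nonneg (norm_nonneg _)]
      refine (hn x.1 L).trans_lt ?_
      have h3 := norm_nonneg x.1
      rw [div_mul_eq_mul_div, div_lt_iff₀ (by positivity)]
      nlinarith
    have h2 : ∀ n, (fun L : Wd sd N => Complex.I * τ ((Complex.I • PP sd (z n) N x.1) *
        Dl sd (z n) L.1)) ∈ EE sd N := fun n =>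
      mem_EE2 h sd N (z n) (hz n) _ (ST2_starX sd N (z n) (hz n) x.1 x.2)
    intro L M
    refine ⟨fun hM => ?_, fun hM => ?_⟩
    · exact tendsto_nhds_unique ((h1 M).congr fun n => (h2 n L M).1 hM) (h1 L)
    · exact tendsto_nhds_unique ((h1 M).congr fun n => (h2 n L M).2 hM)
        ((Complex.continuous_conj.tendsto _).comp (h1 L))⟩
  map_add' x y := by
    apply Subtype.ext
    funext L
    show Complex.I * φ ((Complex.I • PP sd zz N (x.1 + y.1)) * Dl sd zz L.1) =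
      Complex.I * φ ((Complex.I • PP sd zz N x.1) * Dl sd zz L.1) +
      Complex.I * φ ((Complex.I • PP sd zz N y.1) * Dl sd zz L.1)
    rw [ST2_PP_add, smul_add, add_mul, map_add, mul_add]
  map_smul' c x := by
    apply Subtype.ext
    funext L
    show Complex.I * φ ((Complex.I • PP sd zz N (c • x.1)) * Dl sd zz L.1) =
      c • (Complex.I * φ ((Complex.I • PP sd zz N x.1) * Dl sd zz L.1))
    rw [ST2_PP_smul, smul_comm, smul_mul_assoc, map_smul, smul_eq_mul, Complex.real_smul]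
    ring

theorem ST2_G_inj (h : TW τ) (hφ : ULim τ U φ) (sd : Λ → Bool) (N : ℕ) (z : ℕ → Λ → A)
    (hz : ∀ n l, star (z n l) = z n l) (zz : Λ → (ℕ →ᵇ A))
    (ha : ∀ l, ST2_Apx U (fun n => z n l) (zz l)) (hzz : ∀ l, star (zz l) = zz l)
    (hnd : ∀ t : Wd sd N → ℂ, t ∈ EE sd N → (∀ y, φ (y * PP sd zz N t) = 0) → t = 0) :
    Function.Injective (ST2_G h hφ sd N z hz zz ha) := by
  rw [injective_iff_map_eq_zero]
  intro x hx
  apply Subtype.ext
  apply hnd x.1 x.2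
  have h1 : ∀ L : Wd sd N, Complex.I * φ ((Complex.I • PP sd zz N x.1) * Dl sd zz L.1) = 0 := by
    intro L
    exact congrFun (congrArg Subtype.val hx) L
  have h2 : ∑ L : Wd sd N, conj (x.1 L) *
      (Complex.I * φ ((Complex.I • PP sd zz N x.1) * Dl sd zz L.1)) = 0 :=
    Finset.sum_eq_zero fun L _ => by rw [h1 L, mul_zero]
  have h3 : ∀ Y : (ℕ →ᵇ A), ∑ L : Wd sd N, conj (x.1 L) *
      (Complex.I * φ (Y * Dl sd zz L.1)) = Complex.I * φ (Y * PP sd zz N x.1) := by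
    intro Y
    rw [← reidx sd zz N x.1 x.2, Finset.mul_sum, map_sum, Finset.mul_sum]
    refine Finset.sum_congr rfl fun L _ => ?_
    rw [mul_smul_comm, map_smul, smul_eq_mul]
    ring
  rw [h3, smul_mul_assoc, map_smul, smul_eq_mul, ← mul_assoc, Complex.I_mul_I, neg_one_mul,
    neg_eq_zero] at h2
  have h4 : φ (star (PP sd zz N x.1) * PP sd zz N x.1) = 0 := by
    rw [star_PP sd N zz hzz x.1 x.2, neg_mul, map_neg, h2, neg_zero]
  rw [hφ.sq] at h4
  have h5 : n2 φ (PP sd zz N x.1) = 0 := by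
    have : n2 φ (PP sd zz N x.1) ^ 2 = 0 := by exact_mod_cast h4
    exact pow_eq_zero_iff two_ne_zero |>.1 this
  intro y
  have h6 := hφ.cauchy y (PP sd zz N x.1)
  rw [h5, mul_zero] at h6
  exact norm_le_zero_iff.1 h6

theorem ST2_newton (h : TW τ) (hφ : ULim τ U φ) (sd : Λ → Bool) (N : ℕ) (z : ℕ → Λ → A)
    (hz : ∀ n l, star (z n l) = z n l) (hz1 : ∀ n l, ‖z n l‖ ≤ 1) (zz : Λ → (ℕ →ᵇ A))
    (ha : ∀ l, ST2_Apx U (fun n => z n l) (zz l)) (hzz : ∀ l, star (zz l) = zz l)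
    (hnd : ∀ t : Wd sd N → ℂ, t ∈ EE sd N → (∀ y, φ (y * PP sd zz N t) = 0) → t = 0)
    (h0 : ∀ L : Wd sd N, φ (zv zz L.1) = 0) (ε : ℝ) (hε : 0 < ε) :
    ∀ᶠ n in (U : Filter ℕ), ∃ X : A, star X = X ∧ ‖X‖ ≤ ε ∧ ∀ L : Wd sd N,
      τ (zv (zc sd (z n) (NormedSpace.exp (Complex.I • X))
        (NormedSpace.exp (-(Complex.I • X)))) L.1) = 0 := by
  set K : ℝ := ∑ M : Wd sd N, ‖ST2_co sd N M‖ with hK
  have hK0 : 0 ≤ K := Finset.sum_nonneg fun _ _ => norm_nonneg _
  have hX : ∀ n (t : Wd sd N → ℂ), ‖Complex.I • PP sd (z n) N t‖ ≤ K * ‖t‖ := fun n t =>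
    ST2_norm_PP sd (hz1 n) N t
  have hN := newton (E := EE sd N) U (fun n => ST2_F h sd N (z n) (hz n))
    (ST2_G h hφ sd N z hz zz ha) (ST2_G_inj h hφ sd N z hz zz ha hzz hnd) ?_ ?_
    (ε / (K + 1)) (by positivity)
  · filter_upwards [hN] with n hn
    obtain ⟨x, hx1, hx2⟩ := hn
    refine ⟨Complex.I • PP sd (z n) N x.1, ST2_starX sd N (z n) (hz n) x.1 x.2, ?_, ?_⟩
    · refine (hX n x.1).trans ?_
      have h1 : ‖x.1‖ ≤ ε / (K + 1) := hx1
      calc K * ‖x.1‖ ≤ K * (ε / (K + 1)) := mul_le_mul_of_nonneg_left h1 hK0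
        _ ≤ ε := by
          rw [mul_div_assoc', div_le_iff₀ (by positivity)]
          nlinarith
    · intro L
      exact congrFun (congrArg Subtype.val hx2) L
  · intro c hc
    obtain ⟨ρ, hρ, hap⟩ := approx h sd N (c / (2 * (K + 1))) (by positivity)
    refine ⟨ρ / (K + 1), by positivity, ?_⟩
    filter_upwards [ST2_conv h hφ sd N z zz ha (c / 2) (by positivity)] with n hn x y hx hy
    have hxy : ∀ t : Wd sd N → ℂ, ‖t‖ ≤ ρ / (K + 1) → ‖Complex.I • PP sd (z n) N t‖ ≤ ρ := by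
      intro t ht
      refine (hX n t).trans ?_
      calc K * ‖t‖ ≤ K * (ρ / (K + 1)) := mul_le_mul_of_nonneg_left ht hK0
        _ ≤ ρ := by
          rw [mul_div_assoc', div_le_iff₀ (by positivity)]
          nlinarith
    show ‖(ST2_F h sd N (z n) (hz n) x - ST2_F h sd N (z n) (hz n) y -
      ST2_G h hφ sd N z hz zz ha (x - y)).1‖ ≤ c * ‖(x - y).1‖
    rw [pi_norm_le_iff_of_nonneg (by positivity)]
    intro L
    show ‖τ (zv (zc sd (z n) (NormedSpace.exp (Complex.I • (Complex.I • PP sd (z n) N x.1)))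
      (NormedSpace.exp (-(Complex.I • (Complex.I • PP sd (z n) N x.1))))) L.1) -
      τ (zv (zc sd (z n) (NormedSpace.exp (Complex.I • (Complex.I • PP sd (z n) N y.1)))
      (NormedSpace.exp (-(Complex.I • (Complex.I • PP sd (z n) N y.1))))) L.1) -
      Complex.I * φ ((Complex.I • PP sd zz N (x.1 - y.1)) * Dl sd zz L.1)‖ ≤ c * ‖x.1 - y.1‖
    have h1 := hap (z n) (hz1 n) _ _ (hxy x.1 hx) (hxy y.1 hy) L.1 L.2.1 L.2.2.1 L.2.2.2.2
    have h2 := hn (x.1 - y.1) L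
    have h3 : Complex.I • PP sd (z n) N x.1 - Complex.I • PP sd (z n) N y.1 =
        Complex.I • PP sd (z n) N (x.1 - y.1) := by
      rw [ST2_PP_sub, smul_sub]
    rw [h3] at h1
    have h4 := norm_add_le (τ (zv (zc sd (z n)
      (NormedSpace.exp (Complex.I • (Complex.I • PP sd (z n) N x.1)))
      (NormedSpace.exp (-(Complex.I • (Complex.I • PP sd (z n) N x.1))))) L.1) -
      τ (zv (zc sd (z n) (NormedSpace.exp (Complex.I • (Complex.I • PP sd (z n) N y.1)))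
      (NormedSpace.exp (-(Complex.I • (Complex.I • PP sd (z n) N y.1))))) L.1) -
      Complex.I * τ ((Complex.I • PP sd (z n) N (x.1 - y.1)) * Dl sd (z n) L.1))
      (Complex.I * τ ((Complex.I • PP sd (z n) N (x.1 - y.1)) * Dl sd (z n) L.1) -
        Complex.I * φ ((Complex.I • PP sd zz N (x.1 - y.1)) * Dl sd zz L.1))
    rw [sub_add_sub_cancel] at h4
    refine h4.trans ?_
    have h5 : c / (2 * (K + 1)) * ‖Complex.I • PP sd (z n) N (x.1 - y.1)‖ ≤
        c / 2 * ‖x.1 - y.1‖ := by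
      calc c / (2 * (K + 1)) * ‖Complex.I • PP sd (z n) N (x.1 - y.1)‖
          ≤ c / (2 * (K + 1)) * (K * ‖x.1 - y.1‖) :=
            mul_le_mul_of_nonneg_left (hX n _) (by positivity)
        _ = (c / (2 * (K + 1)) * K) * ‖x.1 - y.1‖ := by ring
        _ ≤ c / 2 * ‖x.1 - y.1‖ := by
          refine mul_le_mul_of_nonneg_right ?_ (norm_nonneg _)
          rw [div_mul_eq_mul_div, div_le_iff₀ (by positivity)]
          nlinarith
    linarith
  · have h1 : ∀ L : Wd sd N, Tendsto (fun n => (ST2_F h sd N (z n) (hz n) 0).1 L) U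
        (𝓝 ((0 : Wd sd N → ℂ) L)) := by
      intro L
      have h2 := ST2_tau h hφ (ST2_zv ha L.1)
      rw [h0 L] at h2
      refine h2.congr fun n => ?_
      show τ (zv (z n) L.1) = τ (zv (zc sd (z n)
        (NormedSpace.exp (Complex.I • (Complex.I • PP sd (z n) N (0 : Wd sd N → ℂ))))
        (NormedSpace.exp (-(Complex.I • (Complex.I • PP sd (z n) N (0 : Wd sd N → ℂ)))))) L.1)
      rw [ST2_PP_zero, smul_zero, smul_zero, neg_zero, NormedSpace.exp_zero]
      congr 2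
      funext l
      unfold zc
      simp
    have h3 : Tendsto (fun n => (ST2_F h sd N (z n) (hz n) 0).1) U (𝓝 (0 : Wd sd N → ℂ)) :=
      tendsto_pi_nhds.2 h1
    rw [tendsto_subtype_rng]
    exact h3

end newton

/-! ### The letters -/

section letters

theorem ST2_PV2_conj {B : Type} [Ring B] [StarRing B] {Λ : Type} [Fintype Λ]
    {sd : Λ → Bool} {q : Λ → B} (hq : PV2 sd q) {v : B} (hv : star v * v = 1)
    (hv' : v * star v = 1) : PV2 sd (zc sd q v (star v)) := by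
  refine ⟨fun l => ?_, fun l => ?_, fun l m hlm hs => ?_, fun b => ?_⟩
  · unfold zc
    split_ifs
    · exact hq.star_eq l
    · rw [star_mul, star_mul, star_star, hq.star_eq l, mul_assoc]
  · unfold zc
    split_ifs
    · exact hq.idem l
    · calc v * q l * star v * (v * q l * star v) = v * (q l * (star v * v) * q l) * star v := by
            simp only [mul_assoc]
        _ = v * q l * star v := by rw [hv, mul_one, hq.idem l]
  · unfold zc
    rw [← hs]
    split_ifs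
    · exact hq.orth l m hlm hs
    · calc v * q l * star v * (v * q m * star v) = v * (q l * (star v * v) * q m) * star v := by
            simp only [mul_assoc]
        _ = 0 := by rw [hv, mul_one, hq.orth l m hlm hs, mul_zero, zero_mul]
  · cases b with
    | true =>
      rw [← hq.sum true]
      refine Finset.sum_congr rfl fun l _ => ?_
      unfold zc
      rw [if_pos l.2]
    | false =>
      have h1 : ∀ l : {l : Λ // sd l = false}, zc sd q v (star v) l.1 = v * q l.1 * star v := by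
        intro l
        unfold zc
        rw [if_neg (by rw [l.2]; exact Bool.false_ne_true)]
      rw [Finset.sum_congr rfl fun l _ => h1 l, ← Finset.sum_mul, ← Finset.mul_sum,
        hq.sum false, mul_one, hv']

theorem ST2_ctr_conj {B : Type} [Ring B] [StarRing B] [Algebra ℂ B] (ψ : B →ₗ[ℂ] ℂ)
    (hc : ∀ x y, ψ (x * y) = ψ (y * x)) {Λ : Type} (sd : Λ → Bool) (l0 : Bool → Λ) (q : Λ → B)
    {v : B} (hv : star v * v = 1) (hv' : v * star v = 1) :
    ctr ψ sd l0 (zc sd q v (star v)) = zc (sd' sd l0) (ctr ψ sd l0 q) v (star v) := by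
  funext l
  unfold ctr zc sd'
  by_cases hl : sd l.1 = true
  · rw [if_pos hl, if_pos hl]
  · rw [if_neg hl, if_neg hl]
    have h1 : ψ (v * q l.1 * star v) = ψ (q l.1) := by
      rw [hc, ← mul_assoc, hv, one_mul]
    rw [h1, mul_sub, sub_mul, mul_smul_comm, mul_one, smul_mul_assoc, hv']

theorem ST2_zc_comp {B : Type} [Ring B] [StarRing B] {Λ : Type} (sd : Λ → Bool) (z : Λ → B)
    (e w : B) : zc sd z (e * w) (star (e * w)) = zc sd (zc sd z w (star w)) e (star e) := by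
  funext l
  unfold zc
  by_cases hl : sd l = true
  · simp only [if_pos hl]
  · simp only [if_neg hl]
    rw [star_mul]
    simp only [mul_assoc]

theorem ST2_star_ctr {B : Type} [Ring B] [StarRing B] [Algebra ℂ B] [StarModule ℂ B]
    (ψ : B →ₗ[ℂ] ℂ) (hcj : ∀ x, ψ (star x) = star (ψ x)) {Λ : Type} (sd : Λ → Bool)
    (l0 : Bool → Λ) (q : Λ → B) (hq : ∀ l, star (q l) = q l) (l : Lam sd l0) :
    star (ctr ψ sd l0 q l) = ctr ψ sd l0 q l := by
  unfold ctr
  rw [star_sub, star_smul, star_one, hq, ← hcj, hq]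

theorem ST2_PV2_apply {A : Type} [CStarAlgebra A] {Λ : Type} [Fintype Λ]
    {sd : Λ → Bool} {p : Λ → (ℕ →ᵇ A)} (hp : PV2 sd p) (n : ℕ) : PV2 sd (fun l => p l n) := by
  refine ⟨fun l => ?_, fun l => ?_, fun l m hlm hs => ?_, fun b => ?_⟩
  · have := congrArg (fun f : ℕ →ᵇ A => f n) (hp.star_eq l)
    simpa using this
  · have := congrArg (fun f : ℕ →ᵇ A => f n) (hp.idem l)
    simpa using this
  · have := congrArg (fun f : ℕ →ᵇ A => f n) (hp.orth l m hlm hs)
    simpa using this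
  · have := congrArg (fun f : ℕ →ᵇ A => f n) (hp.sum b)
    simpa using this

end letters

/-! ### The perturbation -/

section pert

variable {A : Type} [CStarAlgebra A]

/-- `w = √(1-b²) + i b s` -/
def ST2_w (s : ℕ →ᵇ A) (b : ℝ) : ℕ →ᵇ A :=
  ((Real.sqrt (1 - b ^ 2) : ℝ) : ℂ) • (1 : ℕ →ᵇ A) + (Complex.I * b) • s

theorem ST2_w_star {s : ℕ →ᵇ A} (hs : star s = s) (b : ℝ) :
    star (ST2_w s b) = ((Real.sqrt (1 - b ^ 2) : ℝ) : ℂ) • (1 : ℕ →ᵇ A) + (-(Complex.I * b)) • s := by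
  unfold ST2_w
  rw [star_add, star_smul, star_smul, star_one, hs]
  congr 2
  · simp
  · simp

theorem ST2_w_mul {s : ℕ →ᵇ A} (hs : star s = s) (hs1 : s * s = 1) {b : ℝ} (hb0 : 0 ≤ b)
    (hb1 : b ≤ 1) : ST2_w s b * star (ST2_w s b) = 1 ∧ star (ST2_w s b) * ST2_w s b = 1 := by
  have h1 : (0 : ℝ) ≤ 1 - b ^ 2 := by nlinarith
  have h2 : ((Real.sqrt (1 - b ^ 2) : ℝ) : ℂ) * ((Real.sqrt (1 - b ^ 2) : ℝ) : ℂ) =
      ((1 - b ^ 2 : ℝ) : ℂ) := by
    rw [← Complex.ofReal_mul, Real.mul_self_sqrt h1]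
  rw [ST2_w_star hs]
  unfold ST2_w
  set κ : ℂ := ((Real.sqrt (1 - b ^ 2) : ℝ) : ℂ)
  have h3 : (Complex.I * b) * (Complex.I * b) = -((b : ℂ) ^ 2) := by
    have := Complex.I_mul_I
    linear_combination (b : ℂ) ^ 2 * this
  constructor
  · rw [add_mul, mul_add, mul_add, smul_mul_smul_comm, smul_mul_smul_comm, smul_mul_smul_comm,
      smul_mul_smul_comm, hs1, one_mul, one_mul, mul_one]
    have e1 : κ * -(Complex.I * b) = -((Complex.I * b) * κ) := by ring
    have e2 : (Complex.I * b) * -(Complex.I * b) = (b : ℂ) ^ 2 := by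
      rw [mul_neg, h3, neg_neg]
    rw [e1, e2, h2, neg_smul, add_assoc, neg_add_cancel_left, ← add_smul]
    push_cast
    rw [sub_add_cancel, one_smul]
  · rw [add_mul, mul_add, mul_add, smul_mul_smul_comm, smul_mul_smul_comm, smul_mul_smul_comm,
      smul_mul_smul_comm, hs1, one_mul, one_mul, mul_one]
    have e1 : -(Complex.I * b) * κ = -(κ * (Complex.I * b)) := by ring
    have e2 : -(Complex.I * b) * (Complex.I * b) = (b : ℂ) ^ 2 := by
      rw [neg_mul, h3, neg_neg]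
    rw [e1, e2, h2, neg_smul, add_assoc, add_neg_cancel_left, ← add_smul]
    push_cast
    rw [sub_add_cancel, one_smul]

theorem ST2_w_norm {s : ℕ →ᵇ A} (hs : star s = s) (hs1 : s * s = 1) {b : ℝ} (hb0 : 0 ≤ b)
    (hb1 : b ≤ 1) (n : ℕ) : ‖ST2_w s b n - 1‖ ≤ 2 * b := by
  have h1 : ST2_w s b n - 1 = (((Real.sqrt (1 - b ^ 2) : ℝ) : ℂ) - 1) • (1 : A) +
      (Complex.I * b) • s n := by
    unfold ST2_w
    rw [BoundedContinuousFunction.add_apply, BoundedContinuousFunction.smul_apply,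
      BoundedContinuousFunction.smul_apply, sub_smul, one_smul]
    have : (1 : ℕ →ᵇ A) n = 1 := rfl
    rw [this]
    abel
  have h2 : ‖s n‖ ≤ 1 := by
    refine ST2_norm_sa ?_ ?_
    · have := congrArg (fun f : ℕ →ᵇ A => f n) hs
      simpa using this
    · have := congrArg (fun f : ℕ →ᵇ A => f n) hs1
      simpa using this
  have h3 : ‖((Real.sqrt (1 - b ^ 2) : ℝ) : ℂ) - 1‖ ≤ b := by
    have e1 : ((Real.sqrt (1 - b ^ 2) : ℝ) : ℂ) - 1 = ((Real.sqrt (1 - b ^ 2) - 1 : ℝ) : ℂ) := by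
      push_cast
      rfl
    rw [e1, Complex.norm_real, Real.norm_eq_abs, abs_le]
    constructor
    · have e2 : 1 - b ≤ Real.sqrt (1 - b ^ 2) := by
        apply Real.le_sqrt_of_sq_le
        nlinarith
      linarith
    · have e2 : Real.sqrt (1 - b ^ 2) ≤ 1 := by
        rw [Real.sqrt_le_iff]
        exact ⟨zero_le_one, by nlinarith⟩
      linarith
  have h4 : ‖Complex.I * (b : ℂ)‖ = b := by
    rw [norm_mul, Complex.norm_I, one_mul, Complex.norm_real, Real.norm_eq_abs, abs_of_nonneg hb0]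
  rw [h1]
  refine (norm_add_le _ _).trans ?_
  rw [norm_smul, norm_smul, h4]
  have h5 := ST2_norm_one (A := A)
  have h6 := norm_nonneg (((Real.sqrt (1 - b ^ 2) : ℝ) : ℂ) - 1)
  have h7 := norm_nonneg (1 : A)
  have h8 := norm_nonneg (s n)
  nlinarith

theorem ST2_exp_close (ε : ℝ) (hε : 0 < ε) : ∃ δ : ℝ, 0 < δ ∧ ∀ X : A, ‖X‖ ≤ δ →
    ‖NormedSpace.exp (Complex.I • X) - 1‖ ≤ ε := by
  let +nondep : NormedAlgebra ℚ A := .restrictScalars ℚ ℂ A
  have h1 : Continuous (fun X : A => NormedSpace.exp (Complex.I • X)) :=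
    NormedSpace.exp_continuous.comp (continuous_const_smul _)
  have h2 := Metric.continuousAt_iff.1 (h1.continuousAt (x := (0 : A))) ε hε
  obtain ⟨δ, hδ, h3⟩ := h2
  refine ⟨δ / 2, by positivity, fun X hX => ?_⟩
  have h4 : dist X 0 < δ := by
    rw [dist_zero_right]
    linarith
  have h5 := h3 h4
  rw [smul_zero, NormedSpace.exp_zero, dist_eq_norm] at h5
  exact h5.le

end pert

/-- STAGE2 -/
theorem stage2 {A : Type} [CStarAlgebra A] {τ : A →ₗ[ℂ] ℂ}
    (h : TW τ) (hS : FreeSym τ) (U : Ultrafilter ℕ) (hU : ∀ n, {n} ∉ U)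
    (φ : (ℕ →ᵇ A) →ₗ[ℂ] ℂ) (hφ : ULim τ U φ) {Λ : Type} [Fintype Λ] [DecidableEq Λ]
    (sd : Λ → Bool) (p : Λ → (ℕ →ᵇ A)) (hp : PV2 sd p) (hpos : ∀ l, φ (p l) ≠ 0)
    (l0 : Bool → Λ) (hl0 : ∀ b, sd (l0 b) = b) (N : ℕ) (hK : KIS φ (spn sd p) N)
    (ε : ℝ) (hε : 0 < ε) :
    ∀ᶠ n in (U : Filter ℕ), ∃ v : unitary A, ‖(v : A) - 1‖ ≤ ε ∧
      KIS τ (spn sd (zc sd (fun l => p l n) (v : A) (star (v : A)))) N := by
  obtain ⟨s, hs, hs1, hfree⟩ := freeSeq h hS U hU φ hφ p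
  set b : ℝ := min (ε / 4) (1 / 2) with hb
  have hb0 : 0 < b := by rw [hb]; positivity
  have hb1 : b ≤ 1 := (min_le_right _ _).trans (by norm_num)
  have hb2 : b ≤ ε / 4 := min_le_left _ _
  obtain ⟨hw1, hw2⟩ := ST2_w_mul hs hs1 hb0.le hb1
  have hwst := ST2_w_star hs b
  set w := ST2_w s b with hwdef
  have hwn1 : ∀ n, w n * star (w n) = 1 := by
    intro n
    have := congrArg (fun f : ℕ →ᵇ A => f n) hw1
    simpa using this
  have hwn2 : ∀ n, star (w n) * w n = 1 := by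
    intro n
    have := congrArg (fun f : ℕ →ᵇ A => f n) hw2
    simpa using this
  have hSC : ∀ b, spn sd p b ≤ Algebra.adjoin ℂ (Set.range p) := by
    intro b
    refine Algebra.adjoin_mono ?_
    rintro _ ⟨l, _, rfl⟩
    exact ⟨l, rfl⟩
  obtain ⟨hz, hzh, hd⟩ := dual φ hφ.one sd p hp hpos l0 hl0
  set sd1 := sd' sd l0 with hsd1
  set z := ctr φ sd l0 p with hzdef
  -- letters at level `n`
  set zn : ℕ → Lam sd l0 → A := fun n => ctr τ sd l0 (fun l => p l n) with hzn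
  set zzn : ℕ → Lam sd l0 → A := fun n => zc sd1 (zn n) (w n) (star (w n)) with hzzn
  set zz : Lam sd l0 → (ℕ →ᵇ A) := zc sd1 z w (star w) with hzz
  have hpn := fun n => ST2_PV2_apply hp n
  have hznst : ∀ n l, star (zn n l) = zn n l := fun n l =>
    ST2_star_ctr τ h.conj sd l0 _ (hpn n).star_eq l
  have hzznst : ∀ n l, star (zzn n l) = zzn n l := fun n l =>
    ST2_zc_star sd1 (zn n) (hznst n) (w n) l
  have hzst : ∀ l, star (z l) = z l := fun l => ST2_star_ctr φ hφ.cj sd l0 p hp.star_eq l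
  have hzzst : ∀ l, star (zz l) = zz l := fun l => ST2_zc_star sd1 z hzst w l
  have hzn1 : ∀ n l, ‖zn n l‖ ≤ 1 := fun n l =>
    ST2_norm_ctr h ((hpn n).star_eq l.1) ((hpn n).idem l.1)
  have hwn : ∀ n, ‖w n‖ ≤ 1 := fun n => ST2_norm_unitary (hwn2 n)
  have hzzn1 : ∀ n l, ‖zzn n l‖ ≤ 1 := by
    intro n l
    show ‖zc sd1 (zn n) (w n) (star (w n)) l‖ ≤ 1
    unfold zc
    split_ifs
    · exact hzn1 n l
    · refine (norm_mul_le _ _).trans ?_
      refine mul_le_one₀ ((norm_mul_le _ _).trans (mul_le_one₀ (hwn n) (norm_nonneg _)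
        (hzn1 n l))) (norm_nonneg _) ?_
      rw [norm_star]
      exact hwn n
  have hapx0 : ∀ l, ST2_Apx U (fun n => zn n l) (z l) := by
    intro l
    unfold ST2_Apx
    have h1 : Tendsto (fun n => (φ (p l.1) - τ (p l.1 n)) • (1 : A)) U (𝓝 0) := by
      have h2 := (tendsto_const_nhds (x := φ (p l.1))).sub (hφ.lim (p l.1))
      rw [sub_self] at h2
      have h3 := h2.smul_const (1 : A)
      rwa [zero_smul] at h3
    refine h1.congr fun n => ?_
    show (φ (p l.1) - τ (p l.1 n)) • (1 : A) = (p l.1 n - τ (p l.1 n) • (1 : A)) -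
      (p l.1 n - φ (p l.1) • (1 : A))
    rw [sub_smul]
    abel
  have hapx : ∀ l, ST2_Apx U (fun n => zzn n l) (zz l) := by
    intro l
    show ST2_Apx U (fun n => zc sd1 (zn n) (w n) (star (w n)) l) (zc sd1 z w (star w) l)
    unfold zc
    by_cases hl : sd1 l = true
    · simp only [if_pos hl]
      exact hapx0 l
    · simp only [if_neg hl]
      exact ST2_mul (ST2_mul (ST2_self w) (hapx0 l)) (ST2_self (star w))
  have hκ : (Complex.I * (b : ℂ)) ≠ 0 :=
    mul_ne_zero Complex.I_ne_zero (Complex.ofReal_ne_zero.2 hb0.ne')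
  have hzzeq : zz = zc sd1 z (((Real.sqrt (1 - b ^ 2) : ℝ) : ℂ) • (1 : ℕ →ᵇ A) +
      (Complex.I * b) • s) (((Real.sqrt (1 - b ^ 2) : ℝ) : ℂ) • (1 : ℕ →ᵇ A) +
      (-(Complex.I * b)) • s) := by
    rw [hzz, hwst]
    rfl
  have hPair : S_PAIR_nd := by
    intro B _ _ φ h1 s hs S C hSC hfree N hK Λ _ sd z zh hz hzh hd κ₀ κ₁ κ₀' κ₁' L M hL hM heL heM
      hL0 hM0 hLN hML hsg
    exact pairing φ h1 s hs S C hSC hfree N hK sd z zh hz hzh hd κ₀ κ₁ κ₀' κ₁' L M hL hM heL heM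
      hL0 hM0 hLN hML hsg
  have hnd : ∀ t : Wd sd1 N → ℂ, t ∈ EE sd1 N → (∀ y, φ (y * PP sd1 zz N t) = 0) → t = 0 := by
    intro t ht h0
    rw [hzzeq] at h0
    exact nondeg_of_pair hPair φ hφ.one s hs1 (spn sd p) _ hSC hfree N hK sd1 z (dul φ sd l0 p) hz hzh hd
      _ _ _ _ hκ (neg_ne_zero.2 hκ) t ht h0
  have h0 : ∀ L : Wd sd1 N, φ (zv zz L.1) = 0 := by
    intro L
    rw [hzzeq]
    exact word_zero φ s (spn sd p) _ hSC hfree N hK sd1 z hz _ _ _ _ L.1 L.2.1 L.2.2.2.1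
      L.2.2.2.2
  obtain ⟨δ, hδ, hexp⟩ := ST2_exp_close (A := A) (ε / 2) (by positivity)
  have hN := ST2_newton h hφ sd1 N zzn hzznst hzzn1 zz hapx hzzst hnd h0 δ hδ
  filter_upwards [hN] with n hn
  obtain ⟨X, hX, hXn, hXw⟩ := hn
  set e : A := NormedSpace.exp (Complex.I • X) with he
  have heu : e ∈ unitary A := ST2_exp_unitary hX
  have hest : star e = NormedSpace.exp (-(Complex.I • X)) := ST2_exp_star hX
  have hwu : w n ∈ unitary A := Unitary.mem_iff.2 ⟨hwn2 n, hwn1 n⟩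
  have hvu : e * w n ∈ unitary A := mul_mem heu hwu
  refine ⟨⟨e * w n, hvu⟩, ?_, ?_⟩
  · show ‖e * w n - 1‖ ≤ ε
    have h1 : e * w n - 1 = (e - 1) * w n + (w n - 1) := by noncomm_ring
    rw [h1]
    refine (norm_add_le _ _).trans ?_
    have h2 : ‖(e - 1) * w n‖ ≤ ε / 2 := by
      refine (norm_mul_le _ _).trans ?_
      have h3 := hexp X hXn
      calc ‖e - 1‖ * ‖w n‖ ≤ ‖e - 1‖ * 1 := mul_le_mul_of_nonneg_left (hwn n) (norm_nonneg _)
        _ ≤ ε / 2 := by rw [mul_one]; exact h3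
    have h3 := ST2_w_norm hs hs1 hb0.le hb1 n
    linarith
  · show KIS τ (spn sd (zc sd (fun l => p l n) (e * w n) (star (e * w n)))) N
    have hv1 : star (e * w n) * (e * w n) = 1 := (Unitary.mem_iff.1 hvu).1
    have hv2 : (e * w n) * star (e * w n) = 1 := (Unitary.mem_iff.1 hvu).2
    refine kis_of_words h sd _ (ST2_PV2_conj (hpn n) hv1 hv2) l0 hl0 N ?_
    intro L
    have h2 := ST2_ctr_conj τ h.comm sd l0 (fun l => p l n) hv1 hv2
    rw [h2, ST2_zc_comp, hest]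
    exact hXw L

end Pool.Agent.H30K
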