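import Mathlib
import Pool.Agent.H30R4.KI.Defs
import Pool.Agent.H30R4.KI.T_ST1M
import Pool.Agent.H30R4.KI.T_PHI
import Pool.Agent.H30R4.KI.T_KLIM
import Pool.Agent.H30R4.KI.T_KPOW
import Pool.Agent.H30R4.KI.T_KIND
import Pool.Agent.H30R4.KI.T_STAGE2

/-!
MP_64d6f1_an, task FSK: the finite form of the lifting property, by contradiction.
-/

set_option autoImplicit false

open scoped ComplexOrder Topology BoundedContinuousFunction ComplexConjugate
open Filter

noncomputable section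

namespace Pool.Agent.H30K

open Pool.Agent.H467F (TW)

variable {A : Type} [CStarAlgebra A] {τ : A →ₗ[ℂ] ℂ}

open Pool.Agent.H467F (n2)

/-- The statement of STAGE2. -/
def S_STAGE2_fsk : Prop := ∀ {A : Type} [CStarAlgebra A] {τ : A →ₗ[ℂ] ℂ} (_h : TW τ)
    (_hS : FreeSym τ) (U : Ultrafilter ℕ) (_hU : ∀ n, {n} ∉ U)
    (φ : (ℕ →ᵇ A) →ₗ[ℂ] ℂ) (_hφ : ULim τ U φ) {Λ : Type} [Fintype Λ] [DecidableEq Λ]
    (sd : Λ → Bool) (p : Λ → (ℕ →ᵇ A)) (_hp : PV2 sd p) (_hpos : ∀ l, φ (p l) ≠ 0)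
    (l0 : Bool → Λ) (_hl0 : ∀ b, sd (l0 b) = b) (N : ℕ) (_hK : KIS φ (spn sd p) N)
    (ε : ℝ) (_hε : 0 < ε),
    ∀ᶠ n in (U : Filter ℕ), ∃ v : unitary A, ‖(v : A) - 1‖ ≤ ε ∧
      KIS τ (spn sd (zc sd (fun l => p l n) (v : A) (star (v : A)))) N

namespace FSK

/-- Products of letters that are close in the limit. -/
theorem prod_close {U : Ultrafilter ℕ} {φ : (ℕ →ᵇ A) →ₗ[ℂ] ℂ} (hφ : ULim τ U φ) (l : List ℤ) :
    ∀ f g : ℕ → ℤ → (ℕ →ᵇ A), (∀ i x, n2 φ (f i x - g i x) = 0) →
      n2 φ ((l.mapIdx f).prod - (l.mapIdx g).prod) = 0 := by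
  induction l with
  | nil =>
    intro f g _
    rw [List.mapIdx_nil, List.mapIdx_nil, sub_self]
    show Real.sqrt (φ (star (0 : ℕ →ᵇ A) * 0)).re = 0
    rw [mul_zero, map_zero, Complex.zero_re, Real.sqrt_zero]
  | cons x l ih =>
    intro f g hfg
    rw [List.mapIdx_cons, List.mapIdx_cons, List.prod_cons, List.prod_cons]
    have h1 := ih (fun i => f (i + 1)) (fun i => g (i + 1)) fun i x => hfg (i + 1) x
    set F := (l.mapIdx fun i => f (i + 1)).prod
    set G := (l.mapIdx fun i => g (i + 1)).prod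
    have e : f 0 x * F - g 0 x * G = (f 0 x - g 0 x) * F + g 0 x * (F - G) := by noncomm_ring
    rw [e]
    refine le_antisymm ?_ (Real.sqrt_nonneg _)
    refine (hφ.n2_add _ _).trans ?_
    have h2 := hφ.n2_mul_right (f 0 x - g 0 x) F
    have h3 := hφ.n2_mul_left (g 0 x) (F - G)
    rw [hfg 0 x, zero_mul] at h2
    rw [h1, mul_zero] at h3
    linarith

/-- evaluation of products -/
theorem prod_eval (n : ℕ) (l : List ℤ) : ∀ f : ℕ → ℤ → (ℕ →ᵇ A),
    ((l.mapIdx f).prod : ℕ →ᵇ A) n = (l.mapIdx fun i x => f i x n).prod := by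
  induction l with
  | nil => intro f; rfl
  | cons x l ih =>
    intro f
    rw [List.mapIdx_cons, List.mapIdx_cons, List.prod_cons, List.prod_cons,
      BoundedContinuousFunction.coe_mul, Pi.mul_apply, ih fun i => f (i + 1)]

/-- evaluation of unitaries -/
def evU (n : ℕ) : unitary (ℕ →ᵇ A) →* unitary A where
  toFun a := ⟨(a : ℕ →ᵇ A) n, by
    rw [Unitary.mem_iff]
    have h1 := (Unitary.mem_iff.1 a.2).1
    have h2 := (Unitary.mem_iff.1 a.2).2
    exact ⟨congrArg (fun x : ℕ →ᵇ A => x n) h1, congrArg (fun x : ℕ →ᵇ A => x n) h2⟩⟩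
  map_one' := rfl
  map_mul' _ _ := rfl

theorem evU_coe (n : ℕ) (a : unitary (ℕ →ᵇ A)) : ((evU n a : unitary A) : A) = (a : ℕ →ᵇ A) n :=
  rfl

theorem zpow_eval (n : ℕ) (a : unitary (ℕ →ᵇ A)) (x : ℤ) :
    ((a ^ x : unitary (ℕ →ᵇ A)) : ℕ →ᵇ A) n = (((evU n a) ^ x : unitary A) : A) := by
  rw [← map_zpow, evU_coe]

theorem nontriv (h : TW τ) : Nontrivial A := by
  refine ⟨⟨1, 0, fun h0 => ?_⟩⟩
  have := h.one
  rw [h0, map_zero] at this
  exact zero_ne_one this

theorem unitary_le (h : TW τ) (u : unitary A) : ‖(u : A)‖ ≤ 1 := by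
  have := nontriv h
  exact (CStarRing.norm_coe_unitary u).le

/-- The sequence of unitaries. -/
def seqU (h : TW τ) (a : ℕ → unitary A) : unitary (ℕ →ᵇ A) :=
  ⟨BoundedContinuousFunction.ofNormedAddCommGroupDiscrete (fun n => (a n : A)) 1
      fun n => unitary_le h (a n), by
    rw [Unitary.mem_iff]
    constructor
    · ext n
      exact (Unitary.mem_iff.1 (a n).2).1
    · ext n
      exact (Unitary.mem_iff.1 (a n).2).2⟩

theorem evU_seqU (h : TW τ) (a : ℕ → unitary A) (n : ℕ) : evU n (seqU h a) = a n := rfl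

/-- The scalar sequences. -/
theorem exists_scal (h : TW τ) (y : ℕ →ᵇ A) : ∃ t : ℕ →ᵇ A, ∀ n, t n = τ (y n) • (1 : A) := by
  have := nontriv h
  refine ⟨BoundedContinuousFunction.ofNormedAddCommGroupDiscrete (fun n => τ (y n) • (1 : A)) ‖y‖
    fun n => ?_, fun n => rfl⟩
  rw [norm_smul, CStarRing.norm_one, mul_one]
  exact (((Pool.Agent.H467F.tau_bounds h).1 (y n)).trans
    ((Pool.Agent.H467F.tau_bounds h).2 (y n))).trans (y.norm_coe_le_norm n)

/-- Unitaries with finite spectrum. -/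
theorem unitary_of_pvm {B : Type} [Ring B] [StarRing B] [Algebra ℂ B] [StarModule ℂ B]
    {ι : Type} [Fintype ι] (p : ι → B) (hp : Pool.Agent.Helper278.PVM p) (c : ι → ℂ)
    (hc : ∀ i, star (c i) * c i = 1) : ∑ i, c i • p i ∈ unitary B := by
  classical
  have hc' : ∀ i, c i * star (c i) = 1 := fun i => by rw [mul_comm]; exact hc i
  have key : ∀ d e : ι → ℂ, (∀ i, d i * e i = 1) →
      (∑ i, d i • p i) * (∑ i, e i • p i) = 1 := by
    intro d e hde
    rw [Finset.sum_mul_sum, ← hp.sum]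
    refine Finset.sum_congr rfl fun i _ => ?_
    rw [Finset.sum_eq_single i]
    · rw [smul_mul_smul_comm, hp.idem, hde, one_smul]
    · intro j _ hj
      rw [smul_mul_smul_comm, hp.orth i j (Ne.symm hj), smul_zero]
    · intro hi
      exact absurd (Finset.mem_univ i) hi
  have hs : star (∑ i, c i • p i) = ∑ i, star (c i) • p i := by
    rw [star_sum]
    refine Finset.sum_congr rfl fun i _ => ?_
    rw [star_smul, hp.star_eq]
  rw [Unitary.mem_iff, hs]
  exact ⟨key _ _ hc, key _ _ hc'⟩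

/-- The two sides of a sum over a disjoint union. -/
theorem sum_side {M : Type} [AddCommMonoid M] {ι κ : Type} [Fintype ι] [Fintype κ]
    (f : ι ⊕ κ → M) (b : Bool) : ∑ l : {l : ι ⊕ κ // l.isLeft = b}, f l.1 =
      if b = true then ∑ i, f (Sum.inl i) else ∑ j, f (Sum.inr j) := by
  classical
  have h1 : ∑ l : {l : ι ⊕ κ // l.isLeft = b}, f l.1 = ∑ l with l.isLeft = b, f l :=
    (Finset.sum_subtype _ (by simp) f).symm
  rw [h1, Finset.sum_filter, Fintype.sum_sum_type]
  cases b <;> simp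

theorem pv2_sum {B : Type} [Ring B] [StarRing B] {ι κ : Type} [Fintype ι] [Fintype κ]
    (p : ι → B) (q : κ → B) (hp : Pool.Agent.Helper278.PVM p)
    (hq : Pool.Agent.Helper278.PVM q) : PV2 (Sum.isLeft : ι ⊕ κ → Bool) (Sum.elim p q) := by
  refine ⟨?_, ?_, ?_, ?_⟩
  · rintro (i | j)
    · exact hp.star_eq i
    · exact hq.star_eq j
  · rintro (i | j)
    · exact hp.idem i
    · exact hq.idem j
  · rintro (i | j) (i' | j') hne hsd
    · exact hp.orth i i' fun h => hne (by rw [h])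
    · simp at hsd
    · simp at hsd
    · exact hq.orth j j' fun h => hne (by rw [h])
  · intro b
    rw [sum_side]
    split_ifs
    · exact hp.sum
    · exact hq.sum

theorem pv2_conj {B : Type} [Ring B] [StarRing B] [Algebra ℂ B] {Λ : Type} [Fintype Λ]
    (sd : Λ → Bool) (p : Λ → B) (hp : PV2 sd p) (v : unitary B) :
    PV2 sd (zc sd p (v : B) (star (v : B))) := by
  have hv1 : star (v : B) * (v : B) = 1 := (Unitary.mem_iff.1 v.2).1
  have hv2 : (v : B) * star (v : B) = 1 := (Unitary.mem_iff.1 v.2).2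
  have key : ∀ x y : B, (v : B) * x * star (v : B) * ((v : B) * y * star (v : B)) =
      (v : B) * (x * y) * star (v : B) := by
    intro x y
    calc (v : B) * x * star (v : B) * ((v : B) * y * star (v : B))
        = (v : B) * x * (star (v : B) * (v : B)) * y * star (v : B) := by noncomm_ring
      _ = (v : B) * (x * y) * star (v : B) := by rw [hv1]; noncomm_ring
  refine ⟨?_, ?_, ?_, ?_⟩
  · intro l
    unfold zc
    split_ifs
    · exact hp.star_eq l
    · rw [star_mul, star_mul, star_star, hp.star_eq, mul_assoc]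
  · intro l
    unfold zc
    split_ifs
    · exact hp.idem l
    · rw [key, hp.idem]
  · intro l m hlm hsd
    unfold zc
    rw [← hsd]
    split_ifs
    · exact hp.orth l m hlm hsd
    · rw [key, hp.orth l m hlm hsd, mul_zero, zero_mul]
  · intro b
    have h1 : ∀ l : {l : Λ // sd l = b}, zc sd p (v : B) (star (v : B)) l.1 =
        if b = true then p l.1 else (v : B) * p l.1 * star (v : B) := by
      intro l
      unfold zc
      rw [l.2]
    rw [Finset.sum_congr rfl fun l _ => h1 l]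
    split_ifs
    · exact hp.sum b
    · rw [← Finset.sum_mul, ← Finset.mul_sum, hp.sum b, mul_one, hv2]

theorem pv2_eval {Λ : Type} [Fintype Λ] (sd : Λ → Bool) (p : Λ → (ℕ →ᵇ A)) (hp : PV2 sd p)
    (n : ℕ) : PV2 sd fun l => p l n := by
  refine ⟨fun l => congrArg (fun x : ℕ →ᵇ A => x n) (hp.star_eq l),
    fun l => congrArg (fun x : ℕ →ᵇ A => x n) (hp.idem l),
    fun l m h1 h2 => congrArg (fun x : ℕ →ᵇ A => x n) (hp.orth l m h1 h2), fun b => ?_⟩
  have h1 := congrArg (fun x : ℕ →ᵇ A => x n) (hp.sum b)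
  simp only [BoundedContinuousFunction.coe_sum, Finset.sum_apply] at h1
  exact h1

theorem pvm_side {B : Type} [Ring B] [StarRing B] {Λ : Type} [Fintype Λ] (sd : Λ → Bool)
    (p : Λ → B) (hp : PV2 sd p) (b : Bool) :
    Pool.Agent.Helper278.PVM fun l : {l : Λ // sd l = b} => p l.1 :=
  ⟨fun l => hp.star_eq l.1, fun l => hp.idem l.1,
    fun l m h => hp.orth l.1 m.1 (fun h' => h (Subtype.ext h')) (l.2.trans m.2.symm), hp.sum b⟩

end FSK

open FSK in
/-- FSK from STAGE2. -/
theorem fsk_of_stage2 (hST2 : S_STAGE2_fsk) (h : TW τ) (hS : FreeSym τ)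
    (hL : Pool.Agent.Helper278.LyapProp τ) (k : ℕ) : FSk τ k := by
  classical
  have := nontriv h
  by_contra hcon
  simp only [FSk, not_forall] at hcon
  obtain ⟨ε, hε, hcon⟩ := hcon
  have H : ∀ n : ℕ, ∃ a : Bool → unitary A,
      (∀ (b : Bool) (l : List ℤ), l ≠ [] → l.length ≤ k → (∀ x ∈ l, |x| ≤ (n : ℤ)) →
      ‖τ ((l.mapIdx fun i x => (((a (if Even i then b else !b)) ^ x : unitary A) : A) -
        τ (((a (if Even i then b else !b)) ^ x : unitary A) : A) • (1 : A)).prod)‖ ≤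
          1 / ((n : ℝ) + 1)) ∧
      ¬ ∃ a' : Bool → unitary A,
        (∀ j, 1 ≤ j → j ≤ k → Pool.Agent.Helper278.KIndep τ j (a' true : A) (a' false : A)) ∧
        ∀ b, Pool.Agent.Helper278.n2 τ ((a b : A) - (a' b : A)) ≤ ε := by
    intro n
    by_contra hn
    apply hcon
    refine ⟨n, 1 / ((n : ℝ) + 1), by positivity, fun a ha => ?_⟩
    by_contra h2
    exact hn ⟨a, ha, h2⟩
  choose a ha hno using H
  let U : Ultrafilter ℕ := Filter.hyperfilter ℕ
  have hU : ∀ n, {n} ∉ U := fun n => Filter.notMem_hyperfilter_of_finite (Set.finite_singleton n)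
  obtain ⟨φ, hφ⟩ := exists_phi h U
  let α : Bool → unitary (ℕ →ᵇ A) := fun b => seqU h fun n => a n b
  have hα : ∀ b n, evU n (α b) = a n b := fun b n => rfl
  -- the words in centered powers
  have hwords : ∀ (b : Bool) (l : List ℤ), l ≠ [] → l.length ≤ k →
      φ ((l.mapIdx fun i x => (((α (if Even i then b else !b)) ^ x : unitary (ℕ →ᵇ A)) :
        (ℕ →ᵇ A)) - φ (((α (if Even i then b else !b)) ^ x : unitary (ℕ →ᵇ A)) : (ℕ →ᵇ A)) •
        (1 : (ℕ →ᵇ A))).prod) = 0 := by
    intro b l hl0 hlk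
    have hex : ∀ (i : ℕ) (x : ℤ), ∃ t : ℕ →ᵇ A, ∀ n, t n =
        τ ((((α (if Even i then b else !b)) ^ x : unitary (ℕ →ᵇ A)) : ℕ →ᵇ A) n) • (1 : A) :=
      fun i x => exists_scal h _
    choose t ht using hex
    let f : ℕ → ℤ → (ℕ →ᵇ A) := fun i x =>
      (((α (if Even i then b else !b)) ^ x : unitary (ℕ →ᵇ A)) : (ℕ →ᵇ A)) - t i x
    let g : ℕ → ℤ → (ℕ →ᵇ A) := fun i x =>
      (((α (if Even i then b else !b)) ^ x : unitary (ℕ →ᵇ A)) : (ℕ →ᵇ A)) -
        φ (((α (if Even i then b else !b)) ^ x : unitary (ℕ →ᵇ A)) : (ℕ →ᵇ A)) • (1 : (ℕ →ᵇ A))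
    have hfg : ∀ i x, n2 φ (g i x - f i x) = 0 := by
      intro i x
      have e1 : g i x - f i x =
          t i x - φ (((α (if Even i then b else !b)) ^ x : unitary (ℕ →ᵇ A)) : (ℕ →ᵇ A)) •
            (1 : (ℕ →ᵇ A)) := by
        simp only [f, g]
        abel
      rw [e1]
      set y : ℕ →ᵇ A := (((α (if Even i then b else !b)) ^ x : unitary (ℕ →ᵇ A)) : (ℕ →ᵇ A))
      refine tendsto_nhds_unique (hφ.lim2 _) ?_
      have h1 := hφ.lim y
      have h2 : Tendsto (fun n => ‖τ (y n) - φ y‖) U (𝓝 0) := by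
        have := (h1.sub_const (φ y)).norm
        rwa [sub_self, norm_zero] at this
      refine h2.congr fun n => ?_
      have h3 : (t i x - φ y • (1 : (ℕ →ᵇ A)) : ℕ →ᵇ A) n = (τ (y n) - φ y) • (1 : A) := by
        show t i x n - φ y • (1 : A) = _
        rw [ht i x n, sub_smul]
      rw [h3, Pool.Agent.H467F.n2_smul]
      have h4 : n2 τ (1 : A) = 1 := by
        show Real.sqrt (τ (star (1 : A) * 1)).re = 1
        rw [star_one, one_mul, h.one, Complex.one_re, Real.sqrt_one]
      rw [h4, mul_one]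
    have h1 := prod_close hφ l g f hfg
    have h2 : φ ((l.mapIdx g).prod) = φ ((l.mapIdx f).prod) := by
      have h3 := hφ.norm_le ((l.mapIdx g).prod - (l.mapIdx f).prod)
      rw [h1] at h3
      have h4 := norm_le_zero_iff.1 h3
      rwa [map_sub, sub_eq_zero] at h4
    show φ ((l.mapIdx g).prod) = 0
    rw [h2]
    refine tendsto_nhds_unique (hφ.lim _) ?_
    -- a bound of the powers
    obtain ⟨K, hK⟩ : ∃ K : ℕ, ∀ x ∈ l, |x| ≤ (K : ℤ) := by
      clear hl0 hlk h1 h2
      induction l with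
      | nil => exact ⟨0, by simp⟩
      | cons y l ih =>
        obtain ⟨K, hK⟩ := ih
        refine ⟨max K y.natAbs, fun x hx => ?_⟩
        rcases List.mem_cons.1 hx with rfl | hx
        · rw [Int.abs_eq_natAbs]
          exact_mod_cast le_max_right _ _
        · refine (hK x hx).trans ?_
          exact_mod_cast le_max_left _ _
    have h5 : Tendsto (fun n : ℕ => 1 / ((n : ℝ) + 1)) U (𝓝 0) :=
      (tendsto_one_div_add_atTop_nhds_zero_nat (𝕜 := ℝ)).mono_left
        (by rw [← Nat.cofinite_eq_atTop]; exact Filter.hyperfilter_le_cofinite)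
    have h6 : ∀ᶠ n in (U : Filter ℕ), K ≤ n := by
      have : ∀ᶠ n : ℕ in (atTop : Filter ℕ), K ≤ n := eventually_ge_atTop K
      exact Filter.Eventually.filter_mono
        (by rw [← Nat.cofinite_eq_atTop]; exact Filter.hyperfilter_le_cofinite) this
    refine squeeze_zero_norm' ?_ h5
    filter_upwards [h6] with n hn
    rw [prod_eval]
    have h7 := ha n b l hl0 hlk fun x hx => (hK x hx).trans (by exact_mod_cast hn)
    have h8 : (fun (i : ℕ) (x : ℤ) => (f i x) n) = fun (i : ℕ) (x : ℤ) =>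
        (((a n (if Even i then b else !b)) ^ x : unitary A) : A) -
        τ (((a n (if Even i then b else !b)) ^ x : unitary A) : A) • (1 : A) := by
      funext i x
      show ((((α (if Even i then b else !b)) ^ x : unitary (ℕ →ᵇ A)) : (ℕ →ᵇ A)) n) - t i x n = _
      rw [ht i x n, zpow_eval, hα]
    rw [h8]
    exact h7
  have hK1 := kis_powers φ hφ.one k α hwords
  obtain ⟨m1, p1, c1, hp1, hc1, hpos1, hn1, happ1⟩ :=
    stage1 h hL U hU φ hφ (α true) (ε / 4) (by positivity)
  obtain ⟨m2, p2, c2, hp2, hc2, hpos2, hn2, happ2⟩ :=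
    stage1 h hL U hU φ hφ (α false) (ε / 4) (by positivity)
  let Λ : Type := Fin (m1 + 1) ⊕ Fin (m2 + 1)
  let sd : Λ → Bool := Sum.isLeft
  let p : Λ → (ℕ →ᵇ A) := Sum.elim p1 p2
  let c : Λ → ℂ := Sum.elim c1 c2
  have hp : PV2 sd p := pv2_sum p1 p2 hp1 hp2
  have hc : ∀ l, star (c l) * c l = 1 := by
    have h1 : ∀ z : ℂ, ‖z‖ = 1 → star z * z = 1 := by
      intro z hz
      rw [Complex.star_def, ← Complex.normSq_eq_conj_mul_self, Complex.normSq_eq_norm_sq, hz]
      simp
    rintro (i | j)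
    · exact h1 _ (hc1 i)
    · exact h1 _ (hc2 j)
  have hK2 : KIS φ (spn sd p) k := by
    refine kis_lim U φ hφ sd p hp (gen2 fun b => (α b : ℕ →ᵇ A)) k ?_ hK1
    rintro (i | j) θ hθ
    · exact happ1 i θ hθ
    · exact happ2 j θ hθ
  have hst := hST2 h hS U hU φ hφ sd p hp
    (by
      rintro (i | j)
      · exact hpos1 i
      · exact hpos2 j)
    (fun b => if b = true then Sum.inl 0 else Sum.inr 0)
    (by intro b; cases b <;> rfl) k hK2 (ε / 4) (by positivity)
  obtain ⟨n, ⟨hn1, hn2⟩, v, hv, hvK⟩ := ((hn1.and hn2).and hst).exists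
  have hv1 : star (v : A) * (v : A) = 1 := (Unitary.mem_iff.1 v.2).1
  have hpn := pv2_conj sd (fun l => p l n) (pv2_eval sd p hp n) v
  set q : Λ → A := zc sd (fun l => p l n) (v : A) (star (v : A)) with hq
  apply hno n
  let a' : Bool → unitary A := fun b =>
    ⟨∑ l : {l : Λ // sd l = b}, c l.1 • q l.1,
      unitary_of_pvm (fun l : {l : Λ // sd l = b} => q l.1) (pvm_side sd q hpn b)
        (fun l => c l.1) fun l => hc l.1⟩
  refine ⟨a', kindep_of_kis h sd q hpn k hvK c (fun b => (a' b : A)) fun b => rfl, fun b => ?_⟩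
  cases b with
  | true =>
    have h1 : (a' true : A) = ∑ i, c1 i • p1 i n := by
      show ∑ l : {l : Λ // sd l = true}, c l.1 • q l.1 = _
      rw [sum_side (fun l : Λ => c l • q l) true, if_pos rfl]
      refine Finset.sum_congr rfl fun i _ => ?_
      rfl
    rw [h1]
    refine (show n2 τ ((a n true : A) - ∑ i, c1 i • p1 i n) ≤ ε / 4 from hn1).trans ?_
    linarith
  | false =>
    have h1 : (a' false : A) = (v : A) * (∑ i, c2 i • p2 i n) * star (v : A) := by
      show ∑ l : {l : Λ // sd l = false}, c l.1 • q l.1 = _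
      rw [sum_side (fun l : Λ => c l • q l) false, if_neg (by simp), Finset.mul_sum,
        Finset.sum_mul]
      refine Finset.sum_congr rfl fun i _ => ?_
      show c2 i • ((v : A) * p2 i n * star (v : A)) = _
      rw [mul_smul_comm, smul_mul_assoc]
    have hw : ‖∑ i, c2 i • p2 i n‖ ≤ 1 := by
      have hm : ∑ i, c2 i • p2 i n ∈ unitary A := by
        refine unitary_of_pvm (fun i => p2 i n) ⟨fun l => congrArg (fun x : ℕ →ᵇ A => x n)
          (hp2.star_eq l), fun l => congrArg (fun x : ℕ →ᵇ A => x n) (hp2.idem l),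
          fun l m h1 => congrArg (fun x : ℕ →ᵇ A => x n) (hp2.orth l m h1), ?_⟩ c2
          fun i => hc (Sum.inr i)
        have h1 := congrArg (fun x : ℕ →ᵇ A => x n) hp2.sum
        simp only [BoundedContinuousFunction.coe_sum, Finset.sum_apply] at h1
        exact h1
      exact unitary_le h ⟨_, hm⟩
    have hvn : ‖(v : A)‖ ≤ 1 := unitary_le h v
    set w := ∑ i, c2 i • p2 i n with hwdef
    have hvs : ‖(1 : A) - star (v : A)‖ ≤ ε / 4 := by
      have : (1 : A) - star (v : A) = star (1 - (v : A)) := by rw [star_sub, star_one]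
      rw [this, norm_star, norm_sub_rev]
      exact hv
    rw [h1]
    have e : (a n false : A) - (v : A) * w * star (v : A) =
        ((a n false : A) - w) + ((1 - (v : A)) * w + (v : A) * w * (1 - star (v : A))) := by
      noncomm_ring
    rw [e]
    have hb := (Pool.Agent.H467F.tau_bounds h).2
    have h2 : n2 τ ((1 - (v : A)) * w + (v : A) * w * (1 - star (v : A))) ≤ ε / 4 + ε / 4 := by
      refine (hb _).trans ((norm_add_le _ _).trans (add_le_add ?_ ?_))
      · refine (norm_mul_le _ _).trans ?_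
        calc ‖1 - (v : A)‖ * ‖w‖ ≤ ‖1 - (v : A)‖ * 1 :=
              mul_le_mul_of_nonneg_left hw (norm_nonneg _)
          _ ≤ ε / 4 := by rw [mul_one, norm_sub_rev]; exact hv
      · refine (norm_mul_le _ _).trans ?_
        have h3 : ‖(v : A) * w‖ ≤ 1 := by
          refine (norm_mul_le _ _).trans ?_
          calc ‖(v : A)‖ * ‖w‖ ≤ 1 * 1 := mul_le_mul hvn hw (norm_nonneg _) zero_le_one
            _ = 1 := one_mul 1
        calc ‖(v : A) * w‖ * ‖1 - star (v : A)‖ ≤ 1 * (ε / 4) :=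
              mul_le_mul h3 hvs (norm_nonneg _) zero_le_one
          _ = ε / 4 := one_mul _
    have h4 : n2 τ ((a n false : A) - w) ≤ ε / 4 := hn2
    have h5 := h.n2_add_le ((a n false : A) - w)
      ((1 - (v : A)) * w + (v : A) * w * (1 - star (v : A)))
    have h6 : n2 τ (((a n false : A) - w) + ((1 - (v : A)) * w +
      (v : A) * w * (1 - star (v : A)))) ≤ ε := by linarith
    exact h6

/-- FSK -/
theorem fsk (h : TW τ) (hS : FreeSym τ) (hL : Pool.Agent.Helper278.LyapProp τ) (k : ℕ) :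
    FSk τ k :=
  fsk_of_stage2 @stage2 h hS hL k

end Pool.Agent.H30K
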